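import Pool.Agent.Work.MP_2d9442_nt.AS.Top

/-!
MP_2d9442_nt: the corollary for EVERY `N`: some scale within a bounded factor below `N` is good.
-/

set_option autoImplicit false

namespace Pool.Agent.Work.MP_2d9442_nt.AS

theorem sum_inv_window (W Y : ℕ) (hY : 1 ≤ Y) (hW : 5 ≤ W) :
    (1 / 2 : ℝ) * Real.log W < ∑ N ∈ Finset.Ioc Y (W * Y), 1 / (N : ℝ) := by
  have hWr : (5 : ℝ) ≤ W := by exact_mod_cast hW
  have hYr : (1 : ℝ) ≤ Y := by exact_mod_cast hY
  -- log((M+1)/(Y+1)) ≤ sum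
  have key : ∀ M : ℕ, Y ≤ M →
      Real.log ((M : ℝ) + 1) - Real.log ((Y : ℝ) + 1) ≤
        ∑ N ∈ Finset.Ioc Y M, 1 / (N : ℝ) := by
    intro M hM
    induction M, hM using Nat.le_induction with
    | base => simp
    | succ M hM ih =>
      have hMr : (1 : ℝ) ≤ M := by exact_mod_cast hY.trans hM
      rw [← Finset.insert_Ioc_right_eq_Ioc_add_one hM, Finset.sum_insert (by simp)]
      have h1 : Real.log ((M : ℝ) + 1 + 1) - Real.log ((M : ℝ) + 1) ≤ 1 / ((M : ℝ) + 1) := by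
        rw [← Real.log_div (by positivity) (by positivity)]
        have h2 := Real.log_le_sub_one_of_pos
          (show (0 : ℝ) < ((M : ℝ) + 1 + 1) / ((M : ℝ) + 1) by positivity)
        have h3 : ((M : ℝ) + 1 + 1) / ((M : ℝ) + 1) - 1 = 1 / ((M : ℝ) + 1) := by
          field_simp
          ring
        rw [h3] at h2
        exact h2
      push_cast
      linarith
  have h1 := key (W * Y) (Nat.le_mul_of_pos_left _ (by omega))
  refine lt_of_lt_of_le ?_ h1
  rw [← Real.log_div (by positivity) (by positivity)]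
  have h2 : (1 / 2 : ℝ) * Real.log W = Real.log (Real.sqrt W) := by
    rw [Real.log_sqrt (by positivity)]
    ring
  rw [h2]
  apply Real.log_lt_log (Real.sqrt_pos.2 (by positivity))
  rw [lt_div_iff₀ (by positivity)]
  push_cast
  have h3 : Real.sqrt W < W / 2 := by
    rw [Real.sqrt_lt' (by positivity)]
    nlinarith
  have h4 : Real.sqrt W * ((Y : ℝ) + 1) ≤ Real.sqrt W * (2 * Y) :=
    mul_le_mul_of_nonneg_left (by linarith) (Real.sqrt_nonneg _)
  nlinarith

open Classical in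
/-- For every `K` there is `W` such that for every large `N` and every completely
multiplicative unimodular `z` some `M` with `N / W ≤ M ≤ N` has `A_M(z) > K`. -/
theorem every_N :
    ∀ K : ℝ, ∃ W N₀ : ℕ, ∀ N : ℕ, N₀ ≤ N → ∀ z : ℕ → ℂ,
      (∀ n : ℕ, 1 ≤ n → ‖z n‖ = 1) →
      (∀ m n : ℕ, 1 ≤ m → 1 ≤ n → z (m * n) = z m * z n) →
        ∃ M : ℕ, N ≤ W * M ∧ M ≤ N ∧
          K < (∑ n ∈ Finset.Icc 1 M, ‖∑ i ∈ Finset.Icc 1 n, z i‖ ^ 2) / (M : ℝ) := by
  intro K
  obtain ⟨W₀, Y₀, h⟩ := top.1 K (1 / 2) (by norm_num)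
  set W := max W₀ 5 with hWdef
  refine ⟨W, W * (Y₀ + 1), fun N hN z hz1 hz2 => ?_⟩
  have hW5 : 5 ≤ W := le_max_right _ _
  set Y := N / W with hYdef
  have hWpos : 0 < W := by omega
  have hY : Y₀ + 1 ≤ Y := by
    rw [hYdef, Nat.le_div_iff_mul_le hWpos, mul_comm]
    exact hN
  have h1 := h W Y (le_max_left _ _) (by omega) z hz1 hz2
  have h2 := sum_inv_window W Y (by omega) hW5
  by_contra hcon
  push Not at hcon
  have h3 : (Finset.Ioc Y (W * Y)).filter (fun N : ℕ =>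
      (∑ n ∈ Finset.Icc 1 N, ‖∑ i ∈ Finset.Icc 1 n, z i‖ ^ 2) / (N : ℝ) ≤ K) =
      Finset.Ioc Y (W * Y) := by
    rw [Finset.filter_eq_self]
    intro M hM
    rw [Finset.mem_Ioc] at hM
    refine hcon M ?_ ?_
    · have := Nat.lt_mul_div_succ N hWpos
      calc N ≤ W * (N / W + 1) := this.le
        _ ≤ W * M := Nat.mul_le_mul_left _ (by omega)
    · exact hM.2.trans (Nat.mul_div_le N W)
  rw [h3] at h1
  linarith

end Pool.Agent.Work.MP_2d9442_nt.AS
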