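import Pool.Agent.Work.MP_2d9442_nt.AS.Base

/-!
# Module BadC: small mean square partial sums force a correlation (M, Mathlib only)

`s_n = ps z n`, `ps z 0 = 0`.

`bad_cor`: we may assume `K ≥ 0` (otherwise `AN z N ≤ K` is impossible since `AN ≥ 0`).  `H = ⌈10K⌉₊ + 2`,
`H₀ = H`, `c₀ = 1/(2H)`, `N₀` large.  For `0 ≤ n ≤ N - H`: `s_{n+H} - s_n = ∑_{j=1}^H z(n+j)`.
`∑_{n=0}^{N-H} |s_{n+H} - s_n|² ≤ 2∑ |s_{n+H}|² + 2∑|s_n|² ≤ 4 N AN ≤ 4NK`.
Expand `|∑_{j≤H} z(n+j)|² = H + 2 Re ∑_{1≤i<j≤H} z(n+i) conj z(n+j)`; with `h = j - i`,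
`∑_{n=0}^{N-H} z(n+i) conj z(n+j) = N cor z h N + O(H)` (terms `m = n+i` missing: `m < i` or
`m > N-H+i`, fewer than `H`).  The number of pairs with difference `h` is `H - h`.  So
`H(N-H+1) - 2∑_{h=1}^{H-1}(H-h)(N ‖cor_h‖ + H) ≤ 4NK`, i.e.
`2∑_{h=1}^{H-1} (H-h)‖cor_h‖ ≥ H - 4K - (H² + H³)/N ≥ H/2` (`4K ≤ 0.4H`, `N ≥ N₀`).
If all `‖cor_h‖ < 1/(2H)`, `1 ≤ h < H`, the left side is `< H(H-1)/(2H) < H/2`.

`bad_zero`: `loc z 0 J n = (s_{n+J-1} - s_{n-1})/J` for `n ≥ 1`.  For `n ≤ N-J`: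
`‖·‖² ≤ (2/J²)(|s_{n+J-1}|² + |s_{n-1}|²)`; sum `≤ (4/J²) N AN`.  The last `J` terms are `≤ 1`.
-/

set_option autoImplicit false

open Finset

namespace Pool.Agent.Work.MP_2d9442_nt.AS

private theorem badc_shift {g : ℕ → ℂ} (hg : ∀ n, ‖g n‖ ≤ 1) (N i : ℕ) :
    ‖∑ n ∈ Icc 1 N, g (n + i) - ∑ n ∈ Icc 1 N, g n‖ ≤ 2 * i := by
  induction i with
  | zero => simp
  | succ i ih =>
    have h1 : ∑ n ∈ Icc 1 N, g (n + (i + 1)) - ∑ n ∈ Icc 1 N, g (n + i)
        = g (N + 1 + i) - g (1 + i) := by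
      clear ih
      induction N with
      | zero => simp
      | succ N ih =>
        rw [Finset.sum_Icc_succ_top (by omega), Finset.sum_Icc_succ_top (by omega)]
        have : ∑ n ∈ Icc 1 N, g (n + (i + 1)) + g (N + 1 + (i + 1))
            - (∑ n ∈ Icc 1 N, g (n + i) + g (N + 1 + i))
            = (∑ n ∈ Icc 1 N, g (n + (i + 1)) - ∑ n ∈ Icc 1 N, g (n + i))
              + (g (N + 1 + (i + 1)) - g (N + 1 + i)) := by ring
        rw [this, ih]
        have e : N + 1 + 1 + i = N + 1 + (i + 1) := by ring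
        rw [e]
        ring
    have h2 : ∑ n ∈ Icc 1 N, g (n + (i + 1)) - ∑ n ∈ Icc 1 N, g n
        = (∑ n ∈ Icc 1 N, g (n + (i + 1)) - ∑ n ∈ Icc 1 N, g (n + i))
          + (∑ n ∈ Icc 1 N, g (n + i) - ∑ n ∈ Icc 1 N, g n) := by ring
    rw [h2, h1]
    refine (norm_add_le _ _).trans ?_
    have h3 : ‖g (N + 1 + i) - g (1 + i)‖ ≤ 2 := by
      refine (norm_sub_le _ _).trans ?_
      linarith [hg (N + 1 + i), hg (1 + i)]
    push_cast
    linarith

private theorem badc_window (z : ℕ → ℂ) (n L : ℕ) (hn : 1 ≤ n) :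
    ∑ j ∈ range L, z (n + j) = ps z (n + L - 1) - ps z (n - 1) := by
  induction L with
  | zero => simp
  | succ L ih =>
    rw [Finset.sum_range_succ, ih]
    unfold ps
    have e : n + (L + 1) - 1 = (n + L - 1) + 1 := by omega
    rw [e, Finset.sum_Icc_succ_top (by omega)]
    have e2 : n + L - 1 + 1 = n + L := by omega
    rw [e2]
    ring

private theorem badc_sq (a b : ℂ) : ‖a - b‖ ^ 2 ≤ 2 * ‖a‖ ^ 2 + 2 * ‖b‖ ^ 2 := by
  have h1 := norm_sub_le a b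
  have h2 := norm_nonneg (a - b)
  nlinarith [sq_nonneg (‖a‖ - ‖b‖), norm_nonneg a, norm_nonneg b]

/-- the sum of the squares of the windows of length `L` -/
private theorem badc_upper {z : ℕ → ℂ} (hz : ∀ n, ‖z n‖ ≤ 1) {L N : ℕ} (hL : 1 ≤ L)
    (hN : L ≤ N) :
    ∑ n ∈ Icc 1 N, ‖∑ j ∈ range L, z (n + j)‖ ^ 2
      ≤ 4 * ∑ n ∈ Icc 1 N, ‖ps z n‖ ^ 2 + (L : ℝ) ^ 3 := by
  have hsplit : ∑ n ∈ Icc 1 N, ‖∑ j ∈ range L, z (n + j)‖ ^ 2
      = ∑ n ∈ Icc 1 (N - L), ‖∑ j ∈ range L, z (n + j)‖ ^ 2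
        + ∑ n ∈ Ioc (N - L) N, ‖∑ j ∈ range L, z (n + j)‖ ^ 2 := by
    have e1 : Icc 1 N = Ioc 0 N := by
      ext n; rw [mem_Icc, mem_Ioc]; omega
    have e2 : Icc 1 (N - L) = Ioc 0 (N - L) := by
      ext n; rw [mem_Icc, mem_Ioc]; omega
    rw [e1, e2, Finset.sum_Ioc_consecutive _ (Nat.zero_le _) (Nat.sub_le _ _)]
  rw [hsplit]
  have h1 : ∑ n ∈ Ioc (N - L) N, ‖∑ j ∈ range L, z (n + j)‖ ^ 2 ≤ (L : ℝ) ^ 3 := by
    have h2 : ∀ n ∈ Ioc (N - L) N, ‖∑ j ∈ range L, z (n + j)‖ ^ 2 ≤ (L : ℝ) ^ 2 := by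
      intro n _
      refine pow_le_pow_left₀ (norm_nonneg _) ?_ 2
      refine (norm_sum_le _ _).trans ?_
      calc ∑ j ∈ range L, ‖z (n + j)‖ ≤ ∑ _j ∈ range L, (1 : ℝ) :=
            Finset.sum_le_sum fun j _ => hz _
        _ = L := by simp
    refine (Finset.sum_le_sum h2).trans (le_of_eq ?_)
    rw [Finset.sum_const, Nat.card_Ioc, nsmul_eq_mul]
    have : N - (N - L) = L := by omega
    rw [this]
    ring
  have h3 : ∑ n ∈ Icc 1 (N - L), ‖∑ j ∈ range L, z (n + j)‖ ^ 2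
      ≤ 4 * ∑ n ∈ Icc 1 N, ‖ps z n‖ ^ 2 := by
    have h4 : ∀ n ∈ Icc 1 (N - L), ‖∑ j ∈ range L, z (n + j)‖ ^ 2
        ≤ 2 * ‖ps z (n + (L - 1))‖ ^ 2 + 2 * ‖ps z (n - 1)‖ ^ 2 := by
      intro n hn
      rw [mem_Icc] at hn
      rw [badc_window z n L hn.1]
      have e : n + L - 1 = n + (L - 1) := by omega
      rw [e]
      exact badc_sq _ _
    refine (Finset.sum_le_sum h4).trans ?_
    rw [Finset.sum_add_distrib, ← Finset.mul_sum, ← Finset.mul_sum]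
    have h5 : ∑ n ∈ Icc 1 (N - L), ‖ps z (n + (L - 1))‖ ^ 2 ≤ ∑ n ∈ Icc 1 N, ‖ps z n‖ ^ 2 := by
      rw [← Finset.sum_image (f := fun n => ‖ps z n‖ ^ 2) (g := fun n => n + (L - 1))
        (s := Icc 1 (N - L)) (by intro a _ b _ h; simpa using h)]
      refine Finset.sum_le_sum_of_subset_of_nonneg ?_ fun n _ _ => by positivity
      intro n hn
      rw [mem_image] at hn
      obtain ⟨m, hm, rfl⟩ := hn
      rw [mem_Icc] at hm ⊢
      omega
    have h6 : ∑ n ∈ Icc 1 (N - L), ‖ps z (n - 1)‖ ^ 2 ≤ ∑ n ∈ Icc 1 N, ‖ps z n‖ ^ 2 := by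
      have h7 : ∑ n ∈ Icc 1 (N - L), ‖ps z (n - 1)‖ ^ 2
          = ∑ n ∈ Finset.range (N - L), ‖ps z n‖ ^ 2 := by
        rw [Finset.range_eq_Ico, ← Finset.sum_image (f := fun n => ‖ps z n‖ ^ 2)
          (g := fun n => n - 1) (s := Icc 1 (N - L))]
        · congr 1
          ext n
          rw [mem_image, mem_Ico]
          constructor
          · rintro ⟨m, hm, rfl⟩
            rw [mem_Icc] at hm
            omega
          · intro hn
            exact ⟨n + 1, by rw [mem_Icc]; omega, rfl⟩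
        · intro a ha b hb h
          rw [mem_coe, mem_Icc] at ha hb
          simp only at h
          omega
      rw [h7]
      have h8 : ∑ n ∈ Finset.range (N - L), ‖ps z n‖ ^ 2
          ≤ ∑ n ∈ Finset.range (N + 1), ‖ps z n‖ ^ 2 :=
        Finset.sum_le_sum_of_subset_of_nonneg
          (fun n hn => Finset.mem_range.mpr (by have := Finset.mem_range.mp hn; omega))
          fun n _ _ => by positivity
      refine h8.trans (le_of_eq ?_)
      rw [Finset.range_eq_Ico, Finset.sum_eq_sum_Ico_succ_bot (by omega)]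
      have e1 : Ico (0 + 1) (N + 1) = Icc 1 N := by
        ext n; rw [mem_Icc, mem_Ico]; omega
      rw [e1]
      simp [ps]
    linarith
  linarith

theorem bad_cor (K : ℝ) : ∃ H0 : ℕ, 1 ≤ H0 ∧ ∃ c0 : ℝ, 0 < c0 ∧ c0 ≤ 1 ∧ ∃ N0 : ℕ, 1 ≤ N0 ∧
    ∀ z : ℕ → ℂ, UM z → ∀ N : ℕ, N0 ≤ N → AN z N ≤ K →
      ∃ h : ℕ, 1 ≤ h ∧ h ≤ H0 ∧ c0 ≤ ‖cor z h N‖ := by
  set H : ℕ := ⌈10 * |K|⌉₊ + 2 with hH
  have hHK : 10 * |K| + 2 ≤ (H : ℝ) := by
    have := Nat.le_ceil (10 * |K|)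
    rw [hH]
    push_cast
    linarith
  have hH2 : 2 ≤ H := by omega
  have hHpos : (0 : ℝ) < H := by positivity
  have hH2r : (2 : ℝ) ≤ H := by exact_mod_cast hH2
  refine ⟨H, by omega, 1 / (2 * H), by positivity, ?_, 3 * H ^ 3 + 1, by omega, ?_⟩
  · rw [div_le_one (by positivity)]
    linarith
  intro z hz N hN hAN
  by_contra hcon
  push Not at hcon
  have hz1 : ∀ n, ‖z n‖ ≤ 1 := um_le hz
  have hN3 : 3 * H ^ 3 + 1 ≤ N := hN
  have hHN : H ≤ N := by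
    have : H ≤ H ^ 3 := Nat.le_self_pow (by norm_num) H
    omega
  have hNpos : (0 : ℝ) < N := by exact_mod_cast (by omega : 0 < N)
  -- upper bound
  have hup := badc_upper hz1 (L := H) (N := N) (by omega) hHN
  have hANs : ∑ n ∈ Icc 1 N, ‖ps z n‖ ^ 2 ≤ N * |K| := by
    have h1 : AN z N ≤ |K| := hAN.trans (le_abs_self K)
    unfold AN at h1
    rw [div_le_iff₀ hNpos] at h1
    linarith
  -- lower bound
  set c : ℕ → ℕ → ℂ := fun i j => ∑ n ∈ Icc 1 N, z (n + i) * (starRingEnd ℂ) (z (n + j)) with hc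
  have hT : ∑ n ∈ Icc 1 N, ‖∑ j ∈ range H, z (n + j)‖ ^ 2
      = ∑ i ∈ range H, ∑ j ∈ range H, (c i j).re := by
    have h1 : ∀ n, ‖∑ j ∈ range H, z (n + j)‖ ^ 2
        = ∑ i ∈ range H, ∑ j ∈ range H, (z (n + i) * (starRingEnd ℂ) (z (n + j))).re := by
      intro n
      have h2 : ((‖∑ j ∈ range H, z (n + j)‖ ^ 2 : ℝ) : ℂ)
          = (∑ j ∈ range H, z (n + j)) * (starRingEnd ℂ) (∑ j ∈ range H, z (n + j)) := by
        rw [Complex.mul_conj, Complex.normSq_eq_norm_sq]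
      rw [map_sum, Finset.sum_mul_sum] at h2
      have h3 := congrArg Complex.re h2
      rw [Complex.ofReal_re] at h3
      rw [h3, Complex.re_sum]
      refine Finset.sum_congr rfl fun i _ => ?_
      rw [Complex.re_sum]
    rw [Finset.sum_congr rfl fun n _ => h1 n, Finset.sum_comm]
    refine Finset.sum_congr rfl fun i _ => ?_
    rw [Finset.sum_comm]
    refine Finset.sum_congr rfl fun j _ => ?_
    rw [hc, Complex.re_sum]
  have hdiag : ∀ i, (c i i).re = N := by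
    intro i
    rw [hc, Complex.re_sum]
    have h1 : ∀ n ∈ Icc 1 N, (z (n + i) * (starRingEnd ℂ) (z (n + i))).re = 1 := by
      intro n hn
      rw [mem_Icc] at hn
      rw [Complex.mul_conj, Complex.ofReal_re, Complex.normSq_eq_norm_sq,
        hz.norm (n + i) (by omega)]
      norm_num
    rw [Finset.sum_congr rfl h1]
    simp
  have hoff1 : ∀ i j, i < j → j < H → ‖c i j‖ ≤ N / (2 * H) + 2 * H := by
    intro i j hij hj
    have h1 := badc_shift (g := fun n => z n * (starRingEnd ℂ) (z (n + (j - i))))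
      (fun n => by
        rw [norm_mul, RCLike.norm_conj]
        exact mul_le_one₀ (hz1 _) (norm_nonneg _) (hz1 _)) N i
    have h2 : ∑ n ∈ Icc 1 N, z (n + i) * (starRingEnd ℂ) (z (n + i + (j - i))) = c i j := by
      rw [hc]
      refine Finset.sum_congr rfl fun n _ => ?_
      have : n + i + (j - i) = n + j := by omega
      rw [this]
    rw [h2] at h1
    have h3 : ‖∑ n ∈ Icc 1 N, z n * (starRingEnd ℂ) (z (n + (j - i)))‖ ≤ N / (2 * H) := by
      have h4 := hcon (j - i) (by omega) (by omega)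
      unfold cor avc at h4
      rw [norm_div, Complex.norm_natCast, div_lt_iff₀ hNpos] at h4
      have h5 : 1 / (2 * (H : ℝ)) * N = N / (2 * H) := by ring
      rw [h5] at h4
      exact h4.le
    have h6 : ‖c i j‖ ≤ ‖c i j - ∑ n ∈ Icc 1 N, z n * (starRingEnd ℂ) (z (n + (j - i)))‖
        + ‖∑ n ∈ Icc 1 N, z n * (starRingEnd ℂ) (z (n + (j - i)))‖ := by
      have := norm_add_le (c i j - ∑ n ∈ Icc 1 N, z n * (starRingEnd ℂ) (z (n + (j - i))))
        (∑ n ∈ Icc 1 N, z n * (starRingEnd ℂ) (z (n + (j - i))))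
      rwa [sub_add_cancel] at this
    have h7 : (i : ℝ) ≤ H := by exact_mod_cast (by omega : i ≤ H)
    linarith
  have hconj : ∀ i j, c i j = (starRingEnd ℂ) (c j i) := by
    intro i j
    rw [hc, map_sum]
    refine Finset.sum_congr rfl fun n _ => ?_
    rw [map_mul, Complex.conj_conj, mul_comm]
  have hoff : ∀ i j, i < H → j < H → i ≠ j → -(N / (2 * H) + 2 * H : ℝ) ≤ (c i j).re := by
    intro i j hi hj hij
    have h1 : ‖c i j‖ ≤ N / (2 * H) + 2 * H := by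
      rcases lt_or_gt_of_ne hij with h | h
      · exact hoff1 i j h hj
      · rw [hconj, RCLike.norm_conj]
        exact hoff1 j i h hi
    have h2 := Complex.abs_re_le_norm (c i j)
    have h3 := neg_abs_le (c i j).re
    linarith
  have hB : (0 : ℝ) ≤ N / (2 * H) + 2 * H := by positivity
  have hlow : (H : ℝ) * N - H * (H * (N / (2 * H) + 2 * H))
      ≤ ∑ i ∈ range H, ∑ j ∈ range H, (c i j).re := by
    have h1 : ∀ i ∈ range H, (N : ℝ) - H * (N / (2 * H) + 2 * H)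
        ≤ ∑ j ∈ range H, (c i j).re := by
      intro i hi
      have h2 : ∀ j ∈ range H, (if i = j then (N : ℝ) else 0) - (N / (2 * H) + 2 * H)
          ≤ (c i j).re := by
        intro j hj
        rw [Finset.mem_range] at hi hj
        by_cases hij : i = j
        · subst hij
          rw [if_pos rfl, hdiag]
          linarith
        · rw [if_neg hij]
          have := hoff i j hi hj hij
          linarith
      refine le_trans (le_of_eq ?_) (Finset.sum_le_sum h2)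
      rw [Finset.sum_sub_distrib, Finset.sum_ite_eq, if_pos hi, Finset.sum_const, card_range,
        nsmul_eq_mul]
    refine le_trans (le_of_eq ?_) (Finset.sum_le_sum h1)
    rw [Finset.sum_const, card_range, nsmul_eq_mul]
    ring
  rw [← hT] at hlow
  have hfin : (H : ℝ) * N - H * (H * (N / (2 * H) + 2 * H)) ≤ 4 * (N * |K|) + (H : ℝ) ^ 3 := by
    refine hlow.trans (hup.trans ?_)
    linarith
  have he : (H : ℝ) * N - H * (H * (N / (2 * H) + 2 * H)) = H * N / 2 - 2 * (H : ℝ) ^ 3 := by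
    field_simp
    ring
  rw [he] at hfin
  have hNr : 3 * (H : ℝ) ^ 3 + 1 ≤ N := by exact_mod_cast hN3
  have hK0 := abs_nonneg K
  have h9 : (N : ℝ) * (H / 2 - 4 * |K|) ≤ 3 * (H : ℝ) ^ 3 := by linarith
  have h10 : 1 ≤ (H : ℝ) / 2 - 4 * |K| := by linarith
  nlinarith

theorem bad_zero {z : ℕ → ℂ} (hz : ∀ n, ‖z n‖ ≤ 1) {J N : ℕ} (hJ : 1 ≤ J) (hN : J ≤ N) :
    en z 0 J N ≤ 4 * AN z N / (J : ℝ) ^ 2 + J / N := by
  have hup := badc_upper hz hJ hN
  have hJ0 : (0 : ℝ) < J := by exact_mod_cast hJ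
  have hN0 : (0 : ℝ) < N := by exact_mod_cast (by omega : 0 < N)
  have h1 : ∀ n, ‖loc z 0 J n‖ ^ 2 = ‖∑ j ∈ range J, z (n + j)‖ ^ 2 / (J : ℝ) ^ 2 := by
    intro n
    unfold loc
    rw [norm_div, Complex.norm_natCast, div_pow]
    congr 3
    refine Finset.sum_congr rfl fun j _ => ?_
    rw [mul_zero, neg_zero, ee_zero, mul_one]
  unfold en AN
  rw [Finset.sum_congr rfl fun n _ => h1 n, ← Finset.sum_div]
  have h2 : (∑ n ∈ Icc 1 N, ‖∑ j ∈ range J, z (n + j)‖ ^ 2) / (J : ℝ) ^ 2 / N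
      ≤ (4 * ∑ n ∈ Icc 1 N, ‖ps z n‖ ^ 2 + (J : ℝ) ^ 3) / (J : ℝ) ^ 2 / N := by
    gcongr
  refine h2.trans (le_of_eq ?_)
  field_simp

end Pool.Agent.Work.MP_2d9442_nt.AS
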