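import Pool.Agent.Work.MP_2d9442_nt.AS.Defs

/-!
# Basic facts (all proved)
-/

set_option autoImplicit false

open Finset

namespace Pool.Agent.Work.MP_2d9442_nt.AS

/-! ### exponentials -/

theorem ee_eq (x : ℝ) : ee x = Complex.exp (((2 * Real.pi * x : ℝ) : ℂ) * Complex.I) := by
  unfold ee
  congr 1
  push_cast
  ring

theorem ee_norm (x : ℝ) : ‖ee x‖ = 1 := by
  rw [ee_eq]; exact Complex.norm_exp_ofReal_mul_I _

theorem ee_add (x y : ℝ) : ee (x + y) = ee x * ee y := by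
  unfold ee
  rw [← Complex.exp_add]
  congr 1
  push_cast
  ring

theorem ee_zero : ee 0 = 1 := by
  unfold ee
  simp

theorem ee_int (k : ℤ) : ee k = 1 := by
  unfold ee
  rw [Complex.exp_eq_one_iff]
  exact ⟨k, by push_cast; ring⟩

theorem ee_add_int (x : ℝ) (k : ℤ) : ee (x + k) = ee x := by
  rw [ee_add, ee_int, mul_one]

theorem ee_conj (x : ℝ) : (starRingEnd ℂ) (ee x) = ee (-x) := by
  rw [ee_eq, ee_eq, ← Complex.exp_conj, map_mul, Complex.conj_I, Complex.conj_ofReal]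
  congr 1
  push_cast
  ring

theorem ee_sub_le (x y : ℝ) : ‖ee x - ee y‖ ≤ 2 * Real.pi * |x - y| := by
  have h1 : ee x - ee y = ee y * (ee (x - y) - 1) := by
    rw [mul_sub, ← ee_add, mul_one]
    congr 2
    ring
  rw [h1, norm_mul, ee_norm, one_mul, ee_eq, mul_comm]
  refine Real.norm_exp_I_mul_ofReal_sub_one_le.trans (le_of_eq ?_)
  rw [Real.norm_eq_abs, abs_mul, abs_of_pos (by positivity)]

/-! ### indicators -/

theorem ind_nonneg (p : Prop) : 0 ≤ ind p := by unfold ind; split_ifs <;> norm_num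

theorem ind_le_one (p : Prop) : ind p ≤ 1 := by unfold ind; split_ifs <;> norm_num

theorem ind_of {p : Prop} (h : p) : ind p = 1 := by unfold ind; rw [if_pos h]

theorem ind_not {p : Prop} (h : ¬ p) : ind p = 0 := by unfold ind; rw [if_neg h]

theorem ind_mono {p q : Prop} (h : p → q) : ind p ≤ ind q := by
  by_cases hp : p
  · rw [ind_of hp, ind_of (h hp)]
  · rw [ind_not hp]; exact ind_nonneg q

theorem ind_bd (p : Prop) : 0 ≤ ind p ∧ ind p ≤ 1 := ⟨ind_nonneg p, ind_le_one p⟩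

/-- union bound -/
theorem ind_le_add {p q r : Prop} (h : p → q ∨ r) : ind p ≤ ind q + ind r := by
  by_cases hp : p
  · rcases h hp with hq | hr
    · rw [ind_of hp, ind_of hq]; linarith [ind_nonneg r]
    · rw [ind_of hp, ind_of hr]; linarith [ind_nonneg q]
  · rw [ind_not hp]; linarith [ind_nonneg q, ind_nonneg r]

theorem ind_and (p q : Prop) : ind (p ∧ q) = ind p * ind q := by
  by_cases hp : p <;> by_cases hq : q <;> simp [ind, hp, hq]

/-! ### weighted averages -/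

section Av

variable {S : Finset ℕ} {w : ℕ → ℝ} {Y : ℕ}

theorem Av_add (g h : ℕ → ℝ) : Av S w (fun N => g N + h N) = Av S w g + Av S w h := by
  unfold Av
  rw [← Finset.sum_add_distrib]
  exact Finset.sum_congr rfl fun N _ => by ring

theorem Av_sub (g h : ℕ → ℝ) : Av S w (fun N => g N - h N) = Av S w g - Av S w h := by
  unfold Av
  rw [← Finset.sum_sub_distrib]
  exact Finset.sum_congr rfl fun N _ => by ring

theorem Av_mul (c : ℝ) (g : ℕ → ℝ) : Av S w (fun N => c * g N) = c * Av S w g := by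
  unfold Av
  rw [Finset.mul_sum]
  exact Finset.sum_congr rfl fun N _ => by ring

theorem Av_sum {ι : Type*} (T : Finset ι) (g : ι → ℕ → ℝ) :
    Av S w (fun N => ∑ i ∈ T, g i N) = ∑ i ∈ T, Av S w (g i) := by
  unfold Av
  rw [Finset.sum_comm]
  exact Finset.sum_congr rfl fun N _ => by rw [Finset.mul_sum]

theorem Av_mono (hw : Wt S w Y) {g h : ℕ → ℝ} (hgh : ∀ N ∈ S, g N ≤ h N) :
    Av S w g ≤ Av S w h :=
  Finset.sum_le_sum fun N hN => mul_le_mul_of_nonneg_left (hgh N hN) (hw.nonneg N)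

theorem Av_nonneg (hw : Wt S w Y) {g : ℕ → ℝ} (hg : ∀ N ∈ S, 0 ≤ g N) : 0 ≤ Av S w g :=
  Finset.sum_nonneg fun N hN => mul_nonneg (hw.nonneg N) (hg N hN)

theorem Av_const_le (hw : Wt S w Y) {c : ℝ} (hc : 0 ≤ c) : Av S w (fun _ => c) ≤ c := by
  unfold Av
  rw [← Finset.sum_mul]
  calc (∑ N ∈ S, w N) * c ≤ 1 * c := mul_le_mul_of_nonneg_right hw.tot hc
    _ = c := one_mul c

theorem Av_le (hw : Wt S w Y) {g : ℕ → ℝ} {c : ℝ} (hc : 0 ≤ c) (hg : ∀ N ∈ S, g N ≤ c) :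
    Av S w g ≤ c := (Av_mono hw hg).trans (Av_const_le hw hc)

theorem Av_abs_le (hw : Wt S w Y) (g : ℕ → ℝ) : |Av S w g| ≤ Av S w (fun N => |g N|) := by
  unfold Av
  refine (Finset.abs_sum_le_sum_abs _ _).trans (le_of_eq ?_)
  exact Finset.sum_congr rfl fun N _ => by rw [abs_mul, abs_of_nonneg (hw.nonneg N)]

theorem Av_markov (hw : Wt S w Y) {g : ℕ → ℝ} (hg : ∀ N ∈ S, 0 ≤ g N) {t : ℝ} (ht : 0 < t) :
    Av S w (fun N => ind (t ≤ g N)) ≤ Av S w g / t := by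
  have h1 : Av S w (fun N => ind (t ≤ g N)) ≤ Av S w (fun N => t⁻¹ * g N) := by
    refine Av_mono hw fun N hN => ?_
    by_cases h : t ≤ g N
    · rw [ind_of h, inv_mul_eq_div, le_div_iff₀ ht, one_mul]; exact h
    · rw [ind_not h]
      have := hg N hN
      positivity
  rw [Av_mul] at h1
  rw [div_eq_inv_mul]
  exact h1

end Av

/-! ### local coefficients and energies -/

theorem loc_le_one {z : ℕ → ℂ} (hz : ∀ n, ‖z n‖ ≤ 1) (θ : ℝ) (L n : ℕ) : ‖loc z θ L n‖ ≤ 1 := by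
  unfold loc
  rw [norm_div, Complex.norm_natCast]
  refine div_le_one_of_le₀ ?_ (Nat.cast_nonneg L)
  refine (norm_sum_le _ _).trans ?_
  calc ∑ j ∈ range L, ‖z (n + j) * ee (-(j * θ))‖ ≤ ∑ _j ∈ range L, (1 : ℝ) := by
        refine Finset.sum_le_sum fun j _ => ?_
        rw [norm_mul, ee_norm, mul_one]
        exact hz _
    _ = L := by simp

theorem en_nonneg (z : ℕ → ℂ) (θ : ℝ) (L N : ℕ) : 0 ≤ en z θ L N := by
  unfold en
  positivity

theorem en_le_one {z : ℕ → ℂ} (hz : ∀ n, ‖z n‖ ≤ 1) (θ : ℝ) (L N : ℕ) : en z θ L N ≤ 1 := by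
  unfold en
  refine div_le_one_of_le₀ ?_ (Nat.cast_nonneg N)
  calc ∑ n ∈ Icc 1 N, ‖loc z θ L n‖ ^ 2 ≤ ∑ _n ∈ Icc 1 N, (1 : ℝ) := by
        refine Finset.sum_le_sum fun n _ => ?_
        have := loc_le_one hz θ L n
        have h0 := norm_nonneg (loc z θ L n)
        nlinarith
    _ = N := by simp

theorem loc_per (z : ℕ → ℂ) (θ : ℝ) (k : ℤ) (L n : ℕ) : loc z (θ + k) L n = loc z θ L n := by
  unfold loc
  congr 1
  refine Finset.sum_congr rfl fun j _ => ?_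
  congr 1
  have : -((j : ℝ) * (θ + k)) = -(j * θ) + ((-(j * k) : ℤ) : ℝ) := by
    push_cast
    ring
  rw [this, ee_add_int]

theorem en_per (z : ℕ → ℂ) (θ : ℝ) (k : ℤ) (L N : ℕ) : en z (θ + k) L N = en z θ L N := by
  unfold en
  simp_rw [loc_per]

/-- congruent numerators give the same energy -/
theorem en_modEq (z : ℕ → ℂ) {D : ℕ} (hD : 1 ≤ D) {b b' : ℕ} (h : b ≡ b' [MOD D]) (L N : ℕ) :
    en z ((b : ℝ) / D) L N = en z ((b' : ℝ) / D) L N := by
  obtain ⟨k, hk⟩ := (Nat.modEq_iff_dvd.1 h)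
  have hD0 : (D : ℝ) ≠ 0 := by
    have : D ≠ 0 := by omega
    exact_mod_cast this
  have h1 : (b' : ℝ) / D = (b : ℝ) / D + k := by
    have : (b' : ℝ) - b = D * k := by exact_mod_cast hk
    field_simp
    linarith
  rw [h1, en_per]

/-! ### multiplicative functions and statistics -/

theorem um_le {z : ℕ → ℂ} (hz : UM z) (n : ℕ) : ‖z n‖ ≤ 1 := hz.cm.le n

theorem Stat.mono {H H' : ℕ} (h : H ≤ H') {Φ : (ℕ → ℂ) → ℂ} (hΦ : Stat H Φ) : Stat H' Φ where
  bd := hΦ.bd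
  lip := fun u v hu hv η hη huv => hΦ.lip u v hu hv η hη fun i hi => huv i (lt_of_lt_of_le hi h)

theorem Ind.mono {z : ℕ → ℂ} {x p H H' : ℕ} {d d' : ℝ} (h : Ind z x p H' d) (hH : H ≤ H')
    (hd : d ≤ d') : Ind z x p H d' := fun Φ hΦ => (h Φ (hΦ.mono hH)).trans hd

theorem mem_pr {P p : ℕ} : p ∈ pr P ↔ (P < p ∧ p ≤ 2 * P) ∧ p.Prime := by
  unfold pr
  rw [Finset.mem_filter, Finset.mem_Ioc]

end Pool.Agent.Work.MP_2d9442_nt.AS
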