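import Pool.Agent.Work.MP_2d9442_nt.AS.Base
import Pool.Agent.Work.BV.SHB

/-!
# Module PrB: primes in progressions to bounded moduli in `(P, (1+δ)P]` (M)

Add `import Pool.Agent.Work.BV.SHB` for the proof (left out of the stub so that the others need not build
the library).

`BV.bv_theta` with `t = 1/4`, `A = 1` (file Work/BV/SHB.lean): for all choices `y_q ≤ Y`, `c_q` coprime to
`q`: `∑_{q ≤ Y^{1/4}} |thp(y_q, q, c_q) - y_q/φ(q)| ≤ C Y/log Y`; one single `q ≤ D₀ ≤ Y^{1/4}` is a term of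
the sum (choose `c_{q'} = 1` for `q' ≠ q`).  Apply it with `Y = 2P`, `y = ⌊(1+δ)P⌋` and with `y = P`, and
subtract: `∑_{P < p ≤ (1+δ)P, p ≡ b (q)} log p ≥ (⌊(1+δ)P⌋ - P)/φ(q) - 4CP/log(2P) ≥ δP/(2D₀)` for
`P ≥ P₀(δ, D₀)` (`(δP - 1)/D₀ ≥ ..`; `log(2P) → ∞`).  Every `log p ≤ log(2P) ≤ 2 log P`, so the number of
these primes is at least `δP/(4D₀ log P)`: `c = δ/(4D₀)`.
(`⌊(1+δ)P⌋ ≤ 2P` because `δ ≤ 1`.)
-/

set_option autoImplicit false

open Finset

namespace Pool.Agent.Work.MP_2d9442_nt.AS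

/-- one modulus -/
private theorem prb_one : ∃ C : ℝ, 0 < C ∧ ∀ Y : ℕ, 2 ≤ Y → ∀ y q b : ℕ, y ≤ Y → 1 ≤ q →
    b.Coprime q → q ^ 4 ≤ Y →
      |BV.thp y q b - (y : ℝ) / (Nat.totient q : ℝ)| ≤ C * Y / Real.log Y := by
  obtain ⟨C, hC, h⟩ := BV.bv_theta (t := 1 / 4) (by norm_num) 1
  refine ⟨C, hC, fun Y hY y q b hy hq hb hqY => ?_⟩
  have h1 := h Y hY (fun _ => y) (fun q' => if q' = q then b else 1) (fun _ => hy) (by
    intro q' _
    by_cases hqq : q' = q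
    · simp only [hqq, if_true]
      exact hb
    · simp only [hqq, if_false]
      exact Nat.coprime_one_left _)
  have hmem : q ∈ Finset.Icc 1 ⌊(Y : ℝ) ^ (1 / 4 : ℝ)⌋₊ := by
    rw [Finset.mem_Icc]
    refine ⟨hq, Nat.le_floor ?_⟩
    have h2 : ((q : ℝ) ^ 4) ≤ (Y : ℝ) := by exact_mod_cast hqY
    have h3 : (((q : ℝ) ^ 4) ^ (1 / 4 : ℝ)) = q := by
      rw [← Real.rpow_natCast, ← Real.rpow_mul (Nat.cast_nonneg q)]
      norm_num
    rw [← h3]
    exact Real.rpow_le_rpow (by positivity) h2 (by norm_num)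
  have h4 := Finset.single_le_sum (f := fun q' : ℕ =>
    |BV.thp y q' (if q' = q then b else 1) - (y : ℝ) / (Nat.totient q' : ℝ)|)
    (fun q' _ => abs_nonneg _) hmem
  simp only [if_true] at h4
  rw [pow_one] at h1
  exact h4.trans h1

theorem prc_card {δ : ℝ} (hδ : 0 < δ) (hδ1 : δ ≤ 1) {D0 : ℕ} (hD0 : 1 ≤ D0) :
    ∃ c : ℝ, 0 < c ∧ ∃ P0 : ℕ, 3 ≤ P0 ∧ ∀ P : ℕ, P0 ≤ P → ∀ q : ℕ, 1 ≤ q → q ≤ D0 →
      ∀ b : ℕ, b.Coprime q → c * (P / Real.log P) ≤ ((prc δ P q b).card : ℝ) := by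
  obtain ⟨C, hC, hone⟩ := prb_one
  have hD0r : (0 : ℝ) < D0 := by exact_mod_cast hD0
  refine ⟨δ / (4 * D0), by positivity,
    max 3 (max (D0 ^ 4) (max ⌈4 / δ⌉₊ ⌈Real.exp (16 * C * D0 / δ)⌉₊)), le_max_left _ _, ?_⟩
  intro P hP q hq hqD b hb
  have hP3 : 3 ≤ P := (le_max_left _ _).trans hP
  have hPD : D0 ^ 4 ≤ P := (le_max_left _ _).trans ((le_max_right _ _).trans hP)
  have hPδ : 4 / δ ≤ P := (Nat.le_ceil _).trans (by
    exact_mod_cast (le_max_left _ _).trans ((le_max_right _ _).trans ((le_max_right _ _).trans hP)))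
  have hPe : Real.exp (16 * C * D0 / δ) ≤ P := (Nat.le_ceil _).trans (by
    exact_mod_cast (le_max_right _ _).trans ((le_max_right _ _).trans ((le_max_right _ _).trans hP)))
  have hP0 : (0 : ℝ) < P := by exact_mod_cast (by omega : 0 < P)
  have hlogP : 0 < Real.log P := Real.log_pos (by exact_mod_cast (by omega : 1 < P))
  have hlogC : 16 * C * D0 / δ ≤ Real.log P := by
    have := Real.log_le_log (Real.exp_pos _) hPe
    rwa [Real.log_exp] at this
  have hqr : (0 : ℝ) < q := by exact_mod_cast hq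
  have hq4 : q ^ 4 ≤ 2 * P := by
    have h1 : q ^ 4 ≤ D0 ^ 4 := Nat.pow_le_pow_left hqD 4
    omega
  have hφ1 : 0 < Nat.totient q := Nat.totient_pos.mpr hq
  have hφr : (0 : ℝ) < (Nat.totient q : ℝ) := by exact_mod_cast hφ1
  have hφD : (Nat.totient q : ℝ) ≤ D0 := by
    exact_mod_cast (Nat.totient_le q).trans hqD
  set y : ℕ := ⌊(1 + δ) * P⌋₊ with hy
  have hy1 : (y : ℝ) ≤ (1 + δ) * P := Nat.floor_le (by positivity)
  have hy2 : (1 + δ) * P - 1 < (y : ℝ) := by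
    have := Nat.lt_floor_add_one ((1 + δ) * P)
    rw [← hy] at this
    linarith
  have hy3 : y ≤ 2 * P := by
    have : (y : ℝ) ≤ 2 * P := hy1.trans (by nlinarith)
    exact_mod_cast this
  have hPy : P ≤ y := by
    apply Nat.le_floor
    nlinarith
  have h1 := hone (2 * P) (by omega) y q b hy3 hq hb hq4
  have h2 := hone (2 * P) (by omega) P q b (by omega) hq hb hq4
  have hlog2 : Real.log P ≤ Real.log ((2 * P : ℕ) : ℝ) :=
    Real.log_le_log hP0 (by push_cast; linarith)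
  have herr : C * ((2 * P : ℕ) : ℝ) / Real.log ((2 * P : ℕ) : ℝ) ≤ δ / (8 * D0) * P := by
    have hlogpos : 0 < Real.log ((2 * P : ℕ) : ℝ) := lt_of_lt_of_le hlogP hlog2
    rw [div_le_iff₀ hlogpos]
    have e1 : 16 * C * D0 / δ ≤ Real.log ((2 * P : ℕ) : ℝ) := hlogC.trans hlog2
    have e2 : δ / (8 * D0) * P * (16 * C * D0 / δ) ≤ δ / (8 * D0) * P * Real.log ((2 * P : ℕ) : ℝ) :=
      mul_le_mul_of_nonneg_left e1 (by positivity)
    refine le_trans (le_of_eq ?_) e2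
    push_cast
    field_simp
    norm_num
  -- the difference of the two theta functions
  have hdiff : BV.thp y q b - BV.thp P q b = ∑ p ∈ prc δ P q b, Real.log p := by
    unfold BV.thp
    rw [sub_eq_iff_eq_add, add_comm, ← Finset.sum_union]
    · congr 1
      ext p
      rw [mem_union, mem_filter, mem_filter, prc, mem_filter, mem_pr, mem_Icc, mem_Icc]
      constructor
      · rintro ⟨⟨a1, a2⟩, a3, a4⟩
        by_cases hpP : p ≤ P
        · exact Or.inl ⟨⟨a1, hpP⟩, a3, a4⟩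
        · refine Or.inr ⟨⟨⟨by omega, by omega⟩, a3⟩, ?_, a4⟩
          exact (by exact_mod_cast a2 : (p : ℝ) ≤ (y : ℝ)).trans hy1
      · rintro (⟨⟨a1, a2⟩, a3, a4⟩ | ⟨⟨⟨a1, a2⟩, a3⟩, a4, a5⟩)
        · exact ⟨⟨a1, a2.trans hPy⟩, a3, a4⟩
        · exact ⟨⟨by omega, Nat.le_floor a4⟩, a3, a5⟩
    · rw [Finset.disjoint_left]
      intro p hp hp2
      rw [mem_filter, mem_Icc] at hp
      rw [prc, mem_filter, mem_pr] at hp2
      omega
  have hcard : ∑ p ∈ prc δ P q b, Real.log p ≤ ((prc δ P q b).card : ℝ) * (2 * Real.log P) := by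
    rw [← nsmul_eq_mul, ← Finset.sum_const]
    refine Finset.sum_le_sum fun p hp => ?_
    rw [prc, mem_filter, mem_pr] at hp
    obtain ⟨⟨⟨a1, a2⟩, a3⟩, a4⟩ := hp
    have e1 : Real.log p ≤ Real.log ((P : ℝ) ^ 2) := by
      refine Real.log_le_log (by exact_mod_cast a3.pos) ?_
      have : p ≤ P ^ 2 := by nlinarith
      exact_mod_cast this
    rw [Real.log_pow] at e1
    push_cast at e1
    exact e1
  have a1 := (abs_le.mp h1).1
  have a2 := (abs_le.mp h2).2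
  have hmain : δ / (2 * D0) * P ≤ ∑ p ∈ prc δ P q b, Real.log p := by
    rw [← hdiff]
    have e1 : ((y : ℝ) - P) / (Nat.totient q : ℝ) - 2 * (δ / (8 * D0) * P)
        ≤ BV.thp y q b - BV.thp P q b := by
      have e2 : ((y : ℝ) - P) / (Nat.totient q : ℝ)
          = (y : ℝ) / (Nat.totient q : ℝ) - (P : ℝ) / (Nat.totient q : ℝ) := by ring
      rw [e2]
      linarith
    have hδP : 4 ≤ δ * P := by
      rw [div_le_iff₀ hδ] at hPδ
      linarith
    have e3 : (3 / 4 * (δ * P)) / D0 ≤ ((y : ℝ) - P) / (Nat.totient q : ℝ) := by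
      have e4 : 3 / 4 * (δ * P) ≤ (y : ℝ) - P := by nlinarith
      have e5 : (0 : ℝ) ≤ 3 / 4 * (δ * P) := by positivity
      calc (3 / 4 * (δ * P)) / D0 ≤ (3 / 4 * (δ * P)) / (Nat.totient q : ℝ) := by gcongr
        _ ≤ ((y : ℝ) - P) / (Nat.totient q : ℝ) := by gcongr
    have e6 : δ / (2 * D0) * P = (3 / 4 * (δ * P)) / D0 - 2 * (δ / (8 * D0) * P) := by
      field_simp
      norm_num
    rw [e6]
    linarith
  have hfin : δ / (2 * D0) * P ≤ ((prc δ P q b).card : ℝ) * (2 * Real.log P) := hmain.trans hcard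
  rw [← mul_div_assoc, div_le_iff₀ hlogP]
  have e7 : δ / (4 * D0) * P * 2 = δ / (2 * D0) * P := by
    field_simp
    norm_num
  linarith

end Pool.Agent.Work.MP_2d9442_nt.AS
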