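import Pool.Agent.Work.MP_2d9442_nt.AS.Base

/-!
# Module ScC: averages at neighbouring scales (S, Mathlib only)

* `avc_scale`: `avc N g - avc N' g = (∑_{N' < n ≤ N} g)/N - (∑_{n ≤ N'} g)(1/N' - 1/N)`, each part is at
  most `(N - N')/N`.
* `div_scale`: `u = x/P` (real).  `x/p ≥ x/(2P) ≥ 1` gives `1 ≤ x / p` (`δ ≤ 1`, so `x ≥ 3P`, `p ≤ 2P`).
  `⌊x/P⌋ - ⌊x/p⌋ ≤ x/P - x/p + 1 = u (p-P)/p + 1 ≤ δu + 1` and `2δ⌊x/P⌋ ≥ 2δ(u - 1)`; `δu + 1 ≤ 2δ(u-1)`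
  iff `δu ≥ 1 + 2δ`, true since `δu ≥ 3`.
* `cor_scale`, `en_scale`: combine (for `en` apply `avc_scale` to the complex valued function
  `‖loc z θ J n‖²`, or repeat the computation with reals); the norms of the summands are at most `1`.
-/

set_option autoImplicit false

open Finset

namespace Pool.Agent.Work.MP_2d9442_nt.AS

theorem avc_scale {g : ℕ → ℂ} (hg : ∀ n, ‖g n‖ ≤ 1) {N N' : ℕ} (h1 : 1 ≤ N') (h : N' ≤ N) :
    ‖avc N g - avc N' g‖ ≤ 2 * ((N : ℝ) - N') / N := by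
  have hN : (0 : ℝ) < N := by exact_mod_cast (by omega : 0 < N)
  have hN' : (0 : ℝ) < N' := by exact_mod_cast (by omega : 0 < N')
  have hNN : (N' : ℝ) ≤ N := by exact_mod_cast h
  have hNc : (N : ℂ) ≠ 0 := by exact_mod_cast hN.ne'
  have hNc' : (N' : ℂ) ≠ 0 := by exact_mod_cast hN'.ne'
  have hsplit : ∑ n ∈ Icc 1 N, g n = ∑ n ∈ Icc 1 N', g n + ∑ n ∈ Ioc N' N, g n := by
    have e1 : Icc 1 N = Ioc 0 N := by
      ext n; rw [mem_Icc, mem_Ioc]; omega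
    have e2 : Icc 1 N' = Ioc 0 N' := by
      ext n; rw [mem_Icc, mem_Ioc]; omega
    rw [e1, e2, Finset.sum_Ioc_consecutive _ (Nat.zero_le _) h]
  have hA : ‖∑ n ∈ Icc 1 N', g n‖ ≤ N' := by
    refine (norm_sum_le _ _).trans ?_
    calc ∑ n ∈ Icc 1 N', ‖g n‖ ≤ ∑ _n ∈ Icc 1 N', (1 : ℝ) := Finset.sum_le_sum fun n _ => hg n
      _ = N' := by simp
  have hB : ‖∑ n ∈ Ioc N' N, g n‖ ≤ (N : ℝ) - N' := by
    refine (norm_sum_le _ _).trans ?_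
    calc ∑ n ∈ Ioc N' N, ‖g n‖ ≤ ∑ _n ∈ Ioc N' N, (1 : ℝ) := Finset.sum_le_sum fun n _ => hg n
      _ = (N : ℝ) - N' := by
        rw [Finset.sum_const, Nat.card_Ioc, nsmul_eq_mul, mul_one, Nat.cast_sub h]
  have hkey : avc N g - avc N' g = (∑ n ∈ Ioc N' N, g n) / N
      - (∑ n ∈ Icc 1 N', g n) * (((N : ℂ) - N') / (N * N')) := by
    unfold avc
    rw [hsplit]
    field_simp
    ring
  rw [hkey]
  refine (norm_sub_le _ _).trans ?_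
  rw [norm_div, norm_mul, norm_div, norm_mul, Complex.norm_natCast, Complex.norm_natCast]
  have hsub : ‖(N : ℂ) - N'‖ = (N : ℝ) - N' := by
    have : (N : ℂ) - N' = (((N : ℝ) - N' : ℝ) : ℂ) := by push_cast; ring
    rw [this, Complex.norm_real, Real.norm_eq_abs, abs_of_nonneg (by linarith)]
  rw [hsub]
  have e1 : ‖∑ n ∈ Ioc N' N, g n‖ / N ≤ ((N : ℝ) - N') / N :=
    div_le_div_of_nonneg_right hB hN.le
  have e2 : ‖∑ n ∈ Icc 1 N', g n‖ * (((N : ℝ) - N') / (N * N')) ≤ ((N : ℝ) - N') / N := by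
    calc ‖∑ n ∈ Icc 1 N', g n‖ * (((N : ℝ) - N') / (N * N'))
        ≤ N' * (((N : ℝ) - N') / (N * N')) := by
          refine mul_le_mul_of_nonneg_right hA ?_
          have : (0 : ℝ) ≤ (N : ℝ) - N' := by linarith
          positivity
      _ = ((N : ℝ) - N') / N := by field_simp
  have e3 : 2 * ((N : ℝ) - N') / N = ((N : ℝ) - N') / N + ((N : ℝ) - N') / N := by ring
  rw [e3]
  exact add_le_add e1 e2

theorem div_scale {δ : ℝ} (hδ : 0 < δ) (hδ1 : δ ≤ 1) {P p x : ℕ} (hP : 1 ≤ P) (hp : P ≤ p)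
    (hp' : (p : ℝ) ≤ (1 + δ) * P) (hx : 3 * (P : ℝ) ≤ δ * x) :
    1 ≤ x / p ∧ x / p ≤ x / P ∧
      ((x / P : ℕ) : ℝ) - ((x / p : ℕ) : ℝ) ≤ 2 * δ * ((x / P : ℕ) : ℝ) := by
  have hP0 : (0 : ℝ) < P := by exact_mod_cast hP
  have hx0 : (0 : ℝ) ≤ x := Nat.cast_nonneg x
  have hpx : p ≤ x := by
    have : (p : ℝ) ≤ x := by nlinarith
    exact_mod_cast this
  have hp0 : 0 < p := by omega
  have h2 : x / p ≤ x / P := Nat.div_le_div_left hp hP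
  refine ⟨(Nat.one_le_div_iff hp0).mpr hpx, h2, ?_⟩
  have a1 : ((x / P : ℕ) : ℝ) * P ≤ x := by exact_mod_cast Nat.div_mul_le_self x P
  have a2 : (x : ℝ) < (((x / P : ℕ) : ℝ) + 1) * P := by
    have : x < (x / P + 1) * P := by
      rw [mul_comm]
      exact Nat.lt_mul_div_succ x hP
    exact_mod_cast this
  have a3 : (x : ℝ) < (((x / p : ℕ) : ℝ) + 1) * p := by
    have : x < (x / p + 1) * p := by
      rw [mul_comm]
      exact Nat.lt_mul_div_succ x hp0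
    exact_mod_cast this
  have a4 : ((x / p : ℕ) : ℝ) ≤ ((x / P : ℕ) : ℝ) := by exact_mod_cast h2
  set a : ℝ := ((x / P : ℕ) : ℝ) with ha
  set b : ℝ := ((x / p : ℕ) : ℝ) with hb
  have hb0 : 0 ≤ b := Nat.cast_nonneg _
  have b1 : a * P < ((b + 1) * (1 + δ)) * P := by
    calc a * P ≤ x := a1
      _ < (b + 1) * p := a3
      _ ≤ (b + 1) * ((1 + δ) * P) := mul_le_mul_of_nonneg_left hp' (by linarith)
      _ = ((b + 1) * (1 + δ)) * P := by ring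
  have b2 : a < (b + 1) * (1 + δ) := lt_of_mul_lt_mul_right b1 hP0.le
  have b3 : 3 * (P : ℝ) < (δ * (a + 1)) * P := by
    calc 3 * (P : ℝ) ≤ δ * x := hx
      _ < δ * ((a + 1) * P) := mul_lt_mul_of_pos_left a2 hδ
      _ = (δ * (a + 1)) * P := by ring
  have b4 : 3 < δ * (a + 1) := lt_of_mul_lt_mul_right b3 hP0.le
  nlinarith

private theorem scc_aux {δ : ℝ} {g : ℕ → ℂ} (hg : ∀ n, ‖g n‖ ≤ 1) {N N' : ℕ}
    (h1 : 1 ≤ N') (h : N' ≤ N) (h2 : (N : ℝ) - (N' : ℝ) ≤ 2 * δ * (N : ℝ)) :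
    ‖avc N g - avc N' g‖ ≤ 4 * δ := by
  refine (avc_scale hg h1 h).trans ?_
  have hN : (0 : ℝ) < N := by exact_mod_cast (by omega : 0 < N)
  rw [div_le_iff₀ hN]
  linarith

theorem cor_scale {z : ℕ → ℂ} (hz : ∀ n, ‖z n‖ ≤ 1) {δ : ℝ} (hδ : 0 < δ) (hδ1 : δ ≤ 1)
    {P p x : ℕ} (hP : 1 ≤ P) (hp : P ≤ p) (hp' : (p : ℝ) ≤ (1 + δ) * P)
    (hx : 3 * (P : ℝ) ≤ δ * x) (h : ℕ) : ‖cor z h (x / P) - cor z h (x / p)‖ ≤ 4 * δ := by
  obtain ⟨h1, h2, h3⟩ := div_scale hδ hδ1 hP hp hp' hx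
  refine scc_aux (fun n => ?_) h1 h2 h3
  rw [norm_mul, RCLike.norm_conj]
  exact mul_le_one₀ (hz _) (norm_nonneg _) (hz _)

theorem en_scale {z : ℕ → ℂ} (hz : ∀ n, ‖z n‖ ≤ 1) {δ : ℝ} (hδ : 0 < δ) (hδ1 : δ ≤ 1)
    {P p x : ℕ} (hP : 1 ≤ P) (hp : P ≤ p) (hp' : (p : ℝ) ≤ (1 + δ) * P)
    (hx : 3 * (P : ℝ) ≤ δ * x) (θ : ℝ) (J : ℕ) :
    |en z θ J (x / P) - en z θ J (x / p)| ≤ 4 * δ := by
  obtain ⟨h1, h2, h3⟩ := div_scale hδ hδ1 hP hp hp' hx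
  have key : ∀ N : ℕ, avc N (fun n => ((‖loc z θ J n‖ ^ 2 : ℝ) : ℂ)) = ((en z θ J N : ℝ) : ℂ) := by
    intro N
    unfold avc en
    push_cast
    rfl
  have h4 := scc_aux (g := fun n => ((‖loc z θ J n‖ ^ 2 : ℝ) : ℂ)) (fun n => by
    rw [Complex.norm_real, Real.norm_eq_abs, abs_of_nonneg (by positivity)]
    have := loc_le_one hz θ J n
    have h0 := norm_nonneg (loc z θ J n)
    nlinarith) h1 h2 h3
  rw [key, key, ← Complex.ofReal_sub, Complex.norm_real, Real.norm_eq_abs] at h4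
  exact h4

end Pool.Agent.Work.MP_2d9442_nt.AS
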