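import Pool.Agent.Work.MP_2d9442_nt.AS.Base

/-!
# Module Tr: transfer between the scales `x` and `x/p` (M)

Let `N = x / p ≥ 1`.  `pN ≤ x < pN + p`.  The multiples of `p` in `[1, x]` are `pm`, `1 ≤ m ≤ N`
(reindex).  `‖z p‖ = 1`, `z (pm) = z p z m`.

`tr`: `Φ(u) = ‖(1/J) ∑_{j<J} u(pj) e(-jpθ)‖²` (as a complex number) satisfies `Stat (p*J)`: bounded by `1`;
`|a² - b²| ≤ 2|a - b|` for `a, b ∈ [0,1]`, and the norms differ by at most `η` if `|u_i - v_i| ≤ η` for
`i < pJ` (the indices are `pj ≤ p(J-1)`).  So `Stat H Φ` (`Stat.mono`).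
(1) `‖loc z (pθ) J m‖ = ‖(1/J) ∑_j z(pm + pj) e(-jpθ)‖`, so `en z (pθ) J N = (1/N) ∑_{n ≤ x, p∣n} Φ(z(n+·))
≥ (p/x) ∑_{n≤x, p∣n} Φ = avd` since `pN ≤ x` and `Φ ≥ 0`.
(2) `avd ≥ avc - d` by `Ind` (take real parts).
(3) `loc z θ (pJ) n = (1/p) ∑_{r<p} e(-rθ) (1/J) ∑_{j<J} z(n+r+pj) e(-jpθ)` (split `l = r + pj`), so by
Cauchy-Schwarz `‖loc z θ (pJ) n‖² ≤ (1/p) ∑_{r<p} Φ(z(n+r+·))`, and summing over `n ≤ x`
(`∑_{n≤x} Φ_{n+r} ≤ ∑_{n≤x} Φ_n + r`): `en z θ (pJ) x ≤ avc + p/x`.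

`tr_cor`: `Φ(u) = u(0) conj(u(ph))` satisfies `Stat (p*h+1)`.  `cor z h N = (1/N) ∑_{m≤N} z(m) conj z(m+h) =
(1/N) ∑_{n≤x,p∣n} z(n) conj z(n+ph)`; the factor: `avd = (pN/x) cor`, so `‖cor - avd‖ ≤ ‖cor‖ (1 - pN/x) ≤ p/x`.
-/

set_option autoImplicit false

open Finset

namespace Pool.Agent.Work.MP_2d9442_nt.AS

private theorem tr_mult {E : Type*} [AddCommMonoid E] {p : ℕ} (hp : 1 ≤ p) (x : ℕ) (g : ℕ → E) :
    ∑ n ∈ (Icc 1 x).filter (fun n => p ∣ n), g n = ∑ m ∈ Icc 1 (x / p), g (p * m) := by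
  symm
  refine Finset.sum_nbij (fun m => p * m) ?_ ?_ ?_ ?_
  · intro m hm
    rw [Finset.mem_Icc] at hm
    rw [Finset.mem_filter, Finset.mem_Icc]
    refine ⟨⟨Nat.mul_pos hp hm.1, ?_⟩, Dvd.intro _ rfl⟩
    exact (Nat.mul_le_mul_left p hm.2).trans (Nat.mul_div_le x p)
  · intro m _ m' _ h
    exact Nat.eq_of_mul_eq_mul_left hp h
  · intro n hn
    rw [Finset.mem_coe, Finset.mem_filter, Finset.mem_Icc] at hn
    obtain ⟨⟨h1, h2⟩, m, rfl⟩ := hn
    refine ⟨m, ?_, rfl⟩
    rw [Finset.mem_coe, Finset.mem_Icc]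
    refine ⟨Nat.pos_of_ne_zero (by rintro rfl; simp at h1), ?_⟩
    rw [Nat.le_div_iff_mul_le hp, mul_comm]
    exact h2
  · intro m _
    rfl

private theorem tr_split {E : Type*} [AddCommMonoid E] {p J : ℕ} (hp : 1 ≤ p) (g : ℕ → E) :
    ∑ l ∈ range (p * J), g l = ∑ r ∈ range p, ∑ j ∈ range J, g (r + p * j) := by
  rw [← Finset.sum_product']
  refine Finset.sum_nbij' (fun l => (l % p, l / p)) (fun s => s.1 + p * s.2) ?_ ?_ ?_ ?_ ?_
  · intro l hl
    rw [Finset.mem_range] at hl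
    rw [Finset.mem_product, Finset.mem_range, Finset.mem_range]
    exact ⟨Nat.mod_lt _ hp, Nat.div_lt_of_lt_mul hl⟩
  · rintro ⟨r, j⟩ hs
    rw [Finset.mem_product, Finset.mem_range, Finset.mem_range] at hs
    rw [Finset.mem_range]
    simp only at hs ⊢
    have h1 : p * (j + 1) ≤ p * J := Nat.mul_le_mul_left p hs.2
    have h2 : p * (j + 1) = p * j + p := by ring
    omega
  · intro l _
    exact Nat.mod_add_div l p
  · rintro ⟨r, j⟩ hs
    rw [Finset.mem_product, Finset.mem_range, Finset.mem_range] at hs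
    simp only at hs ⊢
    refine Prod.ext ?_ ?_
    · simp only
      rw [Nat.add_mul_mod_self_left, Nat.mod_eq_of_lt hs.1]
    · simp only
      rw [Nat.add_mul_div_left _ _ hp, Nat.div_eq_of_lt hs.1, zero_add]
  · intro l _
    rw [Nat.mod_add_div]

/-- the sparse local coefficient -/
private noncomputable def trq (p J : ℕ) (θ : ℝ) (u : ℕ → ℂ) : ℂ :=
  (∑ j ∈ range J, u (p * j) * ee (-((j : ℝ) * ((p : ℝ) * θ)))) / (J : ℂ)

private theorem trq_le {p J : ℕ} {θ : ℝ} {u : ℕ → ℂ} (hu : ∀ i, ‖u i‖ ≤ 1) :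
    ‖trq p J θ u‖ ≤ 1 := by
  unfold trq
  rw [norm_div, Complex.norm_natCast]
  refine div_le_one_of_le₀ ?_ (Nat.cast_nonneg J)
  refine (norm_sum_le _ _).trans ?_
  calc ∑ j ∈ range J, ‖u (p * j) * ee (-((j : ℝ) * ((p : ℝ) * θ)))‖
      ≤ ∑ _j ∈ range J, (1 : ℝ) := by
        refine Finset.sum_le_sum fun j _ => ?_
        rw [norm_mul, ee_norm, mul_one]
        exact hu _
    _ = J := by simp

private theorem trq_sub {p J : ℕ} (hp : 1 ≤ p) (hJ : 1 ≤ J) {θ : ℝ} {u v : ℕ → ℂ} {η : ℝ}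
    (h : ∀ i < p * J, ‖u i - v i‖ ≤ η) :
    ‖trq p J θ u - trq p J θ v‖ ≤ η := by
  have hJr : (0 : ℝ) < J := by exact_mod_cast hJ
  unfold trq
  rw [← sub_div, ← Finset.sum_sub_distrib, norm_div, Complex.norm_natCast, div_le_iff₀ hJr]
  refine (norm_sum_le _ _).trans ?_
  calc ∑ j ∈ range J, ‖u (p * j) * ee (-((j : ℝ) * ((p : ℝ) * θ))) -
        v (p * j) * ee (-((j : ℝ) * ((p : ℝ) * θ)))‖
      ≤ ∑ _j ∈ range J, η := by
        refine Finset.sum_le_sum fun j hj => ?_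
        rw [← sub_mul, norm_mul, ee_norm, mul_one]
        refine h _ ?_
        exact Nat.mul_lt_mul_of_pos_left (Finset.mem_range.1 hj) hp
    _ = η * J := by
      rw [Finset.sum_const, Finset.card_range, nsmul_eq_mul, mul_comm]

private theorem trq_stat {p J : ℕ} (hp : 1 ≤ p) (hJ : 1 ≤ J) (θ : ℝ) :
    Stat (p * J) (fun u => ((‖trq p J θ u‖ ^ 2 : ℝ) : ℂ)) where
  bd := by
    intro u hu
    have h1 := trq_le (p := p) (J := J) (θ := θ) hu
    rw [Complex.norm_real, Real.norm_of_nonneg (by positivity)]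
    have h0 := norm_nonneg (trq p J θ u)
    nlinarith
  lip := by
    intro u v hu hv η hη h
    have h1 := trq_le (p := p) (J := J) (θ := θ) hu
    have h2 := trq_le (p := p) (J := J) (θ := θ) hv
    have h3 := trq_sub hp hJ (θ := θ) h
    have h4 := abs_norm_sub_norm_le (trq p J θ u) (trq p J θ v)
    have ha0 := norm_nonneg (trq p J θ u)
    have hb0 := norm_nonneg (trq p J θ v)
    rw [← Complex.ofReal_sub, Complex.norm_real, Real.norm_eq_abs]
    generalize ‖trq p J θ u‖ = a at h1 h4 ha0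
    generalize ‖trq p J θ v‖ = b at h2 h4 hb0
    have e : a ^ 2 - b ^ 2 = (a - b) * (a + b) := by ring
    rw [e, abs_mul]
    have h5 : |a + b| ≤ 2 := by
      rw [abs_le]
      constructor <;> linarith
    have h6 := h4.trans h3
    calc |a - b| * |a + b| ≤ η * 2 := mul_le_mul h6 h5 (abs_nonneg _) hη
      _ = 2 * η := mul_comm _ _

theorem tr {z : ℕ → ℂ} (hz : UM z) {x p J H : ℕ} {d : ℝ} (hp : 1 ≤ p) (hJ : 1 ≤ J) (hx : p ≤ x)
    (hH : p * J ≤ H) (hi : Ind z x p H d) (θ : ℝ) :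
    en z θ (p * J) x ≤ en z ((p : ℝ) * θ) J (x / p) + d + p / x := by
  have hz1 := um_le hz
  have hpr : (0 : ℝ) < p := by exact_mod_cast hp
  have hJr : (0 : ℝ) < J := by exact_mod_cast hJ
  have hxr : (0 : ℝ) < x := by exact_mod_cast (by omega : 0 < x)
  have hN : 1 ≤ x / p := (Nat.one_le_div_iff hp).2 hx
  have hNr : (0 : ℝ) < ((x / p : ℕ) : ℝ) := by exact_mod_cast hN
  have hNx : (p : ℝ) * ((x / p : ℕ) : ℝ) ≤ x := by exact_mod_cast Nat.mul_div_le x p
  set a : ℕ → ℝ := fun n => ‖trq p J θ (fun i => z (n + i))‖ ^ 2 with ha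
  have ha0 : ∀ n, 0 ≤ a n := fun n => by positivity
  have ha1 : ∀ n, a n ≤ 1 := by
    intro n
    have h1 := trq_le (p := p) (J := J) (θ := θ) (u := fun i => z (n + i)) (fun i => hz1 _)
    have h0 := norm_nonneg (trq p J θ (fun i => z (n + i)))
    simp only [ha]
    nlinarith
  -- the average over the multiples
  have hloc : ∀ m, a (p * m) = ‖loc z ((p : ℝ) * θ) J m‖ ^ 2 := by
    intro m
    simp only [ha]
    have e : trq p J θ (fun i => z (p * m + i)) = z p * loc z ((p : ℝ) * θ) J m := by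
      unfold trq loc
      rw [mul_div_assoc', Finset.mul_sum]
      congr 1
      refine Finset.sum_congr rfl fun j _ => ?_
      change z (p * m + p * j) * _ = _
      rw [← mul_add, hz.cm.mul, mul_assoc]
    rw [e, norm_mul, hz.norm p hp, one_mul]
  have hstat := (trq_stat hp hJ θ).mono hH
  have h1 := hi _ hstat
  have hd : avd p x (fun n => ((‖trq p J θ (fun i => z (n + i))‖ ^ 2 : ℝ) : ℂ)) =
      ((p * (∑ m ∈ Icc 1 (x / p), ‖loc z ((p : ℝ) * θ) J m‖ ^ 2) / x : ℝ) : ℂ) := by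
    unfold avd
    rw [tr_mult hp]
    push_cast
    congr 2
    refine Finset.sum_congr rfl fun m _ => ?_
    have := hloc m
    simp only [ha] at this
    exact_mod_cast congrArg (fun r : ℝ => (r : ℂ)) this
  have hc : avc x (fun n => ((‖trq p J θ (fun i => z (n + i))‖ ^ 2 : ℝ) : ℂ)) =
      (((∑ n ∈ Icc 1 x, a n) / x : ℝ) : ℂ) := by
    unfold avc
    simp only [ha]
    push_cast
    rfl
  rw [hd, hc, ← Complex.ofReal_sub, Complex.norm_real, Real.norm_eq_abs, abs_le] at h1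
  have h2 : p * (∑ m ∈ Icc 1 (x / p), ‖loc z ((p : ℝ) * θ) J m‖ ^ 2) / x ≤
      en z ((p : ℝ) * θ) J (x / p) := by
    unfold en
    rw [div_le_div_iff₀ hxr hNr]
    have h3 : 0 ≤ ∑ m ∈ Icc 1 (x / p), ‖loc z ((p : ℝ) * θ) J m‖ ^ 2 :=
      Finset.sum_nonneg fun _ _ => by positivity
    have := mul_le_mul_of_nonneg_left hNx h3
    linarith
  -- the average over all integers
  have hpt : ∀ n, ‖loc z θ (p * J) n‖ ^ 2 ≤ (∑ r ∈ range p, a (n + r)) / p := by
    intro n
    have e : loc z θ (p * J) n =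
        (∑ r ∈ range p, ee (-((r : ℝ) * θ)) * trq p J θ (fun i => z (n + r + i))) / (p : ℂ) := by
      unfold loc
      rw [tr_split hp, Nat.cast_mul]
      have hJc : (J : ℂ) ≠ 0 := by exact_mod_cast (by omega : J ≠ 0)
      have hpc : (p : ℂ) ≠ 0 := by exact_mod_cast (by omega : p ≠ 0)
      rw [div_eq_div_iff (mul_ne_zero hpc hJc) hpc, Finset.sum_mul, Finset.sum_mul]
      refine Finset.sum_congr rfl fun r _ => ?_
      have e1 : ∀ j : ℕ, z (n + (r + p * j)) * ee (-(((r + p * j : ℕ) : ℝ) * θ)) =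
          ee (-((r : ℝ) * θ)) * (z (n + r + p * j) * ee (-((j : ℝ) * ((p : ℝ) * θ)))) := by
        intro j
        have e2 : -(((r + p * j : ℕ) : ℝ) * θ) = -((r : ℝ) * θ) + -((j : ℝ) * ((p : ℝ) * θ)) := by
          push_cast
          ring
        rw [e2, ee_add, ← add_assoc]
        ring
      simp_rw [e1]
      rw [← Finset.mul_sum, show trq p J θ (fun i => z (n + r + i)) =
        (∑ j ∈ range J, z (n + r + p * j) * ee (-((j : ℝ) * ((p : ℝ) * θ)))) / (J : ℂ) from rfl]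
      generalize ∑ j ∈ range J, z (n + r + p * j) * ee (-((j : ℝ) * ((p : ℝ) * θ))) = W
      field_simp
    have hn : ‖loc z θ (p * J) n‖ ≤ (∑ r ∈ range p, ‖trq p J θ (fun i => z (n + r + i))‖) / p := by
      rw [e, norm_div, Complex.norm_natCast]
      refine div_le_div_of_nonneg_right ((norm_sum_le _ _).trans (le_of_eq ?_)) hpr.le
      refine Finset.sum_congr rfl fun r _ => ?_
      rw [norm_mul, ee_norm, one_mul]
    have hcs := sq_sum_le_card_mul_sum_sq (s := range p)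
      (f := fun r => ‖trq p J θ (fun i => z (n + r + i))‖)
    rw [Finset.card_range] at hcs
    have h0 := norm_nonneg (loc z θ (p * J) n)
    calc ‖loc z θ (p * J) n‖ ^ 2
        ≤ ((∑ r ∈ range p, ‖trq p J θ (fun i => z (n + r + i))‖) / p) ^ 2 := by
          exact pow_le_pow_left₀ h0 hn 2
      _ ≤ (∑ r ∈ range p, a (n + r)) / p := by
          rw [div_pow, div_le_div_iff₀ (by positivity) hpr]
          have := mul_le_mul_of_nonneg_right hcs hpr.le
          simp only [ha]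
          linarith
  have hshift : ∀ r, ∑ n ∈ Icc 1 x, a (n + r) ≤ ∑ n ∈ Icc 1 x, a n + r := by
    intro r
    induction r with
    | zero => simp
    | succ r ih =>
      have e1 : ∑ n ∈ Icc 1 x, a (n + (r + 1)) + a (1 + r) =
          ∑ n ∈ Icc 1 x, a (n + r) + a (x + 1 + r) := by
        have h5 : ∀ X : ℕ, ∑ n ∈ Icc 1 X, a (n + (r + 1)) + a (1 + r) =
            ∑ n ∈ Icc 1 X, a (n + r) + a (X + 1 + r) := by
          intro X
          induction X with
          | zero => simp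
          | succ X ihX =>
            rw [Finset.sum_Icc_succ_top (by omega), Finset.sum_Icc_succ_top (by omega)]
            have e2 : X + 1 + (r + 1) = X + 1 + 1 + r := by ring
            rw [e2]
            linarith
        exact h5 x
      have h6 := ha0 (1 + r)
      have h7 := ha1 (x + 1 + r)
      push_cast
      linarith
  have h3 : en z θ (p * J) x ≤ (∑ n ∈ Icc 1 x, a n) / x + p / x := by
    unfold en
    rw [← add_div]
    refine div_le_div_of_nonneg_right ?_ hxr.le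
    calc ∑ n ∈ Icc 1 x, ‖loc z θ (p * J) n‖ ^ 2
        ≤ ∑ n ∈ Icc 1 x, (∑ r ∈ range p, a (n + r)) / p := Finset.sum_le_sum fun n _ => hpt n
      _ = (∑ r ∈ range p, ∑ n ∈ Icc 1 x, a (n + r)) / p := by
          rw [← Finset.sum_div, Finset.sum_comm]
      _ ≤ (∑ r ∈ range p, (∑ n ∈ Icc 1 x, a n + p)) / p := by
          refine div_le_div_of_nonneg_right (Finset.sum_le_sum fun r hr => ?_) hpr.le
          refine (hshift r).trans ?_
          have : (r : ℝ) ≤ p := by exact_mod_cast (Finset.mem_range.1 hr).le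
          linarith
      _ = ∑ n ∈ Icc 1 x, a n + p := by
          rw [Finset.sum_const, Finset.card_range, nsmul_eq_mul, mul_div_cancel_left₀ _ hpr.ne']
  linarith [h1.1]

theorem tr_cor {z : ℕ → ℂ} (hz : UM z) {x p h H : ℕ} {d : ℝ} (hp : 1 ≤ p) (hx : p ≤ x)
    (hH : p * h + 1 ≤ H) (hi : Ind z x p H d) :
    ‖cor z h (x / p) - avc x (fun n => z n * (starRingEnd ℂ) (z (n + p * h)))‖ ≤ d + p / x := by
  have hz1 := um_le hz
  have hpr : (0 : ℝ) < p := by exact_mod_cast hp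
  have hxr : (0 : ℝ) < x := by exact_mod_cast (by omega : 0 < x)
  have hN : 1 ≤ x / p := (Nat.one_le_div_iff hp).2 hx
  have hNr : (0 : ℝ) < ((x / p : ℕ) : ℝ) := by exact_mod_cast hN
  have hNx : (p : ℝ) * ((x / p : ℕ) : ℝ) ≤ x := by exact_mod_cast Nat.mul_div_le x p
  have hNx' : (x : ℝ) ≤ ((x / p : ℕ) : ℝ) * p + p := by
    exact_mod_cast (Nat.lt_div_mul_add hp (a := x)).le
  have hstat : Stat (p * h + 1) (fun u : ℕ → ℂ => u 0 * (starRingEnd ℂ) (u (p * h))) :=
    { bd := by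
        intro u hu
        rw [norm_mul, RCLike.norm_conj]
        exact mul_le_one₀ (hu _) (norm_nonneg _) (hu _)
      lip := by
        intro u v hu hv η hη huv
        have e : u 0 * (starRingEnd ℂ) (u (p * h)) - v 0 * (starRingEnd ℂ) (v (p * h)) =
            (u 0 - v 0) * (starRingEnd ℂ) (u (p * h)) +
              v 0 * (starRingEnd ℂ) (u (p * h) - v (p * h)) := by
          rw [map_sub]
          ring
        rw [e]
        refine (norm_add_le _ _).trans ?_
        rw [norm_mul, norm_mul, RCLike.norm_conj, RCLike.norm_conj]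
        have h1 := huv 0 (by omega)
        have h2 := huv (p * h) (by omega)
        have h3 := mul_le_mul h1 (hu (p * h)) (norm_nonneg _) hη
        have h4 := mul_le_mul (hv 0) h2 (norm_nonneg _) zero_le_one
        linarith }
  have h1 := hi _ (hstat.mono hH)
  simp only [add_zero] at h1
  have hd : avd p x (fun n => z n * (starRingEnd ℂ) (z (n + p * h))) =
      ((p : ℂ) * ((x / p : ℕ) : ℂ) / x) * cor z h (x / p) := by
    unfold avd cor avc
    rw [tr_mult hp]
    have hNc : (((x / p : ℕ) : ℂ)) ≠ 0 := by exact_mod_cast (by omega : x / p ≠ 0)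
    have hxc : (x : ℂ) ≠ 0 := by exact_mod_cast (by omega : x ≠ 0)
    have e : ∀ m, z (p * m) * (starRingEnd ℂ) (z (p * m + p * h)) =
        z m * (starRingEnd ℂ) (z (m + h)) := by
      intro m
      rw [← mul_add, hz.cm.mul, hz.cm.mul, map_mul]
      have h2 : z p * (starRingEnd ℂ) (z p) = 1 := by
        rw [RCLike.mul_conj, hz.norm p hp]
        simp
      linear_combination (z m * (starRingEnd ℂ) (z (m + h))) * h2
    simp_rw [e]
    field_simp
  have hcor : ‖cor z h (x / p)‖ ≤ 1 := by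
    unfold cor avc
    rw [norm_div, Complex.norm_natCast]
    refine div_le_one_of_le₀ ?_ (Nat.cast_nonneg _)
    refine (norm_sum_le _ _).trans ?_
    calc ∑ n ∈ Icc 1 (x / p), ‖z n * (starRingEnd ℂ) (z (n + h))‖
        ≤ ∑ _n ∈ Icc 1 (x / p), (1 : ℝ) := by
          refine Finset.sum_le_sum fun n _ => ?_
          rw [norm_mul, RCLike.norm_conj]
          exact mul_le_one₀ (hz1 _) (norm_nonneg _) (hz1 _)
      _ = ((x / p : ℕ) : ℝ) := by simp
  have h2 : ‖cor z h (x / p) - avd p x (fun n => z n * (starRingEnd ℂ) (z (n + p * h)))‖ ≤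
      p / x := by
    rw [hd]
    have e : cor z h (x / p) - ((p : ℂ) * ((x / p : ℕ) : ℂ) / x) * cor z h (x / p) =
        ((1 - (p : ℝ) * ((x / p : ℕ) : ℝ) / x : ℝ) : ℂ) * cor z h (x / p) := by
      push_cast
      ring
    rw [e, norm_mul, Complex.norm_real]
    have h3 : 0 ≤ 1 - (p : ℝ) * ((x / p : ℕ) : ℝ) / x := by
      rw [sub_nonneg, div_le_one hxr]
      exact hNx
    have h4 : 1 - (p : ℝ) * ((x / p : ℕ) : ℝ) / x ≤ p / x := by
      rw [sub_le_iff_le_add, ← add_div, le_div_iff₀ hxr]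
      linarith
    rw [Real.norm_of_nonneg h3]
    calc (1 - (p : ℝ) * ((x / p : ℕ) : ℝ) / x) * ‖cor z h (x / p)‖
        ≤ (1 - (p : ℝ) * ((x / p : ℕ) : ℝ) / x) * 1 := mul_le_mul_of_nonneg_left hcor h3
      _ ≤ p / x := by linarith
  have e : cor z h (x / p) - avc x (fun n => z n * (starRingEnd ℂ) (z (n + p * h))) =
      (cor z h (x / p) - avd p x (fun n => z n * (starRingEnd ℂ) (z (n + p * h)))) +
      (avd p x (fun n => z n * (starRingEnd ℂ) (z (n + p * h))) -
        avc x (fun n => z n * (starRingEnd ℂ) (z (n + p * h)))) := by ring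
  rw [e]
  refine (norm_add_le _ _).trans ?_
  linarith

end Pool.Agent.Work.MP_2d9442_nt.AS
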