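import Pool.Agent.Work.MP_2d9442_nt.AS.Fk
import Pool.Agent.Work.MP_2d9442_nt.AS.BadC
import Pool.Agent.Work.MP_2d9442_nt.AS.Tr
import Pool.Agent.Work.MP_2d9442_nt.AS.ScC
import Pool.Agent.Work.MP_2d9442_nt.AS.PrB

/-!
# Module Bc: a bad scale `x/P` forces coherence at the scale `x` (M)

`(H₀, c₀, N₀)` from `bad_cor K`.  `δ = c₀/16`, `(cP, P₁)` from `prc_card δ` with `D₀ = 1`
(`PP = prc δ P 1 0`, all primes of `(P, (1+δ)P]`; `0.Coprime 1`).  `fk` with `c₀/2`, `cP`, `H₀`.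
`η₀ = c₀ cP/8`.  `Cx` also `≥ N₀ + 1` (so `x/P ≥ N₀`), `≥ 3/δ`, `≥ 16/c₀`.
For `P ≥ P₀`, `x ≥ Cx P` and `AN z (x/P) ≤ K`: `bad_cor` gives `h ≤ H₀` with `‖cor z h (x/P)‖ ≥ c₀`.
For `p ∈ PP`: `‖avc x (z(n) conj z(n+ph)) - cor z h (x/P)‖ ≤ D p + p/x + 4δ` (`tr_cor`: `p h + 1 ≤ 2PH₀ + 1 ≤
(2H₀+1)P`; `cor_scale`).  Sum over `p ∈ PP`:
`‖∑_{p∈PP} avc ..‖ ≥ |PP| (c₀ - 4δ - 2P/x) - ∑_{p∈pr P} D p ≥ |PP|(c₀ - c₀/4 - c₀/8) - η₀P/log P ≥ (c₀/2)|PP|`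
since `η₀ P/log P ≤ (c₀/8)|PP|`.  Conclude with `fk`.
-/

set_option autoImplicit false

open Finset

namespace Pool.Agent.Work.MP_2d9442_nt.AS

private theorem bc_mem {δ : ℝ} {P q b p : ℕ} (h : p ∈ prc δ P q b) :
    p ∈ pr P ∧ (p : ℝ) ≤ (1 + δ) * P ∧ p % q = b % q := by
  classical
  unfold prc at h
  rw [Finset.mem_filter] at h
  exact h

theorem bc (K : ℝ) : ∃ c2 c3 η0 : ℝ, 0 < c2 ∧ 0 < c3 ∧ 0 < η0 ∧
    ∃ Q0 P0 Cx H0 : ℕ, 1 ≤ Q0 ∧ 2 ≤ P0 ∧ 1 ≤ Cx ∧ 1 ≤ H0 ∧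
      ∀ P : ℕ, P0 ≤ P → ∀ x : ℕ, Cx * P ≤ x → ∀ z : ℕ → ℂ, UM z → ∀ D : ℕ → ℝ, (∀ p, 0 ≤ D p) →
        (∀ p ∈ pr P, Ind z x p ((2 * H0 + 1) * P) (D p)) →
        ∑ p ∈ pr P, D p ≤ η0 * (P / Real.log P) → AN z (x / P) ≤ K →
          ∃ q : ℕ, 1 ≤ q ∧ q ≤ Q0 ∧ ∃ a : ℕ, a.Coprime q ∧
            ∀ L : ℕ, 1 ≤ L → (L : ℝ) ≤ c3 * P → c2 ≤ en z ((a : ℝ) / q) L x := by
  obtain ⟨H0, hH0, c0, hc0, hc01, N0, hN0, hbad⟩ := bad_cor K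
  have hδ : 0 < c0 / 16 := by positivity
  have hδ1 : c0 / 16 ≤ 1 := by linarith
  obtain ⟨cP, hcP, P1, hP13, hprc⟩ := prc_card hδ hδ1 (D0 := 1) (le_refl 1)
  obtain ⟨c2, c3, hc2, hc3, Q0, P0, Cx, hQ0, hP0, hCx, hfk⟩ :=
    fk (c0 := c0 / 2) (cP := cP) (by positivity) hcP H0
  refine ⟨c2, c3, c0 * cP / 8, hc2, hc3, by positivity, Q0, max P0 P1,
    Cx + N0 + 1 + ⌈3 / (c0 / 16)⌉₊ + ⌈16 / c0⌉₊, H0, hQ0, ?_, by omega, hH0, ?_⟩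
  · exact hP0.trans (le_max_left _ _)
  intro P hP x hx z hz D hD0 hDi hDs hAN
  have hPP0 : P0 ≤ P := (le_max_left _ _).trans hP
  have hPP1 : P1 ≤ P := (le_max_right _ _).trans hP
  have hP1 : 1 ≤ P := by omega
  have hPr : (0 : ℝ) < P := by exact_mod_cast hP1
  obtain ⟨C1, hC1⟩ : ∃ C1 : ℕ, C1 = ⌈3 / (c0 / 16)⌉₊ := ⟨_, rfl⟩
  obtain ⟨C2, hC2⟩ : ∃ C2 : ℕ, C2 = ⌈16 / c0⌉₊ := ⟨_, rfl⟩
  have hC1' : 3 / (c0 / 16) ≤ (C1 : ℝ) := by rw [hC1]; exact Nat.le_ceil _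
  have hC2' : 16 / c0 ≤ (C2 : ℝ) := by rw [hC2]; exact Nat.le_ceil _
  rw [← hC1, ← hC2] at hx
  have hxr : ((Cx : ℝ) + N0 + 1 + C1 + C2) * P ≤ x := by exact_mod_cast hx
  have hCx0 : (0 : ℝ) ≤ Cx := Nat.cast_nonneg _
  have hN00 : (0 : ℝ) ≤ N0 := Nat.cast_nonneg _
  have hC10 : (0 : ℝ) ≤ C1 := Nat.cast_nonneg _
  have hC20 : (0 : ℝ) ≤ C2 := Nat.cast_nonneg _
  have hx1 : (C1 : ℝ) * P ≤ x := by
    refine le_trans ?_ hxr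
    refine mul_le_mul_of_nonneg_right ?_ hPr.le
    linarith
  have hx2 : (C2 : ℝ) * P ≤ x := by
    refine le_trans ?_ hxr
    refine mul_le_mul_of_nonneg_right ?_ hPr.le
    linarith
  have hx3 : 3 * (P : ℝ) ≤ c0 / 16 * x := by
    rw [div_le_iff₀ hδ] at hC1'
    have := mul_le_mul_of_nonneg_left hx1 hδ.le
    nlinarith
  have hx4 : 16 * (P : ℝ) ≤ c0 * x := by
    rw [div_le_iff₀ hc0] at hC2'
    have := mul_le_mul_of_nonneg_left hx2 hc0.le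
    nlinarith
  have hxpos : (0 : ℝ) < x := by
    have : 0 < c0 * (x : ℝ) := by linarith
    exact (mul_pos_iff_of_pos_left hc0).1 this
  have hxN : N0 ≤ x / P := by
    rw [Nat.le_div_iff_mul_le (by omega)]
    refine le_trans (Nat.mul_le_mul_right P ?_) hx
    omega
  have hxCx : Cx * P ≤ x := by
    refine le_trans (Nat.mul_le_mul_right P ?_) hx
    omega
  have hx2P : 2 * P ≤ x := by
    have : (2 : ℝ) * P ≤ x := by nlinarith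
    exact_mod_cast this
  obtain ⟨h, hh1, hhH, hcor⟩ := hbad z hz (x / P) hxN hAN
  have hcard := hprc P hPP1 1 (le_refl 1) (le_refl 1) 0 (Nat.coprime_one_right 0)
  have hsub : prc (c0 / 16) P 1 0 ⊆ pr P := fun p hp => (bc_mem hp).1
  refine hfk P hPP0 x hxCx z hz (prc (c0 / 16) P 1 0) hsub hcard h hh1 hhH ?_
  have key : ∀ p ∈ prc (c0 / 16) P 1 0,
      ‖cor z h (x / P) - avc x (fun n => z n * (starRingEnd ℂ) (z (n + p * h)))‖ ≤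
        D p + 3 * c0 / 8 := by
    intro p hp
    obtain ⟨hp1, hp2, -⟩ := bc_mem hp
    have hp3 := mem_pr.1 hp1
    have h1 := cor_scale (um_le hz) hδ hδ1 hP1 (p := p) (by omega) hp2 hx3 h
    have h2 : p * h + 1 ≤ (2 * H0 + 1) * P := by
      have : p * h ≤ (2 * P) * H0 := Nat.mul_le_mul (by omega) hhH
      nlinarith
    have h3 := tr_cor hz (x := x) (p := p) (h := h) (by omega) (by omega) h2 (hDi p hp1)
    have h4 : (p : ℝ) / x ≤ c0 / 8 := by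
      rw [div_le_iff₀ hxpos]
      have : (p : ℝ) ≤ 2 * P := by exact_mod_cast hp3.1.2
      linarith
    calc ‖cor z h (x / P) - avc x (fun n => z n * (starRingEnd ℂ) (z (n + p * h)))‖
        ≤ ‖cor z h (x / P) - cor z h (x / p)‖ +
          ‖cor z h (x / p) - avc x (fun n => z n * (starRingEnd ℂ) (z (n + p * h)))‖ :=
          norm_sub_le_norm_sub_add_norm_sub _ _ _
      _ ≤ 4 * (c0 / 16) + (D p + p / x) := add_le_add h1 h3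
      _ ≤ D p + 3 * c0 / 8 := by linarith
  have h5 : ‖∑ p ∈ prc (c0 / 16) P 1 0, (cor z h (x / P) -
      avc x (fun n => z n * (starRingEnd ℂ) (z (n + p * h))))‖ ≤
        ∑ p ∈ prc (c0 / 16) P 1 0, D p + (prc (c0 / 16) P 1 0).card * (3 * c0 / 8) := by
    refine (norm_sum_le _ _).trans ?_
    refine (Finset.sum_le_sum key).trans (le_of_eq ?_)
    rw [Finset.sum_add_distrib, Finset.sum_const, nsmul_eq_mul]
  have h6 : ∑ p ∈ prc (c0 / 16) P 1 0, D p ≤ c0 * cP / 8 * (P / Real.log P) :=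
    (Finset.sum_le_sum_of_subset_of_nonneg hsub fun p _ _ => hD0 p).trans hDs
  have h7 : c0 * cP / 8 * (P / Real.log P) ≤ c0 / 8 * (prc (c0 / 16) P 1 0).card := by
    have := mul_le_mul_of_nonneg_left hcard (show 0 ≤ c0 / 8 by positivity)
    linarith
  have h8 : ‖∑ _p ∈ prc (c0 / 16) P 1 0, cor z h (x / P)‖ =
      (prc (c0 / 16) P 1 0).card * ‖cor z h (x / P)‖ := by
    rw [Finset.sum_const, nsmul_eq_mul, norm_mul, Complex.norm_natCast]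
  rw [Finset.sum_sub_distrib] at h5
  have h9 := norm_sub_norm_le (∑ _p ∈ prc (c0 / 16) P 1 0, cor z h (x / P))
    (∑ p ∈ prc (c0 / 16) P 1 0, avc x (fun n => z n * (starRingEnd ℂ) (z (n + p * h))))
  rw [h8] at h9
  have h10 : (prc (c0 / 16) P 1 0).card * c0 ≤
      (prc (c0 / 16) P 1 0).card * ‖cor z h (x / P)‖ :=
    mul_le_mul_of_nonneg_left hcor (Nat.cast_nonneg _)
  linarith

end Pool.Agent.Work.MP_2d9442_nt.AS
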