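import Pool.Agent.Work.MP_2d9442_nt.AS.Base

/-!
# Module CoA: two events out of many occur together (S)

`n(x) = ∑_{i<R} ind (B i x)` is a natural number, and `∑_{i<j<R} ind (B i x ∧ B j x) = n(n-1)/2 ≥ n - 1`
(for `n = 0`: `0 ≥ -1`).  (A way to avoid binomials: `(∑_i b_i)² = ∑_i b_i² + 2∑_{i<j} b_i b_j` with
`b_i² = b_i`, so `2∑_{i<j} = n² - n ≥ 2n - 2`, which is `(n-1)(n-2) ≥ 0`, true for natural numbers `n`.)
Average: `∑_{i<j<R} Av(ind (B_i ∧ B_j)) ≥ 3 - 1 = 2` (total mass at most one).  There are at most `R²/2` pairs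
`i < j < R`, so one has `Av ≥ 4/R²` (otherwise the sum is `< R²/2 · 4/R² = 2`; for `R = 0` the hypothesis
fails).
-/

set_option autoImplicit false

open Finset

namespace Pool.Agent.Work.MP_2d9442_nt.AS

private theorem coA_point (b : ℕ → ℝ) (hb : ∀ i, b i = 0 ∨ b i = 1) (R : ℕ) :
    (∑ i ∈ range R, b i) - 1 ≤ ∑ j ∈ range R, ∑ i ∈ range j, b i * b j ∧
      0 ≤ ∑ j ∈ range R, ∑ i ∈ range j, b i * b j ∧ 0 ≤ ∑ i ∈ range R, b i := by
  have hb0 : ∀ i, 0 ≤ b i := fun i => by rcases hb i with h | h <;> simp [h]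
  induction R with
  | zero => simp
  | succ R ih =>
    obtain ⟨h1, h2, h3⟩ := ih
    rw [Finset.sum_range_succ, Finset.sum_range_succ, ← Finset.sum_mul]
    rcases hb R with h | h
    · rw [h]
      refine ⟨by linarith, by linarith, by linarith⟩
    · rw [h]
      refine ⟨by linarith, by linarith, by linarith⟩

theorem pairs {S : Finset ℕ} {w : ℕ → ℝ} {Y : ℕ} (hw : Wt S w Y) (R : ℕ) (B : ℕ → ℕ → Prop)
    (h : 3 ≤ ∑ i ∈ range R, Av S w (fun x => ind (B i x))) :
    ∃ i j : ℕ, i < j ∧ j < R ∧ 4 / (R : ℝ) ^ 2 ≤ Av S w (fun x => ind (B i x ∧ B j x)) := by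
  by_contra hcon
  push Not at hcon
  have h1 : (∑ i ∈ range R, Av S w (fun x => ind (B i x))) - 1 ≤
      ∑ j ∈ range R, ∑ i ∈ range j, Av S w (fun x => ind (B i x ∧ B j x)) := by
    have e1 : ∑ j ∈ range R, ∑ i ∈ range j, Av S w (fun x => ind (B i x ∧ B j x)) =
        Av S w (fun x => ∑ j ∈ range R, ∑ i ∈ range j, ind (B i x) * ind (B j x)) := by
      rw [Av_sum]
      refine Finset.sum_congr rfl fun j _ => ?_
      rw [Av_sum]
      refine Finset.sum_congr rfl fun i _ => ?_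
      congr 1
      funext x
      exact ind_and _ _
    rw [e1, ← Av_sum]
    have e2 : Av S w (fun x => (∑ i ∈ range R, ind (B i x)) - 1) ≤
        Av S w (fun x => ∑ j ∈ range R, ∑ i ∈ range j, ind (B i x) * ind (B j x)) := by
      refine Av_mono hw fun x _ => ?_
      refine (coA_point (fun i => ind (B i x)) (fun i => ?_) R).1
      by_cases hB : B i x
      · exact Or.inr (ind_of hB)
      · exact Or.inl (ind_not hB)
    rw [Av_sub] at e2
    have e3 := Av_const_le hw (c := 1) zero_le_one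
    linarith
  have h2 : ∑ j ∈ range R, ∑ i ∈ range j, Av S w (fun x => ind (B i x ∧ B j x)) ≤
      ∑ j ∈ range R, (j : ℝ) * (4 / (R : ℝ) ^ 2) := by
    refine Finset.sum_le_sum fun j hj => ?_
    have e1 : ∑ i ∈ range j, Av S w (fun x => ind (B i x ∧ B j x)) ≤
        ∑ _i ∈ range j, 4 / (R : ℝ) ^ 2 :=
      Finset.sum_le_sum fun i hi =>
        (hcon i j (Finset.mem_range.1 hi) (Finset.mem_range.1 hj)).le
    rw [Finset.sum_const, Finset.card_range, nsmul_eq_mul] at e1
    exact e1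
  rcases Nat.eq_zero_or_pos R with hR | hR
  · rw [hR, Finset.sum_range_zero] at h
    linarith
  · have h3 : (∑ j ∈ range R, (j : ℝ)) * 2 = R * (R - 1) := by
      have := Finset.sum_range_id_mul_two R
      have e1 : (((∑ i ∈ range R, i) * 2 : ℕ) : ℝ) = ((R * (R - 1) : ℕ) : ℝ) := by rw [this]
      rw [Nat.cast_mul, Nat.cast_sum, Nat.cast_mul, Nat.cast_sub hR] at e1
      exact_mod_cast e1
    rw [← Finset.sum_mul] at h2
    have hR' : (0 : ℝ) < R := by exact_mod_cast hR
    have h4 : (∑ j ∈ range R, (j : ℝ)) * (4 / (R : ℝ) ^ 2) < 2 := by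
      have e1 : (∑ j ∈ range R, (j : ℝ)) = R * (R - 1) / 2 := by linarith
      rw [e1, div_mul_div_comm, div_lt_iff₀ (by positivity)]
      nlinarith
    linarith

end Pool.Agent.Work.MP_2d9442_nt.AS
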