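import Pool.Agent.Work.MP_2d9442_nt.AS.Base

/-!
# Module Grow: a slowly growing chain (S-M, Mathlib only)

`P 0 = max Pmin 3`, `k i = ⌈lam log (P i)⌉₊`, `P (i+1) = k i * P i` (define `P` by recursion, then `k`).
`lam log P_i ≥ 2 log 3 > 2`, so `k_i ≥ 3` and `P_i ≥ 3^i P_0` increases to infinity.
Divergence: `a_i = log P_i > 1`, `a_{i+1} = a_i + log k_i ≤ a_i + log(lam a_i + 1) ≤ a_i + c + log a_i`
with `c = log(lam + 1) > 1`.  With `φ(a) = log(c + log a)`:
`φ(a_{i+1}) - φ(a_i) ≤ (log a_{i+1} - log a_i)/(c + log a_i) ≤ (a_{i+1} - a_i)/(a_i (c + log a_i)) ≤ 1/a_i`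
(twice `log y - log x ≤ (y-x)/x`).  So `∑_{i<n} 1/a_i ≥ φ(a_n) - φ(a_0) → ∞`.
-/

set_option autoImplicit false

open Finset

namespace Pool.Agent.Work.MP_2d9442_nt.AS

/-- the recursion of the chain -/
private noncomputable def growP (lam : ℝ) (P0 : ℕ) : ℕ → ℕ
  | 0 => P0
  | i + 1 => ⌈lam * Real.log (growP lam P0 i)⌉₊ * growP lam P0 i

private theorem grow_log3 : 1 < Real.log 3 := by
  rw [Real.lt_log_iff_exp_lt (by norm_num)]
  exact Real.exp_one_lt_d9.trans (by norm_num)

theorem growth {lam : ℝ} (hlam : 2 ≤ lam) (Pmin : ℕ) :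
    ∃ P k : ℕ → ℕ, (∀ i, 3 ≤ P i) ∧ (∀ i, Pmin ≤ P i) ∧ (∀ i, P (i + 1) = k i * P i) ∧
      (∀ i, lam * Real.log (P i) ≤ k i) ∧
      ∀ T : ℝ, ∃ n : ℕ, T ≤ ∑ i ∈ range n, 1 / Real.log (P i) := by
  have hlog3 := grow_log3
  set P0 : ℕ := max Pmin 3 with hP0
  set P : ℕ → ℕ := growP lam P0 with hPdef
  set k : ℕ → ℕ := fun i => ⌈lam * Real.log (P i)⌉₊ with hkdef
  have hrec : ∀ i, P (i + 1) = k i * P i := fun i => rfl
  have hk : ∀ i, lam * Real.log (P i) ≤ k i := fun i => Nat.le_ceil _
  have hstep : ∀ i, 3 ≤ P i → 3 ≤ k i := by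
    intro i hi
    have h1 : Real.log 3 ≤ Real.log (P i) :=
      Real.log_le_log (by norm_num) (by exact_mod_cast hi)
    have h2 := hk i
    have h3 : (2 : ℝ) < k i := by nlinarith
    have : 2 < k i := by exact_mod_cast h3
    omega
  have h3P : ∀ i, 3 ≤ P i ∧ Pmin ≤ P i ∧ 3 ^ i ≤ P i := by
    intro i
    induction i with
    | zero => exact ⟨le_max_right _ _, le_max_left _ _, by
        change 3 ^ 0 ≤ P0
        have : 3 ≤ P0 := le_max_right _ _
        omega⟩
    | succ i ih =>
      obtain ⟨h1, h2, h3⟩ := ih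
      have h4 := hstep i h1
      have h5 : 3 * P i ≤ P (i + 1) := by
        rw [hrec]
        exact Nat.mul_le_mul_right _ h4
      refine ⟨by omega, by omega, ?_⟩
      rw [pow_succ]
      omega
  set a : ℕ → ℝ := fun i => Real.log (P i) with ha
  have ha1 : ∀ i, 1 < a i := by
    intro i
    have h1 : Real.log 3 ≤ Real.log (P i) :=
      Real.log_le_log (by norm_num) (by exact_mod_cast (h3P i).1)
    exact lt_of_lt_of_le hlog3 h1
  set c : ℝ := Real.log (lam + 1) with hc
  have hc1 : 1 < c := by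
    have : Real.log 3 ≤ Real.log (lam + 1) := Real.log_le_log (by norm_num) (by linarith)
    linarith
  have hstep2 : ∀ i, a (i + 1) ≤ a i + (c + Real.log (a i)) := by
    intro i
    have hPpos : (0 : ℝ) < P i := by
      have := (h3P i).1
      exact_mod_cast (by omega : 0 < P i)
    have hkpos : (0 : ℝ) < k i := by
      have := hstep i (h3P i).1
      exact_mod_cast (by omega : 0 < k i)
    have h1 : a (i + 1) = Real.log (k i) + a i := by
      simp only [ha]
      rw [hrec]
      push_cast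
      exact Real.log_mul hkpos.ne' hPpos.ne'
    have hapos : 0 < a i := by have := ha1 i; linarith
    have h2 : (k i : ℝ) ≤ (lam + 1) * a i := by
      have h3 : (k i : ℝ) < lam * a i + 1 := Nat.ceil_lt_add_one (by positivity)
      have := ha1 i
      nlinarith
    have h4 : Real.log (k i) ≤ c + Real.log (a i) := by
      rw [hc, ← Real.log_mul (by linarith) hapos.ne']
      exact Real.log_le_log hkpos h2
    linarith
  set φ : ℕ → ℝ := fun i => Real.log (c + Real.log (a i)) with hφ
  have hdiff : ∀ i, φ (i + 1) - φ i ≤ 1 / a i := by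
    intro i
    have hapos : 0 < a i := by have := ha1 i; linarith
    have hapos' : 0 < a (i + 1) := by have := ha1 (i + 1); linarith
    have hla : 0 ≤ Real.log (a i) := Real.log_nonneg (ha1 i).le
    have hla' : 0 ≤ Real.log (a (i + 1)) := Real.log_nonneg (ha1 (i + 1)).le
    have hb : 0 < c + Real.log (a i) := by linarith
    have hb' : 0 < c + Real.log (a (i + 1)) := by linarith
    have h1 : Real.log (a (i + 1)) - Real.log (a i) ≤ (c + Real.log (a i)) / a i := by
      rw [← Real.log_div hapos'.ne' hapos.ne']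
      refine (Real.log_le_sub_one_of_pos (div_pos hapos' hapos)).trans ?_
      rw [div_sub_one hapos.ne']
      refine div_le_div_of_nonneg_right ?_ hapos.le
      have := hstep2 i
      linarith
    have h2 : φ (i + 1) - φ i ≤
        (Real.log (a (i + 1)) - Real.log (a i)) / (c + Real.log (a i)) := by
      simp only [hφ]
      rw [← Real.log_div hb'.ne' hb.ne']
      refine (Real.log_le_sub_one_of_pos (div_pos hb' hb)).trans ?_
      rw [div_sub_one hb.ne']
      refine div_le_div_of_nonneg_right ?_ hb.le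
      linarith
    refine h2.trans ?_
    rw [div_le_iff₀ hb]
    refine h1.trans (le_of_eq ?_)
    ring
  have htel : ∀ n, φ n - φ 0 ≤ ∑ i ∈ range n, 1 / a i := by
    intro n
    induction n with
    | zero => simp
    | succ n ih =>
      rw [Finset.sum_range_succ]
      have := hdiff n
      linarith
  have hgrow : ∀ i : ℕ, (i : ℝ) ≤ a i := by
    intro i
    have h1 : Real.log ((3 : ℝ) ^ i) ≤ Real.log (P i) := by
      refine Real.log_le_log (by positivity) ?_
      exact_mod_cast (h3P i).2.2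
    rw [Real.log_pow] at h1
    have h2 : (i : ℝ) * 1 ≤ i * Real.log 3 :=
      mul_le_mul_of_nonneg_left hlog3.le (Nat.cast_nonneg i)
    linarith
  refine ⟨P, k, fun i => (h3P i).1, fun i => (h3P i).2.1, hrec, hk, fun T => ?_⟩
  set n : ℕ := ⌈Real.exp (Real.exp (T + φ 0))⌉₊ with hn
  have hn1 : Real.exp (Real.exp (T + φ 0)) ≤ n := Nat.le_ceil _
  have hnpos : (0 : ℝ) < n := (Real.exp_pos _).trans_le hn1
  have h1 : Real.exp (T + φ 0) ≤ Real.log n := (Real.le_log_iff_exp_le hnpos).2 hn1
  have h2 : Real.log n ≤ Real.log (a n) := Real.log_le_log hnpos (hgrow n)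
  have h3 : Real.exp (T + φ 0) ≤ c + Real.log (a n) := by linarith
  have h4 : T + φ 0 ≤ φ n :=
    (Real.le_log_iff_exp_le ((Real.exp_pos _).trans_le h3)).2 h3
  refine ⟨n, ?_⟩
  have := htel n
  linarith

end Pool.Agent.Work.MP_2d9442_nt.AS
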