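import Pool.Agent.Work.MP_2d9442_nt.AS.PerX
import Pool.Agent.Work.MP_2d9442_nt.AS.Grow

/-!
# Module GoodP: a scale `P` with independence at most scales `x` (M)

It suffices to prove it for `η ≤ 1`.  `(lam, T)` from `perx` with `η/2`, the chain from `growth lam Pmin`,
`n` with `∑_{i<n} 1/log P_i ≥ 8T/η`, `x₀` from `perx`, `Pmax = max_{i<n} P_i` (e.g. `P n`, or
`∑_{i<n} P_i`).  For every `x ∈ S` choose `D_x`, `bad_x`.  Weighted average over `i`:
`∑_{i<n} (1/log P_i) Av(ind (i ∈ bad_x)) = Av(∑_{i<n, i ∈ bad_x} 1/log P_i) ≤ T`, so there is `i < n` with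
`Av(ind(i ∈ bad_x)) ≤ T / ∑_{i<n} 1/log P_i ≤ η/8` (otherwise the sum is `> T`; `n ≥ 1` since `T > 0`).
With `P = P_i`, `D x p = max 0 (D_x i p)` for `x ∈ S`, `p ∈ pr P` and `0` otherwise (or
`D x p = if x ∈ S ∧ p ∈ pr P then D_x i p else 0`):
`∑_p D x p ≤ (η/2 + 4 ind(i ∈ bad_x)) P/log P`, so the average is `≤ (η/2 + 4η/8) P/log P`.
-/

set_option autoImplicit false

open Finset

namespace Pool.Agent.Work.MP_2d9442_nt.AS

private theorem goodP_small {η : ℝ} (hη : 0 < η) (hη1 : η ≤ 1) {C : ℕ} (hC : 1 ≤ C) (Pmin : ℕ) :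
    ∃ Pmax x0 : ℕ, ∀ (S : Finset ℕ) (w : ℕ → ℝ), Wt S w x0 →
      ∀ z : ℕ → ℂ, (∀ n, ‖z n‖ ≤ 1) → ∃ P : ℕ, Pmin ≤ P ∧ 3 ≤ P ∧ P ≤ Pmax ∧
        ∃ D : ℕ → ℕ → ℝ, (∀ x p, 0 ≤ D x p) ∧
          (∀ x ∈ S, ∀ p ∈ pr P, Ind z x p (C * P) (D x p)) ∧
          Av S w (fun x => ∑ p ∈ pr P, D x p) ≤ η * (P / Real.log P) := by
  classical
  obtain ⟨lam, T, hlam, hT, hperx⟩ := perx (show 0 < η / 2 by positivity) (by linarith) hC
  obtain ⟨P, k, hP3, hPm, hrec, hk, hdiv⟩ := growth hlam Pmin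
  obtain ⟨n, hn⟩ := hdiv (8 * T / η)
  obtain ⟨x0, hx0⟩ := hperx P k hP3 hrec hk n
  have hlog : ∀ i, 0 < Real.log (P i) := by
    intro i
    have := hP3 i
    exact Real.log_pos (by exact_mod_cast (by omega : 1 < P i))
  refine ⟨∑ i ∈ range n, P i, x0, fun S w hw z hz => ?_⟩
  have hch : ∀ x : ℕ, ∃ (D : ℕ → ℕ → ℝ) (bad : Finset ℕ), x ∈ S →
      (∑ i ∈ (range n).filter (fun i => i ∈ bad), 1 / Real.log (P i) ≤ T) ∧
      (∀ i < n, ∀ p ∈ pr (P i), 0 ≤ D i p ∧ Ind z x p (C * P i) (D i p)) ∧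
      (∀ i < n, i ∉ bad → ∑ p ∈ pr (P i), D i p ≤ η / 2 * (P i / Real.log (P i))) ∧
      (∀ i < n, ∑ p ∈ pr (P i), D i p ≤ 4 * (P i / Real.log (P i))) := by
    intro x
    by_cases hx : x ∈ S
    · obtain ⟨D, bad, h⟩ := hx0 x (hw.lo x hx) z hz
      exact ⟨D, bad, fun _ => h⟩
    · exact ⟨fun _ _ => 0, ∅, fun h => absurd h hx⟩
  choose D bad hDb using hch
  set b : ℕ → ℝ := fun i => Av S w (fun x => ind (i ∈ bad x)) with hb
  have hsum : ∑ i ∈ range n, 1 / Real.log (P i) * b i ≤ T := by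
    have h1 : ∑ i ∈ range n, 1 / Real.log (P i) * b i =
        Av S w (fun x => ∑ i ∈ range n, 1 / Real.log (P i) * ind (i ∈ bad x)) := by
      rw [Av_sum]
      refine Finset.sum_congr rfl fun i _ => ?_
      rw [Av_mul]
    rw [h1]
    refine Av_le hw hT.le fun x hx => ?_
    have h2 := (hDb x hx).1
    rw [Finset.sum_filter] at h2
    refine le_trans (le_of_eq ?_) h2
    refine Finset.sum_congr rfl fun i _ => ?_
    by_cases hc : i ∈ bad x
    · rw [if_pos hc, ind_of hc, mul_one]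
    · rw [if_neg hc, ind_not hc, mul_zero]
  have hex : ∃ i < n, b i ≤ η / 8 := by
    by_contra hcon
    push Not at hcon
    have h1 : ∑ i ∈ range n, 1 / Real.log (P i) * (η / 8) ≤
        ∑ i ∈ range n, 1 / Real.log (P i) * b i :=
      Finset.sum_le_sum fun i hi => mul_le_mul_of_nonneg_left
        (hcon i (Finset.mem_range.1 hi)).le (by have := hlog i; positivity)
    rw [← Finset.sum_mul] at h1
    have h2 : T ≤ (∑ i ∈ range n, 1 / Real.log (P i)) * (η / 8) := by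
      have := mul_le_mul_of_nonneg_right hn (show 0 ≤ η / 8 by positivity)
      have e : 8 * T / η * (η / 8) = T := by
        field_simp
      rwa [e] at this
    have hn0 : n ≠ 0 := by
      rintro rfl
      simp only [Finset.range_zero, Finset.sum_empty] at hn
      have : 0 < 8 * T / η := by positivity
      linarith
    -- strict inequality at some term
    have h3 : ∑ i ∈ range n, 1 / Real.log (P i) * (η / 8) <
        ∑ i ∈ range n, 1 / Real.log (P i) * b i := by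
      refine Finset.sum_lt_sum_of_nonempty (Finset.nonempty_range_iff.2 hn0) fun i hi => ?_
      exact mul_lt_mul_of_pos_left (hcon i (Finset.mem_range.1 hi))
        (by have := hlog i; positivity)
    rw [← Finset.sum_mul] at h3
    linarith
  obtain ⟨i, hi, hbi⟩ := hex
  refine ⟨P i, hPm i, hP3 i, Finset.single_le_sum (f := P) (fun _ _ => Nat.zero_le _)
    (Finset.mem_range.2 hi), fun x p => if x ∈ S ∧ p ∈ pr (P i) then D x i p else 0, ?_, ?_, ?_⟩
  · intro x p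
    by_cases h : x ∈ S ∧ p ∈ pr (P i)
    · simp only
      rw [if_pos h]
      exact ((hDb x h.1).2.1 i hi p h.2).1
    · simp only
      rw [if_neg h]
  · intro x hx p hp
    simp only
    rw [if_pos ⟨hx, hp⟩]
    exact ((hDb x hx).2.1 i hi p hp).2
  · set L : ℝ := P i / Real.log (P i) with hL
    have hPpos : (0 : ℝ) < P i := by
      have := hP3 i
      exact_mod_cast (by omega : 0 < P i)
    have hLpos : 0 < L := div_pos hPpos (hlog i)
    have h1 : Av S w (fun x => ∑ p ∈ pr (P i), if x ∈ S ∧ p ∈ pr (P i) then D x i p else 0) ≤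
        Av S w (fun x => η / 2 * L + 4 * L * ind (i ∈ bad x)) := by
      refine Av_mono hw fun x hx => ?_
      have e : ∑ p ∈ pr (P i), (if x ∈ S ∧ p ∈ pr (P i) then D x i p else 0) =
          ∑ p ∈ pr (P i), D x i p :=
        Finset.sum_congr rfl fun p hp => if_pos ⟨hx, hp⟩
      rw [e]
      by_cases hc : i ∈ bad x
      · rw [ind_of hc, mul_one]
        have := (hDb x hx).2.2.2 i hi
        have : 0 < η / 2 * L := by positivity
        linarith
      · rw [ind_not hc, mul_zero, add_zero]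
        exact (hDb x hx).2.2.1 i hi hc
    refine h1.trans ?_
    rw [Av_add, Av_mul (4 * L) (fun x => ind (i ∈ bad x))]
    have h2 : Av S w (fun _ => η / 2 * L) ≤ η / 2 * L := Av_const_le hw (by positivity)
    have h3 : 4 * L * Av S w (fun x => ind (i ∈ bad x)) ≤ 4 * L * (η / 8) :=
      mul_le_mul_of_nonneg_left hbi (by positivity)
    linarith

theorem goodP {η : ℝ} (hη : 0 < η) {C : ℕ} (hC : 1 ≤ C) (Pmin : ℕ) :
    ∃ Pmax x0 : ℕ, ∀ (S : Finset ℕ) (w : ℕ → ℝ), Wt S w x0 →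
      ∀ z : ℕ → ℂ, (∀ n, ‖z n‖ ≤ 1) → ∃ P : ℕ, Pmin ≤ P ∧ 3 ≤ P ∧ P ≤ Pmax ∧
        ∃ D : ℕ → ℕ → ℝ, (∀ x p, 0 ≤ D x p) ∧
          (∀ x ∈ S, ∀ p ∈ pr P, Ind z x p (C * P) (D x p)) ∧
          Av S w (fun x => ∑ p ∈ pr P, D x p) ≤ η * (P / Real.log P) := by
  obtain ⟨Pmax, x0, h⟩ := goodP_small (lt_min hη one_pos) (min_le_right η 1) hC Pmin
  refine ⟨Pmax, x0, fun S w hw z hz => ?_⟩
  obtain ⟨P, h1, h2, h3, D, h4, h5, h6⟩ := h S w hw z hz
  refine ⟨P, h1, h2, h3, D, h4, h5, h6.trans ?_⟩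
  refine mul_le_mul_of_nonneg_right (min_le_left _ _) ?_
  have : (1 : ℝ) ≤ P := by exact_mod_cast (by omega : 1 ≤ P)
  exact div_nonneg (by linarith) (Real.log_nonneg this)

end Pool.Agent.Work.MP_2d9442_nt.AS
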