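import Pool.Agent.Work.MP_2d9442_nt.AS.Base

/-!
# Module Wnd: changing the window length (S-M, Mathlib only)

Put `A_L(n) = loc z θ L n`, `‖A_L(n)‖ ≤ 1`.

`en_mul`: `A_{pJ}(n) = (1/p) ∑_{i<p} e(-iJθ) A_J(n + iJ)` (`Finset.sum_range` of `p*J` as a double sum:
`Finset.sum_range_mul`-like; induction on `p` with `Finset.sum_range_add`/`Finset.range_eq_Ico` works).
So `‖A_{pJ}(n)‖² ≤ (1/p) ∑_{i<p} ‖A_J(n+iJ)‖²` (Cauchy-Schwarz), and
`∑_{n ≤ N} ‖A_J(n+m)‖² ≤ ∑_{n ≤ N} ‖A_J(n)‖² + m`.  Hence `en(pJ) ≤ en(J) + pJ/N`.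

`en_wnd`: `k = L / L'` (`≥ 1`), `L A_L(n) = ∑_{i<k} e(-iL'θ) L' A_{L'}(n+iL') + R`, `‖R‖ ≤ L - kL' ≤ L'`.
So `‖A_L(n)‖ ≤ a + b` with `a = (L'/L) ∑_{i<k} ‖A_{L'}(n+iL')‖ ≤ 1`, `b = L'/L ≤ 1`, hence
`‖A_L‖² ≤ a² + 3b` and `a² ≤ (L'/L)² k ∑_i ‖A_{L'}‖² ≤ (1/k) ∑_{i<k} ‖A_{L'}(n+iL')‖²`
(`k L' ≤ L`).  Average over `n ≤ N` as before (shifts `iL' ≤ L`).
-/

set_option autoImplicit false

open Finset

namespace Pool.Agent.Work.MP_2d9442_nt.AS

private noncomputable def wB (z : ℕ → ℂ) (θ : ℝ) (L n : ℕ) : ℂ :=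
  ∑ j ∈ range L, z (n + j) * ee (-(j * θ))

private theorem wB_loc (z : ℕ → ℂ) (θ : ℝ) {L : ℕ} (hL : 1 ≤ L) (n : ℕ) :
    ‖wB z θ L n‖ = L * ‖loc z θ L n‖ := by
  have hL0 : (0 : ℝ) < L := by exact_mod_cast hL
  unfold loc
  rw [norm_div, Complex.norm_natCast, mul_div_cancel₀ _ hL0.ne']
  rfl

private theorem wB_le {z : ℕ → ℂ} (hz : ∀ n, ‖z n‖ ≤ 1) (θ : ℝ) (L n : ℕ) : ‖wB z θ L n‖ ≤ L := by
  unfold wB
  refine (norm_sum_le _ _).trans ?_
  calc ∑ j ∈ range L, ‖z (n + j) * ee (-(j * θ))‖ ≤ ∑ _j ∈ range L, (1 : ℝ) := by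
        refine Finset.sum_le_sum fun j _ => ?_
        rw [norm_mul, ee_norm, mul_one]
        exact hz _
    _ = L := by simp

private theorem wB_add (z : ℕ → ℂ) (θ : ℝ) (a b n : ℕ) :
    wB z θ (a + b) n = wB z θ a n + ee (-(a * θ)) * wB z θ b (n + a) := by
  unfold wB
  rw [Finset.sum_range_add, Finset.mul_sum]
  congr 1
  refine Finset.sum_congr rfl fun j _ => ?_
  have h : -(((a + j : ℕ) : ℝ) * θ) = -(a * θ) + -(j * θ) := by push_cast; ring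
  rw [h, ee_add, add_assoc]
  ring

private theorem wB_add_le (z : ℕ → ℂ) (θ : ℝ) (a b n : ℕ) :
    ‖wB z θ (a + b) n‖ ≤ ‖wB z θ a n‖ + ‖wB z θ b (n + a)‖ := by
  rw [wB_add]
  refine (norm_add_le _ _).trans (le_of_eq ?_)
  rw [norm_mul, ee_norm, one_mul]

private theorem wB_mul_le (z : ℕ → ℂ) (θ : ℝ) (k L n : ℕ) :
    ‖wB z θ (k * L) n‖ ≤ ∑ i ∈ range k, ‖wB z θ L (n + i * L)‖ := by
  induction k with
  | zero => simp [wB]
  | succ k ih =>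
    rw [Nat.succ_mul, Finset.sum_range_succ]
    exact (wB_add_le z θ _ _ _).trans (by linarith)

private theorem w_shift {f : ℕ → ℝ} (h0 : ∀ n, 0 ≤ f n) (h1 : ∀ n, f n ≤ 1) (N m : ℕ) :
    ∑ n ∈ Icc 1 N, f (n + m) ≤ ∑ n ∈ Icc 1 N, f n + m := by
  have e1 : ∑ n ∈ Icc 1 N, f (n + m) = ∑ n ∈ (Icc 1 N).image (fun n => n + m), f n := by
    rw [Finset.sum_image]
    intro a _ b _ hab
    exact Nat.add_right_cancel hab
  rw [e1]
  have hsub : (Icc 1 N).image (fun n => n + m) ⊆ Icc 1 N ∪ Ioc N (N + m) := by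
    intro a ha
    rw [Finset.mem_image] at ha
    obtain ⟨b, hb, rfl⟩ := ha
    rw [Finset.mem_Icc] at hb
    rw [Finset.mem_union, Finset.mem_Icc, Finset.mem_Ioc]
    omega
  refine (Finset.sum_le_sum_of_subset_of_nonneg hsub fun n _ _ => h0 n).trans ?_
  have hd : Disjoint (Icc 1 N) (Ioc N (N + m)) := by
    rw [Finset.disjoint_left]; intro x; rw [Finset.mem_Icc, Finset.mem_Ioc]; omega
  rw [Finset.sum_union hd]
  have h2 : ∑ n ∈ Ioc N (N + m), f n ≤ ∑ _n ∈ Ioc N (N + m), (1 : ℝ) :=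
    Finset.sum_le_sum fun n _ => h1 n
  have h3 : ∑ _n ∈ Ioc N (N + m), (1 : ℝ) = m := by simp
  linarith

private theorem loc_sq_le {z : ℕ → ℂ} (hz : ∀ n, ‖z n‖ ≤ 1) (θ : ℝ) (L n : ℕ) :
    ‖loc z θ L n‖ ^ 2 ≤ 1 := by
  have := loc_le_one hz θ L n
  have h0 := norm_nonneg (loc z θ L n)
  nlinarith

private theorem w_core {z : ℕ → ℂ} (hz : ∀ n, ‖z n‖ ≤ 1) (θ : ℝ) {k L N : ℕ} (hk : 1 ≤ k)
    (hN : 1 ≤ N) :
    (∑ n ∈ Icc 1 N, (∑ i ∈ range k, ‖loc z θ L (n + i * L)‖ ^ 2) / k) / N ≤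
      en z θ L N + k * L / N := by
  have hk0 : (0 : ℝ) < k := by exact_mod_cast hk
  have hN0 : (0 : ℝ) < N := by exact_mod_cast hN
  unfold en
  rw [← add_div]
  refine div_le_div_of_nonneg_right ?_ hN0.le
  rw [← Finset.sum_div, div_le_iff₀ hk0, Finset.sum_comm]
  have h1 : ∀ i ∈ range k, ∑ n ∈ Icc 1 N, ‖loc z θ L (n + i * L)‖ ^ 2 ≤
      ∑ n ∈ Icc 1 N, ‖loc z θ L n‖ ^ 2 + k * L := by
    intro i hi
    rw [Finset.mem_range] at hi
    have h2 := w_shift (f := fun n => ‖loc z θ L n‖ ^ 2) (fun n => sq_nonneg _)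
      (fun n => loc_sq_le hz θ L n) N (i * L)
    refine h2.trans ?_
    have h3 : ((i * L : ℕ) : ℝ) ≤ k * L := by
      exact_mod_cast Nat.mul_le_mul_right L hi.le
    linarith
  refine (Finset.sum_le_sum h1).trans (le_of_eq ?_)
  rw [Finset.sum_const, Finset.card_range, nsmul_eq_mul]
  ring

theorem en_mul {z : ℕ → ℂ} (hz : ∀ n, ‖z n‖ ≤ 1) {p J N : ℕ} (hp : 1 ≤ p) (hJ : 1 ≤ J)
    (hN : 1 ≤ N) (θ : ℝ) : en z θ (p * J) N ≤ en z θ J N + p * J / N := by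
  have hp0 : (0 : ℝ) < p := by exact_mod_cast hp
  have hJ0 : (0 : ℝ) < J := by exact_mod_cast hJ
  have hN0 : (0 : ℝ) < N := by exact_mod_cast hN
  refine le_trans ?_ (w_core hz θ hp hN)
  unfold en
  refine div_le_div_of_nonneg_right (Finset.sum_le_sum fun n _ => ?_) hN0.le
  have h1 := wB_mul_le z θ p J n
  rw [wB_loc z θ (Nat.one_le_iff_ne_zero.2 (Nat.mul_ne_zero (by omega) (by omega)))] at h1
  have h2 : ∑ i ∈ range p, ‖wB z θ J (n + i * J)‖ = J * ∑ i ∈ range p, ‖loc z θ J (n + i * J)‖ := by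
    rw [Finset.mul_sum]
    exact Finset.sum_congr rfl fun i _ => wB_loc z θ hJ _
  rw [h2] at h1
  push_cast at h1
  have h3 : p * ‖loc z θ (p * J) n‖ ≤ ∑ i ∈ range p, ‖loc z θ J (n + i * J)‖ := by
    refine le_of_mul_le_mul_left ?_ hJ0
    linarith
  have h4 : (∑ i ∈ range p, ‖loc z θ J (n + i * J)‖) ^ 2 ≤
      p * ∑ i ∈ range p, ‖loc z θ J (n + i * J)‖ ^ 2 := by
    have := sq_sum_le_card_mul_sum_sq (s := range p) (f := fun i => ‖loc z θ J (n + i * J)‖)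
    rwa [Finset.card_range] at this
  have h5 : (p * ‖loc z θ (p * J) n‖) ^ 2 ≤ p * ∑ i ∈ range p, ‖loc z θ J (n + i * J)‖ ^ 2 :=
    (pow_le_pow_left₀ (by positivity) h3 2).trans h4
  rw [le_div_iff₀ hp0]
  refine le_of_mul_le_mul_left ?_ hp0
  linarith

theorem en_wnd {z : ℕ → ℂ} (hz : ∀ n, ‖z n‖ ≤ 1) {L' L N : ℕ} (h1 : 1 ≤ L') (h : L' ≤ L)
    (hN : 1 ≤ N) (θ : ℝ) : en z θ L N ≤ en z θ L' N + 3 * L' / L + L / N := by
  have hL'0 : (0 : ℝ) < L' := by exact_mod_cast h1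
  have hL0 : (0 : ℝ) < L := by exact_mod_cast h1.trans h
  have hN0 : (0 : ℝ) < N := by exact_mod_cast hN
  have hLL : (L' : ℝ) ≤ L := by exact_mod_cast h
  have hk : 1 ≤ L / L' := (Nat.one_le_div_iff h1).2 h
  set k := L / L' with hkd
  have hk0 : (0 : ℝ) < k := by exact_mod_cast hk
  have hkL : k * L' ≤ L := Nat.div_mul_le_self L L'
  have hkLr : (k : ℝ) * L' ≤ L := by exact_mod_cast hkL
  have hLr : k * L' + L % L' = L := Nat.div_add_mod' L L'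
  have hr : L % L' ≤ L' := (Nat.mod_lt L h1).le
  have hrr : ((L % L' : ℕ) : ℝ) ≤ L' := by exact_mod_cast hr
  have hcore := w_core hz θ (L := L') hk hN
  have hpt : ∀ n ∈ Icc 1 N, ‖loc z θ L n‖ ^ 2 ≤
      (∑ i ∈ range k, ‖loc z θ L' (n + i * L')‖ ^ 2) / k + 3 * L' / L := by
    intro n _
    have e1 : ‖wB z θ L n‖ ≤ L' * ∑ i ∈ range k, ‖loc z θ L' (n + i * L')‖ + L' := by
      calc ‖wB z θ L n‖ = ‖wB z θ (k * L' + L % L') n‖ := by rw [hLr]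
        _ ≤ ‖wB z θ (k * L') n‖ + ‖wB z θ (L % L') (n + k * L')‖ := wB_add_le z θ _ _ _
        _ ≤ ∑ i ∈ range k, ‖wB z θ L' (n + i * L')‖ + L' :=
            add_le_add (wB_mul_le z θ k L' n) ((wB_le hz θ _ _).trans hrr)
        _ = L' * ∑ i ∈ range k, ‖loc z θ L' (n + i * L')‖ + L' := by
            rw [Finset.mul_sum]
            congr 1
            exact Finset.sum_congr rfl fun i _ => wB_loc z θ h1 _
    rw [wB_loc z θ (h1.trans h)] at e1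
    set s := ∑ i ∈ range k, ‖loc z θ L' (n + i * L')‖ with hs
    have hs0 : 0 ≤ s := Finset.sum_nonneg fun i _ => norm_nonneg _
    have hsk : s ≤ k := by
      calc s ≤ ∑ _i ∈ range k, (1 : ℝ) := Finset.sum_le_sum fun i _ => loc_le_one hz θ _ _
        _ = k := by simp
    have e2 : ‖loc z θ L n‖ ≤ L' / L * s + L' / L := by
      have : ‖loc z θ L n‖ = L * ‖loc z θ L n‖ / L := by field_simp
      rw [this, div_le_iff₀ hL0]
      have e3 : (L' / L * s + L' / L) * (L : ℝ) = L' * s + L' := by field_simp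
      rw [e3]
      exact e1
    set a := L' / L * s with ha
    set b := (L' : ℝ) / L with hb
    have hb0 : 0 ≤ b := by positivity
    have hb1 : b ≤ 1 := (div_le_one hL0).2 hLL
    have ha0 : 0 ≤ a := by positivity
    have hbk : b * k ≤ 1 := by
      rw [hb, div_mul_eq_mul_div, div_le_one hL0]
      linarith
    have ha1 : a ≤ 1 := (mul_le_mul_of_nonneg_left hsk hb0).trans hbk
    have e4 : ‖loc z θ L n‖ ^ 2 ≤ a ^ 2 + 3 * b := by
      have e5 := pow_le_pow_left₀ (norm_nonneg _) e2 2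
      nlinarith [mul_nonneg hb0 (sub_nonneg.2 ha1), mul_nonneg hb0 (sub_nonneg.2 hb1)]
    have e6 : s ^ 2 ≤ k * ∑ i ∈ range k, ‖loc z θ L' (n + i * L')‖ ^ 2 := by
      have := sq_sum_le_card_mul_sum_sq (s := range k) (f := fun i => ‖loc z θ L' (n + i * L')‖)
      rwa [Finset.card_range] at this
    have e7 : a ^ 2 ≤ (∑ i ∈ range k, ‖loc z θ L' (n + i * L')‖ ^ 2) / k := by
      rw [le_div_iff₀ hk0]
      have hT : 0 ≤ ∑ i ∈ range k, ‖loc z θ L' (n + i * L')‖ ^ 2 :=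
        Finset.sum_nonneg fun i _ => sq_nonneg _
      calc a ^ 2 * k = b ^ 2 * k * s ^ 2 := by rw [ha]; ring
        _ ≤ b ^ 2 * k * (k * ∑ i ∈ range k, ‖loc z θ L' (n + i * L')‖ ^ 2) :=
            mul_le_mul_of_nonneg_left e6 (by positivity)
        _ = (b * k) ^ 2 * ∑ i ∈ range k, ‖loc z θ L' (n + i * L')‖ ^ 2 := by ring
        _ ≤ 1 * ∑ i ∈ range k, ‖loc z θ L' (n + i * L')‖ ^ 2 :=
            mul_le_mul_of_nonneg_right (pow_le_one₀ (by positivity) hbk) hT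
        _ = _ := one_mul _
    have e8 : 3 * (L' : ℝ) / L = 3 * b := by rw [hb]; ring
    rw [e8]
    linarith
  have hfin : en z θ L N ≤ (∑ n ∈ Icc 1 N, (∑ i ∈ range k, ‖loc z θ L' (n + i * L')‖ ^ 2) / k) / N +
      3 * L' / L := by
    unfold en
    rw [div_le_iff₀ hN0, add_mul, div_mul_cancel₀ _ hN0.ne']
    refine (Finset.sum_le_sum hpt).trans (le_of_eq ?_)
    rw [Finset.sum_add_distrib, Finset.sum_const, Nat.card_Icc, nsmul_eq_mul, add_tsub_cancel_right]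
    ring
  have h9 : (k : ℝ) * L' / N ≤ L / N := div_le_div_of_nonneg_right hkLr hN0.le
  linarith

end Pool.Agent.Work.MP_2d9442_nt.AS
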