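import Pool.Agent.Work.MP_2d9442_nt.AS.Bc
import Pool.Agent.Work.MP_2d9442_nt.AS.CoA
import Pool.Agent.Work.MP_2d9442_nt.AS.GoodP
import Pool.Agent.Work.MP_2d9442_nt.AS.Wnd

/-!
# Module Co: a positive proportion of the scales is bad and coherent

Two-scale trick.  Constants from `bc K`: `c₂, c₃, η₀, Q₀, P₀, Cx, H₀`.  `R = ⌈4/ε⌉₊`, `κ₁ = 4/R²`.
Among `R` well separated good values `P_i` two of the scales `x/P_i`, `x/P_j` are bad for many `x`;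
coherence at `x` (from `P_j`) is transferred to `x/P_i`.
-/

set_option autoImplicit false

open Finset

namespace Pool.Agent.Work.MP_2d9442_nt.AS

private theorem co_pt {K c2 c3 η0 cA δ s : ℝ} {Q0 P0 Cx H0 C J Pi Pj x : ℕ}
    (hc2 : 0 < c2) (hc2' : c2 ≤ 1)
    (hbc : ∀ P : ℕ, P0 ≤ P → ∀ x : ℕ, Cx * P ≤ x → ∀ z : ℕ → ℂ, UM z → ∀ D : ℕ → ℝ, (∀ p, 0 ≤ D p) →
        (∀ p ∈ pr P, Ind z x p ((2 * H0 + 1) * P) (D p)) →
        ∑ p ∈ pr P, D p ≤ η0 * (P / Real.log P) → AN z (x / P) ≤ K →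
          ∃ q : ℕ, 1 ≤ q ∧ q ≤ Q0 ∧ ∃ a : ℕ, a.Coprime q ∧
            ∀ L : ℕ, 1 ≤ L → (L : ℝ) ≤ c3 * P → c2 ≤ en z ((a : ℝ) / q) L x)
    {z : ℕ → ℂ} (hz : UM z) (hJ : 1 ≤ J) (hPi : 3 ≤ Pi) (hQi : Q0 < Pi) (hPj : 3 ≤ Pj)
    (hPj0 : P0 ≤ Pj) (hx : Cx * Pj ≤ x) {Di Dj : ℕ → ℝ} (hDi : ∀ p, 0 ≤ Di p) (hDj : ∀ p, 0 ≤ Dj p)
    (hIi : ∀ p ∈ pr Pi, Ind z x p (C * Pi) (Di p)) (hIj : ∀ p ∈ pr Pj, Ind z x p (C * Pj) (Dj p))
    (hsi : ∑ p ∈ pr Pi, Di p < s * (Pi / Real.log Pi))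
    (hsj : ∑ p ∈ pr Pj, Dj p < s * (Pj / Real.log Pj)) (hs0 : s ≤ η0) (hsc : s ≤ c2 * cA / 16)
    (hAi : AN z (x / Pi) ≤ K) (hAj : AN z (x / Pj) ≤ K) (hC1 : 2 * H0 + 1 ≤ C) (hC2 : 2 * J ≤ C)
    (hsep : 2 * (Pi : ℝ) * J ≤ c3 * Pj) (hprc : cA * (Pi / Real.log Pi) ≤ ((prc δ Pi 1 0).card : ℝ))
    (hδ : 0 < δ) (hδ1 : δ ≤ 1) (hδc : 64 * δ ≤ c2) (hxδ : 3 * (Pi : ℝ) ≤ δ * x)
    (hxc : 32 * (Pi : ℝ) ≤ c2 * x) :
    AN z (x / Pi) ≤ K ∧ ∃ q : ℕ, 1 ≤ q ∧ q ≤ Q0 ∧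
      ∃ a : ℕ, a.Coprime q ∧ c2 / 2 ≤ en z ((a : ℝ) / q) J (x / Pi) := by
  refine ⟨hAi, ?_⟩
  have hz1 := um_le hz
  have hlogi : 0 < Real.log Pi := Real.log_pos (by
    have : (3 : ℝ) ≤ Pi := by exact_mod_cast hPi
    linarith)
  have hlogj : 0 < Real.log Pj := Real.log_pos (by
    have : (3 : ℝ) ≤ Pj := by exact_mod_cast hPj
    linarith)
  have hPi0 : (0 : ℝ) < Pi := by
    have : (3 : ℝ) ≤ Pi := by exact_mod_cast hPi
    linarith
  have hPj00 : (0 : ℝ) < Pj := by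
    have : (3 : ℝ) ≤ Pj := by exact_mod_cast hPj
    linarith
  have hr0 : 0 < (Pj : ℝ) / Real.log Pj := div_pos hPj00 hlogj
  have hri : 0 < (Pi : ℝ) / Real.log Pi := div_pos hPi0 hlogi
  obtain ⟨q, hq1, hq2, a, hac, hen⟩ := hbc Pj hPj0 x hx z hz Dj hDj
    (fun p hp => (hIj p hp).mono (Nat.mul_le_mul_right _ hC1) le_rfl)
    (hsj.le.trans (mul_le_mul_of_nonneg_right hs0 hr0.le)) hAj
  -- a good prime
  have hsub : prc δ Pi 1 0 ⊆ pr Pi := by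
    unfold prc
    exact Finset.filter_subset _ _
  obtain ⟨p, hp, hDp⟩ : ∃ p ∈ prc δ Pi 1 0, Di p ≤ c2 / 16 := by
    by_contra hcon
    push Not at hcon
    have h1 : ((prc δ Pi 1 0).card : ℝ) * (c2 / 16) ≤ ∑ p ∈ prc δ Pi 1 0, Di p := by
      rw [← nsmul_eq_mul]
      exact Finset.card_nsmul_le_sum _ _ _ fun p hp => (hcon p hp).le
    have h2 : ∑ p ∈ prc δ Pi 1 0, Di p ≤ ∑ p ∈ pr Pi, Di p :=
      Finset.sum_le_sum_of_subset_of_nonneg hsub fun p _ _ => hDi p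
    have h3 : cA * (Pi / Real.log Pi) * (c2 / 16) ≤ ((prc δ Pi 1 0).card : ℝ) * (c2 / 16) :=
      mul_le_mul_of_nonneg_right hprc (by positivity)
    have h4 : s * (Pi / Real.log Pi) ≤ c2 * cA / 16 * (Pi / Real.log Pi) :=
      mul_le_mul_of_nonneg_right hsc hri.le
    nlinarith
  have hp' := hp
  unfold prc at hp'
  rw [Finset.mem_filter, mem_pr] at hp'
  obtain ⟨⟨⟨hp1, hp2⟩, hpp⟩, hp3, -⟩ := hp'
  have hppr : p ∈ pr Pi := hsub hp
  have hp2R : (p : ℝ) ≤ 2 * Pi := by exact_mod_cast hp2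
  have hx0 : (0 : ℝ) < x := by
    by_contra hcon
    push Not at hcon
    nlinarith
  have hpx : p ≤ x := by
    have : (p : ℝ) ≤ x := by nlinarith
    exact_mod_cast this
  have hJ0 : (1 : ℝ) ≤ J := by exact_mod_cast hJ
  have h1 : c2 ≤ en z ((a : ℝ) / q) (p * J) x := by
    refine hen (p * J) (Nat.mul_pos hpp.pos (by omega)) ?_
    push_cast
    nlinarith
  have h2 := tr hz (x := x) (p := p) (J := J) (H := C * Pi) (d := Di p) hpp.one_lt.le hJ hpx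
    (by nlinarith) (hIi p hppr) ((a : ℝ) / q)
  have h3 := en_scale hz1 hδ hδ1 (P := Pi) (p := p) (x := x) (by omega) hp1.le hp3 hxδ
    ((p : ℝ) * ((a : ℝ) / q)) J
  have h4 : (p : ℝ) / x ≤ c2 / 16 := by
    rw [div_le_div_iff₀ hx0 (by norm_num)]
    nlinarith
  have h5 : c2 / 2 ≤ en z ((p : ℝ) * ((a : ℝ) / q)) J (x / Pi) := by
    have := (abs_le.1 h3).1
    linarith
  refine ⟨q, hq1, hq2, p * a, ?_, ?_⟩
  · refine Nat.Coprime.mul_left ?_ hac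
    rw [hpp.coprime_iff_not_dvd]
    intro hdvd
    have := Nat.le_of_dvd (by omega) hdvd
    omega
  · have : (((p * a : ℕ) : ℝ) / q) = (p : ℝ) * ((a : ℝ) / q) := by
      push_cast
      ring
    rw [this]
    exact h5

theorem co (K : ℝ) {ε : ℝ} (hε : 0 < ε) : ∃ c κ0 : ℝ, 0 < c ∧ 0 < κ0 ∧ κ0 ≤ 1 ∧ ∃ Q0 : ℕ, 1 ≤ Q0 ∧
    ∀ J : ℕ, 1 ≤ J → ∃ Y Pm : ℕ, ∃ κ : ℝ, 0 < κ ∧ ∀ (S : Finset ℕ) (w : ℕ → ℝ), Scl S w Y Pm κ →
      ∀ z : ℕ → ℂ, UM z → ε ≤ Av S w (fun N => ind (AN z N ≤ K)) →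
        κ0 ≤ Av S w (fun N => ind (AN z N ≤ K ∧ ∃ q : ℕ, 1 ≤ q ∧ q ≤ Q0 ∧
          ∃ a : ℕ, a.Coprime q ∧ c ≤ en z ((a : ℝ) / q) J N)) := by
  obtain ⟨c2', c3, η0, hc2', hc3, hη0, Q0, P0, Cx, H0, hQ0, hP0, hCx, hH0, hbc'⟩ := bc K
  -- make c2 at most 1
  set c2 : ℝ := min c2' 1 with hc2d
  have hc2 : 0 < c2 := lt_min hc2' one_pos
  have hc21 : c2 ≤ 1 := min_le_right _ _
  have hbc : ∀ P : ℕ, P0 ≤ P → ∀ x : ℕ, Cx * P ≤ x → ∀ z : ℕ → ℂ, UM z → ∀ D : ℕ → ℝ, (∀ p, 0 ≤ D p) →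
        (∀ p ∈ pr P, Ind z x p ((2 * H0 + 1) * P) (D p)) →
        ∑ p ∈ pr P, D p ≤ η0 * (P / Real.log P) → AN z (x / P) ≤ K →
          ∃ q : ℕ, 1 ≤ q ∧ q ≤ Q0 ∧ ∃ a : ℕ, a.Coprime q ∧
            ∀ L : ℕ, 1 ≤ L → (L : ℝ) ≤ c3 * P → c2 ≤ en z ((a : ℝ) / q) L x := by
    intro P hP x hx z hz D hD hI hs hA
    obtain ⟨q, h1, h2, a, h3, h4⟩ := hbc' P hP x hx z hz D hD hI hs hA
    exact ⟨q, h1, h2, a, h3, fun L hL hL' => (min_le_left _ _).trans (h4 L hL hL')⟩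
  set R : ℕ := ⌈4 / ε⌉₊ with hR
  have hR0 : 0 < R := Nat.ceil_pos.2 (by positivity)
  have hR1 : (1 : ℝ) ≤ R := by exact_mod_cast hR0
  have hRε : 4 ≤ R * ε := by
    have := Nat.le_ceil (4 / ε)
    rw [div_le_iff₀ hε] at this
    exact this
  set κ1 : ℝ := 4 / (R : ℝ) ^ 2 with hκ1
  have hκ10 : 0 < κ1 := by positivity
  refine ⟨c2 / 2, κ1 / 4, by positivity, by positivity, ?_, Q0, hQ0, ?_⟩
  · rw [hκ1, div_div, div_le_one (by positivity)]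
    nlinarith
  intro J hJ
  set δ : ℝ := c2 / 64 with hδd
  have hδ : 0 < δ := by positivity
  have hδ1 : δ ≤ 1 := by rw [hδd]; linarith
  obtain ⟨cA, hcA, P1, hP1, hprc⟩ := prc_card hδ hδ1 (D0 := 1) le_rfl
  set s : ℝ := min (κ1 / 4) (min η0 (c2 * cA / 16)) with hs
  have hs0 : 0 < s := lt_min (by positivity) (lt_min hη0 (by positivity))
  have hs1 : s ≤ κ1 / 4 := min_le_left _ _
  have hs2 : s ≤ η0 := (min_le_right _ _).trans (min_le_left _ _)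
  have hs3 : s ≤ c2 * cA / 16 := (min_le_right _ _).trans (min_le_right _ _)
  have hηG : 0 < s ^ 2 := by positivity
  set C : ℕ := max (2 * H0 + 1) (2 * J) with hC
  have hC1 : 2 * H0 + 1 ≤ C := le_max_left _ _
  have hC2 : 2 * J ≤ C := le_max_right _ _
  have hCpos : 1 ≤ C := by omega
  choose Mx X0 hgood using fun m => goodP hηG hCpos m
  -- the ranges
  set m : ℕ → ℕ := fun i => Nat.rec (max P0 (max P1 (Q0 + 1)))
    (fun _ mi => max mi (⌈2 * J * (Mx mi + 1) / c3⌉₊ + 1)) i with hm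
  have hmS : ∀ i, m (i + 1) = max (m i) (⌈2 * J * (Mx (m i) + 1) / c3⌉₊ + 1) := fun i => rfl
  have hm0 : ∀ i, max P0 (max P1 (Q0 + 1)) ≤ m i := by
    intro i
    induction i with
    | zero => exact le_rfl
    | succ i ih => rw [hmS]; exact ih.trans (le_max_left _ _)
  have hmono : ∀ i j, i ≤ j → m i ≤ m j := by
    intro i j hij
    induction j, hij using Nat.le_induction with
    | base => exact le_rfl
    | succ j _ ih => rw [hmS]; exact ih.trans (le_max_left _ _)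
  have hsepm : ∀ i j, i < j → 2 * (J : ℝ) * (Mx (m i) + 1) ≤ c3 * m j := by
    intro i j hij
    have h1 : m (i + 1) ≤ m j := hmono _ _ hij
    have h2 : ⌈2 * J * (Mx (m i) + 1) / c3⌉₊ ≤ m (i + 1) := by
      rw [hmS]
      exact (Nat.le_succ _).trans (le_max_right _ _)
    have h3 : 2 * (J : ℝ) * (Mx (m i) + 1) / c3 ≤ m j := by
      refine (Nat.le_ceil _).trans ?_
      exact_mod_cast h2.trans h1
    rw [div_le_iff₀ hc3] at h3
    linarith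
  set Y : ℕ := ∑ i ∈ range R, (X0 (m i) + Cx * Mx (m i) + ⌈3 / δ⌉₊ * Mx (m i) +
    ⌈32 / c2⌉₊ * Mx (m i)) with hY
  set Pm : ℕ := ∑ i ∈ range R, (Mx (m i) + 1) with hPm
  have hYi : ∀ i < R, X0 (m i) + Cx * Mx (m i) + ⌈3 / δ⌉₊ * Mx (m i) +
    ⌈32 / c2⌉₊ * Mx (m i) ≤ Y := fun i hi =>
    Finset.single_le_sum (f := fun i => X0 (m i) + Cx * Mx (m i) + ⌈3 / δ⌉₊ * Mx (m i) +
    ⌈32 / c2⌉₊ * Mx (m i)) (fun _ _ => Nat.zero_le _) (Finset.mem_range.2 hi)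
  have hPmi : ∀ i < R, Mx (m i) + 1 ≤ Pm := fun i hi =>
    Finset.single_le_sum (f := fun i => Mx (m i) + 1) (fun _ _ => Nat.zero_le _)
      (Finset.mem_range.2 hi)
  set κ : ℝ := min (1 / (R : ℝ)) (κ1 / 4) with hκ
  have hκ0 : 0 < κ := lt_min (by positivity) (by positivity)
  refine ⟨Y, Pm, κ, hκ0, ?_⟩
  intro S w hS z hz hbad
  have hz1 := um_le hz
  have hW : Wt S w Y := hS.toWt
  -- choose P i and D i
  have hch : ∀ i : ℕ, ∃ P : ℕ, ∃ D : ℕ → ℕ → ℝ, i < R → (m i ≤ P ∧ 3 ≤ P ∧ P ≤ Mx (m i) ∧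
      (∀ x p, 0 ≤ D x p) ∧ (∀ x ∈ S, ∀ p ∈ pr P, Ind z x p (C * P) (D x p)) ∧
      Av S w (fun x => ∑ p ∈ pr P, D x p) ≤ s ^ 2 * (P / Real.log P)) := by
    intro i
    by_cases hi : i < R
    · have hWi : Wt S w (X0 (m i)) :=
        ⟨hW.nonneg, hW.tot, fun N hN => (by have := hYi i hi; omega : X0 (m i) ≤ Y).trans (hW.lo N hN)⟩
      obtain ⟨P, h1, h2, h3, D, h4, h5, h6⟩ := hgood (m i) S w hWi z hz1
      exact ⟨P, D, fun _ => ⟨h1, h2, h3, h4, h5, h6⟩⟩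
    · exact ⟨0, fun _ _ => 0, fun h => absurd h hi⟩
  choose P D hPD using hch
  have hrpos : ∀ i < R, 0 < (P i : ℝ) / Real.log (P i) := by
    intro i hi
    obtain ⟨-, h2, -⟩ := hPD i hi
    have h3 : (3 : ℝ) ≤ P i := by exact_mod_cast h2
    exact div_pos (by linarith) (Real.log_pos (by linarith))
  -- bad events
  set B : ℕ → ℕ → Prop := fun i x => AN z (x / P i) ≤ K with hB
  set E : ℕ → ℕ → Prop := fun i x =>
    s * ((P i : ℝ) / Real.log (P i)) ≤ ∑ p ∈ pr (P i), D i x p with hE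
  have hEw : ∀ i < R, Av S w (fun x => ind (E i x)) ≤ s := by
    intro i hi
    obtain ⟨-, -, -, h4, -, h6⟩ := hPD i hi
    have hr := hrpos i hi
    have h7 := Av_markov hW (g := fun x => ∑ p ∈ pr (P i), D i x p)
      (fun x _ => Finset.sum_nonneg fun p _ => h4 x p) (t := s * ((P i : ℝ) / Real.log (P i)))
      (by positivity)
    refine h7.trans ?_
    rw [div_le_iff₀ (by positivity)]
    calc _ ≤ s ^ 2 * ((P i : ℝ) / Real.log (P i)) := h6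
      _ = s * (s * ((P i : ℝ) / Real.log (P i))) := by ring
  have hBw : ∀ i < R, ε - κ ≤ Av S w (fun x => ind (B i x)) := by
    intro i hi
    obtain ⟨-, h2, h3, -⟩ := hPD i hi
    have h8 := hS.dil (P i) (by omega) (by have := hPmi i hi; omega)
      (fun N => ind (AN z N ≤ K)) (fun N => ind_bd _)
    have h9 := (abs_le.1 h8).1
    have h10 : Av S w (fun N => ind (AN z (N / P i) ≤ K)) = Av S w (fun x => ind (B i x)) := rfl
    linarith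
  have hsum : 3 ≤ ∑ i ∈ range R, Av S w (fun x => ind (B i x)) := by
    have h1 : (R : ℝ) * (ε - κ) ≤ ∑ i ∈ range R, Av S w (fun x => ind (B i x)) := by
      have := Finset.card_nsmul_le_sum (range R) (fun i => Av S w (fun x => ind (B i x))) (ε - κ)
        (fun i hi => hBw i (Finset.mem_range.1 hi))
      rw [Finset.card_range, nsmul_eq_mul] at this
      exact this
    have h2 : (R : ℝ) * κ ≤ 1 := by
      have : κ ≤ 1 / (R : ℝ) := min_le_left _ _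
      calc (R : ℝ) * κ ≤ R * (1 / (R : ℝ)) := mul_le_mul_of_nonneg_left this (by linarith)
        _ = 1 := by field_simp
    nlinarith
  obtain ⟨i, j, hij, hjR, hpair⟩ := pairs hW R B hsum
  have hiR : i < R := hij.trans hjR
  obtain ⟨hi1, hi2, hi3, hi4, hi5, hi6⟩ := hPD i hiR
  obtain ⟨hj1, hj2, hj3, hj4, hj5, hj6⟩ := hPD j hjR
  have hm0i := hm0 i
  have hm0j := hm0 j
  -- the pointwise implication
  set G : ℕ → Prop := fun N => AN z N ≤ K ∧ ∃ q : ℕ, 1 ≤ q ∧ q ≤ Q0 ∧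
          ∃ a : ℕ, a.Coprime q ∧ c2 / 2 ≤ en z ((a : ℝ) / q) J N with hG
  have hpt : ∀ x ∈ S, B i x → B j x → ¬ E i x → ¬ E j x → G (x / P i) := by
    intro x hx hBi hBj hEi hEj
    have hxY : Y ≤ x := hW.lo x hx
    have hYi' := hYi i hiR
    have hYj' := hYi j hjR
    refine co_pt (cA := cA) (δ := δ) (s := s) (C := C) (Pi := P i) (Pj := P j) hc2 hc21 hbc hz hJ hi2
      ?_ hj2 ?_ ?_ (fun p => hi4 x p) (fun p => hj4 x p) (hi5 x hx) (hj5 x hx) (not_le.1 hEi)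
      (not_le.1 hEj) hs2 hs3 hBi hBj hC1 hC2 ?_ ?_ hδ hδ1 ?_ ?_ ?_
    · have := (le_max_right P1 (Q0 + 1)).trans (le_max_right P0 (max P1 (Q0 + 1)))
      omega
    · exact (le_max_left _ _).trans (hm0j.trans hj1)
    · calc Cx * P j ≤ Cx * Mx (m j) := Nat.mul_le_mul_left _ hj3
        _ ≤ x := by omega
    · have h1 := hsepm i j hij
      have h2 : (P i : ℝ) ≤ Mx (m i) := by exact_mod_cast hi3
      have h3 : (m j : ℝ) ≤ P j := by exact_mod_cast hj1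
      have hJ0 : (0 : ℝ) ≤ J := Nat.cast_nonneg J
      calc 2 * (P i : ℝ) * J = 2 * (J : ℝ) * (P i) := by ring
        _ ≤ 2 * (J : ℝ) * (Mx (m i) + 1) := mul_le_mul_of_nonneg_left (by linarith) (by positivity)
        _ ≤ c3 * m j := h1
        _ ≤ c3 * P j := mul_le_mul_of_nonneg_left h3 hc3.le
    · refine hprc (P i) ?_ 1 le_rfl le_rfl 0 (Nat.coprime_one_right 0)
      have := (le_max_left P1 (Q0 + 1)).trans (le_max_right P0 (max P1 (Q0 + 1)))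
      omega
    · rw [hδd]; linarith
    · have h1 : (⌈3 / δ⌉₊ : ℝ) * Mx (m i) ≤ x := by
        have : ⌈3 / δ⌉₊ * Mx (m i) ≤ x := by omega
        exact_mod_cast this
      have h2 : (P i : ℝ) ≤ Mx (m i) := by exact_mod_cast hi3
      have h3 : 3 / δ ≤ (⌈3 / δ⌉₊ : ℝ) := Nat.le_ceil _
      have h4 : (3 / δ) * P i ≤ x := by
        calc (3 / δ) * P i ≤ (⌈3 / δ⌉₊ : ℝ) * Mx (m i) :=
              mul_le_mul h3 h2 (Nat.cast_nonneg _) (Nat.cast_nonneg _)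
          _ ≤ x := h1
      calc 3 * (P i : ℝ) = δ * ((3 / δ) * P i) := by field_simp
        _ ≤ δ * x := mul_le_mul_of_nonneg_left h4 hδ.le
    · have h1 : (⌈32 / c2⌉₊ : ℝ) * Mx (m i) ≤ x := by
        have : ⌈32 / c2⌉₊ * Mx (m i) ≤ x := by omega
        exact_mod_cast this
      have h2 : (P i : ℝ) ≤ Mx (m i) := by exact_mod_cast hi3
      have h3 : 32 / c2 ≤ (⌈32 / c2⌉₊ : ℝ) := Nat.le_ceil _
      have h4 : (32 / c2) * P i ≤ x := by
        calc (32 / c2) * P i ≤ (⌈32 / c2⌉₊ : ℝ) * Mx (m i) :=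
              mul_le_mul h3 h2 (Nat.cast_nonneg _) (Nat.cast_nonneg _)
          _ ≤ x := h1
      calc 32 * (P i : ℝ) = c2 * ((32 / c2) * P i) := by field_simp
        _ ≤ c2 * x := mul_le_mul_of_nonneg_left h4 hc2.le
  -- weights
  have h1 : Av S w (fun x => ind (B i x ∧ B j x)) ≤
      Av S w (fun x => ind (G (x / P i))) + Av S w (fun x => ind (E i x)) +
        Av S w (fun x => ind (E j x)) := by
    rw [← Av_add, ← Av_add]
    refine Av_mono hW fun x hx => ?_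
    by_cases hBB : B i x ∧ B j x
    · by_cases hEi : E i x
      · rw [ind_of hBB, ind_of hEi]
        linarith [ind_nonneg (G (x / P i)), ind_nonneg (E j x)]
      · by_cases hEj : E j x
        · rw [ind_of hBB, ind_of hEj]
          linarith [ind_nonneg (G (x / P i)), ind_nonneg (E i x)]
        · rw [ind_of hBB, ind_of (hpt x hx hBB.1 hBB.2 hEi hEj)]
          linarith [ind_nonneg (E i x), ind_nonneg (E j x)]
    · rw [ind_not hBB]
      linarith [ind_nonneg (G (x / P i)), ind_nonneg (E i x), ind_nonneg (E j x)]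
  have h2 := hS.dil (P i) (by omega) (by have := hPmi i hiR; omega)
    (fun N => ind (G N)) (fun N => ind_bd _)
  have h3 := (abs_le.1 h2).2
  have h4 := hEw i hiR
  have h5 := hEw j hjR
  have h6 : κ ≤ κ1 / 4 := min_le_right _ _
  show κ1 / 4 ≤ Av S w (fun N => ind (G N))
  have h7 : Av S w (fun N => ind (G (N / P i))) - Av S w (fun N => ind (G N)) ≤ κ := h3
  have h8 : κ1 ≤ Av S w (fun x => ind (B i x ∧ B j x)) := hpair
  linarith

end Pool.Agent.Work.MP_2d9442_nt.AS
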