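import Pool.Agent.Work.MP_2d9442_nt.AS.Base

/-!
# Module Cyc: averages over an interval and over the cyclic group (M)

`f ω = d (z (ω.val + 1))` on `ZMod M`, `M ≤ x`.  For `n = ω.val + 1 ≤ M - H` and `i < H` we have
`(ω + i).val = ω.val + i` (`ZMod.val_add`, `ZMod.val_natCast`, no wrap around), so the discrete window is
`r (f (ω + i)) = r (d (z (n + i)))`, at distance `≤ η` from `z (n+i)`, and by `Stat.lip`
`‖Φ(z(n + ·)) - Gd Φ r H (win f H ω)‖ ≤ 2η` (extend by zero: for `i ≥ H` the value is irrelevant, take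
`u i = z(n+i)` and `v i = if i < H then r(...) else 0`; `lip` only looks at `i < H`).
All values are bounded by `1` (`Stat.bd`).  Reindex `∑_ω` as `∑_{n ∈ Icc 1 M}` (bijection
`ω ↦ ω.val + 1`; e.g. `Finset.sum_nbij'`, or via `Fin M`/`ZMod.finEquiv`).

`cyc_avc`: `‖∑_{n ≤ x} Φ_n - ∑_ω G_ω‖ ≤ 2ηM + 2H + (x - M)` (terms `n ≤ M - H`; terms `M-H < n ≤ M`;
terms `M < n ≤ x`), and `‖∑_ω G_ω‖ |1/x - 1/M| ≤ (x-M)/x`.
`cyc_avd`: the same with the restriction `p ∣ n` and the factor `p`: the numbers of multiples of `p` in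
these ranges are `≤ M/p`, `≤ H/p + 1`, `≤ (x-M)/p + 1` (`Nat.card_multiples`, `Nat.Ioc_filter_dvd_card_eq_div`;
`p ∣ M`), so the error is `≤ (p/x)(2ηM/p + 2(H/p+1) + (x-M)/p+1) + (x-M)/x`.
-/

set_option autoImplicit false

open Finset

namespace Pool.Agent.Work.MP_2d9442_nt.AS

private theorem cyc_val {M : ℕ} [NeZero M] {n : ℕ} (h1 : 1 ≤ n) (h2 : n ≤ M) :
    (((n - 1 : ℕ) : ZMod M)).val = n - 1 := by
  rw [ZMod.val_natCast, Nat.mod_eq_of_lt (by omega)]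

/-- reindexing of a sum over the cyclic group -/
private theorem cyc_reindex {M : ℕ} [NeZero M] (T : ℕ → Prop) [DecidablePred T] (g : ZMod M → ℂ) :
    ∑ ω ∈ univ.filter (fun ω : ZMod M => T (ω.val + 1)), g ω =
      ∑ n ∈ (Icc 1 M).filter T, g ((n - 1 : ℕ) : ZMod M) := by
  refine Finset.sum_nbij' (fun ω => ω.val + 1) (fun n => ((n - 1 : ℕ) : ZMod M)) ?_ ?_ ?_ ?_ ?_
  · intro ω hω
    rw [Finset.mem_filter] at hω ⊢
    rw [Finset.mem_Icc]
    have := ω.val_lt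
    exact ⟨⟨by omega, by omega⟩, hω.2⟩
  · intro n hn
    rw [Finset.mem_filter, Finset.mem_Icc] at hn
    rw [Finset.mem_filter]
    refine ⟨Finset.mem_univ _, ?_⟩
    rw [cyc_val hn.1.1 hn.1.2, Nat.sub_add_cancel hn.1.1]
    exact hn.2
  · intro ω _
    rw [Nat.add_sub_cancel, ZMod.natCast_zmod_val ω]
  · intro n hn
    rw [Finset.mem_filter, Finset.mem_Icc] at hn
    rw [cyc_val hn.1.1 hn.1.2, Nat.sub_add_cancel hn.1.1]
  · intro ω _
    rw [Nat.add_sub_cancel, ZMod.natCast_zmod_val ω]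

/-- the common computation -/
private theorem cyc_gen {z : ℕ → ℂ} (hz : ∀ n, ‖z n‖ ≤ 1) {η : ℝ} (hη : 0 ≤ η) {m : ℕ}
    (d : ℂ → Fin m) (r : Fin m → ℂ) (hr : ∀ a, ‖r a‖ ≤ 1)
    (hd : ∀ u : ℂ, ‖u‖ ≤ 1 → ‖r (d u) - u‖ ≤ η)
    {x M H : ℕ} [NeZero M] (hM : M ≤ x) {Φ : (ℕ → ℂ) → ℂ} (hΦ : Stat H Φ)
    (T : ℕ → Prop) [DecidablePred T] :
    ‖∑ n ∈ (Icc 1 x).filter T, Φ (fun i => z (n + i)) -
      ∑ ω ∈ univ.filter (fun ω : ZMod M => T (ω.val + 1)),
        Gd Φ r H (win (fun ω : ZMod M => d (z (ω.val + 1))) H ω)‖ ≤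
      2 * η * ((Icc 1 M).filter T).card + 2 * ((Ioc (M - H) M).filter T).card +
        ((Ioc M x).filter T).card ∧
    ‖∑ ω ∈ univ.filter (fun ω : ZMod M => T (ω.val + 1)),
        Gd Φ r H (win (fun ω : ZMod M => d (z (ω.val + 1))) H ω)‖ ≤
      ((Icc 1 M).filter T).card := by
  classical
  set g : ZMod M → ℂ := fun ω => Gd Φ r H (win (fun ω : ZMod M => d (z (ω.val + 1))) H ω) with hg
  have hgd : ∀ ω, g ω = Φ (fun i => if i < H then r (d (z ((ω + (i : ZMod M)).val + 1))) else 0) := by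
    intro ω
    simp only [hg, Gd, win]
    congr 1
  have hv1 : ∀ (ω : ZMod M) (i : ℕ),
      ‖(if i < H then r (d (z ((ω + (i : ZMod M)).val + 1))) else 0 : ℂ)‖ ≤ 1 := by
    intro ω i
    split_ifs
    · exact hr _
    · simp
  have hg1 : ∀ ω, ‖g ω‖ ≤ 1 := by
    intro ω
    rw [hgd]
    exact hΦ.bd _ (hv1 ω)
  have hΦ1 : ∀ n, ‖Φ (fun i => z (n + i))‖ ≤ 1 := fun n => hΦ.bd _ (fun i => hz _)
  rw [cyc_reindex T g]
  have hsplit : ∑ n ∈ (Icc 1 x).filter T, Φ (fun i => z (n + i)) =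
      ∑ n ∈ (Icc 1 M).filter T, Φ (fun i => z (n + i)) +
        ∑ n ∈ (Ioc M x).filter T, Φ (fun i => z (n + i)) := by
    rw [← Finset.sum_union]
    · congr 1
      ext n
      simp only [Finset.mem_union, Finset.mem_filter, Finset.mem_Icc, Finset.mem_Ioc]
      constructor
      · rintro ⟨⟨h1, h2⟩, h3⟩
        rcases le_or_gt n M with h | h
        · exact Or.inl ⟨⟨h1, h⟩, h3⟩
        · exact Or.inr ⟨⟨h, h2⟩, h3⟩
      · rintro (⟨⟨h1, h2⟩, h3⟩ | ⟨⟨h1, h2⟩, h3⟩)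
        · exact ⟨⟨h1, by omega⟩, h3⟩
        · exact ⟨⟨by omega, h2⟩, h3⟩
    · rw [Finset.disjoint_left]
      intro n h1 h2
      rw [Finset.mem_filter, Finset.mem_Icc] at h1
      rw [Finset.mem_filter, Finset.mem_Ioc] at h2
      omega
  refine ⟨?_, ?_⟩
  · rw [hsplit, add_sub_right_comm]
    refine (norm_add_le _ _).trans (add_le_add ?_ ?_)
    · rw [← Finset.sum_sub_distrib]
      have hpt : ∀ n ∈ (Icc 1 M).filter T,
          ‖Φ (fun i => z (n + i)) - g ((n - 1 : ℕ) : ZMod M)‖ ≤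
            2 * η + 2 * (if M - H < n then 1 else 0) := by
        intro n hn
        rw [Finset.mem_filter, Finset.mem_Icc] at hn
        obtain ⟨⟨h1, h2⟩, -⟩ := hn
        split_ifs with hc
        · refine (norm_sub_le _ _).trans ?_
          have := hΦ1 n
          have := hg1 ((n - 1 : ℕ) : ZMod M)
          linarith
        · rw [mul_zero, add_zero, hgd]
          refine hΦ.lip _ _ (fun i => hz _) (hv1 _) η hη ?_
          intro i hi
          rw [if_pos hi]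
          have e : ((((n - 1 : ℕ) : ZMod M)) + (i : ZMod M)).val + 1 = n + i := by
            rw [← Nat.cast_add, ZMod.val_natCast, Nat.mod_eq_of_lt (by omega)]
            omega
          rw [e, norm_sub_rev]
          exact hd _ (hz _)
      refine (norm_sum_le _ _).trans ((Finset.sum_le_sum hpt).trans ?_)
      rw [Finset.sum_add_distrib, Finset.sum_const, nsmul_eq_mul, ← Finset.mul_sum,
        Finset.sum_boole, Finset.filter_filter]
      refine add_le_add (le_of_eq (by ring)) (mul_le_mul_of_nonneg_left ?_ (by norm_num))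
      have hsub : (Icc 1 M).filter (fun a => T a ∧ M - H < a) ⊆ (Ioc (M - H) M).filter T := by
        intro n hn
        rw [Finset.mem_filter, Finset.mem_Icc] at hn
        rw [Finset.mem_filter, Finset.mem_Ioc]
        exact ⟨⟨hn.2.2, hn.1.2⟩, hn.2.1⟩
      exact_mod_cast Finset.card_le_card hsub
    · refine (norm_sum_le _ _).trans ?_
      calc ∑ n ∈ (Ioc M x).filter T, ‖Φ (fun i => z (n + i))‖
          ≤ ∑ _n ∈ (Ioc M x).filter T, (1 : ℝ) := Finset.sum_le_sum fun n _ => hΦ1 n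
        _ = ((Ioc M x).filter T).card := by simp
  · refine (norm_sum_le _ _).trans ?_
    calc ∑ n ∈ (Icc 1 M).filter T, ‖g ((n - 1 : ℕ) : ZMod M)‖
        ≤ ∑ _n ∈ (Icc 1 M).filter T, (1 : ℝ) := Finset.sum_le_sum fun n _ => hg1 _
      _ = ((Icc 1 M).filter T).card := by simp

theorem cyc_avc {z : ℕ → ℂ} (hz : ∀ n, ‖z n‖ ≤ 1) {η : ℝ} (hη : 0 ≤ η) {m : ℕ} (d : ℂ → Fin m)
    (r : Fin m → ℂ) (hr : ∀ a, ‖r a‖ ≤ 1) (hd : ∀ u : ℂ, ‖u‖ ≤ 1 → ‖r (d u) - u‖ ≤ η)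
    {x M H : ℕ} [NeZero M] (hM : M ≤ x) {Φ : (ℕ → ℂ) → ℂ} (hΦ : Stat H Φ) :
    ‖avc x (fun n => Φ (fun i => z (n + i))) -
      (∑ ω : ZMod M, Gd Φ r H (win (fun ω : ZMod M => d (z (ω.val + 1))) H ω)) / (M : ℂ)‖ ≤
      2 * η + (2 * H + 2 * (x - M)) / x := by
  have h := cyc_gen hz hη d r hr hd hM hΦ (fun _ => True)
  simp only [Finset.filter_true, Nat.card_Icc, Nat.card_Ioc, Nat.add_sub_cancel] at h
  unfold avc
  have hM0 : 0 < M := Nat.pos_of_ne_zero (NeZero.ne M)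
  have hMr : (0 : ℝ) < M := by exact_mod_cast hM0
  have hxr : (0 : ℝ) < x := by exact_mod_cast (by omega : 0 < x)
  have hMc : (M : ℂ) ≠ 0 := by exact_mod_cast hM0.ne'
  have hxc : (x : ℂ) ≠ 0 := by exact_mod_cast (by omega : x ≠ 0)
  have hle : (M : ℝ) ≤ x := by exact_mod_cast hM
  obtain ⟨h1, h2⟩ := h
  generalize ∑ n ∈ Icc 1 x, Φ (fun i => z (n + i)) = A at h1
  generalize ∑ ω : ZMod M, Gd Φ r H (win (fun ω : ZMod M => d (z (ω.val + 1))) H ω) = B at h1 h2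
  have e : A / (x : ℂ) - B / (M : ℂ) = (A - B) / (x : ℂ) - B * (((x - M : ℝ) : ℂ)) / ((x : ℂ) * M) := by
    push_cast
    field_simp
    ring
  rw [e]
  refine (norm_sub_le _ _).trans ?_
  rw [norm_div, norm_div, norm_mul, norm_mul, Complex.norm_natCast, Complex.norm_natCast,
    Complex.norm_real, Real.norm_of_nonneg (by linarith : (0 : ℝ) ≤ x - M)]
  have h3 : ‖A - B‖ / x ≤ (2 * η * M + 2 * H + (x - M)) / x := by
    refine div_le_div_of_nonneg_right (h1.trans ?_) hxr.le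
    have h4 : ((M - (M - H) : ℕ) : ℝ) ≤ H := by exact_mod_cast (by omega : M - (M - H) ≤ H)
    have h5 : ((x - M : ℕ) : ℝ) = x - M := Nat.cast_sub hM
    rw [h5]
    linarith
  have h4 : ‖B‖ * (x - M) / (x * M) ≤ (x - M) / x := by
    rw [div_le_div_iff₀ (by positivity) hxr]
    have : ‖B‖ * ((x - M) * x) ≤ M * ((x - M) * x) :=
      mul_le_mul_of_nonneg_right h2 (mul_nonneg (by linarith) hxr.le)
    linarith
  refine (add_le_add h3 h4).trans ?_
  rw [← add_div, add_comm (2 * η), div_add' _ _ _ hxr.ne']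
  refine div_le_div_of_nonneg_right ?_ hxr.le
  have := mul_le_mul_of_nonneg_left hle hη
  linarith

/-- multiples of `p` in an interval -/
private theorem cyc_mult {p : ℕ} (hp : 1 ≤ p) {a b : ℕ} (hab : a ≤ b) :
    (p : ℝ) * ((Ioc a b).filter (fun n => p ∣ n)).card ≤ (b - a) + p := by
  have h1 : ((Ioc 0 b).filter (fun n => p ∣ n)).card =
      ((Ioc 0 a).filter (fun n => p ∣ n)).card + ((Ioc a b).filter (fun n => p ∣ n)).card := by
    rw [← Finset.card_union_of_disjoint]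
    · congr 1
      ext n
      simp only [Finset.mem_union, Finset.mem_filter, Finset.mem_Ioc]
      constructor
      · rintro ⟨⟨h1, h2⟩, h3⟩
        rcases le_or_gt n a with h | h
        · exact Or.inl ⟨⟨h1, h⟩, h3⟩
        · exact Or.inr ⟨⟨h, h2⟩, h3⟩
      · rintro (⟨⟨h1, h2⟩, h3⟩ | ⟨⟨h1, h2⟩, h3⟩)
        · exact ⟨⟨h1, by omega⟩, h3⟩
        · exact ⟨⟨by omega, h2⟩, h3⟩
    · rw [Finset.disjoint_left]
      intro n h1 h2
      rw [Finset.mem_filter, Finset.mem_Ioc] at h1 h2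
      omega
  rw [Nat.Ioc_filter_dvd_card_eq_div, Nat.Ioc_filter_dvd_card_eq_div] at h1
  have h2 := Nat.div_mul_le_self b p
  have h3 : a < a / p * p + p := Nat.lt_div_mul_add hp
  have h4 : (((b / p : ℕ) : ℝ)) * p ≤ b := by exact_mod_cast h2
  have h5 : (a : ℝ) < ((a / p : ℕ) : ℝ) * p + p := by exact_mod_cast h3
  have h6 : ((b / p : ℕ) : ℝ) = ((a / p : ℕ) : ℝ) + ((Ioc a b).filter (fun n => p ∣ n)).card := by
    exact_mod_cast h1
  rw [h6] at h4
  linarith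

theorem cyc_avd {z : ℕ → ℂ} (hz : ∀ n, ‖z n‖ ≤ 1) {η : ℝ} (hη : 0 ≤ η) {m : ℕ} (d : ℂ → Fin m)
    (r : Fin m → ℂ) (hr : ∀ a, ‖r a‖ ≤ 1) (hd : ∀ u : ℂ, ‖u‖ ≤ 1 → ‖r (d u) - u‖ ≤ η)
    {x M H p : ℕ} [NeZero M] (hM : M ≤ x) (hp : 1 ≤ p) (hpM : p ∣ M) {Φ : (ℕ → ℂ) → ℂ}
    (hΦ : Stat H Φ) :
    ‖avd p x (fun n => Φ (fun i => z (n + i))) -
      (p : ℂ) * (∑ ω ∈ univ.filter (fun ω : ZMod M => p ∣ ω.val + 1),
        Gd Φ r H (win (fun ω : ZMod M => d (z (ω.val + 1))) H ω)) / (M : ℂ)‖ ≤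
      2 * η + (2 * H + 3 * p + 2 * (x - M)) / x := by
  have h := cyc_gen hz hη d r hr hd hM hΦ (fun n => p ∣ n)
  unfold avd
  have hM0 : 0 < M := Nat.pos_of_ne_zero (NeZero.ne M)
  have hMr : (0 : ℝ) < M := by exact_mod_cast hM0
  have hxr : (0 : ℝ) < x := by exact_mod_cast (by omega : 0 < x)
  have hMc : (M : ℂ) ≠ 0 := by exact_mod_cast hM0.ne'
  have hxc : (x : ℂ) ≠ 0 := by exact_mod_cast (by omega : x ≠ 0)
  have hle : (M : ℝ) ≤ x := by exact_mod_cast hM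
  have hpr : (0 : ℝ) < p := by exact_mod_cast hp
  obtain ⟨h1, h2⟩ := h
  have c1 : (p : ℝ) * ((Icc 1 M).filter (fun n => p ∣ n)).card = M := by
    have e1 : Icc 1 M = Ioc 0 M := rfl
    rw [e1, Nat.Ioc_filter_dvd_card_eq_div]
    exact_mod_cast Nat.mul_div_cancel' hpM
  have c2 : (p : ℝ) * ((Ioc (M - H) M).filter (fun n => p ∣ n)).card ≤ H + p := by
    refine (cyc_mult hp (Nat.sub_le M H)).trans ?_
    have h4 : ((M - (M - H) : ℕ) : ℝ) ≤ H := by exact_mod_cast (by omega : M - (M - H) ≤ H)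
    rw [Nat.cast_sub (Nat.sub_le M H)] at h4
    linarith
  have c3 : (p : ℝ) * ((Ioc M x).filter (fun n => p ∣ n)).card ≤ (x - M) + p := cyc_mult hp hM
  generalize ∑ n ∈ (Icc 1 x).filter (fun n => p ∣ n), Φ (fun i => z (n + i)) = A at h1
  generalize ∑ ω ∈ univ.filter (fun ω : ZMod M => p ∣ ω.val + 1),
    Gd Φ r H (win (fun ω : ZMod M => d (z (ω.val + 1))) H ω) = B at h1 h2
  have e : (p : ℂ) * A / (x : ℂ) - (p : ℂ) * B / (M : ℂ) =
      (p : ℂ) * (A - B) / (x : ℂ) - (p : ℂ) * B * (((x - M : ℝ) : ℂ)) / ((x : ℂ) * M) := by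
    push_cast
    field_simp
    ring
  rw [e]
  refine (norm_sub_le _ _).trans ?_
  rw [norm_div, norm_div, norm_mul, norm_mul, norm_mul, norm_mul, Complex.norm_natCast,
    Complex.norm_natCast, Complex.norm_natCast,
    Complex.norm_real, Real.norm_of_nonneg (by linarith : (0 : ℝ) ≤ x - M)]
  have hB : p * ‖B‖ ≤ M := by
    rw [← c1]
    exact mul_le_mul_of_nonneg_left h2 hpr.le
  have h3 : p * ‖A - B‖ / x ≤ (2 * η * M + 2 * (H + p) + ((x - M) + p)) / x := by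
    refine div_le_div_of_nonneg_right ?_ hxr.le
    have h4 := mul_le_mul_of_nonneg_left h1 hpr.le
    have h5 : 2 * η * ((p : ℝ) * ((Icc 1 M).filter (fun n => p ∣ n)).card) = 2 * η * M := by
      rw [c1]
    nlinarith
  have h4 : p * ‖B‖ * (x - M) / (x * M) ≤ (x - M) / x := by
    rw [div_le_div_iff₀ (by positivity) hxr]
    have : p * ‖B‖ * ((x - M) * x) ≤ M * ((x - M) * x) :=
      mul_le_mul_of_nonneg_right hB (mul_nonneg (by linarith) hxr.le)
    linarith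
  refine (add_le_add h3 h4).trans ?_
  rw [← add_div, add_comm (2 * η), div_add' _ _ _ hxr.ne']
  refine div_le_div_of_nonneg_right ?_ hxr.le
  have := mul_le_mul_of_nonneg_left hle hη
  linarith

end Pool.Agent.Work.MP_2d9442_nt.AS
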