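import Pool.Agent.Work.MP_2d9442_nt.AS.EntA

/-!
# Module EntR: residues on the cyclic group (M)

`res q ω = ω.val % q` on `ZMod M`, `M ≥ 1`.

* `res_add`: for `Q ∣ M`: `(ω + a).val = (ω.val + a) % M` (`ZMod.val_add`, `ZMod.val_natCast`), and
  `% M % Q = % Q` (`Nat.mod_mod_of_dvd`).
* `res_shift`: from `res_add`: `(u + a) % Q = (v + a) % Q ↔ u % Q = v % Q` (`Nat.ModEq`).
* `fib_res`: every residue class modulo `Q` has exactly `M/Q` elements `ω`: the numbers
  `v < M` with `v % Q = c` (`c < Q`); e.g. bijection `i ↦ c + i Q` from `range (M/Q)`, or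
  `Nat.count_modEq_card`, or: the fibres over the `Q` classes are translates of each other
  (`res_shift`-type bijection `ω ↦ ω + 1`), so all have the same size, and they add up to `M`.
* `ent_res`: `ent = log(M/(M/Q)) = log Q`.
* `res_mul_iff`: Chinese remainder theorem (`Nat.modEq_and_modEq_iff_modEq_mul`).
-/

set_option autoImplicit false

open Finset

namespace Pool.Agent.Work.MP_2d9442_nt.AS

theorem res_add {M Q : ℕ} [NeZero M] (hQ : Q ∣ M) (a : ℕ) (ω : ZMod M) :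
    res Q (ω + (a : ZMod M)) = (ω.val + a) % Q := by
  unfold res
  rw [ZMod.val_add, ZMod.val_natCast, Nat.mod_mod_of_dvd _ hQ]
  conv_lhs => rw [Nat.add_mod, Nat.mod_mod_of_dvd _ hQ, ← Nat.add_mod]

theorem res_shift {M Q : ℕ} [NeZero M] (hQ : Q ∣ M) (a : ℕ) (ω ω' : ZMod M) :
    res Q (ω + (a : ZMod M)) = res Q (ω' + (a : ZMod M)) ↔ res Q ω = res Q ω' := by
  rw [res_add hQ, res_add hQ]
  exact ⟨fun h => Nat.ModEq.add_right_cancel' a h, fun h => Nat.ModEq.add_right a h⟩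

private theorem EntR_fib_bij {Ω α β : Type*} [Fintype Ω] (X : Ω → α) (ω : Ω) (S : Finset β)
    (f : Ω → β) (h1 : ∀ ω', X ω' = X ω → f ω' ∈ S) (h2 : Function.Injective f)
    (h3 : ∀ v ∈ S, ∃ ω', X ω' = X ω ∧ f ω' = v) : fib X ω = S.card := by
  classical
  unfold fib
  refine card_bij (fun ω' _ => f ω') ?_ ?_ ?_
  · intro ω' hω'
    exact h1 ω' (mem_filter.1 hω').2
  · intro a _ b _ hab
    exact h2 hab
  · intro v hv
    obtain ⟨ω', h4, h5⟩ := h3 v hv
    exact ⟨ω', mem_filter.2 ⟨mem_univ _, h4⟩, h5⟩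

theorem fib_res {M Q : ℕ} [NeZero M] (hQ : Q ∣ M) (ω : ZMod M) :
    fib (res (M := M) Q) ω = M / Q := by
  have hQ0 : 0 < Q := Nat.pos_of_dvd_of_pos hQ (Nat.pos_of_ne_zero (NeZero.ne M))
  have h1 : fib (res (M := M) Q) ω = ((range M).filter (fun v => v ≡ ω.val [MOD Q])).card := by
    refine EntR_fib_bij _ ω _ (fun ω' => ω'.val) ?_ (ZMod.val_injective M) ?_
    · intro ω' hω'
      exact mem_filter.2 ⟨mem_range.2 (ZMod.val_lt ω'), hω'⟩
    · intro v hv
      have hv1 := mem_range.1 (mem_filter.1 hv).1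
      have hv2 := (mem_filter.1 hv).2
      refine ⟨(v : ZMod M), ?_, ZMod.val_cast_of_lt hv1⟩
      unfold res
      rw [ZMod.val_cast_of_lt hv1]
      exact hv2
  rw [h1]
  have h2 := Nat.count_modEq_card M hQ0 ω.val
  rw [Nat.count_eq_card_filter_range] at h2
  rw [h2, Nat.mod_eq_zero_of_dvd hQ, if_neg (Nat.not_lt_zero _), add_zero]

theorem ent_res {M Q : ℕ} [NeZero M] (hQ : Q ∣ M) : ent (res (M := M) Q) = Real.log Q := by
  have hM : (0 : ℝ) < M := by exact_mod_cast Nat.pos_of_ne_zero (NeZero.ne M)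
  have hQ0 : 0 < Q := Nat.pos_of_dvd_of_pos hQ (Nat.pos_of_ne_zero (NeZero.ne M))
  have hQ1 : (0 : ℝ) < Q := by exact_mod_cast hQ0
  unfold ent
  have h1 : ∀ ω ∈ (univ : Finset (ZMod M)),
      Real.log ((Fintype.card (ZMod M) : ℝ) / fib (res (M := M) Q) ω) = Real.log Q := by
    intro ω _
    rw [fib_res hQ, ZMod.card, Nat.cast_div hQ hQ1.ne', div_div_cancel₀ hM.ne']
  rw [sum_congr rfl h1, sum_const, card_univ, ZMod.card, nsmul_eq_mul, mul_div_cancel_left₀ _ hM.ne']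

theorem res_mul_iff {M Q p : ℕ} (hc : Q.Coprime p) (ω ω' : ZMod M) :
    res (Q * p) ω = res (Q * p) ω' ↔ (res Q ω, res p ω) = (res Q ω', res p ω') := by
  rw [Prod.mk.injEq]
  exact (Nat.modEq_and_modEq_iff_modEq_mul hc).symm

end Pool.Agent.Work.MP_2d9442_nt.AS
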