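import Pool.Agent.Work.MP_2d9442_nt.AS.EntC
import Pool.Agent.Work.MP_2d9442_nt.AS.EntR

/-!
# Module Cyd: from small mutual information to independence of statistics (M)

`X = win f H'`, `Y = res p`, values `y = Y ω < p`.  Put `r(y) = p - 1 - y ∈ [0, p-1]` for `y < p` and
`F(u, y) = G(i ↦ u(r(y) + i))` (`r(y) + i < p + H ≤ H'` for `i < H`); for `y ≥ p` put `F = 0`.
Apply `hel` to `X`, `Y`, `F`; `Fintype.card (ZMod M) = M`.

(1) `∑_ω F(X ω, Y ω) = ∑_ω G(win f H (ω + r(Y ω)))` and this is `p ∑_{ω : p ∣ ω.val+1} G(win f H ω)`: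
split by the value of `r(Y ω) = r ∈ range p`, substitute `ω = ω' - r`: the number of `r < p` with
`Y(ω' - r) = p - 1 - r` is `p` if `p ∣ ω'.val + 1` and `0` otherwise
(`(ω'.val - r) mod p = p-1-r mod p  ⟺  p ∣ ω'.val + 1`, using `p ∣ M` and `res_add` applied to `ω' - r`).
(2) `∑_{ω'} F(X ω, Y ω') = (M/p) ∑_{r < p} G(win f H (ω + r))` since every residue has `M/p`
representatives (`fib_res`), and `∑_ω G(win f H (ω + r)) = ∑_ω G(win f H ω)` by translation; so the
second term of `hel` is `(1/M²) (M/p) p ∑_ω G = (1/M) ∑_ω G(win f H ω)`.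
-/

set_option autoImplicit false

open Finset

namespace Pool.Agent.Work.MP_2d9442_nt.AS

private theorem cyd_iff {M p : ℕ} [NeZero M] (hp : 1 ≤ p) (hpM : p ∣ M) (ω : ZMod M) {r : ℕ}
    (hr : r < p) :
    r = p - 1 - res (M := M) p ω ↔ p ∣ (ω + (r : ZMod M)).val + 1 := by
  have h1 := res_add hpM r ω
  unfold res at h1 ⊢
  have hv : ω.val % p < p := Nat.mod_lt _ hp
  have hW : (ω + (r : ZMod M)).val % p = (ω.val % p + r) % p := by
    rw [h1, Nat.add_mod, Nat.mod_eq_of_lt hr]
  generalize (ω + (r : ZMod M)).val = W at hW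
  generalize ω.val % p = v at hv hW
  have h2 : p ∣ W + 1 ↔ W % p = p - 1 := by
    rw [Nat.dvd_iff_mod_eq_zero, Nat.add_mod]
    have hWp : W % p < p := Nat.mod_lt _ hp
    generalize W % p = w at hWp
    rcases Nat.eq_or_lt_of_le hp with h | h
    · subst h
      have : w = 0 := by omega
      subst this
      simp
    · rw [Nat.mod_eq_of_lt h]
      constructor
      · intro h3
        by_contra h4
        rw [Nat.mod_eq_of_lt (by omega)] at h3
        omega
      · intro h3
        subst h3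
        rw [Nat.sub_add_cancel hp, Nat.mod_self]
  rw [h2, hW]
  constructor
  · intro h3
    rw [Nat.mod_eq_of_lt (by omega)]
    omega
  · intro h3
    by_cases h4 : v + r < p
    · rw [Nat.mod_eq_of_lt h4] at h3
      omega
    · have h5 : (v + r) % p = v + r - p := by
        rw [Nat.mod_eq_sub_mod (by omega), Nat.mod_eq_of_lt (by omega)]
      omega

theorem cyd {M p : ℕ} [NeZero M] (hp : 1 ≤ p) (hpM : p ∣ M) {A : Type*} (f : ZMod M → A)
    {H H' : ℕ} (hH : H + p ≤ H') (G : (Fin H → A) → ℂ) (hG : ∀ u, ‖G u‖ ≤ 1) :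
    ‖(p : ℂ) * (∑ ω ∈ univ.filter (fun ω : ZMod M => p ∣ ω.val + 1), G (win f H ω)) / (M : ℂ) -
      (∑ ω, G (win f H ω)) / (M : ℂ)‖ ≤ 2 * √(mi (win f H') (res (M := M) p)) := by
  classical
  set F : (Fin H' → A) → ℕ → ℂ := fun u y =>
    if h : y < p then G (fun i : Fin H => u ⟨p - 1 - y + i, by
      have := i.2
      omega⟩) else 0 with hF
  have hFb : ∀ a b, ‖F a b‖ ≤ 1 := by
    intro a b
    simp only [hF]
    split_ifs
    · exact hG _
    · simp
  have hval : ∀ ω ω' : ZMod M, F (win f H' ω) (res (M := M) p ω') =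
      G (win f H (ω + ((p - 1 - res (M := M) p ω' : ℕ) : ZMod M))) := by
    intro ω ω'
    have hlt : res (M := M) p ω' < p := Nat.mod_lt _ hp
    simp only [hF]
    rw [dif_pos hlt]
    congr 1
    funext i
    unfold win
    simp only
    congr 1
    push_cast
    ring
  have h0 := hel (win f H') (res (M := M) p) F hFb
  have hA : ∑ ω : ZMod M, F (win f H' ω) (res (M := M) p ω) =
      (p : ℂ) * ∑ ω ∈ univ.filter (fun ω : ZMod M => p ∣ ω.val + 1), G (win f H ω) := by
    have h1 : ∀ ω : ZMod M, F (win f H' ω) (res (M := M) p ω) =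
        ∑ r ∈ range p, if r = p - 1 - res (M := M) p ω then
          G (win f H (ω + (r : ZMod M))) else 0 := by
      intro ω
      rw [hval, Finset.sum_ite_eq' (range p) (p - 1 - res (M := M) p ω)
        (fun r => G (win f H (ω + (r : ZMod M)))), if_pos]
      rw [Finset.mem_range]
      omega
    simp_rw [h1]
    rw [Finset.sum_comm]
    have h2 : ∀ r ∈ range p, (∑ ω : ZMod M, if r = p - 1 - res (M := M) p ω then
          G (win f H (ω + (r : ZMod M))) else 0) =
        ∑ ω ∈ univ.filter (fun ω : ZMod M => p ∣ ω.val + 1), G (win f H ω) := by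
      intro r hr
      rw [Finset.sum_filter]
      have h3 : ∀ ω : ZMod M, (if r = p - 1 - res (M := M) p ω then
          G (win f H (ω + (r : ZMod M))) else 0) =
          (fun ω' : ZMod M => if p ∣ ω'.val + 1 then G (win f H ω') else 0)
            (Equiv.addRight (r : ZMod M) ω) := by
        intro ω
        simp only [Equiv.coe_addRight]
        exact if_congr (cyd_iff hp hpM ω (Finset.mem_range.1 hr)) rfl rfl
      simp_rw [h3]
      exact Equiv.sum_comp (Equiv.addRight (r : ZMod M))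
        (fun ω' : ZMod M => if p ∣ ω'.val + 1 then G (win f H ω') else 0)
    rw [Finset.sum_congr rfl h2, Finset.sum_const, Finset.card_range, nsmul_eq_mul]
  have hB : ∑ ω : ZMod M, ∑ ω' : ZMod M, F (win f H' ω) (res (M := M) p ω') =
      (M : ℂ) * ∑ ω, G (win f H ω) := by
    rw [Finset.sum_comm]
    have h2 : ∀ ω' : ZMod M, ∑ ω : ZMod M, F (win f H' ω) (res (M := M) p ω') =
        ∑ ω, G (win f H ω) := by
      intro ω'
      simp_rw [hval]
      exact Equiv.sum_comp (Equiv.addRight ((p - 1 - res (M := M) p ω' : ℕ) : ZMod M))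
        (fun ω : ZMod M => G (win f H ω))
    simp_rw [h2]
    rw [Finset.sum_const, Finset.card_univ, ZMod.card, nsmul_eq_mul]
  rw [hA, hB, ZMod.card] at h0
  have hM : (M : ℂ) ≠ 0 := by exact_mod_cast NeZero.ne M
  have h3 : (M : ℂ) * (∑ ω, G (win f H ω)) / (M : ℂ) ^ 2 = (∑ ω, G (win f H ω)) / (M : ℂ) := by
    field_simp
  rw [h3] at h0
  exact h0

end Pool.Agent.Work.MP_2d9442_nt.AS
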