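import Pool.Agent.Work.MP_2d9442_nt.Defs

/-!
# Definitions for the theorem almost all scales (MP_2d9442_nt, folder AS)

Target: for all `K, ε > 0` there are `W₀, Y₀` with
`∑_{Y < N ≤ W Y, A_N(z) ≤ K} 1/N ≤ ε log W` for all `W ≥ W₀`, `Y ≥ Y₀` and all completely
multiplicative unimodular `z`.
-/

set_option autoImplicit false

open Finset

namespace Pool.Agent.Work.MP_2d9442_nt.AS

/-- average over `1 ≤ n ≤ x` -/
noncomputable def avc (x : ℕ) (g : ℕ → ℂ) : ℂ := (∑ n ∈ Icc 1 x, g n) / (x : ℂ)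

/-- normalised average over the multiples of `p`: `(p/x) ∑_{n ≤ x, p ∣ n} g n` -/
noncomputable def avd (p x : ℕ) (g : ℕ → ℂ) : ℂ :=
  (p : ℂ) * (∑ n ∈ (Icc 1 x).filter (fun n => p ∣ n), g n) / (x : ℂ)

/-- local Fourier coefficient `(1/L) ∑_{j < L} z(n+j) e(-jθ)` -/
noncomputable def loc (z : ℕ → ℂ) (θ : ℝ) (L n : ℕ) : ℂ :=
  (∑ j ∈ range L, z (n + j) * ee (-(j * θ))) / (L : ℂ)

/-- local energy at the frequency `θ`, window `L`, scale `N` -/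
noncomputable def en (z : ℕ → ℂ) (θ : ℝ) (L N : ℕ) : ℝ :=
  (∑ n ∈ Icc 1 N, ‖loc z θ L n‖ ^ 2) / (N : ℝ)

/-- correlation `(1/N) ∑_{n ≤ N} z(n) conj z(n+h)` -/
noncomputable def cor (z : ℕ → ℂ) (h N : ℕ) : ℂ :=
  avc N (fun n => z n * (starRingEnd ℂ) (z (n + h)))

/-- the primes in `(P, 2P]` -/
def pr (P : ℕ) : Finset ℕ := (Ioc P (2 * P)).filter Nat.Prime

/-- the primes in `(P, (1+δ)P]` congruent to `b` modulo `q` -/
noncomputable def prc (δ : ℝ) (P q b : ℕ) : Finset ℕ := by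
  classical
  exact (pr P).filter (fun p => (p : ℝ) ≤ (1 + δ) * P ∧ p % q = b % q)

/-- reduced fractions `(D, b)` standing for `b/D`, `D ≤ D₀` -/
def FD (D0 : ℕ) : Finset (ℕ × ℕ) :=
  ((Icc 1 D0) ×ˢ (range D0)).filter (fun s => s.2 < s.1 ∧ s.2.Coprime s.1)

/-- total energy at the fractions with denominators at most `D₀` -/
noncomputable def EF (z : ℕ → ℂ) (D0 J N : ℕ) : ℝ :=
  ∑ s ∈ FD D0, en z ((s.2 : ℝ) / (s.1 : ℝ)) J N

open Classical in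
/-- indicator of a proposition -/
noncomputable def ind (p : Prop) : ℝ := if p then 1 else 0

/-- weighted average over scales -/
noncomputable def Av (S : Finset ℕ) (w : ℕ → ℝ) (g : ℕ → ℝ) : ℝ := ∑ N ∈ S, w N * g N

/-- weights on the scales `N ∈ S`, all `≥ Y`, of total mass at most one -/
structure Wt (S : Finset ℕ) (w : ℕ → ℝ) (Y : ℕ) : Prop where
  nonneg : ∀ N, 0 ≤ w N
  tot : ∑ N ∈ S, w N ≤ 1
  lo : ∀ N ∈ S, Y ≤ N

/-- weights which are invariant under `N ↦ N / P`, `P ≤ Pm`, up to an error `κ` -/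
structure Scl (S : Finset ℕ) (w : ℕ → ℝ) (Y Pm : ℕ) (κ : ℝ) : Prop extends Wt S w Y where
  dil : ∀ P : ℕ, 1 ≤ P → P ≤ Pm → ∀ g : ℕ → ℝ, (∀ N, 0 ≤ g N ∧ g N ≤ 1) →
    |Av S w (fun N => g (N / P)) - Av S w g| ≤ κ

/-- bounded Lipschitz statistics of windows of length `H` -/
structure Stat (H : ℕ) (Φ : (ℕ → ℂ) → ℂ) : Prop where
  bd : ∀ u : ℕ → ℂ, (∀ i, ‖u i‖ ≤ 1) → ‖Φ u‖ ≤ 1
  lip : ∀ u v : ℕ → ℂ, (∀ i, ‖u i‖ ≤ 1) → (∀ i, ‖v i‖ ≤ 1) → ∀ η : ℝ, 0 ≤ η →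
    (∀ i < H, ‖u i - v i‖ ≤ η) → ‖Φ u - Φ v‖ ≤ 2 * η

/-- windows of length `H` at the scale `x` are independent of `n mod p` up to `d` -/
def Ind (z : ℕ → ℂ) (x p H : ℕ) (d : ℝ) : Prop :=
  ∀ Φ : (ℕ → ℂ) → ℂ, Stat H Φ →
    ‖avd p x (fun n => Φ (fun i => z (n + i))) - avc x (fun n => Φ (fun i => z (n + i)))‖ ≤ d

/-! ### Shannon entropy on a finite set with the uniform measure -/

open Classical in
/-- size of the fibre of `X` through `ω` -/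
noncomputable def fib {Ω α : Type*} [Fintype Ω] (X : Ω → α) (ω : Ω) : ℕ :=
  (univ.filter (fun ω' => X ω' = X ω)).card

/-- entropy -/
noncomputable def ent {Ω α : Type*} [Fintype Ω] (X : Ω → α) : ℝ :=
  (∑ ω, Real.log ((Fintype.card Ω : ℝ) / fib X ω)) / Fintype.card Ω

/-- mutual information -/
noncomputable def mi {Ω α β : Type*} [Fintype Ω] (X : Ω → α) (Y : Ω → β) : ℝ :=
  ent X + ent Y - ent (fun ω => (X ω, Y ω))

/-- window of length `H` of a function on the cyclic group -/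
def win {M : ℕ} {A : Type*} (f : ZMod M → A) (H : ℕ) (ω : ZMod M) : Fin H → A :=
  fun i => f (ω + ((i : ℕ) : ZMod M))

/-- residue modulo `q` -/
def res {M : ℕ} (q : ℕ) (ω : ZMod M) : ℕ := ω.val % q

/-- a statistic evaluated at a discrete window -/
noncomputable def Gd {A : Type*} (Φ : (ℕ → ℂ) → ℂ) (r : A → ℂ) (H : ℕ) (u : Fin H → A) : ℂ :=
  Φ (fun i => if h : i < H then r (u ⟨i, h⟩) else 0)

end Pool.Agent.Work.MP_2d9442_nt.AS
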