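import Pool.Agent.Work.MP_2d9442_nt.AS.Base

/-!
# Module Dsc: discretisation of the unit disc (S, Mathlib only)

The closed unit ball of `ℂ` is compact: finitely many balls of radius `η` with centres in the unit ball
cover it (`IsCompact.finite_cover_balls` / `(isCompact_closedBall 0 1).finite_cover_balls hη`).  Enumerate
the centres by `Fin n` (`Finset.equivFin`), `d u` = index of some centre at distance `< η` if there is
one, any index otherwise (the set of centres is nonempty since it covers `0`).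
-/

set_option autoImplicit false

open Finset

namespace Pool.Agent.Work.MP_2d9442_nt.AS

theorem dsc {η : ℝ} (hη : 0 < η) : ∃ (n : ℕ) (d : ℂ → Fin n) (r : Fin n → ℂ),
    (∀ a, ‖r a‖ ≤ 1) ∧ ∀ u : ℂ, ‖u‖ ≤ 1 → ‖r (d u) - u‖ ≤ η := by
  classical
  obtain ⟨t, hts, htf, htc⟩ := (isCompact_closedBall (0 : ℂ) 1).finite_cover_balls hη
  have hex : ∀ u : ℂ, ‖u‖ ≤ 1 → ∃ c ∈ t, ‖c - u‖ ≤ η := by
    intro u hu
    have h1 : u ∈ Metric.closedBall (0 : ℂ) 1 := by
      rw [Metric.mem_closedBall, dist_zero_right]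
      exact hu
    obtain ⟨c, hc, hd⟩ := Set.mem_iUnion₂.1 (htc h1)
    refine ⟨c, hc, ?_⟩
    rw [Metric.mem_ball, dist_comm, dist_eq_norm] at hd
    exact hd.le
  obtain ⟨c0, hc0, -⟩ := hex 0 (by simp)
  have h : ∀ u : ℂ, ∃ c : htf.toFinset, ‖u‖ ≤ 1 → ‖(c : ℂ) - u‖ ≤ η := by
    intro u
    by_cases hu : ‖u‖ ≤ 1
    · obtain ⟨c, hc, hd⟩ := hex u hu
      exact ⟨⟨c, htf.mem_toFinset.2 hc⟩, fun _ => hd⟩
    · exact ⟨⟨c0, htf.mem_toFinset.2 hc0⟩, fun h => absurd h hu⟩
  choose c hc using h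
  let e := htf.toFinset.equivFin
  refine ⟨htf.toFinset.card, fun u => e (c u), fun a => ((e.symm a : htf.toFinset) : ℂ), ?_, ?_⟩
  · intro a
    have h1 := hts (htf.mem_toFinset.1 (e.symm a).2)
    rw [Metric.mem_closedBall, dist_zero_right] at h1
    exact h1
  · intro u hu
    simp only [Equiv.symm_apply_apply]
    exact hc u hu

end Pool.Agent.Work.MP_2d9442_nt.AS
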