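import Pool.Agent.Work.MP_2d9442_nt.AS.Base

/-!
# Module EntA: first facts on the entropy of a map on a finite uniform space (S-M, Mathlib only)

`ent X = (1/|Ω|) ∑_ω log(|Ω| / fib X ω)`, `fib X ω = #{ω' : X ω' = X ω}`.

* `fib_pos`: `ω` itself is in the fibre.  `fib_le`: at most `|Ω|`.
* `fib_congr`, `ent_congr`: if `X` and `X'` have the same fibres the filters are equal.
* `ent_equiv`: `fib (X ∘ e) ω = fib X (e ω)` (the bijection `e` maps one filter onto the other,
  `Finset.card_bij` / `card_map`), then reindex the outer sum with `e` (`Equiv.sum_comp`).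
* `ent_nonneg`: every summand is `log` of a number `≥ 1`.
* `ent_le_pair`: the fibre of the pair is contained in the fibre of `X`.
* `sum_inv_fib`: `∑_ω 1/fib X ω` is the number of values of `X`, here only the bound: for `α` finite
  `∑_ω 1/fib X ω ≤ |α|` (`Finset.sum_fiberwise`: for each value `a`, `∑_{ω : X ω = a} 1/fib X ω = 1` or
  `0`).  More generally `sum_inv_fib_on`: `∑_{ω : X ω = X ω₀} 1/fib X ω = 1`.
* `ent_le_log`: with `m = |α|`, `-log t ≥ 1 - t` for `t = |Ω|/(m fib)`: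
  `log m - ent X = (1/|Ω|) ∑ log(m fib/|Ω|) ≥ (1/|Ω|) ∑ (1 - |Ω|/(m fib)) ≥ 1 - (1/m) m = 0`
  (`Real.add_one_le_exp` or `Real.log_le_sub_one_of_pos`, `Real.one_sub_inv_le_log_of_pos`).
-/

set_option autoImplicit false

open Finset

namespace Pool.Agent.Work.MP_2d9442_nt.AS

variable {Ω α β : Type*} [Fintype Ω]

theorem fib_pos (X : Ω → α) (ω : Ω) : 0 < fib X ω := by
  classical
  unfold fib
  exact card_pos.2 ⟨ω, by simp⟩

open Classical in
theorem fib_le (X : Ω → α) (ω : Ω) : fib X ω ≤ Fintype.card Ω := by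
  unfold fib
  exact card_filter_le _ _

open Classical in
private theorem EntA_fib_mono {X : Ω → α} {X' : Ω → β} {ω : Ω}
    (h : ∀ ω', X ω' = X ω → X' ω' = X' ω) : fib X ω ≤ fib X' ω := by
  unfold fib
  refine card_le_card fun ω' hω' => ?_
  rw [mem_filter] at hω' ⊢
  exact ⟨hω'.1, h ω' hω'.2⟩

theorem fib_congr {X : Ω → α} {X' : Ω → β} (h : ∀ ω ω', X ω = X ω' ↔ X' ω = X' ω') (ω : Ω) :
    fib X ω = fib X' ω :=
  le_antisymm (EntA_fib_mono fun ω' => (h ω' ω).1) (EntA_fib_mono fun ω' => (h ω' ω).2)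

theorem ent_congr {X : Ω → α} {X' : Ω → β} (h : ∀ ω ω', X ω = X ω' ↔ X' ω = X' ω') :
    ent X = ent X' := by
  unfold ent
  rw [sum_congr rfl fun ω _ => by rw [fib_congr h ω]]

theorem fib_equiv (e : Ω ≃ Ω) (X : Ω → α) (ω : Ω) : fib (fun ω => X (e ω)) ω = fib X (e ω) := by
  classical
  unfold fib
  exact card_equiv e fun i => by simp

theorem ent_equiv (e : Ω ≃ Ω) (X : Ω → α) : ent (fun ω => X (e ω)) = ent X := by
  unfold ent
  congr 1
  rw [← e.sum_comp fun ω => Real.log ((Fintype.card Ω : ℝ) / fib X ω)]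
  exact sum_congr rfl fun ω _ => by rw [fib_equiv]

private theorem EntA_one_le (X : Ω → α) (ω : Ω) : 1 ≤ (Fintype.card Ω : ℝ) / fib X ω := by
  have h1 : (0 : ℝ) < fib X ω := by exact_mod_cast fib_pos X ω
  rw [one_le_div h1]
  exact_mod_cast fib_le X ω

theorem ent_nonneg (X : Ω → α) : 0 ≤ ent X := by
  unfold ent
  exact div_nonneg (sum_nonneg fun ω _ => Real.log_nonneg (EntA_one_le X ω)) (Nat.cast_nonneg _)

theorem ent_le_pair (X : Ω → α) (Y : Ω → β) : ent X ≤ ent (fun ω => (X ω, Y ω)) := by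
  classical
  unfold ent
  refine div_le_div_of_nonneg_right (sum_le_sum fun ω _ => ?_) (Nat.cast_nonneg _)
  have h1 : (0 : ℝ) < fib (fun ω => (X ω, Y ω)) ω := by exact_mod_cast fib_pos _ ω
  have h2 : fib (fun ω => (X ω, Y ω)) ω ≤ fib X ω :=
    EntA_fib_mono fun ω' h => congrArg Prod.fst h
  have h3 : (fib (fun ω => (X ω, Y ω)) ω : ℝ) ≤ fib X ω := by exact_mod_cast h2
  refine Real.log_le_log (lt_of_lt_of_le one_pos (EntA_one_le X ω)) ?_
  exact div_le_div_of_nonneg_left (Nat.cast_nonneg _) h1 h3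

open Classical in
theorem sum_inv_fib_on (X : Ω → α) (ω₀ : Ω) :
    ∑ ω ∈ univ.filter (fun ω => X ω = X ω₀), 1 / (fib X ω : ℝ) = 1 := by
  have h1 : ∀ ω ∈ univ.filter (fun ω => X ω = X ω₀), 1 / (fib X ω : ℝ) = 1 / (fib X ω₀ : ℝ) := by
    intro ω hω
    rw [mem_filter] at hω
    have : fib X ω = fib X ω₀ := by
      unfold fib
      rw [hω.2]
    rw [this]
  rw [sum_congr rfl h1, sum_const, nsmul_eq_mul]
  have h2 : (univ.filter (fun ω => X ω = X ω₀)).card = fib X ω₀ := rfl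
  have h3 : (0 : ℝ) < fib X ω₀ := by exact_mod_cast fib_pos X ω₀
  rw [h2, mul_one_div, div_self h3.ne']

theorem sum_inv_fib [Fintype α] (X : Ω → α) : ∑ ω, 1 / (fib X ω : ℝ) ≤ Fintype.card α := by
  classical
  rw [← sum_fiberwise univ X]
  have h1 : ∀ a ∈ (univ : Finset α), ∑ ω ∈ univ.filter (fun ω => X ω = a), 1 / (fib X ω : ℝ) ≤ 1 := by
    intro a _
    by_cases h : ∃ ω₀, X ω₀ = a
    · obtain ⟨ω₀, rfl⟩ := h
      refine le_of_eq ?_
      convert sum_inv_fib_on X ω₀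
    · have h2 : univ.filter (fun ω => X ω = a) = ∅ :=
        filter_eq_empty_iff.2 fun ω _ hω => h ⟨ω, hω⟩
      rw [h2, sum_empty]
      exact zero_le_one
  refine (sum_le_sum h1).trans ?_
  rw [sum_const, nsmul_eq_mul, mul_one, card_univ]

theorem ent_le_log [Nonempty Ω] [Fintype α] (X : Ω → α) :
    ent X ≤ Real.log (Fintype.card α) := by
  obtain ⟨ω₀⟩ := ‹Nonempty Ω›
  have hn : (0 : ℝ) < Fintype.card Ω := by exact_mod_cast Fintype.card_pos_iff.2 ⟨ω₀⟩
  have hm : (0 : ℝ) < Fintype.card α := by exact_mod_cast Fintype.card_pos_iff.2 ⟨X ω₀⟩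
  unfold ent
  rw [div_le_iff₀ hn]
  have h1 : ∀ ω ∈ (univ : Finset Ω), Real.log ((Fintype.card Ω : ℝ) / fib X ω) ≤
      Real.log (Fintype.card α) + ((Fintype.card Ω : ℝ) / Fintype.card α * (1 / (fib X ω : ℝ)) - 1) := by
    intro ω _
    have hf : (0 : ℝ) < fib X ω := by exact_mod_cast fib_pos X ω
    have h2 : (Fintype.card Ω : ℝ) / fib X ω =
        Fintype.card α * ((Fintype.card Ω : ℝ) / Fintype.card α * (1 / (fib X ω : ℝ))) := by
      field_simp
    rw [h2, Real.log_mul hm.ne' (by positivity)]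
    have h3 := Real.log_le_sub_one_of_pos
      (x := (Fintype.card Ω : ℝ) / Fintype.card α * (1 / (fib X ω : ℝ))) (by positivity)
    linarith
  refine (sum_le_sum h1).trans ?_
  rw [sum_add_distrib, sum_sub_distrib, ← mul_sum, sum_const, sum_const, card_univ, nsmul_eq_mul,
    nsmul_eq_mul, mul_one]
  have h4 := mul_le_mul_of_nonneg_left (sum_inv_fib X)
    (by positivity : (0 : ℝ) ≤ (Fintype.card Ω : ℝ) / Fintype.card α)
  have h5 : (Fintype.card Ω : ℝ) / Fintype.card α * Fintype.card α = Fintype.card Ω := by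
    field_simp
  rw [h5] at h4
  linarith

end Pool.Agent.Work.MP_2d9442_nt.AS
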