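import Pool.Agent.Work.MP_2d9442_nt.AS.EntA

/-!
# Module EntB: submodularity of entropy (M)

Write `N_X(ω) = fib X ω` etc.  Then
`ent(X,Z) + ent(Y,Z) - ent(X,Y,Z) - ent Z = (1/|Ω|) ∑_ω log( N_{XYZ} N_Z / (N_{XZ} N_{YZ}) )`
`≥ (1/|Ω|) ∑_ω (1 - N_{XZ} N_{YZ}/(N_{XYZ} N_Z))` by `log t ≥ 1 - 1/t`.  So it suffices that
`∑_ω N_{XZ}(ω) N_{YZ}(ω)/(N_{XYZ}(ω) N_Z(ω)) ≤ |Ω|`.  The product `N_{XZ}(ω) N_{YZ}(ω)` is the number of
pairs `(α, β)` with `X α = X ω`, `Z α = Z ω`, `Y β = Y ω`, `Z β = Z ω`.  Exchange the summation: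
the sum is `∑_{(α,β), Z α = Z β} (1/N_Z(α)) ∑_{ω : X ω = X α, Y ω = Y β, Z ω = Z α} 1/N_{XYZ}(ω)`.
The inner sum is over one fibre of the triple (or empty), on which `N_{XYZ}` is the cardinality of the
fibre; so it is `1` or `0` (`sum_inv_fib_on`).  Hence the total is at most
`∑_α ∑_{β : Z β = Z α} 1/N_Z(α) = ∑_α 1 = |Ω|`.
(If `Ω` is empty everything is `0`.)
-/

set_option autoImplicit false

open Finset

namespace Pool.Agent.Work.MP_2d9442_nt.AS

variable {Ω α β γ : Type*} [Fintype Ω]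

open Classical in
private theorem EntB_fib (X : Ω → α) (ω : Ω) :
    (fib X ω : ℝ) = ∑ a, if X a = X ω then (1 : ℝ) else 0 := by
  unfold fib
  rw [card_filter]
  push_cast
  rfl

open Classical in
private theorem EntB_inner {δ : Type*} (U : Ω → α) (V : Ω → β) (T : Ω → δ) (Z : Ω → γ)
    (hT : ∀ a b ω ω₀, U a = U ω₀ → V b = V ω₀ → ((U a = U ω ∧ V b = V ω) ↔ T ω = T ω₀))
    (hU : ∀ a ω, U a = U ω → Z a = Z ω) (hV : ∀ b ω, V b = V ω → Z b = Z ω) (a b : Ω) :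
    ∑ ω, (if U a = U ω then (1 : ℝ) else 0) * (if V b = V ω then (1 : ℝ) else 0) /
        ((fib T ω : ℝ) * fib Z ω) ≤
      (if Z b = Z a then (1 : ℝ) else 0) / fib Z a := by
  by_cases h : ∃ ω₀, U a = U ω₀ ∧ V b = V ω₀
  · obtain ⟨ω₀, h1, h2⟩ := h
    have hZa := hU a ω₀ h1
    have hZb := hV b ω₀ h2
    rw [if_pos (hZb.trans hZa.symm)]
    have h3 : ∀ ω ∈ (univ : Finset Ω), (if U a = U ω then (1 : ℝ) else 0) *
        (if V b = V ω then (1 : ℝ) else 0) / ((fib T ω : ℝ) * fib Z ω) =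
        if T ω = T ω₀ then 1 / (fib T ω : ℝ) * (1 / fib Z a) else 0 := by
      intro ω _
      by_cases h4 : T ω = T ω₀
      · obtain ⟨g1, g2⟩ := (hT a b ω ω₀ h1 h2).2 h4
        have g4 : fib Z ω = fib Z a := by
          unfold fib
          rw [hU a ω g1]
        rw [if_pos h4, if_pos g1, if_pos g2, g4, mul_one, one_div_mul_one_div]
      · rw [if_neg h4]
        by_cases h5 : U a = U ω
        · by_cases h6 : V b = V ω
          · exact absurd ((hT a b ω ω₀ h1 h2).1 ⟨h5, h6⟩) h4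
          · rw [if_neg h6, mul_zero, zero_div]
        · rw [if_neg h5, zero_mul, zero_div]
    rw [sum_congr rfl h3, ← sum_filter, ← sum_mul, sum_inv_fib_on, one_mul]
  · push Not at h
    have h3 : ∀ ω ∈ (univ : Finset Ω), (if U a = U ω then (1 : ℝ) else 0) *
        (if V b = V ω then (1 : ℝ) else 0) / ((fib T ω : ℝ) * fib Z ω) = 0 := by
      intro ω _
      by_cases h5 : U a = U ω
      · rw [if_neg (h ω h5), mul_zero, zero_div]
      · rw [if_neg h5, zero_mul, zero_div]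
    rw [sum_congr rfl h3, sum_const_zero]
    split_ifs <;> positivity

open Classical in
private theorem EntB_count {δ : Type*} (U : Ω → α) (V : Ω → β) (T : Ω → δ) (Z : Ω → γ)
    (hT : ∀ a b ω ω₀, U a = U ω₀ → V b = V ω₀ → ((U a = U ω ∧ V b = V ω) ↔ T ω = T ω₀))
    (hU : ∀ a ω, U a = U ω → Z a = Z ω) (hV : ∀ b ω, V b = V ω → Z b = Z ω) :
    ∑ ω, (fib U ω : ℝ) * fib V ω / ((fib T ω : ℝ) * fib Z ω) ≤ Fintype.card Ω := by
  have h1 : ∀ ω ∈ (univ : Finset Ω), (fib U ω : ℝ) * fib V ω / ((fib T ω : ℝ) * fib Z ω) =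
      ∑ a, ∑ b, (if U a = U ω then (1 : ℝ) else 0) * (if V b = V ω then (1 : ℝ) else 0) /
        ((fib T ω : ℝ) * fib Z ω) := by
    intro ω _
    rw [EntB_fib U, EntB_fib V, sum_mul_sum, sum_div]
    exact sum_congr rfl fun a _ => by rw [sum_div]
  rw [sum_congr rfl h1, sum_comm]
  have h2 : ∀ a ∈ (univ : Finset Ω), ∑ ω, ∑ b, (if U a = U ω then (1 : ℝ) else 0) *
        (if V b = V ω then (1 : ℝ) else 0) / ((fib T ω : ℝ) * fib Z ω) ≤ 1 := by
    intro a _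
    rw [sum_comm]
    refine (sum_le_sum fun b _ => EntB_inner U V T Z hT hU hV a b).trans ?_
    rw [← sum_div, ← EntB_fib, div_self]
    have := fib_pos Z a
    positivity
  refine (sum_le_sum h2).trans ?_
  rw [sum_const, nsmul_eq_mul, mul_one, card_univ]

theorem ent_sub (X : Ω → α) (Y : Ω → β) (Z : Ω → γ) :
    ent (fun ω => (X ω, Y ω, Z ω)) + ent Z ≤
      ent (fun ω => (X ω, Z ω)) + ent (fun ω => (Y ω, Z ω)) := by
  rcases isEmpty_or_nonempty Ω with hΩ | hΩ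
  · simp [ent]
  have hn : (0 : ℝ) < Fintype.card Ω := by exact_mod_cast Fintype.card_pos
  have h1 : ∀ ω ∈ (univ : Finset Ω), Real.log ((Fintype.card Ω : ℝ) / fib (fun ω => (X ω, Y ω, Z ω)) ω) +
      Real.log ((Fintype.card Ω : ℝ) / fib Z ω) ≤
      Real.log ((Fintype.card Ω : ℝ) / fib (fun ω => (X ω, Z ω)) ω) +
      Real.log ((Fintype.card Ω : ℝ) / fib (fun ω => (Y ω, Z ω)) ω) +
      ((fib (fun ω => (X ω, Z ω)) ω : ℝ) * fib (fun ω => (Y ω, Z ω)) ω /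
        ((fib (fun ω => (X ω, Y ω, Z ω)) ω : ℝ) * fib Z ω) - 1) := by
    intro ω _
    have p1 : (0 : ℝ) < fib (fun ω => (X ω, Y ω, Z ω)) ω := by exact_mod_cast fib_pos _ ω
    have p2 : (0 : ℝ) < fib Z ω := by exact_mod_cast fib_pos _ ω
    have p3 : (0 : ℝ) < fib (fun ω => (X ω, Z ω)) ω := by exact_mod_cast fib_pos _ ω
    have p4 : (0 : ℝ) < fib (fun ω => (Y ω, Z ω)) ω := by exact_mod_cast fib_pos _ ω
    have h2 := Real.log_le_sub_one_of_pos
      (x := (fib (fun ω => (X ω, Z ω)) ω : ℝ) * fib (fun ω => (Y ω, Z ω)) ω /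
        ((fib (fun ω => (X ω, Y ω, Z ω)) ω : ℝ) * fib Z ω)) (by positivity)
    rw [Real.log_div (by positivity) (by positivity), Real.log_mul p3.ne' p4.ne',
      Real.log_mul p1.ne' p2.ne'] at h2
    rw [Real.log_div hn.ne' p1.ne', Real.log_div hn.ne' p2.ne', Real.log_div hn.ne' p3.ne',
      Real.log_div hn.ne' p4.ne']
    linarith
  have h2 := sum_le_sum h1
  rw [sum_add_distrib, sum_add_distrib, sum_add_distrib, sum_sub_distrib, sum_const, card_univ,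
    nsmul_eq_mul, mul_one] at h2
  have h3 := EntB_count (fun ω => (X ω, Z ω)) (fun ω => (Y ω, Z ω)) (fun ω => (X ω, Y ω, Z ω)) Z
    (by
      intro a b ω ω₀ h1 h2
      simp only [Prod.mk.injEq] at h1 h2 ⊢
      constructor
      · rintro ⟨⟨g1, g2⟩, g3, g4⟩
        exact ⟨g1.symm.trans h1.1, g3.symm.trans h2.1, g2.symm.trans h1.2⟩
      · rintro ⟨g1, g2, g3⟩
        exact ⟨⟨h1.1.trans g1.symm, h1.2.trans g3.symm⟩, h2.1.trans g2.symm, h2.2.trans g3.symm⟩)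
    (fun a ω h => congrArg Prod.snd h) (fun b ω h => congrArg Prod.snd h)
  unfold ent
  rw [← add_div, ← add_div]
  exact div_le_div_of_nonneg_right (by linarith) hn.le

end Pool.Agent.Work.MP_2d9442_nt.AS
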