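import Pool.Agent.Work.MP_2d9442_nt.AS.EntA

/-!
# Module EntC: Pinsker inequality through the Hellinger distance (M)

Let `n = |Ω|`, `N_X = fib X`, `N_Y = fib Y`, and for a pair `(ω, ω')`
`N_{XY}(ω, ω') = #{α : X α = X ω, Y α = Y ω'}` (so `N_{XY}(ω,ω) = fib (X,Y) ω`) and
`t(ω, ω') = n N_{XY}(ω,ω') / (N_X(ω) N_Y(ω')) ≥ 0`.

(1) For every function `g(a, b)` (real or complex): `(1/n²) ∑_{ω,ω'} g(X ω, Y ω') t(ω,ω') = (1/n) ∑_ω g(X ω, Y ω)`:
write `N_{XY}(ω,ω')` as the sum over `α`, exchange: `(1/n) ∑_α ∑_{ω : Xω = Xα} ∑_{ω' : Yω' = Yα}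
g(X α, Y α)/(N_X(α) N_Y(α))`, and the inner sums have `N_X(α)`, `N_Y(α)` terms.
In particular (`g = 1`) the average of `t` is `1`; and for `g = log t` (a function of `(Xω, Yω')`),
`(1/n²) ∑ t log t = (1/n) ∑_ω log(n N_{XY}(ω)/(N_X(ω) N_Y(ω))) = mi X Y`.
(One can avoid writing `log t` as a function of the values: use the exchange formula for functions
`G : Ω → Ω → ℝ` which depend only on `X ω` and `Y ω'`.)
(2) `t log t - t + 1 ≥ (√t - 1)²` for `t ≥ 0`: with `u = √t` the difference is `2u(u log u - u + 1) ≥ 0`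
(`log u ≥ 1 - 1/u`; at `t = 0` both sides are `1`).
Averaging (2): `(1/n²) ∑ (√t - 1)² ≤ mi X Y`; in particular `mi_nonneg`.
(3) `|t - 1| = |√t - 1| (√t + 1)`, Cauchy-Schwarz and `(√t+1)² ≤ 2(t+1)`:
`(1/n²) ∑ |t - 1| ≤ √(mi X Y) √4`.
(4) the left side of `hel` is `‖(1/n²) ∑ F(Xω, Yω') (t - 1)‖ ≤ (1/n²) ∑ |t - 1| ≤ 2√(mi X Y)`.
-/

set_option autoImplicit false

open Finset

namespace Pool.Agent.Work.MP_2d9442_nt.AS

variable {Ω α β : Type*} [Fintype Ω]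

open Classical in
/-- number of `a` with `X a = X ω` and `Y a = Y ω'` -/
private noncomputable def N2 (X : Ω → α) (Y : Ω → β) (ω ω' : Ω) : ℝ :=
  ∑ a, (if X a = X ω then (1 : ℝ) else 0) * (if Y a = Y ω' then (1 : ℝ) else 0)

private noncomputable def tt (X : Ω → α) (Y : Ω → β) (ω ω' : Ω) : ℝ :=
  Fintype.card Ω * N2 X Y ω ω' / (fib X ω * fib Y ω')

open Classical in
private theorem tt_nonneg (X : Ω → α) (Y : Ω → β) (ω ω' : Ω) : 0 ≤ tt X Y ω ω' := by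
  unfold tt N2
  refine div_nonneg (mul_nonneg (Nat.cast_nonneg _) (sum_nonneg fun a _ => ?_))
    (mul_nonneg (Nat.cast_nonneg _) (Nat.cast_nonneg _))
  split_ifs <;> norm_num

open Classical in
private theorem EntC_inv (X : Ω → α) (ω₀ : Ω) :
    ∑ ω, (if X ω₀ = X ω then (1 : ℝ) else 0) / (fib X ω : ℝ) = 1 := by
  have h0 := sum_inv_fib_on X ω₀
  rw [sum_filter] at h0
  refine Eq.trans (sum_congr rfl fun ω _ => ?_) h0
  by_cases h : X ω = X ω₀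
  · rw [if_pos h, if_pos h.symm]
  · rw [if_neg h, if_neg fun h' => h h'.symm, zero_div]

open Classical in
/-- exchange formula -/
private theorem EntC_exch {E : Type*} [AddCommGroup E] [Module ℝ E] (X : Ω → α) (Y : Ω → β)
    (G : Ω → Ω → E)
    (hG : ∀ a ω ω', X a = X ω → Y a = Y ω' → G ω ω' = G a a) :
    ∑ ω, ∑ ω', tt X Y ω ω' • G ω ω' = (Fintype.card Ω : ℝ) • ∑ a, G a a := by
  have h1 : ∀ ω ω', tt X Y ω ω' • G ω ω' = ∑ a, ((Fintype.card Ω : ℝ) *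
      ((if X a = X ω then (1 : ℝ) else 0) / fib X ω *
        ((if Y a = Y ω' then (1 : ℝ) else 0) / fib Y ω'))) • G a a := by
    intro ω ω'
    have h2 : tt X Y ω ω' = ∑ a, (Fintype.card Ω : ℝ) *
      ((if X a = X ω then (1 : ℝ) else 0) / fib X ω *
        ((if Y a = Y ω' then (1 : ℝ) else 0) / fib Y ω')) := by
      unfold tt N2
      rw [mul_sum, sum_div]
      exact sum_congr rfl fun a _ => by ring
    rw [h2, sum_smul]
    refine sum_congr rfl fun a _ => ?_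
    by_cases h3 : X a = X ω
    · by_cases h4 : Y a = Y ω'
      · rw [hG a ω ω' h3 h4]
      · rw [if_neg h4]
        simp
    · rw [if_neg h3]
      simp
  have h5 : ∑ ω, ∑ ω', tt X Y ω ω' • G ω ω' = ∑ ω, ∑ ω', ∑ a, ((Fintype.card Ω : ℝ) *
      ((if X a = X ω then (1 : ℝ) else 0) / fib X ω *
        ((if Y a = Y ω' then (1 : ℝ) else 0) / fib Y ω'))) • G a a :=
    sum_congr rfl fun ω _ => sum_congr rfl fun ω' _ => h1 ω ω'
  rw [h5]
  have h6 : ∀ ω ∈ (univ : Finset Ω), ∑ ω', ∑ a, ((Fintype.card Ω : ℝ) *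
      ((if X a = X ω then (1 : ℝ) else 0) / fib X ω *
        ((if Y a = Y ω' then (1 : ℝ) else 0) / fib Y ω'))) • G a a =
      ∑ a, ((Fintype.card Ω : ℝ) * ((if X a = X ω then (1 : ℝ) else 0) / fib X ω)) • G a a := by
    intro ω _
    rw [sum_comm]
    refine sum_congr rfl fun a _ => ?_
    rw [← sum_smul, ← mul_sum, ← mul_sum, EntC_inv Y a, mul_one]
  rw [sum_congr rfl h6, sum_comm, smul_sum]
  refine sum_congr rfl fun a _ => ?_
  rw [← sum_smul, ← mul_sum, EntC_inv X a, mul_one]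

private theorem tt_diag (X : Ω → α) (Y : Ω → β) (ω : Ω) :
    N2 X Y ω ω = fib (fun ω => (X ω, Y ω)) ω := by
  classical
  unfold N2 fib
  rw [card_filter]
  push_cast
  refine sum_congr rfl fun a _ => ?_
  by_cases h1 : X a = X ω <;> by_cases h2 : Y a = Y ω <;> simp [h1, h2]

private theorem tt_congr (X : Ω → α) (Y : Ω → β) {a ω ω' : Ω} (h1 : X a = X ω) (h2 : Y a = Y ω') :
    tt X Y ω ω' = tt X Y a a := by
  unfold tt N2 fib
  rw [h1, h2]

private theorem EntC_mi [Nonempty Ω] (X : Ω → α) (Y : Ω → β) :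
    (Fintype.card Ω : ℝ) ^ 2 * mi X Y = ∑ ω, ∑ ω', tt X Y ω ω' * Real.log (tt X Y ω ω') := by
  have hn : (0 : ℝ) < Fintype.card Ω := by exact_mod_cast Fintype.card_pos
  have h1 := EntC_exch X Y (fun ω ω' => Real.log (tt X Y ω ω')) (fun a ω ω' h1 h2 => by
    rw [tt_congr X Y h1 h2])
  simp only [smul_eq_mul] at h1
  rw [h1, pow_two, mul_assoc]
  congr 1
  unfold mi ent
  rw [← add_div, ← sub_div, mul_div_cancel₀ _ hn.ne', ← sum_add_distrib, ← sum_sub_distrib]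
  refine sum_congr rfl fun ω _ => ?_
  have p1 : (0 : ℝ) < fib (fun ω => (X ω, Y ω)) ω := by exact_mod_cast fib_pos _ ω
  have p2 : (0 : ℝ) < fib X ω := by exact_mod_cast fib_pos _ ω
  have p3 : (0 : ℝ) < fib Y ω := by exact_mod_cast fib_pos _ ω
  unfold tt
  rw [tt_diag, Real.log_div hn.ne' p1.ne', Real.log_div hn.ne' p2.ne', Real.log_div hn.ne' p3.ne',
    Real.log_div (by positivity) (by positivity), Real.log_mul hn.ne' p1.ne',
    Real.log_mul p2.ne' p3.ne']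
  ring

private theorem EntC_ineq {t : ℝ} (ht : 0 ≤ t) : (√t - 1) ^ 2 ≤ t * Real.log t - t + 1 := by
  rcases ht.eq_or_lt with rfl | ht
  · simp
  have hu : 0 < √t := Real.sqrt_pos.2 ht
  have h1 := Real.one_sub_inv_le_log_of_pos hu
  have h2 : t = √t * √t := (Real.mul_self_sqrt ht.le).symm
  have h3 : Real.log t = 2 * Real.log √t := by
    conv_lhs => rw [h2, Real.log_mul hu.ne' hu.ne']
    ring
  rw [h3]
  have h4 : √t * (√t)⁻¹ = 1 := mul_inv_cancel₀ hu.ne'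
  have h5 := mul_le_mul_of_nonneg_left h1 (by positivity : (0 : ℝ) ≤ 2 * (√t * √t))
  have h6 : 2 * (√t * √t) * (1 - (√t)⁻¹) = 2 * (√t * √t) - 2 * √t := by
    linear_combination (-2 * √t) * h4
  rw [h6] at h5
  nlinarith [h2]

private theorem EntC_one (X : Ω → α) (Y : Ω → β) :
    ∑ ω, ∑ ω', tt X Y ω ω' = (Fintype.card Ω : ℝ) ^ 2 := by
  have h1 := EntC_exch X Y (fun _ _ => (1 : ℝ)) (fun _ _ _ _ _ => rfl)
  simp only [smul_eq_mul, mul_one, sum_const, nsmul_eq_mul, card_univ] at h1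
  rw [h1]
  ring

private theorem EntC_hell [Nonempty Ω] (X : Ω → α) (Y : Ω → β) :
    ∑ ω, ∑ ω', (√(tt X Y ω ω') - 1) ^ 2 ≤ (Fintype.card Ω : ℝ) ^ 2 * mi X Y := by
  have h1 : ∑ ω, ∑ ω', (√(tt X Y ω ω') - 1) ^ 2 ≤
      ∑ ω, ∑ ω', (tt X Y ω ω' * Real.log (tt X Y ω ω') - tt X Y ω ω' + 1) :=
    sum_le_sum fun ω _ => sum_le_sum fun ω' _ => EntC_ineq (tt_nonneg X Y ω ω')
  refine h1.trans (le_of_eq ?_)
  simp only [sum_add_distrib, sum_sub_distrib]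
  rw [EntC_one, ← EntC_mi]
  simp only [sum_const, nsmul_eq_mul, mul_one, card_univ]
  ring

theorem mi_nonneg (X : Ω → α) (Y : Ω → β) : 0 ≤ mi X Y := by
  rcases isEmpty_or_nonempty Ω with hΩ | hΩ
  · simp [mi, ent]
  have hn : (0 : ℝ) < Fintype.card Ω := by exact_mod_cast Fintype.card_pos
  have h1 := EntC_hell X Y
  have h2 : (0 : ℝ) ≤ ∑ ω, ∑ ω', (√(tt X Y ω ω') - 1) ^ 2 :=
    sum_nonneg fun ω _ => sum_nonneg fun ω' _ => sq_nonneg _
  exact nonneg_of_mul_nonneg_right (h2.trans h1) (by positivity)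

private theorem EntC_l1 [Nonempty Ω] (X : Ω → α) (Y : Ω → β) :
    ∑ ω, ∑ ω', |tt X Y ω ω' - 1| ≤ (Fintype.card Ω : ℝ) ^ 2 * (2 * √(mi X Y)) := by
  have hn : (0 : ℝ) < Fintype.card Ω := by exact_mod_cast Fintype.card_pos
  have hmi := mi_nonneg X Y
  have h1 : ∑ ω, ∑ ω', |tt X Y ω ω' - 1| =
      ∑ q : Ω × Ω, |√(tt X Y q.1 q.2) - 1| * (√(tt X Y q.1 q.2) + 1) := by
    rw [Fintype.sum_prod_type]
    refine sum_congr rfl fun ω _ => sum_congr rfl fun ω' _ => ?_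
    have h2 := Real.mul_self_sqrt (tt_nonneg X Y ω ω')
    have h3 : tt X Y ω ω' - 1 = (√(tt X Y ω ω') - 1) * (√(tt X Y ω ω') + 1) := by
      linear_combination -h2
    conv_lhs => rw [h3, abs_mul]
    rw [abs_of_nonneg (by positivity : (0 : ℝ) ≤ √(tt X Y ω ω') + 1)]
  rw [h1]
  have h2 := sum_mul_sq_le_sq_mul_sq (univ : Finset (Ω × Ω))
    (fun q => |√(tt X Y q.1 q.2) - 1|) (fun q => √(tt X Y q.1 q.2) + 1)
  have h3 : ∑ q : Ω × Ω, |√(tt X Y q.1 q.2) - 1| ^ 2 ≤ (Fintype.card Ω : ℝ) ^ 2 * mi X Y := by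
    simp only [sq_abs]
    rw [Fintype.sum_prod_type]
    exact EntC_hell X Y
  have h4 : ∑ q : Ω × Ω, (√(tt X Y q.1 q.2) + 1) ^ 2 ≤ 4 * (Fintype.card Ω : ℝ) ^ 2 := by
    have h5 : ∑ q : Ω × Ω, (√(tt X Y q.1 q.2) + 1) ^ 2 ≤ ∑ q : Ω × Ω, (2 * tt X Y q.1 q.2 + 2) := by
      refine sum_le_sum fun q _ => ?_
      have h6 := Real.mul_self_sqrt (tt_nonneg X Y q.1 q.2)
      nlinarith [sq_nonneg (√(tt X Y q.1 q.2) - 1)]
    refine h5.trans (le_of_eq ?_)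
    rw [sum_add_distrib, ← mul_sum, Fintype.sum_prod_type, EntC_one, sum_const, nsmul_eq_mul,
      card_univ, Fintype.card_prod]
    push_cast
    ring
  have h5 : (∑ q : Ω × Ω, |√(tt X Y q.1 q.2) - 1| * (√(tt X Y q.1 q.2) + 1)) ^ 2 ≤
      ((Fintype.card Ω : ℝ) ^ 2 * (2 * √(mi X Y))) ^ 2 := by
    refine h2.trans ((mul_le_mul h3 h4 (sum_nonneg fun _ _ => sq_nonneg _) (by positivity)).trans
      (le_of_eq ?_))
    have h6 := Real.mul_self_sqrt hmi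
    linear_combination (-4 * (Fintype.card Ω : ℝ) ^ 4) * h6
  exact le_of_sq_le_sq h5 (by positivity)

theorem hel [Nonempty Ω] (X : Ω → α) (Y : Ω → β) (F : α → β → ℂ) (hF : ∀ a b, ‖F a b‖ ≤ 1) :
    ‖(∑ ω, F (X ω) (Y ω)) / (Fintype.card Ω : ℂ) -
      (∑ ω, ∑ ω', F (X ω) (Y ω')) / (Fintype.card Ω : ℂ) ^ 2‖ ≤ 2 * √(mi X Y) := by
  have hn : (0 : ℝ) < Fintype.card Ω := by exact_mod_cast Fintype.card_pos
  have hn' : (Fintype.card Ω : ℂ) ≠ 0 := by exact_mod_cast hn.ne'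
  have h1 := EntC_exch X Y (fun ω ω' => F (X ω) (Y ω')) (fun a ω ω' h1 h2 => by rw [h1, h2])
  have h2 : (∑ ω, F (X ω) (Y ω)) / (Fintype.card Ω : ℂ) -
      (∑ ω, ∑ ω', F (X ω) (Y ω')) / (Fintype.card Ω : ℂ) ^ 2 =
      (∑ ω, ∑ ω', (tt X Y ω ω' - 1) • F (X ω) (Y ω')) / (Fintype.card Ω : ℂ) ^ 2 := by
    have h3 : ∑ ω, ∑ ω', (tt X Y ω ω' - 1) • F (X ω) (Y ω') =
        (Fintype.card Ω : ℂ) * (∑ ω, F (X ω) (Y ω)) - ∑ ω, ∑ ω', F (X ω) (Y ω') := by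
      simp only [sub_smul, one_smul, sum_sub_distrib]
      rw [h1, Complex.real_smul]
      push_cast
      rfl
    rw [h3]
    field_simp
  rw [h2, norm_div, norm_pow, Complex.norm_natCast, div_le_iff₀ (by positivity)]
  have h4 : ‖∑ ω, ∑ ω', (tt X Y ω ω' - 1) • F (X ω) (Y ω')‖ ≤ ∑ ω, ∑ ω', |tt X Y ω ω' - 1| := by
    refine (norm_sum_le _ _).trans (sum_le_sum fun ω _ => ?_)
    refine (norm_sum_le _ _).trans (sum_le_sum fun ω' _ => ?_)
    rw [norm_smul, Real.norm_eq_abs]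
    calc |tt X Y ω ω' - 1| * ‖F (X ω) (Y ω')‖ ≤ |tt X Y ω ω' - 1| * 1 :=
          mul_le_mul_of_nonneg_left (hF _ _) (abs_nonneg _)
      _ = _ := mul_one _
  refine (h4.trans (EntC_l1 X Y)).trans (le_of_eq ?_)
  ring

end Pool.Agent.Work.MP_2d9442_nt.AS
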