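import Pool.Agent.Work.MP_2d9442_nt.AS.EntB
import Pool.Agent.Work.MP_2d9442_nt.AS.EntR

/-!
# Module EntD: entropy decrement inequality (M)

`Y = res Q`, `Q ∣ M`.  Claim by induction on `k`:
`ent(win f (kH), Y) ≤ log Q + k (ent(win f H, Y) - log Q)`.  `k = 0`: `win f 0` is constant, so
`ent(win f 0, Y) = ent Y = log Q` (`ent_congr`, `ent_res`).  Step: the pair `(win f ((k+1)H), Y)` has the
same fibres as the triple `(win f (kH), win f H ∘ shift, Y)` with `shift ω = ω + kH`
(a window of length `kH + H` is the first `kH` letters and the last `H` letters).  Submodularity: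
`ent(triple) + ent Y ≤ ent(win f (kH), Y) + ent(win f H ∘ shift, Y)`, and `(win f H ∘ shift, Y)` has the
same fibres as `(win f H, Y) ∘ shift` (`res_shift`), whose entropy is that of `(win f H, Y)`
(`ent_equiv` with `Equiv.addRight`).
Then `decr`: `ent(win f (kH)) ≤ ent(win f (kH), Y)` (`ent_le_pair`) and
`ent(win f H, Y) - log Q = ent(win f H) - mi(win f H, Y)` (definition of `mi`, `ent_res`).
`subad` is the case `Q = 1` (`mi` with the constant map is zero: `ent(X, const) = ent X`,
`ent(const) = log 1 = 0`).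
-/

set_option autoImplicit false

open Finset

namespace Pool.Agent.Work.MP_2d9442_nt.AS

private theorem EntD_win {M : ℕ} {A : Type*} (f : ZMod M → A) (K H : ℕ) (ω ω' : ZMod M) :
    win f (K + H) ω = win f (K + H) ω' ↔
      win f K ω = win f K ω' ∧ win f H (ω + (K : ZMod M)) = win f H (ω' + (K : ZMod M)) := by
  constructor
  · intro h
    refine ⟨funext fun i => ?_, funext fun i => ?_⟩
    · exact congrFun h ⟨i.1, by omega⟩
    · have h1 := congrFun h ⟨K + i.1, by omega⟩
      unfold win at h1 ⊢
      push_cast at h1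
      rw [add_assoc, add_assoc]
      exact h1
  · rintro ⟨h1, h2⟩
    refine funext fun i => ?_
    by_cases hi : i.1 < K
    · exact congrFun h1 ⟨i.1, hi⟩
    · have h3 := congrFun h2 ⟨i.1 - K, by omega⟩
      unfold win at h3 ⊢
      simp only at h3
      rw [add_assoc, add_assoc, ← Nat.cast_add, Nat.add_sub_cancel' (not_lt.1 hi)] at h3
      exact h3

private theorem EntD_key {M : ℕ} [NeZero M] {A : Type*} (f : ZMod M → A) (H Q : ℕ) (hQ : Q ∣ M)
    (k : ℕ) :
    ent (fun ω => (win f (k * H) ω, res (M := M) Q ω)) ≤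
      Real.log Q + k * (ent (fun ω => (win f H ω, res (M := M) Q ω)) - Real.log Q) := by
  induction k with
  | zero =>
    have h1 : ent (fun ω => (win f (0 * H) ω, res (M := M) Q ω)) = ent (res (M := M) Q) := by
      refine ent_congr fun ω ω' => ?_
      rw [Prod.mk.injEq]
      refine ⟨fun h => h.2, fun h => ⟨funext fun i => ?_, h⟩⟩
      have hi := i.2
      omega
    rw [h1, ent_res hQ]
    simp
  | succ k ih =>
    have h1 := ent_sub (win f (k * H)) (fun ω => win f H (ω + ((k * H : ℕ) : ZMod M)))
      (res (M := M) Q)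
    have h2 : ent (fun ω => (win f ((k + 1) * H) ω, res (M := M) Q ω)) =
        ent (fun ω => (win f (k * H) ω, win f H (ω + ((k * H : ℕ) : ZMod M)),
          res (M := M) Q ω)) := by
      refine ent_congr fun ω ω' => ?_
      rw [Prod.mk.injEq, Prod.mk.injEq, Prod.mk.injEq, Nat.succ_mul, EntD_win]
      tauto
    have h3 : ent (fun ω => (win f H (ω + ((k * H : ℕ) : ZMod M)), res (M := M) Q ω)) =
        ent (fun ω => (win f H (Equiv.addRight ((k * H : ℕ) : ZMod M) ω),
          res (M := M) Q (Equiv.addRight ((k * H : ℕ) : ZMod M) ω))) := by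
      refine ent_congr fun ω ω' => ?_
      rw [Prod.mk.injEq, Prod.mk.injEq]
      simp only [Equiv.coe_addRight]
      rw [res_shift hQ]
    have h4 := ent_equiv (Equiv.addRight ((k * H : ℕ) : ZMod M))
      (fun ω => (win f H ω, res (M := M) Q ω))
    rw [h3, h4, ent_res hQ, ← h2] at h1
    push_cast
    linarith

theorem decr {M : ℕ} [NeZero M] {A : Type*} (f : ZMod M → A) (k H Q : ℕ) (hQ : Q ∣ M) :
    ent (win f (k * H)) ≤
      Real.log Q + k * (ent (win f H) - mi (win f H) (res (M := M) Q)) := by
  have h1 := ent_le_pair (win f (k * H)) (res (M := M) Q)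
  have h2 := EntD_key f H Q hQ k
  have h3 : ent (win f H) - mi (win f H) (res (M := M) Q) =
      ent (fun ω => (win f H ω, res (M := M) Q ω)) - Real.log Q := by
    unfold mi
    rw [ent_res hQ]
    ring
  rw [h3]
  exact h1.trans h2

theorem subad {M : ℕ} [NeZero M] {A : Type*} (f : ZMod M → A) (k H : ℕ) :
    ent (win f (k * H)) ≤ k * ent (win f H) := by
  have h1 := decr f k H 1 (one_dvd _)
  have h2 : mi (win f H) (res (M := M) 1) = 0 := by
    unfold mi
    rw [ent_res (one_dvd _)]
    have h3 : ent (fun ω => (win f H ω, res (M := M) 1 ω)) = ent (win f H) := by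
      refine ent_congr fun ω ω' => ?_
      rw [Prod.mk.injEq]
      refine ⟨fun h => h.1, fun h => ⟨h, ?_⟩⟩
      unfold res
      rw [Nat.mod_one, Nat.mod_one]
    rw [h3]
    simp
  rw [h2] at h1
  simpa using h1

end Pool.Agent.Work.MP_2d9442_nt.AS
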