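import Pool.Agent.Work.MP_2d9442_nt.AS.Base

/-!
# Module PrA: Chebyshev upper bounds (S, Mathlib only)

The product of the primes in `(P, 2P]` divides `centralBinom P = (2P choose P) ≤ 4^P` (as in Mathlib's
proof of `primorial_le_4_pow`; or simply `∏_{p ∈ pr P} p ≤ primorial (2P) ≤ 4^(2P)` is too weak for
the constant 2 (`2 log 4 = 2.77`), so use the binomial coefficient:
`Nat.factorization`/`Nat.Prime.dvd_choose_add`, `Finset.prod_primes_dvd`, `Nat.centralBinom_lt_four_pow` or
`Nat.four_pow...`).  `log 4 < 1.4 < 2`.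
`card_pr`: every factor is at least `P`, so `|pr P| log P ≤ log ∏ ≤ 2P`.
-/

set_option autoImplicit false

open Finset

namespace Pool.Agent.Work.MP_2d9442_nt.AS

theorem log_prod_pr {P : ℕ} (hP : 1 ≤ P) : Real.log ((∏ p ∈ pr P, p : ℕ) : ℝ) ≤ 2 * P := by
  have hdvd : (∏ p ∈ pr P, p) ∣ (P + P).choose P := by
    apply Finset.prod_primes_dvd
    · intro p hp
      exact (mem_pr.mp hp).2.prime
    · intro p hp
      obtain ⟨⟨h1, h2⟩, h3⟩ := mem_pr.mp hp
      exact h3.dvd_choose_add h1 h1 (by omega)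
  have hle : (∏ p ∈ pr P, p) ≤ 2 ^ (P + P) :=
    (Nat.le_of_dvd (Nat.choose_pos (by omega)) hdvd).trans (Nat.choose_le_two_pow _ _)
  have hpos : 0 < ∏ p ∈ pr P, p := Finset.prod_pos fun p hp => (mem_pr.mp hp).2.pos
  have h1 : Real.log ((∏ p ∈ pr P, p : ℕ) : ℝ) ≤ Real.log ((2 : ℝ) ^ (P + P)) :=
    Real.log_le_log (by exact_mod_cast hpos) (by exact_mod_cast hle)
  rw [Real.log_pow] at h1
  have h2 := Real.log_two_lt_d9
  have h3 : (0 : ℝ) < P := by exact_mod_cast hP
  push_cast at h1 ⊢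
  nlinarith

theorem card_pr {P : ℕ} (hP : 2 ≤ P) : ((pr P).card : ℝ) ≤ 2 * (P / Real.log P) := by
  have h1 := log_prod_pr (P := P) (by omega)
  have hlog : 0 < Real.log P := Real.log_pos (by exact_mod_cast hP)
  have h2 : ((pr P).card : ℝ) * Real.log P ≤ Real.log ((∏ p ∈ pr P, p : ℕ) : ℝ) := by
    push_cast
    rw [Real.log_prod]
    · rw [← nsmul_eq_mul, ← Finset.sum_const]
      refine Finset.sum_le_sum fun p hp => ?_
      have h3 := (mem_pr.mp hp).1.1
      exact Real.log_le_log (by exact_mod_cast (by omega : 0 < P)) (by exact_mod_cast h3.le)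
    · intro p hp
      have := (mem_pr.mp hp).2.pos
      positivity
  rw [mul_div_assoc', le_div_iff₀ hlog]
  exact h2.trans h1

end Pool.Agent.Work.MP_2d9442_nt.AS
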