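import Pool.Agent.Work.MP_2d9442_nt.AS.EntD
import Pool.Agent.Work.MP_2d9442_nt.AS.EntC
import Pool.Agent.Work.MP_2d9442_nt.AS.PrA

/-!
# Module EntE: the entropy decrement along a chain of scales (M)

Put `h i = ent (win f (C P_i)) / (C P_i)`, `Q_i = ∏_{p ∈ pr P_i} p`, `I_i = mi (win f (C P_i)) (res Q_i)`,
`b_i = 1` if `η P_i/log P_i < I_i` and `0` otherwise.
Claim for `i < n`: `h (i+1) ≤ h i - b_i η/(2C log P_i)`.
Since `C P_{i+1} = k_i (C P_i)`:
* if `b_i = 0`: `subad` gives `ent(win f (k_i C P_i)) ≤ k_i ent(win f (C P_i))`, divide by `k_i C P_i`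
  (`k_i > 0` because `P_{i+1} ≥ 3`);
* if `b_i = 1`: `decr` gives `h (i+1) ≤ h i - I_i/(C P_i) + log Q_i/(k_i C P_i) ≤
  h i - η/(C log P_i) + 2/(k_i C)` (`log_prod_pr`: `log Q_i ≤ 2 P_i`), and `2/(k_i C) ≤ η/(2C log P_i)`
  because `k_i ≥ 4 log P_i/η`.
Telescoping (induction on `n`): `h n + ∑_{i<n} b_i η/(2C log P_i) ≤ h 0`.  Finally `h n ≥ 0`
(`ent_nonneg`) and `h 0 ≤ log|A|`: `ent_le_log` with `|Fin H → A| = |A|^H` (`Fintype.card_fun`...,
`Real.log_pow`).  Multiply by `2C/η`.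
-/

set_option autoImplicit false

open Finset

namespace Pool.Agent.Work.MP_2d9442_nt.AS

private theorem EntE_num {E E' I K C P L η lQ : ℝ} (hK : 0 < K) (hC : 0 < C) (hP : 0 < P)
    (hL : 0 < L) (hη : 0 < η) (h1 : E' ≤ lQ + K * (E - I)) (h2 : lQ ≤ 2 * P)
    (h3 : η * (P / L) < I) (h4 : 4 * L / η ≤ K) :
    E' / (K * (C * P)) + η / (2 * C * L) ≤ E / (C * P) := by
  have h5 : 4 * L ≤ K * η := by rwa [div_le_iff₀ hη] at h4
  have h6 : K * (η * (P / L)) ≤ K * I := mul_le_mul_of_nonneg_left h3.le hK.le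
  have h7 : 2 * P ≤ K * (η * (P / L)) / 2 := by
    have h8 : K * (η * (P / L)) / 2 = (K * η) * (P / (2 * L)) := by
      field_simp
    rw [h8]
    calc 2 * P = (4 * L) * (P / (2 * L)) := by field_simp; ring
      _ ≤ (K * η) * (P / (2 * L)) := mul_le_mul_of_nonneg_right h5 (by positivity)
  have h9 : E' ≤ K * E - K * (η * (P / L)) / 2 := by nlinarith
  calc E' / (K * (C * P)) + η / (2 * C * L)
      ≤ (K * E - K * (η * (P / L)) / 2) / (K * (C * P)) + η / (2 * C * L) := by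
        gcongr
    _ = E / (C * P) := by
        field_simp
        ring

private theorem EntE_step {A : Type*} [Fintype A] {M : ℕ} [NeZero M] (f : ZMod M → A) {C : ℕ}
    (hC : 1 ≤ C) {η : ℝ} (hη : 0 < η) (P P' k : ℕ) (hP : 3 ≤ P) (hP' : 3 ≤ P') (hk : P' = k * P)
    (hk' : 4 * Real.log P / η ≤ k) (hM : (∏ p ∈ pr P, p) ∣ M) :
    ent (win f (C * P')) / ((C * P' : ℕ) : ℝ) +
      ind (η * (P / Real.log P) < mi (win f (C * P)) (res (M := M) (∏ p ∈ pr P, p))) *
        (η / (2 * C * Real.log P)) ≤ ent (win f (C * P)) / ((C * P : ℕ) : ℝ) := by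
  have hP1 : (1 : ℝ) < P := by exact_mod_cast (by omega : 1 < P)
  have hP0 : (0 : ℝ) < P := by linarith
  have hL : 0 < Real.log P := Real.log_pos hP1
  have hC0 : (0 : ℝ) < C := by exact_mod_cast hC
  have hk0 : 0 < k := by
    rcases Nat.eq_zero_or_pos k with h | h
    · rw [h, Nat.zero_mul] at hk
      omega
    · exact h
  have hK : (0 : ℝ) < k := by exact_mod_cast hk0
  have h1 : C * P' = k * (C * P) := by
    rw [hk]
    ring
  rw [h1]
  push_cast
  by_cases hb : η * (P / Real.log P) < mi (win f (C * P)) (res (M := M) (∏ p ∈ pr P, p))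
  · rw [ind_of hb, one_mul]
    exact EntE_num hK hC0 hP0 hL hη (decr f k (C * P) _ hM) (log_prod_pr (by omega)) hb hk'
  · rw [ind_not hb, zero_mul, add_zero]
    have h2 := subad f k (C * P)
    rw [div_le_div_iff₀ (by positivity) (by positivity)]
    calc ent (win f (k * (C * P))) * ((C : ℝ) * P) ≤ (k * ent (win f (C * P))) * ((C : ℝ) * P) :=
          mul_le_mul_of_nonneg_right h2 (by positivity)
      _ = ent (win f (C * P)) * (k * (C * P)) := by ring

theorem chain {A : Type*} [Fintype A] {M : ℕ} [NeZero M] (f : ZMod M → A) {C : ℕ} (hC : 1 ≤ C)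
    {η : ℝ} (hη : 0 < η) (P k : ℕ → ℕ) (n : ℕ) (hP : ∀ i, 3 ≤ P i)
    (hk : ∀ i, P (i + 1) = k i * P i) (hk' : ∀ i, 4 * Real.log (P i) / η ≤ k i)
    (hM : ∀ i < n, (∏ p ∈ pr (P i), p) ∣ M) :
    ∑ i ∈ range n, ind (η * (P i / Real.log (P i)) <
        mi (win f (C * P i)) (res (M := M) (∏ p ∈ pr (P i), p))) / Real.log (P i) ≤
      2 * C / η * Real.log (Fintype.card A) := by
  have hC0 : (0 : ℝ) < C := by exact_mod_cast hC
  have h1 : ∀ m ≤ n, ent (win f (C * P m)) / ((C * P m : ℕ) : ℝ) +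
      ∑ i ∈ range m, ind (η * (P i / Real.log (P i)) <
        mi (win f (C * P i)) (res (M := M) (∏ p ∈ pr (P i), p))) *
        (η / (2 * C * Real.log (P i))) ≤ ent (win f (C * P 0)) / ((C * P 0 : ℕ) : ℝ) := by
    intro m
    induction m with
    | zero =>
      intro _
      rw [range_zero, sum_empty, add_zero]
    | succ m ih =>
      intro hm
      have h2 := ih (by omega)
      have h3 := EntE_step f hC hη (P m) (P (m + 1)) (k m) (hP m) (hP (m + 1)) (hk m) (hk' m)
        (hM m (by omega))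
      rw [sum_range_succ]
      linarith
  have h2 := h1 n le_rfl
  have h3 : 0 ≤ ent (win f (C * P n)) / ((C * P n : ℕ) : ℝ) :=
    div_nonneg (ent_nonneg _) (Nat.cast_nonneg _)
  have h4 : ent (win f (C * P 0)) / ((C * P 0 : ℕ) : ℝ) ≤ Real.log (Fintype.card A) := by
    have h5 := ent_le_log (win f (C * P 0))
    rw [Fintype.card_fun, Fintype.card_fin, Nat.cast_pow, Real.log_pow] at h5
    have h6 : 0 < C * P 0 := Nat.mul_pos (by omega) (by have := hP 0; omega)
    have h7 : (0 : ℝ) < ((C * P 0 : ℕ) : ℝ) := by exact_mod_cast h6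
    rw [div_le_iff₀ h7, mul_comm (Real.log _)]
    exact h5
  have h5 : ∑ i ∈ range n, ind (η * (P i / Real.log (P i)) <
        mi (win f (C * P i)) (res (M := M) (∏ p ∈ pr (P i), p))) *
        (η / (2 * C * Real.log (P i))) ≤ Real.log (Fintype.card A) := by linarith
  have h6 : ∑ i ∈ range n, ind (η * (P i / Real.log (P i)) <
        mi (win f (C * P i)) (res (M := M) (∏ p ∈ pr (P i), p))) / Real.log (P i) =
      2 * C / η * ∑ i ∈ range n, ind (η * (P i / Real.log (P i)) <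
        mi (win f (C * P i)) (res (M := M) (∏ p ∈ pr (P i), p))) *
        (η / (2 * C * Real.log (P i))) := by
    rw [mul_sum]
    refine sum_congr rfl fun i _ => ?_
    field_simp
  rw [h6]
  exact mul_le_mul_of_nonneg_left h5 (by positivity)

end Pool.Agent.Work.MP_2d9442_nt.AS
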