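import Pool.Agent.Work.MP_2d9442_nt.AS.EntB
import Pool.Agent.Work.MP_2d9442_nt.AS.EntC
import Pool.Agent.Work.MP_2d9442_nt.AS.EntR

/-!
# Module EntS: mutual informations with independent residues add up (S-M)

Induction on the finite set `T` of primes.  `T = ∅`: the left side is `0`, `mi_nonneg`.
Step: `Q = ∏_{T} p`, new prime `p ∤ Q`, so `Q.Coprime p`, `Q p ∣ M`, `Q ∣ M`, `p ∣ M`.  By
`res_mul_iff` and `ent_congr`: `ent(res (Qp)) = log Q + log p` (`ent_res`, `Real.log_mul`) and
`ent(X, res (Qp)) = ent(res Q, res p, X)` (same fibres).  Submodularity `ent_sub (res Q) (res p) X`: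
`ent(res Q, res p, X) + ent X ≤ ent(res Q, X) + ent(res p, X)`.  Hence
`mi X (res (Qp)) = ent X + log Q + log p - ent(X, res Q, res p) ≥
(ent X + log Q - ent(X, res Q)) + (ent X + log p - ent(X, res p)) = mi X (res Q) + mi X (res p)`
(pairs in the other order have the same entropy by `ent_congr`).
-/

set_option autoImplicit false

open Finset

namespace Pool.Agent.Work.MP_2d9442_nt.AS

private theorem EntS_step {M : ℕ} [NeZero M] {α : Type*} (X : ZMod M → α) {Q p : ℕ}
    (hc : Q.Coprime p) (hM : Q * p ∣ M) :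
    mi X (res (M := M) Q) + mi X (res (M := M) p) ≤ mi X (res (M := M) (Q * p)) := by
  have hM0 : 0 < M := Nat.pos_of_ne_zero (NeZero.ne M)
  have hQp : 0 < Q * p := Nat.pos_of_dvd_of_pos hM hM0
  have hQ0 : (Q : ℝ) ≠ 0 := by exact_mod_cast (Nat.pos_of_mul_pos_right hQp).ne'
  have hp0 : (p : ℝ) ≠ 0 := by exact_mod_cast (Nat.pos_of_mul_pos_left hQp).ne'
  have h1 := ent_sub (res (M := M) Q) (res (M := M) p) X
  have h2 : ent (fun ω => (X ω, res (M := M) (Q * p) ω)) =
      ent (fun ω => (res (M := M) Q ω, res (M := M) p ω, X ω)) := by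
    refine ent_congr fun ω ω' => ?_
    have h3 := res_mul_iff (M := M) hc ω ω'
    rw [Prod.mk.injEq] at h3
    rw [Prod.mk.injEq, Prod.mk.injEq, Prod.mk.injEq, h3]
    tauto
  have h3 : ent (fun ω => (X ω, res (M := M) Q ω)) = ent (fun ω => (res (M := M) Q ω, X ω)) := by
    refine ent_congr fun ω ω' => ?_
    rw [Prod.mk.injEq, Prod.mk.injEq]
    tauto
  have h4 : ent (fun ω => (X ω, res (M := M) p ω)) = ent (fun ω => (res (M := M) p ω, X ω)) := by
    refine ent_congr fun ω ω' => ?_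
    rw [Prod.mk.injEq, Prod.mk.injEq]
    tauto
  have h5 := ent_res (M := M) hM
  have h6 := ent_res (M := M) (Dvd.dvd.trans (Dvd.intro _ rfl) hM : Q ∣ M)
  have h7 := ent_res (M := M) (Dvd.dvd.trans (Dvd.intro_left _ rfl) hM : p ∣ M)
  rw [Nat.cast_mul, Real.log_mul hQ0 hp0] at h5
  unfold mi
  rw [h2, h3, h4, h5, h6, h7]
  linarith

theorem mi_sum {M : ℕ} [NeZero M] {α : Type*} (X : ZMod M → α) (T : Finset ℕ)
    (hT : ∀ p ∈ T, p.Prime) (hM : (∏ p ∈ T, p) ∣ M) :
    ∑ p ∈ T, mi X (res (M := M) p) ≤ mi X (res (M := M) (∏ p ∈ T, p)) := by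
  classical
  induction T using Finset.induction_on with
  | empty =>
    rw [sum_empty]
    exact mi_nonneg X _
  | insert p T hp ih =>
    rw [sum_insert hp, prod_insert hp]
    rw [prod_insert hp] at hM
    have h1 := ih (fun q hq => hT q (mem_insert_of_mem hq)) (Dvd.dvd.trans (Dvd.intro_left _ rfl) hM)
    have hc : (∏ q ∈ T, q).Coprime p := by
      refine Nat.Coprime.prod_left fun q hq => ?_
      refine (Nat.coprime_primes (hT q (mem_insert_of_mem hq)) (hT p (mem_insert_self _ _))).2 ?_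
      rintro rfl
      exact hp hq
    rw [mul_comm] at hM
    have h2 := EntS_step X hc hM
    rw [mul_comm p]
    linarith

end Pool.Agent.Work.MP_2d9442_nt.AS
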