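import Pool.Agent.Work.MP_2d9442_nt.AS.Wnd

/-!
# Module Rl: dilation by a bounded integer `r` (M)

Let `N' = N / r` (`≥ 2`).  For `m ≤ N'`, `n = rm`: `‖loc z (a/q) J m‖ = ‖(1/J) ∑_{i<J} z(n + ri) e(-ia/q)‖`
(`z(r) z(m+i) = z(n+ri)`, `‖z r‖ = 1`).
(1) With `θ_t = (a + qt)/(qr)`, `t < r`: `(1/J) ∑_{i<J} z(n+ri) e(-ia/q) = ∑_{t<r} loc z θ_t (rJ) n`:
insert `∑_{t<r} e(-lt/r) = r·1_{r ∣ l}` into `∑_{t<r} (1/(rJ)) ∑_{l<rJ} z(n+l) e(-la/(qr)) e(-lt/r)`.
So the square is `≤ r ∑_t ‖loc z θ_t (rJ) n‖²`.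
(2) Averages over multiples of `r`: with `L = rJ`, `‖loc z θ L (n+1)‖` and `‖loc z θ L n‖` differ by at most
`2/L` (`loc(n+1) = e(θ)(loc n - z(n)/L) + z(n+L) e(-(L-1)θ)/L`), so the squares of `loc (n+k)` and `loc n` differ by
`≤ 4k/L`.  Hence for `r ∣ n`: `‖loc n‖² ≤ (1/r) ∑_{k<r} ‖loc(n+k)‖² + 4r/L`, and
`∑_{n≤N, r∣n} ‖loc n‖² ≤ (1/r)(∑_{m≤N} ‖loc m‖² + r) + N' 4r/L`.  Divide by `N'`, `N/(rN') ≤ 1 + 1/N' ≤ 1 + 2r/N`,
`1/N' ≤ 2r/N`:  `≤ en z θ L N + 4r/N + 4/J`.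
(3) `en_mul`: `en z θ (rJ) N ≤ en z θ J N + rJ/N`.
Together: `en z (a/q) J N' ≤ r ∑_t (en z θ_t J N + rJ/N + 4r/N + 4/J)`, at most the bound claimed.
-/

set_option autoImplicit false

open Finset

namespace Pool.Agent.Work.MP_2d9442_nt.AS

private theorem rl_step {z : ℕ → ℂ} (hz : ∀ n, ‖z n‖ ≤ 1) (θ : ℝ) {L : ℕ} (n : ℕ) :
    |‖loc z θ L (n + 1)‖ - ‖loc z θ L n‖| ≤ 2 / L := by
  let f : ℕ → ℂ := fun j => z (n + j) * (ee θ * ee (-(j * θ)))
  have h1 : loc z θ L (n + 1) = (∑ j ∈ range L, f (j + 1)) / (L : ℂ) := by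
    unfold loc
    congr 1
    refine Finset.sum_congr rfl fun j _ => ?_
    change _ = z (n + (j + 1)) * (ee θ * ee (-(((j + 1 : ℕ) : ℝ) * θ)))
    rw [← ee_add, show n + 1 + j = n + (j + 1) by ring]
    congr 2
    push_cast
    ring
  have h2 : ee θ * loc z θ L n = (∑ j ∈ range L, f j) / (L : ℂ) := by
    unfold loc
    rw [← mul_div_assoc, Finset.mul_sum]
    congr 1
    refine Finset.sum_congr rfl fun j _ => ?_
    change _ = z (n + j) * (ee θ * ee (-((j : ℝ) * θ)))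
    ring
  have hf : ∀ j, ‖f j‖ ≤ 1 := by
    intro j
    change ‖z (n + j) * (ee θ * ee (-((j : ℝ) * θ)))‖ ≤ 1
    rw [norm_mul, norm_mul, ee_norm, ee_norm, mul_one, mul_one]
    exact hz _
  have h3 : loc z θ L (n + 1) - ee θ * loc z θ L n = (f L - f 0) / (L : ℂ) := by
    rw [h1, h2, ← sub_div]
    congr 1
    have e1 := Finset.sum_range_succ f L
    have e2 := Finset.sum_range_succ' f L
    rw [e1] at e2
    linear_combination -e2
  have h4 : ‖ee θ * loc z θ L n‖ = ‖loc z θ L n‖ := by rw [norm_mul, ee_norm, one_mul]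
  rw [← h4]
  refine (abs_norm_sub_norm_le _ _).trans ?_
  rw [h3, norm_div, Complex.norm_natCast]
  refine div_le_div_of_nonneg_right ?_ (Nat.cast_nonneg L)
  refine (norm_sub_le _ _).trans ?_
  linarith [hf L, hf 0]

private theorem rl_k {z : ℕ → ℂ} (hz : ∀ n, ‖z n‖ ≤ 1) (θ : ℝ) {L : ℕ} (n k : ℕ) :
    ‖loc z θ L (n + k)‖ ≤ ‖loc z θ L n‖ + 2 * k / L := by
  induction k with
  | zero => simp
  | succ k ih =>
    have h1 := (abs_le.1 (rl_step hz θ (L := L) (n + k))).2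
    rw [← add_assoc]
    have h2 : 2 * ((k + 1 : ℕ) : ℝ) / L = 2 * k / L + 2 / L := by push_cast; ring
    linarith

private theorem rl_sq {z : ℕ → ℂ} (hz : ∀ n, ‖z n‖ ≤ 1) (θ : ℝ) {L : ℕ} (n k : ℕ) :
    ‖loc z θ L (n + k)‖ ^ 2 ≤ ‖loc z θ L n‖ ^ 2 + 4 * k / L := by
  have h1 := rl_k hz θ (L := L) n k
  have h2 := loc_le_one hz θ L n
  have h3 := loc_le_one hz θ L (n + k)
  have h4 := norm_nonneg (loc z θ L n)
  have h5 := norm_nonneg (loc z θ L (n + k))
  have h6 : 4 * (k : ℝ) / L = 2 * (2 * k / L) := by ring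
  rw [h6]
  have h7 : 0 ≤ 2 * (k : ℝ) / L := by positivity
  nlinarith

private theorem rl_blk (r M : ℕ) {A : Type*} [AddCommMonoid A] (g : ℕ → A) :
    ∑ n ∈ range (r * M), g n = ∑ m ∈ range M, ∑ k ∈ range r, g (r * m + k) := by
  induction M with
  | zero => simp
  | succ M ih => rw [Nat.mul_succ, Finset.sum_range_add, ih, Finset.sum_range_succ]

private theorem rl_icc (N : ℕ) {A : Type*} [AddCommMonoid A] (g : ℕ → A) :
    ∑ n ∈ Icc 1 N, g n = ∑ n ∈ range N, g (n + 1) := by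
  induction N with
  | zero => simp
  | succ N ih => rw [Finset.sum_Icc_succ_top (by omega), ih, Finset.sum_range_succ]

/-- sum over the multiples of `r` -/
private theorem rl_mult {z : ℕ → ℂ} (hz : ∀ n, ‖z n‖ ≤ 1) (θ : ℝ) {r J M N : ℕ} (hr : 1 ≤ r)
    (hJ : 1 ≤ J) (hMN : r * M ≤ N) :
    r * ∑ m ∈ Icc 1 M, ‖loc z θ (r * J) (r * m)‖ ^ 2 ≤
      (∑ n ∈ Icc 1 N, ‖loc z θ (r * J) n‖ ^ 2) + M * (4 * r / J) := by
  have hr' : (0 : ℝ) < r := by exact_mod_cast hr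
  have hJ' : (0 : ℝ) < J := by exact_mod_cast hJ
  have h1 : ∑ n ∈ Icc 1 (r * M), ‖loc z θ (r * J) n‖ ^ 2 ≤ ∑ n ∈ Icc 1 N, ‖loc z θ (r * J) n‖ ^ 2 :=
    Finset.sum_le_sum_of_subset_of_nonneg (Finset.Icc_subset_Icc_right hMN)
      fun _ _ _ => sq_nonneg _
  refine le_trans ?_ (add_le_add_left h1 _)
  rw [rl_icc, rl_icc, rl_blk, Finset.mul_sum]
  have h2 : (M : ℝ) * (4 * r / J) = ∑ _m ∈ range M, (4 * r / J : ℝ) := by
    rw [Finset.sum_const, Finset.card_range, nsmul_eq_mul]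
  rw [h2, ← Finset.sum_add_distrib]
  refine Finset.sum_le_sum fun m _ => ?_
  have h3 : ∀ k ∈ range r, ‖loc z θ (r * J) (r * (m + 1))‖ ^ 2 ≤
      ‖loc z θ (r * J) (r * m + k + 1)‖ ^ 2 + 4 / J := by
    intro k hk
    have hk' := Finset.mem_range.1 hk
    have e1 : r * (m + 1) = (r * m + k + 1) + (r - 1 - k) := by
      rw [Nat.mul_succ]
      omega
    rw [e1]
    refine (rl_sq hz θ _ _).trans (add_le_add le_rfl ?_)
    have e2 : ((r - 1 - k : ℕ) : ℝ) ≤ r := by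
      exact_mod_cast (by omega : r - 1 - k ≤ r)
    rw [div_le_div_iff₀ (by push_cast; positivity) hJ']
    push_cast
    nlinarith
  have h4 := Finset.sum_le_sum h3
  rw [Finset.sum_const, Finset.card_range, nsmul_eq_mul, Finset.sum_add_distrib,
    Finset.sum_const, Finset.card_range, nsmul_eq_mul] at h4
  refine h4.trans (le_of_eq ?_)
  ring

private theorem rl_root {r k : ℕ} (hr : 1 ≤ r) (hk : k < r) :
    ∑ t ∈ range r, ee (-((k : ℝ) * t / r)) = if k = 0 then (r : ℂ) else 0 := by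
  have hr' : (r : ℝ) ≠ 0 := by
    have : r ≠ 0 := by omega
    exact_mod_cast this
  by_cases h0 : k = 0
  · subst h0
    rw [if_pos rfl]
    have : ∀ t ∈ range r, ee (-(((0 : ℕ) : ℝ) * t / r)) = 1 := fun t _ => by
      rw [Nat.cast_zero, zero_mul, zero_div, neg_zero, ee_zero]
    rw [Finset.sum_congr rfl this, Finset.sum_const, Finset.card_range, nsmul_eq_mul, mul_one]
  · rw [if_neg h0]
    have hpow : ∀ (t : ℕ) (x : ℝ), ee (t * x) = ee x ^ t := by
      intro t x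
      induction t with
      | zero => rw [Nat.cast_zero, zero_mul, ee_zero, pow_zero]
      | succ t ih => rw [pow_succ, ← ih, ← ee_add]; congr 1; push_cast; ring
    have h1 : ∀ t ∈ range r, ee (-((k : ℝ) * t / r)) = ee (-(k / r)) ^ t := fun t _ => by
      rw [← hpow]
      congr 1
      ring
    rw [Finset.sum_congr rfl h1]
    have h2 := mul_geom_sum (ee (-((k : ℝ) / r))) r
    have h3 : ee (-((k : ℝ) / r)) ^ r = 1 := by
      rw [← hpow]
      have e1 : (r : ℝ) * -(k / r) = ((-(k : ℤ) : ℤ) : ℝ) := by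
        push_cast
        field_simp
      rw [e1, ee_int]
    rw [h3, sub_self] at h2
    refine (mul_eq_zero.1 h2).resolve_left ?_
    intro h4
    have h5 : ee (-((k : ℝ) / r)) = 1 := sub_eq_zero.1 h4
    unfold ee at h5
    rw [Complex.exp_eq_one_iff] at h5
    obtain ⟨m, hm⟩ := h5
    have h6 : (-((k : ℝ) / r)) = m := by
      have e1 : (2 * (Real.pi : ℂ) * Complex.I) ≠ 0 := Complex.two_pi_I_ne_zero
      have e2 : (2 * (Real.pi : ℂ) * Complex.I) * ((-((k : ℝ) / r) : ℝ) : ℂ) =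
          (2 * (Real.pi : ℂ) * Complex.I) * (m : ℂ) := by
        linear_combination hm
      have e3 := mul_left_cancel₀ e1 e2
      exact_mod_cast e3
    have h7 : -(k : ℤ) = m * r := by
      have e1 : -(k : ℝ) = m * r := by
        field_simp at h6
        linarith
      exact_mod_cast e1
    have h8 : (r : ℤ) ∣ (k : ℤ) := ⟨-m, by linarith⟩
    have h9 := Nat.le_of_dvd (Nat.pos_of_ne_zero h0) (Int.natCast_dvd_natCast.1 h8)
    omega

/-- the Fourier expansion -/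
private theorem rl_four (z : ℕ → ℂ) {q r J : ℕ} (hq : 1 ≤ q) (hr : 1 ≤ r) (hJ : 1 ≤ J)
    (a n : ℕ) :
    ∑ t ∈ range r, loc z (((a + q * t : ℕ) : ℝ) / ((q * r : ℕ) : ℝ)) (r * J) n =
      (∑ i ∈ range J, z (n + r * i) * ee (-(i * ((a : ℝ) / q)))) / (J : ℂ) := by
  have hr' : (r : ℝ) ≠ 0 := by
    have : r ≠ 0 := by omega
    exact_mod_cast this
  have hq' : (q : ℝ) ≠ 0 := by
    have : q ≠ 0 := by omega
    exact_mod_cast this
  have hrC : (r : ℂ) ≠ 0 := by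
    have : r ≠ 0 := by omega
    exact_mod_cast this
  have hJC : (J : ℂ) ≠ 0 := by
    have : J ≠ 0 := by omega
    exact_mod_cast this
  unfold loc
  rw [← Finset.sum_div, Finset.sum_comm, rl_blk]
  have h1 : ∀ i ∈ range J, ∑ k ∈ range r, ∑ t ∈ range r, z (n + (r * i + k)) *
      ee (-(((r * i + k : ℕ) : ℝ) * (((a + q * t : ℕ) : ℝ) / ((q * r : ℕ) : ℝ)))) =
      r * (z (n + r * i) * ee (-(i * ((a : ℝ) / q)))) := by
    intro i _
    have h2 : ∀ k ∈ range r, ∑ t ∈ range r, z (n + (r * i + k)) *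
        ee (-(((r * i + k : ℕ) : ℝ) * (((a + q * t : ℕ) : ℝ) / ((q * r : ℕ) : ℝ)))) =
        if k = 0 then r * (z (n + r * i) * ee (-(i * ((a : ℝ) / q)))) else 0 := by
      intro k hk
      have h3 : ∀ t ∈ range r, z (n + (r * i + k)) *
          ee (-(((r * i + k : ℕ) : ℝ) * (((a + q * t : ℕ) : ℝ) / ((q * r : ℕ) : ℝ)))) =
          (z (n + (r * i + k)) * ee (-(((r * i + k : ℕ) : ℝ) * ((a : ℝ) / (q * r))))) *
            ee (-((k : ℝ) * t / r)) := by
        intro t _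
        rw [mul_assoc, ← ee_add]
        congr 1
        have e1 : -(((r * i + k : ℕ) : ℝ) * (((a + q * t : ℕ) : ℝ) / ((q * r : ℕ) : ℝ))) =
            -(((r * i + k : ℕ) : ℝ) * ((a : ℝ) / (q * r))) + -((k : ℝ) * t / r) +
              ((-(i * t : ℤ) : ℤ) : ℝ) := by
          push_cast
          field_simp
          ring
        rw [e1, ee_add_int]
      rw [Finset.sum_congr rfl h3, ← Finset.mul_sum, rl_root hr (Finset.mem_range.1 hk)]
      by_cases h0 : k = 0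
      · subst h0
        rw [if_pos rfl, if_pos rfl, add_zero]
        have e1 : -(((r * i : ℕ) : ℝ) * ((a : ℝ) / (q * r))) = -(i * ((a : ℝ) / q)) := by
          push_cast
          field_simp
        rw [e1]
        ring
      · rw [if_neg h0, if_neg h0, mul_zero]
    rw [Finset.sum_congr rfl h2, Finset.sum_ite_eq', if_pos (Finset.mem_range.2 (by omega))]
  rw [Finset.sum_congr rfl h1, ← Finset.mul_sum, Nat.cast_mul, mul_div_mul_left _ _ hrC]

private theorem rl_cs (r : ℕ) (x : ℕ → ℂ) :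
    ‖∑ t ∈ range r, x t‖ ^ 2 ≤ r * ∑ t ∈ range r, ‖x t‖ ^ 2 := by
  have h1 : ‖∑ t ∈ range r, x t‖ ^ 2 ≤ (∑ t ∈ range r, ‖x t‖) ^ 2 :=
    pow_le_pow_left₀ (norm_nonneg _) (norm_sum_le _ _) 2
  refine h1.trans ?_
  have h2 := sq_sum_le_card_mul_sum_sq (s := range r) (f := fun t => ‖x t‖)
  rwa [Finset.card_range] at h2

theorem rl {z : ℕ → ℂ} (hz : UM z) {q r J N : ℕ} (hq : 1 ≤ q) (hr : 1 ≤ r) (hJ : 1 ≤ J)
    (hN : 2 * r ≤ N) (a : ℕ) :
    en z ((a : ℝ) / q) J (N / r) ≤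
      r * ∑ t ∈ range r, en z (((a + q * t : ℕ) : ℝ) / ((q * r : ℕ) : ℝ)) J N +
        4 * (r : ℝ) ^ 2 / J + 5 * (r : ℝ) ^ 3 * J / N := by
  obtain ⟨M, hM⟩ : ∃ M, N / r = M := ⟨_, rfl⟩
  have hr' : (0 : ℝ) < r := by exact_mod_cast hr
  have hJ' : (1 : ℝ) ≤ J := by exact_mod_cast hJ
  have hN' : (0 : ℝ) < N := by
    have : 0 < N := by omega
    exact_mod_cast this
  have hM1 : r * M ≤ N := by rw [← hM]; exact Nat.mul_div_le N r
  have hM2 : N < r * (M + 1) := by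
    have h1 := Nat.div_add_mod N r
    have h2 := Nat.mod_lt N (show 0 < r by omega)
    rw [hM] at h1
    rw [Nat.mul_succ]
    omega
  have hM0 : 0 < M := by
    by_contra h
    have : M = 0 := by omega
    rw [this] at hM2
    omega
  have hMR : (0 : ℝ) < M := by exact_mod_cast hM0
  have hMN : (N : ℝ) ≤ 2 * r * M := by
    have e1 : (N : ℝ) < r * (M + 1) := by exact_mod_cast hM2
    have e2 : (1 : ℝ) ≤ M := by exact_mod_cast hM0
    nlinarith
  have hz1 := um_le hz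
  let θ : ℕ → ℝ := fun t => ((a + q * t : ℕ) : ℝ) / ((q * r : ℕ) : ℝ)
  -- step 1
  have h1 : ∀ m ∈ Icc 1 M, ‖loc z ((a : ℝ) / q) J m‖ ^ 2 ≤
      r * ∑ t ∈ range r, ‖loc z (θ t) (r * J) (r * m)‖ ^ 2 := by
    intro m hm
    refine le_trans (le_of_eq ?_) (rl_cs r (fun t => loc z (θ t) (r * J) (r * m)))
    congr 1
    have e1 := rl_four z hq hr hJ a (r * m)
    change _ = ‖∑ t ∈ range r, loc z (((a + q * t : ℕ) : ℝ) / ((q * r : ℕ) : ℝ)) (r * J) (r * m)‖
    rw [e1]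
    have e2 : (∑ i ∈ range J, z (r * m + r * i) * ee (-(i * ((a : ℝ) / q)))) / (J : ℂ) =
        z r * loc z ((a : ℝ) / q) J m := by
      unfold loc
      rw [← mul_div_assoc, Finset.mul_sum]
      congr 1
      refine Finset.sum_congr rfl fun i _ => ?_
      rw [← Nat.mul_add, hz.cm.mul]
      ring
    rw [e2, norm_mul, hz.norm r hr, one_mul]
  -- step 2
  have h2 : ∀ t ∈ range r, ∑ m ∈ Icc 1 M, ‖loc z (θ t) (r * J) (r * m)‖ ^ 2 ≤
      (N * en z (θ t) (r * J) N + M * (4 * r / J)) / r := by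
    intro t _
    rw [le_div_iff₀ hr', mul_comm]
    refine (rl_mult hz1 (θ t) hr hJ hM1).trans (le_of_eq ?_)
    congr 1
    unfold en
    field_simp
  -- step 3
  have h3 : ∀ t ∈ range r, en z (θ t) (r * J) N ≤ en z (θ t) J N + r * J / N := fun t _ =>
    en_mul hz1 hr hJ (by omega) (θ t)
  have h4 : en z ((a : ℝ) / q) J M ≤
      r * ∑ t ∈ range r, (en z (θ t) J N + r * J / N + 2 * r / N + 4 / J) := by
    unfold en
    rw [div_le_iff₀ hMR]
    refine (Finset.sum_le_sum h1).trans ?_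
    rw [← Finset.mul_sum, Finset.sum_comm, mul_assoc]
    refine mul_le_mul_of_nonneg_left ?_ hr'.le
    rw [Finset.sum_mul]
    refine Finset.sum_le_sum fun t ht => (h2 t ht).trans ?_
    rw [div_le_iff₀ hr']
    have e1 := h3 t ht
    have e2 := en_le_one hz1 (θ t) (r * J) N
    have e3 := en_nonneg z (θ t) (r * J) N
    have e4 : (N : ℝ) * en z (θ t) (r * J) N ≤ (r * M + r) * en z (θ t) (r * J) N := by
      refine mul_le_mul_of_nonneg_right ?_ e3
      have : (N : ℝ) < r * (M + 1) := by exact_mod_cast hM2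
      linarith
    have e5 : (r : ℝ) * en z (θ t) (r * J) N ≤ (2 * r / N) * (M * r) := by
      have e6 : (1 : ℝ) ≤ (2 * r / N) * M := by
        rw [div_mul_eq_mul_div, le_div_iff₀ hN']
        linarith
      nlinarith
    have e7 : (r : ℝ) * M * en z (θ t) (r * J) N ≤ r * M * (en z (θ t) J N + r * J / N) :=
      mul_le_mul_of_nonneg_left e1 (by positivity)
    have e8 : (M : ℝ) * (4 * r / J) = 4 / J * (M * r) := by ring
    have e9 : (∑ n ∈ Icc 1 N, ‖loc z (θ t) J n‖ ^ 2) / (N : ℝ) = en z (θ t) J N := rfl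
    rw [e8, e9]
    nlinarith
  rw [hM]
  refine h4.trans ?_
  have h5 : ∑ t ∈ range r, (en z (θ t) J N + r * J / N + 2 * r / N + 4 / J) =
      (∑ t ∈ range r, en z (θ t) J N) + r * (r * J / N + 2 * r / N + 4 / J) := by
    rw [Finset.sum_add_distrib, Finset.sum_add_distrib, Finset.sum_add_distrib, Finset.sum_const,
      Finset.sum_const, Finset.sum_const, Finset.card_range, nsmul_eq_mul, nsmul_eq_mul,
      nsmul_eq_mul]
    ring
  have hX : (r : ℝ) * ∑ t ∈ range r, en z (θ t) J N =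
      r * ∑ t ∈ range r, en z (((a + q * t : ℕ) : ℝ) / ((q * r : ℕ) : ℝ)) J N := rfl
  rw [h5, mul_add]
  have h6 : (r : ℝ) ^ 3 / N ≤ r ^ 3 * J / N := by
    refine div_le_div_of_nonneg_right ?_ hN'.le
    nlinarith [pow_pos hr' 3]
  have h7 : (r : ℝ) * (r * (r * J / N + 2 * r / N + 4 / J)) =
      4 * (r : ℝ) ^ 2 / J + r ^ 3 * J / N + 2 * (r ^ 3 / N) := by
    ring
  rw [h7, hX]
  have h8 : 5 * (r : ℝ) ^ 3 * J / N = 5 * (r ^ 3 * J / N) := by ring
  rw [h8]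
  have h9 : 0 ≤ (r : ℝ) ^ 3 * J / N := by positivity
  linarith

end Pool.Agent.Work.MP_2d9442_nt.AS
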