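import Pool.Agent.Work.MP_2d9442_nt.AS.Fl
import Pool.Agent.Work.MP_2d9442_nt.AS.Rl

/-!
# Module FinA: the contradiction at one scale (M)

Let `p₀ ∣ q` be a prime, `2 ≤ q`, `D₀ = q^(J'+1)` bounds `q p₀^j` for `j ≤ J'`.
Let `E` be the set of `j ∈ [1, J']` of the hypothesis.  For `j ∈ E`, `r = p₀^j`, `D = q r ≤ D₀`:
`c ≤ en z (a/q) J (N/r) ≤ r ∑_{t<r} en z ((a+qt)/(qr)) J N + 4r²/J + 5r³J/N` (`rl`, `2r ≤ N`).
`a + qt` is coprime to `qr` (coprime to `q`, hence to `p₀`, hence to `r`), so by `hU` (with `b' = 1`)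
`en z ((a+qt)/(qr)) J N ≤ en z (1/(qr)) J N + ηV`.  Hence
`c ≤ r² en z (1/(qr)) J N + r² ηV + 4r²/J + 5r³J/N` and, since `r ≤ D₀`, the three error terms are at most
`c/4`, `c/8`, `c/8` by `hV`, `hJ2`, `hN2`.  So `en z (1/(qr)) J N ≥ c/(2r²)` and
`(qr)² en z (1/(qr)) J N ≥ q²c/2 ≥ 2c`.
Sum over `T = {q p₀^j : j ∈ E}` (`j ↦ q p₀^j` is injective): `2c|E| ≤ 200(AN z N + 1)` by `fl`
(`D₀ ≥ 2`, `2 ≤ q p₀^j ≤ D₀`).
-/

set_option autoImplicit false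

open Finset

namespace Pool.Agent.Work.MP_2d9442_nt.AS

private theorem finA_one {z : ℕ → ℂ} (hz : UM z) {c ηV : ℝ} (hc : 0 < c) {q p0 J' D0 J N j : ℕ}
    (hq : 2 ≤ q) (hp0 : p0.Prime) (hpq : p0 ∣ q) (hJ1 : 1 ≤ J)
    (hJ2 : 32 * (D0 : ℝ) ^ 2 ≤ c * J) (hN0 : 1 ≤ N) (hrN : 2 * p0 ^ j ≤ N)
    (hN2 : 40 * (D0 : ℝ) ^ 3 * J ≤ c * N) (hV : 4 * (D0 : ℝ) ^ 2 * ηV ≤ c) (hηV : 0 ≤ ηV)
    (hU : ∀ D : ℕ, 1 ≤ D → D ≤ D0 → ∀ b b' : ℕ, b.Coprime D → b'.Coprime D →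
      |en z ((b : ℝ) / D) J N - en z ((b' : ℝ) / D) J N| ≤ ηV) (hD : q * p0 ^ j ≤ D0)
    {a : ℕ} (ha : a.Coprime q) (hca : c ≤ en z ((a : ℝ) / q) J (N / p0 ^ j)) :
    2 * c ≤ ((q * p0 ^ j : ℕ) : ℝ) ^ 2 * en z (1 / ((q * p0 ^ j : ℕ) : ℝ)) J N := by
  set r := p0 ^ j with hr
  have hr1 : 1 ≤ r := Nat.one_le_pow _ _ hp0.pos
  have hrr : (1 : ℝ) ≤ r := by exact_mod_cast hr1
  have hrD : (r : ℝ) ≤ D0 := by
    have : r ≤ q * r := Nat.le_mul_of_pos_left r (by omega)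
    exact_mod_cast this.trans hD
  have hJ0 : (0 : ℝ) < J := by exact_mod_cast hJ1
  have hNr : (0 : ℝ) < N := by exact_mod_cast hN0
  have h1 := rl hz (q := q) (r := r) (J := J) (N := N) (by omega) hr1 hJ1 hrN a
  set e := en z (1 / ((q * r : ℕ) : ℝ)) J N with he
  have h2 : ∀ t ∈ range r, en z (((a + q * t : ℕ) : ℝ) / ((q * r : ℕ) : ℝ)) J N ≤ e + ηV := by
    intro t _
    have hcq : (a + q * t).Coprime q := by
      rw [Nat.coprime_add_mul_left_left]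
      exact ha
    have hcp : (a + q * t).Coprime r := Nat.Coprime.pow_right j (hcq.coprime_dvd_right hpq)
    have hcop : (a + q * t).Coprime (q * r) := Nat.Coprime.mul_right hcq hcp
    have h3 := hU (q * r) (Nat.one_le_iff_ne_zero.2 (Nat.mul_ne_zero (by omega) (by omega))) hD
      (a + q * t) 1 hcop (Nat.coprime_one_left _)
    rw [Nat.cast_one] at h3
    have h4 := (abs_le.1 h3).2
    linarith
  have h5 : ∑ t ∈ range r, en z (((a + q * t : ℕ) : ℝ) / ((q * r : ℕ) : ℝ)) J N ≤ r * (e + ηV) := by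
    refine (Finset.sum_le_sum h2).trans (le_of_eq ?_)
    rw [Finset.sum_const, Finset.card_range, nsmul_eq_mul]
  have h6 : r * ∑ t ∈ range r, en z (((a + q * t : ℕ) : ℝ) / ((q * r : ℕ) : ℝ)) J N ≤
      r * (r * (e + ηV)) := mul_le_mul_of_nonneg_left h5 (by linarith)
  have hr2 : (r : ℝ) ^ 2 ≤ (D0 : ℝ) ^ 2 := pow_le_pow_left₀ (by linarith) hrD 2
  have hr3 : (r : ℝ) ^ 3 ≤ (D0 : ℝ) ^ 3 := pow_le_pow_left₀ (by linarith) hrD 3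
  have h7 : (r : ℝ) ^ 2 * ηV ≤ c / 4 := by
    have := mul_le_mul_of_nonneg_right hr2 hηV
    linarith
  have h8 : 4 * (r : ℝ) ^ 2 / J ≤ c / 8 := by
    rw [div_le_iff₀ hJ0]
    linarith
  have h9 : 5 * (r : ℝ) ^ 3 * J / N ≤ c / 8 := by
    rw [div_le_iff₀ hNr]
    have := mul_le_mul_of_nonneg_right hr3 hJ0.le
    linarith
  have h10 : c / 2 ≤ (r : ℝ) ^ 2 * e := by
    have h11 : (r : ℝ) * (r * (e + ηV)) = (r : ℝ) ^ 2 * e + (r : ℝ) ^ 2 * ηV := by ring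
    rw [h11] at h6
    linarith
  have hq2 : (2 : ℝ) ≤ q := by exact_mod_cast hq
  have hq4 : (4 : ℝ) ≤ (q : ℝ) ^ 2 := by nlinarith
  have h12 : ((q * r : ℕ) : ℝ) ^ 2 * e = (q : ℝ) ^ 2 * ((r : ℝ) ^ 2 * e) := by
    push_cast
    ring
  rw [h12]
  have h13 : 4 * (c / 2) ≤ (q : ℝ) ^ 2 * ((r : ℝ) ^ 2 * e) :=
    mul_le_mul hq4 h10 (by linarith) (by positivity)
  linarith

theorem finA {z : ℕ → ℂ} (hz : UM z) {c ηV : ℝ} (hc : 0 < c) {q p0 J' D0 J N : ℕ} (hq : 2 ≤ q)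
    (hp0 : p0.Prime) (hpq : p0 ∣ q) (hD0 : D0 = q ^ (J' + 1)) (hJ : D0 ^ 3 ≤ J)
    (hJ2 : 32 * (D0 : ℝ) ^ 2 ≤ c * J) (hN : D0 ^ 3 * J ≤ N)
    (hN2 : 40 * (D0 : ℝ) ^ 3 * J ≤ c * N) (hV : 4 * (D0 : ℝ) ^ 2 * ηV ≤ c)
    (hU : ∀ D : ℕ, 1 ≤ D → D ≤ D0 → ∀ b b' : ℕ, b.Coprime D → b'.Coprime D →
      |en z ((b : ℝ) / D) J N - en z ((b' : ℝ) / D) J N| ≤ ηV)
    (E : Finset ℕ) (hE : ∀ j ∈ E, 1 ≤ j ∧ j ≤ J' ∧
      ∃ a : ℕ, a.Coprime q ∧ c ≤ en z ((a : ℝ) / q) J (N / p0 ^ j)) :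
    2 * c * E.card ≤ 200 * (AN z N + 1) := by
  have hp0q : p0 ≤ q := Nat.le_of_dvd (by omega) hpq
  have hD2 : 2 ≤ D0 := by
    rw [hD0, pow_succ]
    have : 1 ≤ q ^ J' := Nat.one_le_pow _ _ (by omega)
    nlinarith
  have hJ1 : 1 ≤ J := le_trans (Nat.one_le_pow _ _ (by omega)) hJ
  have hDr : ∀ j : ℕ, j ≤ J' → q * p0 ^ j ≤ D0 := by
    intro j hj
    rw [hD0, pow_succ, mul_comm (q ^ J') q]
    refine Nat.mul_le_mul_left q ?_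
    exact (Nat.pow_le_pow_left hp0q j).trans (Nat.pow_le_pow_right (by omega) hj)
  have hDN : 2 * D0 ≤ N := by
    have h1 : D0 * 2 ≤ D0 ^ 3 * J := by
      calc D0 * 2 ≤ D0 * D0 ^ 2 := Nat.mul_le_mul_left D0 (by nlinarith)
        _ = D0 ^ 3 * 1 := by ring
        _ ≤ D0 ^ 3 * J := Nat.mul_le_mul_left _ hJ1
    omega
  have hN1 : 1 ≤ N := by omega
  have hηV : 0 ≤ ηV :=
    (abs_nonneg _).trans (hU 1 le_rfl (by omega) 1 1 (Nat.coprime_one_right _) (Nat.coprime_one_right _))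
  have hinj : Set.InjOn (fun j : ℕ => q * p0 ^ j) (E : Set ℕ) := by
    intro i _ j _ hij
    have h1 : p0 ^ i = p0 ^ j := Nat.eq_of_mul_eq_mul_left (by omega : 0 < q) hij
    exact Nat.pow_right_injective hp0.two_le h1
  have h1 := fl (um_le hz) hD2 hJ hN (E.image fun j => q * p0 ^ j) (fun D hD => by
    rw [Finset.mem_image] at hD
    obtain ⟨j, hj, rfl⟩ := hD
    refine ⟨?_, hDr j (hE j hj).2.1⟩
    have : 1 ≤ p0 ^ j := Nat.one_le_pow _ _ hp0.pos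
    nlinarith)
  rw [Finset.sum_image hinj] at h1
  refine le_trans ?_ h1
  have h2 : ∀ j ∈ E, 2 * c ≤ ((q * p0 ^ j : ℕ) : ℝ) ^ 2 * en z (1 / ((q * p0 ^ j : ℕ) : ℝ)) J N := by
    intro j hj
    obtain ⟨_, hjJ, a, ha, hca⟩ := hE j hj
    have hrD : p0 ^ j ≤ D0 := (Nat.le_mul_of_pos_left _ (by omega)).trans (hDr j hjJ)
    exact finA_one hz hc (J' := J') hq hp0 hpq hJ1 hJ2 hN1 (by omega) hN2 hV hηV hU (hDr j hjJ) ha hca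
  calc 2 * c * E.card = ∑ _j ∈ E, 2 * c := by
        rw [Finset.sum_const, nsmul_eq_mul]
        ring
    _ ≤ _ := Finset.sum_le_sum h2

end Pool.Agent.Work.MP_2d9442_nt.AS
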