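import Pool.Agent.Work.MP_2d9442_nt.AS.Base

/-!
# Module Re: recurrence under `N ↦ N / r` (M)

`g N = ind (G N)`, `J = J'`.  `N / r^i / r^d = N / r^(i+d)` (`Nat.div_div_eq_div_mul`, `pow_add`).
`T(N) = ∑_{i<J} g(N/r^i)`.  `Av T ≥ J(κ₀ - κ)` (`Scl.dil` with `P = r^i ≤ Pm`).
Cauchy-Schwarz with total mass at most one: `(Av T)² ≤ Av(T²)` (`inner_mul_le_norm_mul_norm` or
`Finset.sum_mul_sq_le_sq_mul_sq` with `√w`, or expand `Av((T - Av T)²) ≥ 0`: `Av(T²) ≥ 2(Av T)² - (Av T)² m`,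
`m ≤ 1`).
`T² ≤ T + 2 ∑_{i<k<J} g(N/r^i) g(N/r^k) ≤ J + 2 ∑_{i<J} J F(N/r^i)` with
`F(N) = g(N) (1/J) ∑_{d=1}^{J} g(N/r^d) ∈ [0, 1]`.  By `dil`: `Av(F(·/r^i)) ≤ Av F + κ`.
So `J²(κ₀-κ)² ≤ J + 2J²(Av F + κ)`, `Av F ≥ (κ₀-κ)²/2 - κ - 1/(2J) ≥ κ₀²/4`
(`κ ≤ κ₀²/16`, `κ₀ ≤ 1`, `J ≥ 8/κ₀²`: `(15/16)²/2 - 1/16 - 1/16 > 0.3`).
Finally `F(N) ≤ ind(G N ∧ κ₀²/8 J ≤ #{1 ≤ d ≤ J : G(N/r^d)}) + κ₀²/8`, average.
-/

set_option autoImplicit false

open Finset

namespace Pool.Agent.Work.MP_2d9442_nt.AS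

private theorem re_sq (b : ℕ → ℝ) (hb : ∀ i, 0 ≤ b i ∧ b i ≤ 1) (J : ℕ) :
    (∑ i ∈ range J, b i) ^ 2 ≤ (∑ i ∈ range J, b i) +
      2 * ∑ k ∈ range J, ∑ i ∈ range k, b i * b k := by
  induction J with
  | zero => simp
  | succ J ih =>
    rw [Finset.sum_range_succ, Finset.sum_range_succ, ← Finset.sum_mul]
    obtain ⟨h0, h1⟩ := hb J
    nlinarith

private theorem re_dbl (b : ℕ → ℝ) (hb : ∀ i, 0 ≤ b i ∧ b i ≤ 1) (J : ℕ) :
    (∑ i ∈ range J, b i) ^ 2 ≤ J + 2 * ∑ i ∈ range J, b i * ∑ d ∈ Icc 1 J, b (i + d) := by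
  have h1 : ∑ k ∈ range J, ∑ i ∈ range k, b i * b k =
      ∑ i ∈ range J, ∑ k ∈ Ico (i + 1) J, b i * b k := by
    have := Finset.sum_Ico_Ico_comm' 0 J (fun i k => b i * b k)
    simp only [Nat.Ico_zero_eq_range] at this
    exact this.symm
  have h2 : ∑ i ∈ range J, b i ≤ J := by
    have := Finset.sum_le_sum (s := range J) fun i _ => (hb i).2
    rwa [Finset.sum_const, Finset.card_range, nsmul_eq_mul, mul_one] at this
  have h3 : ∑ i ∈ range J, ∑ k ∈ Ico (i + 1) J, b i * b k ≤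
      ∑ i ∈ range J, b i * ∑ d ∈ Icc 1 J, b (i + d) := by
    refine Finset.sum_le_sum fun i _ => ?_
    rw [← Finset.mul_sum]
    refine mul_le_mul_of_nonneg_left ?_ (hb i).1
    have e1 : ∑ d ∈ Icc 1 J, b (i + d) = ∑ k ∈ (Icc 1 J).image (fun d => i + d), b k := by
      rw [Finset.sum_image]
      intro x _ y _ hxy
      exact Nat.add_left_cancel hxy
    rw [e1]
    refine Finset.sum_le_sum_of_subset_of_nonneg ?_ fun k _ _ => (hb k).1
    intro k hk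
    rw [Finset.mem_Ico] at hk
    rw [Finset.mem_image]
    exact ⟨k - i, Finset.mem_Icc.2 ⟨by omega, by omega⟩, by omega⟩
  have h4 := re_sq b hb J
  rw [h1] at h4
  linarith

open Classical in
theorem re {κ0 κ : ℝ} (hκ0 : 0 < κ0) (hκ01 : κ0 ≤ 1) (hκ : 0 ≤ κ) (hκκ : κ ≤ κ0 ^ 2 / 16)
    {r J' : ℕ} (hr : 1 ≤ r) (hJ : 8 / κ0 ^ 2 ≤ J') {S : Finset ℕ} {w : ℕ → ℝ} {Y Pm : ℕ}
    (hS : Scl S w Y Pm κ) (hPm : r ^ J' ≤ Pm) (G : ℕ → Prop)
    (hG : κ0 ≤ Av S w (fun N => ind (G N))) :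
    κ0 ^ 2 / 8 ≤ Av S w (fun N => ind (G N ∧
      κ0 ^ 2 / 8 * J' ≤ (((Icc 1 J').filter (fun j => G (N / r ^ j))).card : ℝ))) := by
  have hw := hS.toWt
  have hJ0 : (0 : ℝ) < J' := lt_of_lt_of_le (by positivity) hJ
  have hJ8 : 8 ≤ κ0 ^ 2 * J' := by
    rw [div_le_iff₀ (by positivity)] at hJ
    linarith
  have hpow : ∀ i, i < J' → 1 ≤ r ^ i ∧ r ^ i ≤ Pm := fun i hi =>
    ⟨Nat.one_le_pow _ _ hr, (Nat.pow_le_pow_right hr hi.le).trans hPm⟩
  -- the function `F`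
  obtain ⟨F, hF⟩ : ∃ F : ℕ → ℝ, ∀ N, F N = ind (G N) * ((∑ d ∈ Icc 1 J', ind (G (N / r ^ d))) / J') :=
    ⟨_, fun _ => rfl⟩
  have hcnt : ∀ N, ∑ d ∈ Icc 1 J', ind (G (N / r ^ d)) =
      (((Icc 1 J').filter (fun j => G (N / r ^ j))).card : ℝ) := by
    intro N
    rw [Finset.card_filter]
    push_cast
    refine Finset.sum_congr rfl fun d _ => ?_
    unfold ind
    rfl
  have hcnt1 : ∀ N, (∑ d ∈ Icc 1 J', ind (G (N / r ^ d))) / J' ≤ 1 := by
    intro N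
    rw [div_le_one hJ0]
    have := Finset.sum_le_sum (s := Icc 1 J') fun d _ => ind_le_one (G (N / r ^ d))
    rwa [Finset.sum_const, Nat.card_Icc, Nat.add_sub_cancel, nsmul_eq_mul, mul_one] at this
  have hcnt0 : ∀ N, 0 ≤ (∑ d ∈ Icc 1 J', ind (G (N / r ^ d))) / J' := fun N =>
    div_nonneg (Finset.sum_nonneg fun d _ => ind_nonneg _) hJ0.le
  have hF01 : ∀ N, 0 ≤ F N ∧ F N ≤ 1 := by
    intro N
    rw [hF]
    exact ⟨mul_nonneg (ind_nonneg _) (hcnt0 N), mul_le_one₀ (ind_le_one _) (hcnt0 N) (hcnt1 N)⟩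
  -- first moment
  let T : ℕ → ℝ := fun N => ∑ i ∈ range J', ind (G (N / r ^ i))
  have hT1 : J' * (κ0 - κ) ≤ Av S w T := by
    have e1 : Av S w T = ∑ i ∈ range J', Av S w (fun N => ind (G (N / r ^ i))) := Av_sum _ _
    rw [e1]
    have e2 : ∑ _i ∈ range J', (κ0 - κ) ≤ ∑ i ∈ range J', Av S w (fun N => ind (G (N / r ^ i))) := by
      refine Finset.sum_le_sum fun i hi => ?_
      obtain ⟨hp1, hp2⟩ := hpow i (Finset.mem_range.1 hi)
      have e3 := hS.dil (r ^ i) hp1 hp2 (fun N => ind (G N)) (fun N => ind_bd _)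
      have e4 := (abs_le.1 e3).1
      linarith
    rwa [Finset.sum_const, Finset.card_range, nsmul_eq_mul] at e2
  -- second moment
  have hT2 : Av S w T ^ 2 ≤ Av S w (fun N => T N ^ 2) := by
    have e1 : 0 ≤ Av S w (fun N => (T N - Av S w T) ^ 2) := Av_nonneg hw fun N _ => sq_nonneg _
    have e2 : Av S w (fun N => (T N - Av S w T) ^ 2) =
        Av S w (fun N => T N ^ 2) - 2 * Av S w T * Av S w T + Av S w (fun _ => (Av S w T) ^ 2) := by
      rw [← Av_mul, ← Av_sub, ← Av_add]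
      congr 1
      funext N
      ring
    have e3 := Av_const_le hw (c := (Av S w T) ^ 2) (sq_nonneg _)
    nlinarith
  have hT3 : Av S w (fun N => T N ^ 2) ≤
      J' + 2 * (J' * (J' * (Av S w F + κ))) := by
    have e1 : Av S w (fun N => T N ^ 2) ≤
        Av S w (fun N => J' + 2 * ∑ i ∈ range J', J' * F (N / r ^ i)) := by
      refine Av_mono hw fun N _ => ?_
      have e2 := re_dbl (fun i => ind (G (N / r ^ i))) (fun i => ind_bd _) J'
      refine e2.trans (le_of_eq ?_)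
      congr 2
      refine Finset.sum_congr rfl fun i _ => ?_
      rw [hF]
      have e3 : ∀ d, N / r ^ i / r ^ d = N / r ^ (i + d) := fun d => by
        rw [Nat.div_div_eq_div_mul, ← pow_add]
      simp only [e3]
      field_simp
    refine e1.trans ?_
    rw [Av_add, Av_mul, Av_sum]
    have e4 := Av_const_le hw (c := (J' : ℝ)) hJ0.le
    have e5 : ∑ i ∈ range J', Av S w (fun N => J' * F (N / r ^ i)) ≤
        ∑ _i ∈ range J', J' * (Av S w F + κ) := by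
      refine Finset.sum_le_sum fun i hi => ?_
      rw [Av_mul]
      refine mul_le_mul_of_nonneg_left ?_ hJ0.le
      obtain ⟨hp1, hp2⟩ := hpow i (Finset.mem_range.1 hi)
      have e3 := (abs_le.1 (hS.dil (r ^ i) hp1 hp2 F hF01)).2
      linarith
    rw [Finset.sum_const, Finset.card_range, nsmul_eq_mul] at e5
    linarith
  -- lower bound for the average of `F`
  have hAF : κ0 ^ 2 / 4 ≤ Av S w F := by
    have e1 : 0 ≤ κ0 - κ := by nlinarith
    have e2 : (J' * (κ0 - κ)) ^ 2 ≤ Av S w T ^ 2 := pow_le_pow_left₀ (by positivity) hT1 2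
    have e3 : (J' * (κ0 - κ)) ^ 2 ≤ J' + 2 * (J' * (J' * (Av S w F + κ))) :=
      e2.trans (hT2.trans hT3)
    have e4 : (J' : ℝ) ≤ κ0 ^ 2 / 8 * (J' * J') := by nlinarith
    have e5 : (J' : ℝ) * J' * (κ0 - κ) ^ 2 ≤
        J' * J' * (κ0 ^ 2 / 8 + 2 * (Av S w F + κ)) := by nlinarith
    have e6 := le_of_mul_le_mul_left e5 (by positivity)
    have e7 : (15 / 16 * κ0) ^ 2 ≤ (κ0 - κ) ^ 2 := by
      refine pow_le_pow_left₀ (by positivity) ?_ 2
      nlinarith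
    nlinarith
  -- conclusion
  have hFle : Av S w F ≤ Av S w (fun N => ind (G N ∧
      κ0 ^ 2 / 8 * J' ≤ (((Icc 1 J').filter (fun j => G (N / r ^ j))).card : ℝ)) + κ0 ^ 2 / 8) := by
    refine Av_mono hw fun N _ => ?_
    by_cases hGN : G N
    · by_cases hc : κ0 ^ 2 / 8 * J' ≤ (((Icc 1 J').filter (fun j => G (N / r ^ j))).card : ℝ)
      · rw [ind_of ⟨hGN, hc⟩]
        have := (hF01 N).2
        have h0 : 0 ≤ κ0 ^ 2 / 8 := by positivity
        linarith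
      · rw [hF, hcnt, ind_of hGN, one_mul]
        have e1 := ind_nonneg (G N ∧
          κ0 ^ 2 / 8 * J' ≤ (((Icc 1 J').filter (fun j => G (N / r ^ j))).card : ℝ))
        have e2 : (((Icc 1 J').filter (fun j => G (N / r ^ j))).card : ℝ) / J' ≤ κ0 ^ 2 / 8 := by
          rw [div_le_iff₀ hJ0]
          exact (not_le.1 hc).le
        linarith
    · rw [hF, ind_not hGN, zero_mul]
      have e1 := ind_nonneg (G N ∧
        κ0 ^ 2 / 8 * J' ≤ (((Icc 1 J').filter (fun j => G (N / r ^ j))).card : ℝ))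
      positivity
  rw [Av_add] at hFle
  have h9 := Av_const_le hw (c := κ0 ^ 2 / 8) (by positivity)
  linarith

end Pool.Agent.Work.MP_2d9442_nt.AS
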