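import Pool.Agent.Work.MP_2d9442_nt.AS.UnA
import Pool.Agent.Work.MP_2d9442_nt.AS.GoodP
import Pool.Agent.Work.MP_2d9442_nt.AS.PrB

/-!
# Module Un: energies do not depend on the numerator (choice of the window) (M-L)

We may assume `η ≤ 1`, `D₀ ≥ 1` (if `D₀ = 0` there is no `q`).  `δ = η/64`, `(cA, P₁)` from `prc_card δ D₀`,
`η₁ = η/(160 D₀²)`, `κ = η/(48 D₀²)`, `ηG = η cA/(32 D₀²)`: then `8δ + D₀²(20η₁ + 3κ + 4ηG/cA) ≤ η/8 + η/8 + η/16 + η/8 ≤ η`.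
Windows recursively (`Nat.rec`): `J_0 = max J0 1`; given `J_t`: `(M_t, x_t)` from `goodP ηG (C = 2 J_t)`
with `Pmin = max(P₁, D₀, 3)`, `J_{t+1} = ⌈6 (M_t + 1) J_t/η₁⌉₊` (`≥ J_t ≥ 1`).
`T₀ = ⌈D₀²/η₁⌉₊` (`≥ 1`), `Jm = ∑_{t ≤ T₀} J_t` (or `J_{T₀}`), `Pm ≥ 2M_t`, `Y ≥ x_t`, `Y ≥ J_{t+1}/η₁`, `Y ≥ 3M_t/δ` for
all `t < T₀`.
Given `S, w, z`: `E_t = Av(EF z D₀ J_t) ∈ [0, D₀²]` (`card_FD`, `en_le_one`).  Telescoping
`∑_{t<T₀} (E_t - E_{t+1}) = E_0 - E_{T₀} ≤ D₀²`, so some `t < T₀` has `E_t - E_{t+1} ≤ D₀²/T₀ ≤ η₁`.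
Take `J = J_t`, `J' = J_{t+1}`, `P, D` from `goodP` at `t` (weights `Wt` with `Y ≥ x_t`), and apply `unA`
(`(2 J_t) * P = 2 * J * P`).
-/

set_option autoImplicit false

open Finset

namespace Pool.Agent.Work.MP_2d9442_nt.AS

private theorem un_Wt {S : Finset ℕ} {w : ℕ → ℝ} {Y Y' : ℕ} (h : Wt S w Y) (hY : Y' ≤ Y) :
    Wt S w Y' :=
  ⟨h.nonneg, h.tot, fun N hN => hY.trans (h.lo N hN)⟩

private theorem un_EF_nonneg (z : ℕ → ℂ) (D0 J N : ℕ) : 0 ≤ EF z D0 J N := by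
  unfold EF
  exact Finset.sum_nonneg fun s _ => en_nonneg z _ J N

private theorem un_EF_le {z : ℕ → ℂ} (hz : ∀ n, ‖z n‖ ≤ 1) (D0 J N : ℕ) :
    EF z D0 J N ≤ (D0 : ℝ) ^ 2 := by
  have h1 : ((FD D0).card : ℝ) ≤ (D0 : ℝ) ^ 2 := by exact_mod_cast card_FD D0
  refine le_trans ?_ h1
  unfold EF
  calc ∑ s ∈ FD D0, en z ((s.2 : ℝ) / (s.1 : ℝ)) J N ≤ ∑ _s ∈ FD D0, (1 : ℝ) :=
        Finset.sum_le_sum fun s _ => en_le_one hz _ J N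
    _ = _ := by simp

private noncomputable def unJ (M : ℕ → ℕ) (J0 : ℕ) (η1 : ℝ) : ℕ → ℕ
  | 0 => max J0 1
  | t + 1 => ⌈6 * ((M (unJ M J0 η1 t) : ℝ) + 1) * (unJ M J0 η1 t : ℝ) / η1⌉₊

private theorem unJ_step (M : ℕ → ℕ) (J0 : ℕ) {η1 : ℝ} (hη1 : 0 < η1) (t : ℕ) :
    6 * ((M (unJ M J0 η1 t) : ℝ) + 1) * (unJ M J0 η1 t : ℝ) ≤ η1 * (unJ M J0 η1 (t + 1) : ℝ) := by
  have h := Nat.le_ceil (6 * ((M (unJ M J0 η1 t) : ℝ) + 1) * (unJ M J0 η1 t : ℝ) / η1)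
  rw [div_le_iff₀ hη1] at h
  calc _ ≤ _ := h
    _ = _ := by rw [mul_comm]; rfl

private theorem unJ_ge (M : ℕ → ℕ) (J0 : ℕ) {η1 : ℝ} (hη1 : 0 < η1) (hη11 : η1 ≤ 1) (t : ℕ) :
    max J0 1 ≤ unJ M J0 η1 t := by
  induction t with
  | zero => exact le_refl _
  | succ t ih =>
    refine ih.trans ?_
    have h1 := unJ_step M J0 hη1 t
    have h2 : (0 : ℝ) ≤ (M (unJ M J0 η1 t) : ℝ) := Nat.cast_nonneg _
    have h3 : (0 : ℝ) ≤ (unJ M J0 η1 t : ℝ) := Nat.cast_nonneg _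
    have h4 : (0 : ℝ) ≤ (unJ M J0 η1 (t + 1) : ℝ) := Nat.cast_nonneg _
    have h5 : (unJ M J0 η1 t : ℝ) ≤ (unJ M J0 η1 (t + 1) : ℝ) := by
      have h6 : (unJ M J0 η1 t : ℝ) ≤
          6 * ((M (unJ M J0 η1 t) : ℝ) + 1) * (unJ M J0 η1 t : ℝ) := by
        nlinarith [mul_nonneg h2 h3]
      have h7 : η1 * (unJ M J0 η1 (t + 1) : ℝ) ≤ 1 * (unJ M J0 η1 (t + 1) : ℝ) :=
        mul_le_mul_of_nonneg_right hη11 h4
      linarith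
    exact_mod_cast h5

theorem un (D0 J0 : ℕ) {η : ℝ} (hη : 0 < η) : ∃ Jm Y Pm : ℕ, ∃ κ : ℝ, 0 < κ ∧
    ∀ (S : Finset ℕ) (w : ℕ → ℝ), Scl S w Y Pm κ → ∀ z : ℕ → ℂ, UM z →
      ∃ J : ℕ, J0 ≤ J ∧ 1 ≤ J ∧ J ≤ Jm ∧ ∀ q : ℕ, 1 ≤ q → q ≤ D0 → ∀ b b' : ℕ, b.Coprime q →
        b'.Coprime q → Av S w (fun N => |en z ((b : ℝ) / q) J N - en z ((b' : ℝ) / q) J N|) ≤ η := by
  rcases Nat.eq_zero_or_pos D0 with hD | hD0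
  · subst hD
    refine ⟨J0 + 1, 0, 0, 1, one_pos, fun S w _ z _ => ⟨J0 + 1, by omega, by omega, le_refl _, ?_⟩⟩
    intro q h1 h2
    omega
  obtain ⟨η', hη'⟩ : ∃ η' : ℝ, η' = min η 1 := ⟨_, rfl⟩
  have hη'0 : 0 < η' := by rw [hη']; exact lt_min hη one_pos
  have hη'1 : η' ≤ 1 := by rw [hη']; exact min_le_right _ _
  have hη'η : η' ≤ η := by rw [hη']; exact min_le_left _ _
  have hD1 : (1 : ℝ) ≤ (D0 : ℝ) := by exact_mod_cast hD0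
  have hD2 : (1 : ℝ) ≤ (D0 : ℝ) ^ 2 := by nlinarith
  have hδ : 0 < η' / 64 := by positivity
  have hδ1 : η' / 64 ≤ 1 := by linarith
  obtain ⟨cA, hcA, P1, hP13, hprc⟩ := prc_card hδ hδ1 hD0
  obtain ⟨η1, hη1d⟩ : ∃ η1 : ℝ, η1 = η' / (160 * (D0 : ℝ) ^ 2) := ⟨_, rfl⟩
  obtain ⟨κ, hκd⟩ : ∃ κ : ℝ, κ = η' / (48 * (D0 : ℝ) ^ 2) := ⟨_, rfl⟩
  obtain ⟨ηG, hηGd⟩ : ∃ ηG : ℝ, ηG = η' * cA / (32 * (D0 : ℝ) ^ 2) := ⟨_, rfl⟩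
  have hη1 : 0 < η1 := by rw [hη1d]; positivity
  have hκ : 0 < κ := by rw [hκd]; positivity
  have hηG : 0 < ηG := by rw [hηGd]; positivity
  have hη11 : η1 ≤ 1 := by
    rw [hη1d, div_le_one (by positivity)]
    linarith
  choose M x0 hgood using fun J : ℕ => goodP hηG (C := 2 * max J 1)
    (by have := le_max_right J 1; omega) (P1 + D0 + 3)
  obtain ⟨Js, hJs⟩ : ∃ Js : ℕ → ℕ, Js = unJ M J0 η1 := ⟨_, rfl⟩
  have hstep : ∀ t, 6 * ((M (Js t) : ℝ) + 1) * (Js t : ℝ) ≤ η1 * (Js (t + 1) : ℝ) := by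
    intro t
    rw [hJs]
    exact unJ_step M J0 hη1 t
  have hge : ∀ t, max J0 1 ≤ Js t := by
    intro t
    rw [hJs]
    exact unJ_ge M J0 hη1 hη11 t
  obtain ⟨T0, hT0⟩ : ∃ T0 : ℕ, T0 = ⌈(D0 : ℝ) ^ 2 / η1⌉₊ := ⟨_, rfl⟩
  have hT0' : (D0 : ℝ) ^ 2 ≤ T0 * η1 := by
    have h := Nat.le_ceil ((D0 : ℝ) ^ 2 / η1)
    rw [← hT0, div_le_iff₀ hη1] at h
    exact h
  have hT1 : 1 ≤ T0 := by
    rcases Nat.eq_zero_or_pos T0 with h | h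
    · rw [h] at hT0'
      simp only [Nat.cast_zero, zero_mul] at hT0'
      linarith
    · exact h
  refine ⟨∑ t ∈ range T0, Js t,
    ∑ t ∈ range T0, (x0 (Js t) + ⌈(Js (t + 1) : ℝ) / η1⌉₊ + ⌈3 * (M (Js t) : ℝ) / (η' / 64)⌉₊),
    ∑ t ∈ range T0, 2 * M (Js t), κ, hκ, ?_⟩
  intro S w hS z hz
  have hz1 := um_le hz
  have hex : ∃ t, t < T0 ∧
      Av S w (EF z D0 (Js t)) - Av S w (EF z D0 (Js (t + 1))) ≤ η1 := by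
    by_contra hcon
    push Not at hcon
    have h1 : ∑ t ∈ range T0, η1 < ∑ t ∈ range T0,
        (Av S w (EF z D0 (Js t)) - Av S w (EF z D0 (Js (t + 1)))) := by
      refine Finset.sum_lt_sum_of_nonempty ?_ fun t ht => hcon t (Finset.mem_range.1 ht)
      rw [Finset.nonempty_range_iff]
      omega
    rw [Finset.sum_range_sub', Finset.sum_const, Finset.card_range, nsmul_eq_mul] at h1
    have h2 : Av S w (EF z D0 (Js 0)) ≤ (D0 : ℝ) ^ 2 :=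
      Av_le hS.toWt (by positivity) fun N _ => un_EF_le hz1 D0 (Js 0) N
    have h3 : 0 ≤ Av S w (EF z D0 (Js T0)) :=
      Av_nonneg hS.toWt fun N _ => un_EF_nonneg z D0 (Js T0) N
    linarith
  obtain ⟨t, htT, hst⟩ := hex
  have htm : t ∈ range T0 := Finset.mem_range.2 htT
  have hJ1 : 1 ≤ Js t := (le_max_right _ _).trans (hge t)
  have hY : x0 (Js t) + ⌈(Js (t + 1) : ℝ) / η1⌉₊ + ⌈3 * (M (Js t) : ℝ) / (η' / 64)⌉₊ ≤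
      ∑ t ∈ range T0, (x0 (Js t) + ⌈(Js (t + 1) : ℝ) / η1⌉₊ +
        ⌈3 * (M (Js t) : ℝ) / (η' / 64)⌉₊) :=
    Finset.single_le_sum (f := fun t => x0 (Js t) + ⌈(Js (t + 1) : ℝ) / η1⌉₊ +
      ⌈3 * (M (Js t) : ℝ) / (η' / 64)⌉₊) (fun _ _ => Nat.zero_le _) htm
  have hPm : 2 * M (Js t) ≤ ∑ t ∈ range T0, 2 * M (Js t) :=
    Finset.single_le_sum (f := fun t => 2 * M (Js t)) (fun _ _ => Nat.zero_le _) htm
  obtain ⟨Y, hYd⟩ : ∃ Y : ℕ, Y = ∑ t ∈ range T0, (x0 (Js t) + ⌈(Js (t + 1) : ℝ) / η1⌉₊ +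
        ⌈3 * (M (Js t) : ℝ) / (η' / 64)⌉₊) := ⟨_, rfl⟩
  rw [← hYd] at hS hY
  refine ⟨Js t, (le_max_left _ _).trans (hge t), hJ1,
    Finset.single_le_sum (f := fun t => Js t) (fun _ _ => Nat.zero_le _) htm, ?_⟩
  obtain ⟨P, hPmin, hP3, hPM, D, hDn, hDi, hDs⟩ :=
    hgood (Js t) S w (un_Wt hS.toWt (by omega)) z hz1
  rw [max_eq_left hJ1] at hDi
  have hPMr : (P : ℝ) ≤ M (Js t) := by exact_mod_cast hPM
  have hJtr : (0 : ℝ) ≤ (Js t : ℝ) := Nat.cast_nonneg _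
  have hJJ : 6 * (P : ℝ) * (Js t : ℝ) ≤ η1 * (Js (t + 1) : ℝ) := by
    refine le_trans ?_ (hstep t)
    refine mul_le_mul_of_nonneg_right ?_ hJtr
    linarith
  have hY1 : (Js (t + 1) : ℝ) ≤ η1 * Y := by
    have h1 := Nat.le_ceil ((Js (t + 1) : ℝ) / η1)
    have h2 : ((⌈(Js (t + 1) : ℝ) / η1⌉₊ : ℕ) : ℝ) ≤ Y := by
      have : ⌈(Js (t + 1) : ℝ) / η1⌉₊ ≤ Y := by omega
      exact_mod_cast this
    have h3 := h1.trans h2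
    rw [div_le_iff₀ hη1] at h3
    linarith
  have hY2 : 3 * (P : ℝ) ≤ η' / 64 * Y := by
    have h1 := Nat.le_ceil (3 * (M (Js t) : ℝ) / (η' / 64))
    have h2 : ((⌈3 * (M (Js t) : ℝ) / (η' / 64)⌉₊ : ℕ) : ℝ) ≤ Y := by
      have : ⌈3 * (M (Js t) : ℝ) / (η' / 64)⌉₊ ≤ Y := by omega
      exact_mod_cast this
    have h3 := h1.trans h2
    rw [div_le_iff₀ hδ] at h3
    linarith
  have hfin := unA hz hκ.le hS hD0 hJ1 hP3 (show D0 ≤ P by omega) (show 2 * P ≤ _ by omega)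
    hδ hδ1 hcA hηG.le hη1 hη11 hDn hDi hDs hst hJJ hY1 hY2
    (hprc P (by omega))
  intro q hq1 hqD b b' hb hb'
  refine (hfin q hq1 hqD b b' hb hb').trans ?_
  have e1 : (D0 : ℝ) ^ 2 * (20 * η1) = η' / 8 := by
    rw [hη1d]
    field_simp
    norm_num
  have e2 : (D0 : ℝ) ^ 2 * (3 * κ) = η' / 16 := by
    rw [hκd]
    field_simp
    norm_num
  have e3 : (D0 : ℝ) ^ 2 * (4 * ηG / cA) = η' / 8 := by
    rw [hηGd]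
    field_simp
    norm_num
  rw [mul_add, mul_add, e1, e2, e3]
  linarith

end Pool.Agent.Work.MP_2d9442_nt.AS
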