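import Pool.Agent.Work.MP_2d9442_nt.AS.Co
import Pool.Agent.Work.MP_2d9442_nt.AS.Un
import Pool.Agent.Work.MP_2d9442_nt.AS.Re
import Pool.Agent.Work.MP_2d9442_nt.AS.FinA

/-!
# Module Fin: the main theorem for almost dilation invariant weights
-/

set_option autoImplicit false

open Finset

namespace Pool.Agent.Work.MP_2d9442_nt.AS

theorem Scl.mono' {S : Finset ℕ} {w : ℕ → ℝ} {Y Pm Y' Pm' : ℕ} {κ κ' : ℝ} (h : Scl S w Y Pm κ)
    (hY : Y' ≤ Y) (hP : Pm' ≤ Pm) (hκ : κ ≤ κ') : Scl S w Y' Pm' κ' where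
  nonneg := h.nonneg
  tot := h.tot
  lo := fun N hN => hY.trans (h.lo N hN)
  dil := fun P h1 h2 g hg => (h.dil P h1 (h2.trans hP) g hg).trans hκ

open Classical in
theorem fin (K : ℝ) {ε : ℝ} (hε : 0 < ε) : ∃ Y Pm : ℕ, ∃ κ : ℝ, 0 < κ ∧
    ∀ (S : Finset ℕ) (w : ℕ → ℝ), Scl S w Y Pm κ → ∀ z : ℕ → ℂ, UM z →
      Av S w (fun N => ind (AN z N ≤ K)) ≤ ε := by
  obtain ⟨c, κ0, hc, hκ0, hκ01, Q0', hQ0', hco⟩ := co K hε
  -- constants
  set Kp : ℝ := |K| + 1 with hKp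
  have hKp0 : 0 < Kp := by positivity
  have hKKp : K ≤ Kp := (le_abs_self K).trans (by rw [hKp]; linarith)
  set Q0 : ℕ := Q0' + 1 with hQ0
  have hQ02 : 2 ≤ Q0 := by omega
  have hQ0R : (0 : ℝ) < Q0 := by
    have : 0 < Q0 := by omega
    exact_mod_cast this
  have hQ0R1 : (1 : ℝ) ≤ Q0 := by
    have : 1 ≤ Q0 := by omega
    exact_mod_cast this
  set κ' : ℝ := κ0 / Q0 with hκ'
  have hκ'0 : 0 < κ' := by positivity
  have hκ'1 : κ' ≤ 1 := by
    rw [hκ', div_le_one hQ0R]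
    linarith
  obtain ⟨J', hJ'⟩ := exists_nat_gt (8 / κ' ^ 2 + 800 * (Kp + 1) / (c * κ' ^ 2))
  have hJ'1 : 8 / κ' ^ 2 ≤ J' := by
    have : 0 ≤ 800 * (Kp + 1) / (c * κ' ^ 2) := by positivity
    linarith
  have hJ'2 : 800 * (Kp + 1) / (c * κ' ^ 2) < J' := by
    have : 0 ≤ 8 / κ' ^ 2 := by positivity
    linarith
  have hJ'3 : 200 * (Kp + 1) < 2 * c * (κ' ^ 2 / 8 * J') := by
    rw [div_lt_iff₀ (by positivity)] at hJ'2
    nlinarith
  set D0 : ℕ := Q0 ^ (J' + 1) with hD0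
  have hD01 : 1 ≤ D0 := Nat.one_le_pow _ _ (by omega)
  have hD0R : (1 : ℝ) ≤ D0 := by exact_mod_cast hD01
  set ηV : ℝ := c / (4 * (D0 : ℝ) ^ 2) with hηV
  have hηV0 : 0 < ηV := by positivity
  set ηU : ℝ := ηV * (κ' ^ 2 / (32 * (D0 : ℝ) ^ 3)) with hηU
  have hηU0 : 0 < ηU := by positivity
  set J0 : ℕ := D0 ^ 3 + ⌈32 * (D0 : ℝ) ^ 2 / c⌉₊ + ⌈16 * Kp / c⌉₊ + 1 with hJ0
  obtain ⟨Jm, Y1, Pm1, κ1, hκ1, hun⟩ := un D0 J0 hηU0
  choose YJ PJ κJ hκJ hcoJ using fun J : ℕ => hco (max J 1) (le_max_right _ _)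
  set κm : ℝ := 1 / ∑ J ∈ range (Jm + 1), 1 / κJ J with hκm
  have hsumpos : 0 < ∑ J ∈ range (Jm + 1), 1 / κJ J := by
    refine Finset.sum_pos (fun J _ => by have := hκJ J; positivity) ⟨0, ?_⟩
    rw [Finset.mem_range]; omega
  have hκm0 : 0 < κm := by positivity
  have hκmJ : ∀ J ≤ Jm, κm ≤ κJ J := by
    intro J hJ
    have h1 : 1 / κJ J ≤ ∑ J ∈ range (Jm + 1), 1 / κJ J :=
      Finset.single_le_sum (f := fun J => 1 / κJ J)
        (fun J _ => by have := hκJ J; positivity) (Finset.mem_range.2 (by omega))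
    rw [hκm, div_le_iff₀ hsumpos]
    have h2 := mul_le_mul_of_nonneg_left h1 (hκJ J).le
    have h3 : κJ J * (1 / κJ J) = 1 := by
      have := (hκJ J).ne'
      field_simp
    rw [h3] at h2
    exact h2
  set Y : ℕ := Y1 + ∑ J ∈ range (Jm + 1), YJ J + D0 ^ 3 * Jm + ⌈40 * (D0 : ℝ) ^ 3 * Jm / c⌉₊ +
    ⌈4 * (Jm : ℝ) / c⌉₊ + Jm + 1 with hY
  set Pm : ℕ := Pm1 + ∑ J ∈ range (Jm + 1), PJ J + Q0 ^ J' with hPm
  set κ : ℝ := min κ1 (min κm (κ' ^ 2 / 16)) with hκ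
  have hκpos : 0 < κ := lt_min hκ1 (lt_min hκm0 (by positivity))
  refine ⟨Y, Pm, κ, hκpos, ?_⟩
  intro S w hS z hz
  by_contra hcon
  push Not at hcon
  have hz1 := um_le hz
  have hW : Wt S w Y := hS.toWt
  obtain ⟨J, hJJ0, hJ1, hJJm, huni⟩ := hun S w
    (hS.mono' (by omega) (by omega) (min_le_left _ _)) z hz
  have hYJ : YJ J ≤ ∑ J ∈ range (Jm + 1), YJ J :=
    Finset.single_le_sum (f := YJ) (fun _ _ => Nat.zero_le _) (Finset.mem_range.2 (by omega))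
  have hPJ : PJ J ≤ ∑ J ∈ range (Jm + 1), PJ J :=
    Finset.single_le_sum (f := PJ) (fun _ _ => Nat.zero_le _) (Finset.mem_range.2 (by omega))
  have hmax : max J 1 = J := max_eq_left hJ1
  have hco1 := hcoJ J S w (hS.mono' (by omega) (by omega)
    (((min_le_right _ _).trans (min_le_left _ _)).trans (hκmJ J hJJm))) z hz hcon.le
  rw [hmax] at hco1
  -- numerical facts about J and N
  have hJR : (1 : ℝ) ≤ J := by exact_mod_cast hJ1
  have hJpos : (0 : ℝ) < J := by linarith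
  have hJD : D0 ^ 3 ≤ J := by omega
  have hJ32 : 32 * (D0 : ℝ) ^ 2 ≤ c * J := by
    have h1 : ⌈32 * (D0 : ℝ) ^ 2 / c⌉₊ ≤ J := by omega
    have h2 : 32 * (D0 : ℝ) ^ 2 / c ≤ J := (Nat.le_ceil _).trans (by exact_mod_cast h1)
    rw [div_le_iff₀ hc] at h2
    linarith
  have hJ16 : 16 * Kp ≤ c * J := by
    have h1 : ⌈16 * Kp / c⌉₊ ≤ J := by omega
    have h2 : 16 * Kp / c ≤ J := (Nat.le_ceil _).trans (by exact_mod_cast h1)
    rw [div_le_iff₀ hc] at h2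
    linarith
  have hN40 : ∀ N ∈ S, 40 * (D0 : ℝ) ^ 3 * J ≤ c * N := by
    intro N hN
    have h0 := hW.lo N hN
    have h1 : ⌈40 * (D0 : ℝ) ^ 3 * Jm / c⌉₊ ≤ N := by omega
    have h2 : 40 * (D0 : ℝ) ^ 3 * Jm / c ≤ N := (Nat.le_ceil _).trans (by exact_mod_cast h1)
    rw [div_le_iff₀ hc] at h2
    have h3 : (J : ℝ) ≤ Jm := by exact_mod_cast hJJm
    have h4 : 40 * (D0 : ℝ) ^ 3 * J ≤ 40 * (D0 : ℝ) ^ 3 * Jm :=
      mul_le_mul_of_nonneg_left h3 (by positivity)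
    linarith
  have hN4 : ∀ N ∈ S, 4 * (J : ℝ) ≤ c * N := by
    intro N hN
    have h0 := hW.lo N hN
    have h1 : ⌈4 * (Jm : ℝ) / c⌉₊ ≤ N := by omega
    have h2 : 4 * (Jm : ℝ) / c ≤ N := (Nat.le_ceil _).trans (by exact_mod_cast h1)
    rw [div_le_iff₀ hc] at h2
    have h3 : (J : ℝ) ≤ Jm := by exact_mod_cast hJJm
    linarith
  have hNJ : ∀ N ∈ S, D0 ^ 3 * J ≤ N ∧ J ≤ N := by
    intro N hN
    have h0 := hW.lo N hN
    have h1 : D0 ^ 3 * J ≤ D0 ^ 3 * Jm := Nat.mul_le_mul_left _ hJJm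
    constructor <;> omega
  -- pigeonhole on q
  set G : ℕ → ℕ → Prop := fun q N =>
    AN z N ≤ K ∧ ∃ a : ℕ, a.Coprime q ∧ c ≤ en z ((a : ℝ) / q) J N with hG
  have hsum : κ0 ≤ ∑ q ∈ Icc 1 Q0, Av S w (fun N => ind (G q N)) := by
    rw [← Av_sum]
    refine hco1.trans (Av_mono hW fun N _ => ?_)
    by_cases hp : AN z N ≤ K ∧ ∃ q : ℕ, 1 ≤ q ∧ q ≤ Q0' ∧
          ∃ a : ℕ, a.Coprime q ∧ c ≤ en z ((a : ℝ) / q) J N
    · obtain ⟨hA, q, hq1, hq2, a, ha1, ha2⟩ := hp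
      have h1 : ind (G q N) ≤ ∑ q ∈ Icc 1 Q0, ind (G q N) :=
        Finset.single_le_sum (f := fun q => ind (G q N)) (fun _ _ => ind_nonneg _)
          (Finset.mem_Icc.2 ⟨hq1, by omega⟩)
      rw [ind_of (show G q N from ⟨hA, a, ha1, ha2⟩)] at h1
      rw [ind_of ⟨hA, q, hq1, hq2, a, ha1, ha2⟩]
      exact h1
    · rw [ind_not hp]
      exact Finset.sum_nonneg fun _ _ => ind_nonneg _
  obtain ⟨q, hq, hqw⟩ : ∃ q ∈ Icc 1 Q0, κ' ≤ Av S w (fun N => ind (G q N)) := by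
    by_contra hne
    push Not at hne
    have hne' : (Icc 1 Q0).Nonempty := ⟨1, Finset.mem_Icc.2 ⟨le_rfl, by omega⟩⟩
    have h1 : ∑ q ∈ Icc 1 Q0, Av S w (fun N => ind (G q N)) < ∑ _q ∈ Icc 1 Q0, κ' :=
      Finset.sum_lt_sum_of_nonempty hne' hne
    rw [Finset.sum_const, Nat.card_Icc, nsmul_eq_mul] at h1
    have h2 : ((Q0 + 1 - 1 : ℕ) : ℝ) * κ' = κ0 := by
      rw [Nat.add_sub_cancel, hκ']
      field_simp
    linarith
  rw [Finset.mem_Icc] at hq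
  have hq2 : 2 ≤ q := by
    by_contra hlt
    have hq1 : q = 1 := by omega
    subst hq1
    have h0 : Av S w (fun N => ind (G 1 N)) ≤ 0 := by
      refine Av_le hW le_rfl fun N hN => ?_
      have : ¬ G 1 N := by
        rintro ⟨hA, a, -, ha⟩
        have h1 : en z ((a : ℝ) / (1 : ℕ)) J N = en z 0 J N := by
          rw [en_modEq z le_rfl (Nat.modEq_one : a ≡ 0 [MOD 1])]
          simp
        rw [h1] at ha
        have h2 := bad_zero hz1 hJ1 (hNJ N hN).2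
        have hNpos : (0 : ℝ) < N := by
          have := (hNJ N hN).2
          have h3 : 0 < N := by omega
          exact_mod_cast h3
        have h3 : 4 * AN z N / (J : ℝ) ^ 2 ≤ c / 4 := by
          rw [div_le_div_iff₀ (by positivity) (by norm_num)]
          have h5 : AN z N ≤ Kp := hA.trans hKKp
          nlinarith
        have h4 : (J : ℝ) / N ≤ c / 4 := by
          rw [div_le_div_iff₀ hNpos (by norm_num)]
          have := hN4 N hN
          linarith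
        linarith
      rw [ind_not this]
    linarith
  have hqQ : q ≤ Q0 := hq.2
  have hp0 : q.minFac.Prime := Nat.minFac_prime (by omega)
  have hp0q : q.minFac ∣ q := Nat.minFac_dvd q
  have hp0le : q.minFac ≤ Q0 := (Nat.minFac_le (by omega)).trans hqQ
  have hGdef : ∀ q N, G q N → (AN z N ≤ K ∧ ∃ a : ℕ, a.Coprime q ∧ c ≤ en z ((a : ℝ) / q) J N) :=
    fun q N h => h
  clear_value G
  -- recurrence
  have hre := re hκ'0 hκ'1 hκpos.le ((min_le_right _ _).trans (min_le_right _ _)) hp0.one_lt.le hJ'1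
    hS (by
      have h1 : q.minFac ^ J' ≤ Q0 ^ J' := Nat.pow_le_pow_left hp0le _
      omega) (G q) hqw
  -- uniformity
  set Ub : ℕ → Prop := fun N => ∃ D : ℕ, 1 ≤ D ∧ D ≤ D0 ∧ ∃ b b' : ℕ, b.Coprime D ∧ b'.Coprime D ∧
    ηV < |en z ((b : ℝ) / D) J N - en z ((b' : ℝ) / D) J N| with hUb
  set T : Finset (ℕ × ℕ × ℕ) := ((Icc 1 D0) ×ˢ (range D0) ×ˢ (range D0)).filter
    (fun t => t.2.1.Coprime t.1 ∧ t.2.2.Coprime t.1) with hT
  have hTcard : (T.card : ℝ) ≤ (D0 : ℝ) ^ 3 := by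
    have h1 : T.card ≤ ((Icc 1 D0) ×ˢ (range D0) ×ˢ (range D0)).card := Finset.card_filter_le _ _
    rw [Finset.card_product, Finset.card_product, Nat.card_Icc, Finset.card_range] at h1
    have h2 : T.card ≤ D0 ^ 3 := by
      refine h1.trans (le_of_eq ?_)
      rw [Nat.add_sub_cancel]
      ring
    exact_mod_cast h2
  have hUbw : Av S w (fun N => ind (Ub N)) ≤ κ' ^ 2 / 32 := by
    have h1 : Av S w (fun N => ind (Ub N)) ≤ ∑ t ∈ T, Av S w (fun N => ind (ηV ≤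
        |en z ((t.2.1 : ℝ) / t.1) J N - en z ((t.2.2 : ℝ) / t.1) J N|)) := by
      rw [← Av_sum]
      refine Av_mono hW fun N _ => ?_
      by_cases hp : Ub N
      · obtain ⟨D, hD1, hD2, b, b', hb, hb', hlt⟩ := hp
        have hDpos : 0 < D := by omega
        have e1 : en z ((b : ℝ) / D) J N = en z (((b % D : ℕ) : ℝ) / D) J N :=
          en_modEq z hD1 (Nat.mod_modEq b D).symm J N
        have e2 : en z ((b' : ℝ) / D) J N = en z (((b' % D : ℕ) : ℝ) / D) J N :=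
          en_modEq z hD1 (Nat.mod_modEq b' D).symm J N
        have hmem : (D, b % D, b' % D) ∈ T := by
          rw [hT, Finset.mem_filter, Finset.mem_product, Finset.mem_product, Finset.mem_Icc,
            Finset.mem_range, Finset.mem_range]
          have m1 := Nat.mod_lt b hDpos
          have m2 := Nat.mod_lt b' hDpos
          refine ⟨⟨⟨hD1, hD2⟩, lt_of_lt_of_le m1 hD2, lt_of_lt_of_le m2 hD2⟩, ?_, ?_⟩
          · show Nat.gcd (b % D) D = 1
            rw [← Nat.gcd_rec, Nat.gcd_comm]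
            exact hb
          · show Nat.gcd (b' % D) D = 1
            rw [← Nat.gcd_rec, Nat.gcd_comm]
            exact hb'
        have h2 := Finset.single_le_sum (f := fun t : ℕ × ℕ × ℕ => ind (ηV ≤
          |en z ((t.2.1 : ℝ) / t.1) J N - en z ((t.2.2 : ℝ) / t.1) J N|))
          (fun _ _ => ind_nonneg _) hmem
        have h3 : ηV ≤ |en z (((b % D : ℕ) : ℝ) / D) J N - en z (((b' % D : ℕ) : ℝ) / D) J N| := by
          rw [← e1, ← e2]
          exact hlt.le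
        have h4 : ind (ηV ≤ |en z (((b % D : ℕ) : ℝ) / D) J N -
          en z (((b' % D : ℕ) : ℝ) / D) J N|) = 1 := ind_of h3
        refine (ind_le_one _).trans ?_
        rw [← h4]
        exact h2
      · rw [ind_not hp]
        exact Finset.sum_nonneg fun _ _ => ind_nonneg _
    refine h1.trans ?_
    have h2 : ∀ t ∈ T, Av S w (fun N => ind (ηV ≤
        |en z ((t.2.1 : ℝ) / t.1) J N - en z ((t.2.2 : ℝ) / t.1) J N|)) ≤ ηU / ηV := by
      intro t ht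
      rw [hT, Finset.mem_filter, Finset.mem_product, Finset.mem_Icc] at ht
      refine (Av_markov hW (fun N _ => abs_nonneg _) hηV0).trans ?_
      exact div_le_div_of_nonneg_right
        (huni t.1 ht.1.1.1 ht.1.1.2 t.2.1 t.2.2 ht.2.1 ht.2.2) hηV0.le
    have h3 := Finset.sum_le_card_nsmul T _ _ h2
    refine h3.trans ?_
    rw [nsmul_eq_mul]
    have h4 : ηU / ηV = κ' ^ 2 / (32 * (D0 : ℝ) ^ 3) := by
      rw [hηU]
      field_simp
    rw [h4]
    calc (T.card : ℝ) * (κ' ^ 2 / (32 * (D0 : ℝ) ^ 3)) ≤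
        (D0 : ℝ) ^ 3 * (κ' ^ 2 / (32 * (D0 : ℝ) ^ 3)) :=
          mul_le_mul_of_nonneg_right hTcard (by positivity)
      _ = κ' ^ 2 / 32 := by field_simp
  -- a good scale
  obtain ⟨N, hN, ⟨hGN, hcard⟩, hnU⟩ : ∃ N ∈ S, (G q N ∧ κ' ^ 2 / 8 * J' ≤
      (((Icc 1 J').filter (fun j => G q (N / q.minFac ^ j))).card : ℝ)) ∧ ¬ Ub N := by
    by_contra hne
    push Not at hne
    have h1 : Av S w (fun N => ind (G q N ∧ κ' ^ 2 / 8 * J' ≤
      (((Icc 1 J').filter (fun j => G q (N / q.minFac ^ j))).card : ℝ))) ≤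
      Av S w (fun N => ind (Ub N)) :=
      Av_mono hW fun N hN => ind_mono fun h => hne N hN h
    have h2 : 0 < κ' ^ 2 := by positivity
    linarith
  have hDD : q ^ (J' + 1) ≤ D0 := Nat.pow_le_pow_left hqQ _
  have hDDR : ((q ^ (J' + 1) : ℕ) : ℝ) ≤ D0 := by exact_mod_cast hDD
  have hDD3 : (q ^ (J' + 1)) ^ 3 ≤ D0 ^ 3 := Nat.pow_le_pow_left hDD _
  have hDDR3 : ((q ^ (J' + 1) : ℕ) : ℝ) ^ 3 ≤ (D0 : ℝ) ^ 3 := by exact_mod_cast hDD3
  have hDDR2 : ((q ^ (J' + 1) : ℕ) : ℝ) ^ 2 ≤ (D0 : ℝ) ^ 2 :=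
    pow_le_pow_left₀ (Nat.cast_nonneg _) hDDR _
  have hfin := finA hz (c := c) (ηV := ηV) hc (q := q) (p0 := q.minFac) (J' := J')
    (D0 := q ^ (J' + 1)) (J := J) (N := N) hq2 hp0 hp0q rfl (hDD3.trans hJD)
    (by nlinarith) ((Nat.mul_le_mul_right _ hDD3).trans (hNJ N hN).1)
    (by
      have h1 := hN40 N hN
      have h2 : 40 * ((q ^ (J' + 1) : ℕ) : ℝ) ^ 3 * J ≤ 40 * (D0 : ℝ) ^ 3 * J :=
        mul_le_mul_of_nonneg_right (by linarith) hJpos.le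
      linarith)
    (by
      have h1 : 4 * (D0 : ℝ) ^ 2 * ηV = c := by
        rw [hηV]
        field_simp
      have h2 : 4 * ((q ^ (J' + 1) : ℕ) : ℝ) ^ 2 * ηV ≤ 4 * (D0 : ℝ) ^ 2 * ηV :=
        mul_le_mul_of_nonneg_right (by linarith) hηV0.le
      linarith)
    (by
      intro D hD1 hD2 b b' hb hb'
      by_contra hlt
      push Not at hlt
      exact hnU ⟨D, hD1, hD2.trans hDD, b, b', hb, hb', hlt⟩)
    ((Icc 1 J').filter (fun j => G q (N / q.minFac ^ j)))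
    (by
      intro j hj
      rw [Finset.mem_filter, Finset.mem_Icc] at hj
      obtain ⟨⟨h1, h2⟩, h3⟩ := hj
      obtain ⟨-, a, ha1, ha2⟩ := hGdef _ _ h3
      exact ⟨h1, h2, a, ha1, ha2⟩)
  have hAN : AN z N ≤ Kp := (hGdef _ _ hGN).1.trans hKKp
  have h9 : 2 * c * (κ' ^ 2 / 8 * J') ≤ 2 * c *
      (((Icc 1 J').filter (fun j => G q (N / q.minFac ^ j))).card : ℝ) :=
    mul_le_mul_of_nonneg_left hcard (by positivity)
  linarith

end Pool.Agent.Work.MP_2d9442_nt.AS
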