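import Pool.Agent.Work.MP_2d9442_nt.AS.Base

/-!
# Module KtB: correlations of two dilates of a locally exponential function (M, Mathlib only)

By induction on `i`: `‖F(m+i) - e(-iβ) F(m)‖ ≤ 2i/L`.  So with `B(m) = F(pm) conj F(qm)`:
`F(p(m+i)) = e(-piβ)F(pm) + O(2pi/L)`, `conj F(q(m+i)) = e(qiβ) conj F(qm) + O(2qi/L)`, hence
`‖B(m+i) - e(i(q-p)β) B(m)‖ ≤ 2i(p+q)/L`.
For `i < I`: `‖∑_{m≤y} B(m+i) - ∑_{m≤y} B(m)‖ ≤ 2i ≤ 2I`.  So
`‖∑_{m≤y} B(m)‖ ≤ ‖(1/I) ∑_{i<I} ∑_{m≤y} B(m+i)‖ + 2I ≤ ‖(1/I) ∑_{i<I} e(i(q-p)β) ∑_{m≤y} B(m)‖ + 2I + y 2I(p+q)/L`.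
-/

set_option autoImplicit false

open Finset

namespace Pool.Agent.Work.MP_2d9442_nt.AS

private theorem ktB_sumr (g : ℕ → ℂ) (x : ℕ) :
    ∑ m ∈ Icc 1 x, g m = ∑ i ∈ range x, g (i + 1) := by
  induction x with
  | zero => simp
  | succ n ih => rw [Finset.sum_Icc_succ_top (by omega), Finset.sum_range_succ, ih]

private theorem ktB_shift (g : ℕ → ℂ) (hg : ∀ n, ‖g n‖ ≤ 1) (j x : ℕ) :
    ‖∑ n ∈ Icc 1 x, g (n + j) - ∑ m ∈ Icc 1 x, g m‖ ≤ 2 * j := by
  rw [ktB_sumr, ktB_sumr]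
  have h1 : ∑ i ∈ range (x + j), g (i + 1) =
      ∑ i ∈ range x, g (i + 1) + ∑ i ∈ range j, g (x + i + 1) := by
    rw [Finset.sum_range_add]
  have h2 : ∑ i ∈ range (j + x), g (i + 1) =
      ∑ i ∈ range j, g (i + 1) + ∑ i ∈ range x, g (j + i + 1) := by
    rw [Finset.sum_range_add]
  rw [add_comm j x, h1] at h2
  have h4 : ∑ i ∈ range x, g (i + 1 + j) = ∑ i ∈ range x, g (j + i + 1) := by
    refine Finset.sum_congr rfl fun i _ => ?_
    congr 1
    omega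
  have h5 : ∑ i ∈ range x, g (j + i + 1) - ∑ i ∈ range x, g (i + 1) =
      ∑ i ∈ range j, g (x + i + 1) - ∑ i ∈ range j, g (i + 1) := by
    linear_combination -h2
  rw [h4, h5]
  refine (norm_sub_le _ _).trans ?_
  have h6 : ∀ f : ℕ → ℕ, ‖∑ i ∈ range j, g (f i)‖ ≤ j := by
    intro f
    refine (norm_sum_le _ _).trans ?_
    calc ∑ i ∈ range j, ‖g (f i)‖ ≤ ∑ _i ∈ range j, (1 : ℝ) :=
          Finset.sum_le_sum fun i _ => hg _
      _ = j := by simp
  linarith [h6 (fun i => x + i + 1), h6 (fun i => i + 1)]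

theorem ktB {F : ℕ → ℂ} {β : ℝ} {L : ℕ} (hL : 1 ≤ L) (hF : ∀ n, ‖F n‖ ≤ 1)
    (hF2 : ∀ m, ‖F (m + 1) - ee (-β) * F m‖ ≤ 2 / L) (p q y : ℕ) {I : ℕ} (hI : 1 ≤ I) :
    ‖∑ m ∈ Icc 1 y, F (p * m) * (starRingEnd ℂ) (F (q * m))‖ ≤
      y * (‖∑ i ∈ range I, ee (i * (((q : ℝ) - p) * β))‖ / I) + 2 * I +
        2 * y * I * (p + q) / L := by
  have hL0 : (0 : ℝ) < L := by exact_mod_cast hL
  have hI0 : (0 : ℝ) < I := by exact_mod_cast hI
  have hA : ∀ m i : ℕ, ‖F (m + i) - ee (-(i * β)) * F m‖ ≤ 2 * i / L := by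
    intro m i
    induction i with
    | zero => simp [ee_zero]
    | succ i ih =>
      have h1 : F (m + (i + 1)) - ee (-(((i + 1 : ℕ) : ℝ) * β)) * F m =
          (F (m + i + 1) - ee (-β) * F (m + i)) + ee (-β) * (F (m + i) - ee (-(i * β)) * F m) := by
        have h2 : ee (-(((i + 1 : ℕ) : ℝ) * β)) = ee (-β) * ee (-(i * β)) := by
          rw [← ee_add]
          congr 1
          push_cast
          ring
        rw [h2, ← add_assoc]
        ring
      rw [h1]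
      refine (norm_add_le _ _).trans ?_
      rw [norm_mul, ee_norm, one_mul]
      have h3 : 2 * ((i + 1 : ℕ) : ℝ) / L = 2 / L + 2 * i / L := by
        push_cast
        ring
      rw [h3]
      exact add_le_add (hF2 _) ih
  obtain ⟨B, hB⟩ : ∃ B : ℕ → ℂ, ∀ m, B m = F (p * m) * (starRingEnd ℂ) (F (q * m)) :=
    ⟨_, fun _ => rfl⟩
  have hB1 : ∀ m, ‖B m‖ ≤ 1 := by
    intro m
    rw [hB, norm_mul, RCLike.norm_conj]
    exact mul_le_one₀ (hF _) (norm_nonneg _) (hF _)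
  have hB2 : ∀ m i : ℕ, ‖B (m + i) - ee (i * (((q : ℝ) - p) * β)) * B m‖ ≤
      2 * i * (p + q) / L := by
    intro m i
    have h1 := hA (p * m) (p * i)
    have h2 := hA (q * m) (q * i)
    have h3 : B (m + i) - ee (i * (((q : ℝ) - p) * β)) * B m =
        (F (p * m + p * i) - ee (-(((p * i : ℕ) : ℝ) * β)) * F (p * m)) *
          (starRingEnd ℂ) (F (q * m + q * i)) +
        (ee (-(((p * i : ℕ) : ℝ) * β)) * F (p * m)) *
          (starRingEnd ℂ) (F (q * m + q * i) - ee (-(((q * i : ℕ) : ℝ) * β)) * F (q * m)) := by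
      have h4 : ee (i * (((q : ℝ) - p) * β)) =
          ee (-(((p * i : ℕ) : ℝ) * β)) * ee (((q * i : ℕ) : ℝ) * β) := by
        rw [← ee_add]
        congr 1
        push_cast
        ring
      rw [hB, hB, h4, map_sub, map_mul, ee_conj, neg_neg, mul_add, mul_add]
      ring
    rw [h3]
    refine (norm_add_le _ _).trans ?_
    rw [norm_mul, norm_mul, norm_mul, RCLike.norm_conj, RCLike.norm_conj, ee_norm, one_mul]
    have h5 : 2 * (i : ℝ) * (p + q) / L = 2 * ((p * i : ℕ) : ℝ) / L + 2 * ((q * i : ℕ) : ℝ) / L := by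
      push_cast
      ring
    rw [h5]
    refine add_le_add ?_ ?_
    · exact (mul_le_of_le_one_right (norm_nonneg _) (hF _)).trans h1
    · exact (mul_le_of_le_one_left (norm_nonneg _) (hF _)).trans h2
  have hS : ∑ m ∈ Icc 1 y, F (p * m) * (starRingEnd ℂ) (F (q * m)) = ∑ m ∈ Icc 1 y, B m :=
    Finset.sum_congr rfl fun m _ => (hB m).symm
  rw [hS]
  obtain ⟨S, hSd⟩ : ∃ S : ℂ, S = ∑ m ∈ Icc 1 y, B m := ⟨_, rfl⟩
  rw [← hSd]
  have hSy : ‖S‖ ≤ y := by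
    rw [hSd]
    refine (norm_sum_le _ _).trans ?_
    calc ∑ m ∈ Icc 1 y, ‖B m‖ ≤ ∑ _m ∈ Icc 1 y, (1 : ℝ) := Finset.sum_le_sum fun m _ => hB1 m
      _ = y := by simp
  have hC : ∀ i : ℕ, i < I → ‖S - ee (i * (((q : ℝ) - p) * β)) * S‖ ≤
      2 * I + 2 * y * I * (p + q) / L := by
    intro i hi
    have hi' : (i : ℝ) ≤ I := by exact_mod_cast hi.le
    have h1 : S - ee (i * (((q : ℝ) - p) * β)) * S =
        -(∑ m ∈ Icc 1 y, B (m + i) - ∑ m ∈ Icc 1 y, B m) +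
        ∑ m ∈ Icc 1 y, (B (m + i) - ee (i * (((q : ℝ) - p) * β)) * B m) := by
      rw [Finset.sum_sub_distrib, ← Finset.mul_sum, ← hSd]
      ring
    rw [h1]
    refine (norm_add_le _ _).trans ?_
    rw [norm_neg]
    refine add_le_add ?_ ?_
    · exact (ktB_shift B hB1 i y).trans (by linarith)
    · refine (norm_sum_le _ _).trans ?_
      calc ∑ m ∈ Icc 1 y, ‖B (m + i) - ee (i * (((q : ℝ) - p) * β)) * B m‖ ≤
            ∑ _m ∈ Icc 1 y, 2 * (I : ℝ) * (p + q) / L := by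
            refine Finset.sum_le_sum fun m _ => (hB2 m i).trans ?_
            refine div_le_div_of_nonneg_right ?_ hL0.le
            have : (0 : ℝ) ≤ p + q := by positivity
            nlinarith
        _ = 2 * y * I * (p + q) / L := by
            rw [Finset.sum_const, Nat.card_Icc, nsmul_eq_mul, Nat.add_sub_cancel]
            ring
  have hD : ‖(I : ℂ) * S - (∑ i ∈ range I, ee (i * (((q : ℝ) - p) * β))) * S‖ ≤
      I * (2 * I + 2 * y * I * (p + q) / L) := by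
    have h1 : (I : ℂ) * S - (∑ i ∈ range I, ee (i * (((q : ℝ) - p) * β))) * S =
        ∑ i ∈ range I, (S - ee (i * (((q : ℝ) - p) * β)) * S) := by
      rw [Finset.sum_sub_distrib, ← Finset.sum_mul, Finset.sum_const, Finset.card_range,
        nsmul_eq_mul]
    rw [h1]
    refine (norm_sum_le _ _).trans ?_
    calc ∑ i ∈ range I, ‖S - ee (i * (((q : ℝ) - p) * β)) * S‖ ≤
          ∑ _i ∈ range I, (2 * (I : ℝ) + 2 * y * I * (p + q) / L) :=
          Finset.sum_le_sum fun i hi => hC i (Finset.mem_range.mp hi)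
      _ = I * (2 * I + 2 * y * I * (p + q) / L) := by
          rw [Finset.sum_const, Finset.card_range, nsmul_eq_mul]
  have hE : (I : ℝ) * ‖S‖ ≤ ‖∑ i ∈ range I, ee (i * (((q : ℝ) - p) * β))‖ * y +
      I * (2 * I + 2 * y * I * (p + q) / L) := by
    have h1 : (I : ℝ) * ‖S‖ = ‖(I : ℂ) * S‖ := by
      rw [norm_mul, Complex.norm_natCast]
    rw [h1]
    have h2 : (I : ℂ) * S = (∑ i ∈ range I, ee (i * (((q : ℝ) - p) * β))) * S +
      ((I : ℂ) * S - (∑ i ∈ range I, ee (i * (((q : ℝ) - p) * β))) * S) := by ring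
    rw [h2]
    refine (norm_add_le _ _).trans (add_le_add ?_ hD)
    rw [norm_mul]
    exact mul_le_mul_of_nonneg_left hSy (norm_nonneg _)
  have hG : ‖S‖ ≤ (‖∑ i ∈ range I, ee (i * (((q : ℝ) - p) * β))‖ * y +
      I * (2 * I + 2 * y * I * (p + q) / L)) / I := by
    rw [le_div_iff₀ hI0, mul_comm]
    exact hE
  refine hG.trans (le_of_eq ?_)
  generalize ‖∑ i ∈ range I, ee (i * (((q : ℝ) - p) * β))‖ = W
  field_simp
  ring

end Pool.Agent.Work.MP_2d9442_nt.AS
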