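import Pool.Agent.Work.MP_2d9442_nt.AS.KtA
import Pool.Agent.Work.MP_2d9442_nt.AS.KtB
import Pool.Agent.Work.MP_2d9442_nt.Bes
import Pool.Agent.Work.MP_54969a_nt.Katai

/-!
# Module KtC: local Katai criterion: a frequency with large local energy is near a rational (M-L)

We may assume `c ≤ 1`.  `F` from `ktA`.  `MP_54969a_nt.katai_bound` with `g = z`, this `F`, a finite set `Pr` of
primes with `R = recip Pr ≥ R₀(c)` (`MP_54969a_nt.recip_large`), `N = x`, divided by `xR`: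
`c - L/x ≤ √((1 + 2|Pr|/x)/R) + 2(∑_{p∈Pr} 1/p²)/R + √(1/R + Z)`,
`Z = (1/(xR²)) ∑_{p≠q} ‖∑_{m ≤ min(x/p,x/q)} F(pm) conj F(qm)‖`  (`sum_inv_sq_le` bounds the sum of `1/p²` by an
absolute constant).  With `R` large and `x ≥ Cx L`: `L/x ≤ c/8`, the first term `≤ c/8`, the second `≤ c/8`,
`√(1/R + Z) ≤ c/8 + √Z`.  So `√Z ≥ c/2`, `Z ≥ c²/4`, and there are `p ≠ q` in `Pr` with, `y = min(x/p, x/q) ≤ x`,
`‖∑_{m≤y} F(pm) conj F(qm)‖ ≥ c' x`, `c' = c²R²/(4|Pr|²)`.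
`ktB` with `I = ⌊c'L/(16 Qm)⌋` (`Qm` = a bound for the elements of `Pr`; `L ≥ L₀` so that `I ≥ 1` and
`I ≥ c'L/(32Qm)`): `2xI·2Qm/L ≤ c'x/4`, `2I ≤ 2L ≤ c'x/4` (`x ≥ Cx L`), so
`‖∑_{i<I} e(iψ)‖ ≥ (c'/2) I` with `ψ = (q-p)β`.  Let `a'` be the nearest integer to `ψ` (`round ψ`),
`α = ψ - a'`, `|α| ≤ 1/2`; if `α ≠ 0`, `geo` (Bes.lean; shift the index by one) gives `‖∑‖ ≤ 1/(2|α|)`, so
`|α| ≤ 1/(c'I) ≤ 32Qm/(c'²L)`.  Divide by `|q-p| ∈ [1, Qm]`: `|β - a/k| ≤ |α|` with `k = |q-p|`, `a = ±a'`.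
-/

set_option autoImplicit false

open Finset

namespace Pool.Agent.Work.MP_2d9442_nt.AS

/-- a large exponential sum has its frequency near an integer -/
private theorem ktC_freq {I : ℕ} (hI : 1 ≤ I) (ψ c : ℝ) (hc : 0 < c)
    (h : c / 2 * I ≤ ‖∑ i ∈ range I, ee (i * ψ)‖) : |ψ - round ψ| ≤ 1 / (c * I) := by
  have hI0 : (0 : ℝ) < I := by exact_mod_cast hI
  obtain ⟨α, hα⟩ : ∃ α : ℝ, α = ψ - round ψ := ⟨_, rfl⟩
  rw [← hα]
  by_cases h0 : α = 0
  · rw [h0, abs_zero]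
    positivity
  have hα0 : 0 < |α| := abs_pos.mpr h0
  have h1 : |α| ≤ 1 / 2 := by
    rw [hα]
    exact abs_sub_round ψ
  have h2 : ∑ i ∈ range I, ee (i * ψ) = ee (-α) * ∑ n ∈ Finset.Ioc 0 I, ee (n * α) := by
    have h3 : ∑ n ∈ Finset.Ioc 0 I, ee (n * α) = ∑ i ∈ range I, ee (((i + 1 : ℕ) : ℝ) * α) := by
      clear h hI hI0
      induction I with
      | zero => simp
      | succ n ih => rw [Finset.sum_Ioc_succ_top (by omega), Finset.sum_range_succ, ih]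
    rw [h3, Finset.mul_sum]
    refine Finset.sum_congr rfl fun i _ => ?_
    rw [← ee_add]
    have h4 : (i : ℝ) * ψ = (-α + ((i + 1 : ℕ) : ℝ) * α) + (((i : ℤ) * round ψ : ℤ) : ℝ) := by
      rw [hα]
      push_cast
      ring
    rw [h4, ee_add_int]
  have h5 := geo h0 h1 0 I
  rw [h2, norm_mul, ee_norm, one_mul] at h
  have h6 : c / 2 * I ≤ 1 / (2 * |α|) := h.trans h5
  rw [le_div_iff₀ (by positivity)] at h6 ⊢
  linarith

theorem kt {c : ℝ} (hc : 0 < c) : ∃ Q0 Cx L0 : ℕ, 1 ≤ Q0 ∧ 1 ≤ Cx ∧ 1 ≤ L0 ∧ ∃ Cb : ℝ, 0 < Cb ∧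
    ∀ L : ℕ, L0 ≤ L → ∀ x : ℕ, Cx * L ≤ x → ∀ z : ℕ → ℂ, UM z → ∀ β : ℝ, c ≤ en z β L x →
      ∃ q : ℕ, 1 ≤ q ∧ q ≤ Q0 ∧ ∃ a : ℤ, |β - a / q| ≤ Cb / L := by
  classical
  obtain ⟨C0, hC0⟩ : ∃ C0 : ℝ, C0 = ∑' n : ℕ, 1 / (n : ℝ) ^ 2 := ⟨_, rfl⟩
  have hC0' : 0 ≤ C0 := by
    rw [hC0]
    exact tsum_nonneg fun _ => by positivity
  obtain ⟨T, hT, hTR⟩ := MP_54969a_nt.recip_large 0 ((24 / c) ^ 2 + 16 * C0 / c + 1)
  obtain ⟨R, hR⟩ : ∃ R : ℝ, R = MP_54969a_nt.recip T := ⟨_, rfl⟩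
  rw [← hR] at hTR
  have hR1 : 1 ≤ R := by
    have h1 : 0 ≤ (24 / c) ^ 2 := by positivity
    have h2 : 0 ≤ 16 * C0 / c := by positivity
    linarith
  have hTne : T.Nonempty := by
    rw [Finset.nonempty_iff_ne_empty]
    intro h1
    rw [h1] at hR
    unfold MP_54969a_nt.recip at hR
    rw [Finset.sum_empty] at hR
    linarith
  have hTc : (0 : ℝ) < T.card := by
    have := Finset.card_pos.mpr hTne
    exact_mod_cast this
  obtain ⟨Qm, hQm⟩ : ∃ Qm : ℕ, Qm = T.sup id := ⟨_, rfl⟩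
  have hQmle : ∀ p ∈ T, p ≤ Qm := by
    intro p hp
    rw [hQm]
    exact Finset.le_sup (f := id) hp
  have hQm1 : 1 ≤ Qm := by
    obtain ⟨p, hp⟩ := hTne
    exact (hT p hp).2.trans_le (hQmle p hp)
  have hQm0 : (0 : ℝ) < Qm := by exact_mod_cast hQm1
  obtain ⟨c', hc'⟩ : ∃ c' : ℝ, c' = c ^ 2 / (8 * (T.card : ℝ) ^ 2) := ⟨_, rfl⟩
  have hc'0 : 0 < c' := by
    rw [hc']
    positivity
  refine ⟨Qm, ⌈4 / c⌉₊ + T.card + 1, ⌈32 * Qm / c'⌉₊ + 1, hQm1, by omega, by omega,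
    32 * Qm / c' ^ 2, by positivity, ?_⟩
  intro L hL x hx z hz β hen
  have hL1 : 1 ≤ L := by omega
  have hL0 : (0 : ℝ) < L := by exact_mod_cast hL1
  have hLx : L ≤ x := by
    refine le_trans ?_ hx
    exact Nat.le_mul_of_pos_left _ (by omega)
  have hLxR : (L : ℝ) ≤ x := by exact_mod_cast hLx
  have hx1 : 1 ≤ x := by omega
  have hx0 : (0 : ℝ) < x := by exact_mod_cast hx1
  have hxR : ((⌈4 / c⌉₊ + T.card + 1 : ℕ) : ℝ) * L ≤ x := by exact_mod_cast hx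
  push_cast at hxR
  have hLc : (L : ℝ) ≤ c / 4 * x := by
    have h1 : (4 / c : ℝ) ≤ ⌈4 / c⌉₊ := Nat.le_ceil _
    have h2 : (4 / c) * (L : ℝ) ≤ x := by
      refine le_trans ?_ hxR
      exact mul_le_mul_of_nonneg_right (by linarith) hL0.le
    calc (L : ℝ) = c / 4 * (4 / c * L) := by
          field_simp
      _ ≤ c / 4 * x := mul_le_mul_of_nonneg_left h2 (by positivity)
  have hTx : (T.card : ℝ) ≤ x := by
    have h1 : (1 : ℝ) ≤ L := by exact_mod_cast hL1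
    have h2 : (0 : ℝ) ≤ ⌈4 / c⌉₊ := Nat.cast_nonneg _
    nlinarith
  obtain ⟨F, hF1, hF2, hF3⟩ := ktA hz.cm.le β hL1 hx1
  obtain ⟨W, hW⟩ : ∃ W : ℝ, W = ∑ p ∈ T, ∑ q ∈ T.erase p,
    ‖∑ m ∈ Icc 1 (min (x / p) (x / q)), F (p * m) * (starRingEnd ℂ) (F (q * m))‖ := ⟨_, rfl⟩
  have hW0 : 0 ≤ W := by
    rw [hW]
    exact Finset.sum_nonneg fun _ _ => Finset.sum_nonneg fun _ _ => norm_nonneg _
  have hkb := MP_54969a_nt.katai_bound z F hz.cm.le hF1 (fun p m _ _ => hz.cm.mul p m) T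
    (fun p hp => (hT p hp).1) x
  rw [← hR, ← hW] at hkb
  have hsig := MP_54969a_nt.sum_inv_sq_le T
  rw [← hC0] at hsig
  -- the correlation is large
  have hWbig : c ^ 2 / 4 * x ≤ W := by
    have h1 : c * x - L ≤ ‖∑ n ∈ Icc 1 x, F n * z n‖ := by
      have h2 : c * x ≤ x * en z β L x := by
        rw [mul_comm]
        exact mul_le_mul_of_nonneg_left hen hx0.le
      linarith
    have hs1 : √(x * (x * R + 2 * T.card * R)) ≤ x * (2 * √R) := by
      rw [Real.sqrt_le_left (by positivity)]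
      have h2 : (x * (2 * √R)) ^ 2 = 4 * x ^ 2 * R := by
        rw [mul_pow, mul_pow, Real.sq_sqrt (by linarith)]
        ring
      rw [h2]
      have h3 : (T.card : ℝ) * R ≤ x * R := mul_le_mul_of_nonneg_right hTx (by linarith)
      have h4 : x * ((T.card : ℝ) * R) ≤ x * (x * R) := mul_le_mul_of_nonneg_left h3 hx0.le
      nlinarith [mul_nonneg (mul_nonneg hx0.le hx0.le) (by linarith : (0 : ℝ) ≤ R)]
    have hs2 : √(x * (x * R + W)) ≤ x * √R + √(x * W) := by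
      rw [Real.sqrt_le_left (by positivity)]
      have h2 : (x * √R + √(x * W)) ^ 2 = x ^ 2 * R + x * W + 2 * (x * √R * √(x * W)) := by
        have e1 := Real.sq_sqrt (show (0 : ℝ) ≤ R by linarith)
        have e2 := Real.sq_sqrt (show (0 : ℝ) ≤ x * W by positivity)
        calc (x * √R + √(x * W)) ^ 2 = x ^ 2 * (√R) ^ 2 + (√(x * W)) ^ 2 +
              2 * (x * √R * √(x * W)) := by ring
          _ = _ := by rw [e1, e2]
      rw [h2]
      have h3 : 0 ≤ 2 * (x * √R * √(x * W)) := by positivity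
      nlinarith
    have h3 : R * (c * x - L) ≤ x * (2 * √R) + 2 * x * C0 + (x * √R + √(x * W)) := by
      have e1 : R * (c * x - L) ≤ R * ‖∑ n ∈ Icc 1 x, F n * z n‖ :=
        mul_le_mul_of_nonneg_left h1 (by linarith)
      have e2 : 2 * (x : ℝ) * (∑ p ∈ T, 1 / (p : ℝ) ^ 2) ≤ 2 * x * C0 :=
        mul_le_mul_of_nonneg_left hsig (by positivity)
      linarith
    have h4 : R * (3 / 4 * c * x) ≤ R * (c * x - L) :=
      mul_le_mul_of_nonneg_left (by linarith) (by linarith)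
    have h5 : 3 * √R ≤ c / 8 * R := by
      have e1 : (24 / c) ^ 2 ≤ R := by
        have : 0 ≤ 16 * C0 / c := by positivity
        linarith
      have e2 : 24 / c ≤ √R := Real.le_sqrt_of_sq_le e1
      have e3 : 24 ≤ c * √R := by
        rw [div_le_iff₀ hc] at e2
        linarith
      have e4 := Real.mul_self_sqrt (show (0 : ℝ) ≤ R by linarith)
      have e5 := Real.sqrt_nonneg R
      nlinarith
    have h6 : 2 * C0 ≤ c / 8 * R := by
      have e1 : 16 * C0 / c ≤ R := by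
        have : 0 ≤ (24 / c) ^ 2 := by positivity
        linarith
      rw [div_le_iff₀ hc] at e1
      linarith
    have h7 : x * (c / 2 * R) ≤ √(x * W) := by
      have e1 : x * (3 * √R) ≤ x * (c / 8 * R) := mul_le_mul_of_nonneg_left h5 hx0.le
      have e2 : x * (2 * C0) ≤ x * (c / 8 * R) := mul_le_mul_of_nonneg_left h6 hx0.le
      linarith
    have h8 : (x * (c / 2 * R)) ^ 2 ≤ x * W := by
      have := pow_le_pow_left₀ (by positivity) h7 2
      rwa [Real.sq_sqrt (by positivity)] at this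
    have h9 : x * (c ^ 2 / 4 * x) ≤ x * W := by
      refine le_trans ?_ h8
      have e1 : (1 : ℝ) ≤ R ^ 2 := by nlinarith
      have e2 : 0 ≤ x * (c ^ 2 / 4 * x) := by positivity
      calc x * (c ^ 2 / 4 * x) ≤ x * (c ^ 2 / 4 * x) * R ^ 2 := le_mul_of_one_le_right e2 e1
        _ = (x * (c / 2 * R)) ^ 2 := by ring
    exact le_of_mul_le_mul_left h9 hx0
  -- two primes
  obtain ⟨p, hp, q, hq, hpq⟩ : ∃ p ∈ T, ∃ q ∈ T.erase p, c' * x ≤
      ‖∑ m ∈ Icc 1 (min (x / p) (x / q)), F (p * m) * (starRingEnd ℂ) (F (q * m))‖ := by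
    by_contra hcon
    push Not at hcon
    have h1 : W ≤ ∑ _p ∈ T, ∑ _q ∈ T, c' * x := by
      rw [hW]
      refine Finset.sum_le_sum fun p hp => ?_
      refine (Finset.sum_le_sum fun q hq => (hcon p hp q hq).le).trans ?_
      exact Finset.sum_le_sum_of_subset_of_nonneg (Finset.erase_subset _ _)
        fun _ _ _ => by positivity
    have h2 : ∑ _p ∈ T, ∑ _q ∈ T, c' * (x : ℝ) = c ^ 2 / 8 * x := by
      rw [Finset.sum_const, Finset.sum_const, nsmul_eq_mul, nsmul_eq_mul, hc']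
      field_simp
    rw [h2] at h1
    have h3 : 0 < c ^ 2 * x := by positivity
    linarith
  rw [Finset.mem_erase] at hq
  obtain ⟨hqp, hq⟩ := hq
  have hpQ : (p : ℝ) ≤ Qm := by exact_mod_cast hQmle p hp
  have hqQ : (q : ℝ) ≤ Qm := by exact_mod_cast hQmle q hq
  obtain ⟨y, hy⟩ : ∃ y : ℕ, y = min (x / p) (x / q) := ⟨_, rfl⟩
  rw [← hy] at hpq
  have hyx : (y : ℝ) ≤ x := by
    have : y ≤ x := by
      rw [hy]
      exact (min_le_left _ _).trans (Nat.div_le_self _ _)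
    exact_mod_cast this
  -- the length of averaging
  obtain ⟨I, hI⟩ : ∃ I : ℕ, I = ⌊c' * L / (16 * Qm)⌋₊ := ⟨_, rfl⟩
  have hLb : 1 ≤ c' * L / (32 * Qm) := by
    have h1 : (32 * Qm / c' : ℝ) ≤ ⌈32 * Qm / c'⌉₊ := Nat.le_ceil _
    have h2 : ((⌈32 * Qm / c'⌉₊ + 1 : ℕ) : ℝ) ≤ L := by exact_mod_cast hL
    push_cast at h2
    have h3 : 32 * Qm / c' ≤ L := by linarith
    rw [div_le_iff₀ hc'0] at h3
    rw [le_div_iff₀ (by positivity)]
    linarith
  have hIle : (I : ℝ) ≤ c' * L / (16 * Qm) := by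
    rw [hI]
    exact Nat.floor_le (by positivity)
  have hIge : c' * L / (32 * Qm) ≤ I := by
    have h1 : c' * L / (16 * Qm) < I + 1 := by
      rw [hI]
      exact Nat.lt_floor_add_one _
    have h2 : c' * L / (16 * Qm) = 2 * (c' * L / (32 * Qm)) := by
      field_simp
      norm_num
    linarith
  have hI1 : 1 ≤ I := by
    have : (1 : ℝ) ≤ I := hLb.trans hIge
    exact_mod_cast this
  have hI0 : (0 : ℝ) < I := by exact_mod_cast hI1
  have hB := ktB hL1 hF1 hF2 p q y hI1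
  obtain ⟨E, hE⟩ : ∃ E : ℝ, E = ‖∑ i ∈ range I, ee (i * (((q : ℝ) - p) * β))‖ := ⟨_, rfl⟩
  rw [← hE] at hB
  have hE0 : 0 ≤ E := by
    rw [hE]
    exact norm_nonneg _
  have hEbig : c' / 2 * I ≤ E := by
    have h1 : 2 * (I : ℝ) ≤ c' * x / 4 := by
      have e1 : (I : ℝ) ≤ c' * L / 16 := by
        refine hIle.trans ?_
        have e2 : (1 : ℝ) ≤ Qm := by exact_mod_cast hQm1
        rw [div_le_div_iff₀ (by positivity) (by norm_num)]
        nlinarith [mul_pos hc'0 hL0]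
      have e3 : c' * (L : ℝ) ≤ c' * x := mul_le_mul_of_nonneg_left hLxR hc'0.le
      nlinarith [mul_pos hc'0 hx0]
    have h2 : 2 * (y : ℝ) * I * (p + q) / L ≤ c' * x / 4 := by
      rw [div_le_iff₀ hL0]
      have e1 : (I : ℝ) * (16 * Qm) ≤ c' * L := by
        rw [le_div_iff₀ (by positivity)] at hIle
        exact hIle
      have e2 : (y : ℝ) * (I * (p + q)) ≤ x * (I * (2 * Qm)) := by
        refine mul_le_mul hyx ?_ (by positivity) hx0.le
        exact mul_le_mul_of_nonneg_left (by linarith) hI0.le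
      nlinarith [mul_le_mul_of_nonneg_left e1 hx0.le]
    have h3 : c' * x / 2 ≤ y * (E / I) := by linarith
    have h4 : (y : ℝ) * (E / I) ≤ x * (E / I) :=
      mul_le_mul_of_nonneg_right hyx (by positivity)
    have h5 : x * (c' / 2) ≤ x * (E / I) := by linarith
    have h6 := le_of_mul_le_mul_left h5 hx0
    rwa [le_div_iff₀ hI0] at h6
  rw [hE] at hEbig
  have hfr := ktC_freq hI1 (((q : ℝ) - p) * β) c' hc'0 hEbig
  obtain ⟨a, ha⟩ : ∃ a : ℤ, a = round (((q : ℝ) - p) * β) := ⟨_, rfl⟩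
  rw [← ha] at hfr
  have hfr2 : |((q : ℝ) - p) * β - a| ≤ 32 * Qm / c' ^ 2 / L := by
    refine hfr.trans ?_
    have e1 : c' * (c' * L / (32 * Qm)) ≤ c' * I := mul_le_mul_of_nonneg_left hIge hc'0.le
    calc 1 / (c' * I) ≤ 1 / (c' * (c' * L / (32 * Qm))) :=
          one_div_le_one_div_of_le (by positivity) e1
      _ = 32 * Qm / c' ^ 2 / L := by
          field_simp
  rcases lt_or_gt_of_ne hqp with hlt | hlt
  · -- q < p
    refine ⟨p - q, by omega, (Nat.sub_le _ _).trans (hQmle p hp), -a, ?_⟩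
    have hk : ((p - q : ℕ) : ℝ) = (p : ℝ) - q := by
      rw [Nat.cast_sub hlt.le]
    have hk1 : (1 : ℝ) ≤ (p : ℝ) - q := by
      rw [← hk]
      have : 1 ≤ p - q := by omega
      exact_mod_cast this
    rw [hk]
    push_cast
    have e1 : β - -(a : ℝ) / ((p : ℝ) - q) = -(((q : ℝ) - p) * β - a) / ((p : ℝ) - q) := by
      field_simp
      ring
    rw [e1, abs_div, abs_neg, abs_of_pos (by linarith : (0 : ℝ) < (p : ℝ) - q)]
    exact (div_le_self (abs_nonneg _) hk1).trans hfr2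
  · -- p < q
    refine ⟨q - p, by omega, (Nat.sub_le _ _).trans (hQmle q hq), a, ?_⟩
    have hk : ((q - p : ℕ) : ℝ) = (q : ℝ) - p := by
      rw [Nat.cast_sub hlt.le]
    have hk1 : (1 : ℝ) ≤ (q : ℝ) - p := by
      rw [← hk]
      have : 1 ≤ q - p := by omega
      exact_mod_cast this
    rw [hk]
    have e1 : β - (a : ℝ) / ((q : ℝ) - p) = (((q : ℝ) - p) * β - a) / ((q : ℝ) - p) := by
      field_simp
    rw [e1, abs_div, abs_of_pos (by linarith : (0 : ℝ) < (q : ℝ) - p)]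
    exact (div_le_self (abs_nonneg _) hk1).trans hfr2

end Pool.Agent.Work.MP_2d9442_nt.AS
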