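import Pool.Agent.Work.MP_2d9442_nt.AS.FoB
import Pool.Agent.Work.MP_2d9442_nt.AS.KtC
import Pool.Agent.Work.MP_2d9442_nt.AS.Wnd

/-!
# Module Fk: from a correlation along primes to coherence at a rational frequency (M)

`fo` gives `β` with `en z β P x ≥ c₁`; `kt` with `c = c₁`, `L = P` gives `q ≤ Q₀`, `a` with `|β - a/q| ≤ Cb/P`.
Reduce the fraction: `a/q = a'/q'` with `gcd = 1`, `q' ≤ q` and replace `a'` by a natural number congruent to it
modulo `q'` (`en_per`).  For `1 ≤ L ≤ c₃P`: `en_wnd` (`L' = L`, window `P`):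
`en z β L x ≥ c₁ - 3L/P - P/x ≥ c₁/2` (`c₃ ≤ c₁/12`, `x ≥ (4/c₁)P`).  Changing the frequency:
`‖loc z β L n - loc z (a/q) L n‖ ≤ 2πL|β - a/q| ≤ 2πc₃Cb` (`ee_sub_le`), squares of numbers in `[0,1]` change by
at most twice that: `en z (a/q) L x ≥ c₁/2 - 4πc₃Cb ≥ c₁/4 =: c₂` for `c₃ ≤ c₁/(16π Cb)`.
-/

set_option autoImplicit false

open Finset

namespace Pool.Agent.Work.MP_2d9442_nt.AS

/-- every fraction is, modulo one, a reduced fraction with a natural numerator -/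
private theorem fk_red (q : ℕ) (hq : 1 ≤ q) (a : ℤ) :
    ∃ q' : ℕ, 1 ≤ q' ∧ q' ≤ q ∧ ∃ a' : ℕ, a'.Coprime q' ∧ ∃ k : ℤ,
      (a : ℝ) / q = (a' : ℝ) / q' + k := by
  have hg : 0 < Int.gcd a q := Int.gcd_pos_of_ne_zero_right _ (by
    have : q ≠ 0 := by omega
    exact_mod_cast this)
  obtain ⟨b, r, hbr, ha, hr⟩ := Int.exists_gcd_one hg
  have hg' : (0 : ℤ) < (Int.gcd a q : ℤ) := by exact_mod_cast hg
  have hq' : (0 : ℤ) < q := by exact_mod_cast hq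
  have hr0 : 0 < r := by
    by_contra hcon
    have h1 : r * (Int.gcd a q : ℤ) ≤ 0 := mul_nonpos_of_nonpos_of_nonneg (not_lt.mp hcon) hg'.le
    rw [← hr] at h1
    omega
  lift r to ℕ using hr0.le
  have hr1 : 1 ≤ r := by exact_mod_cast hr0
  have hrR : (r : ℝ) ≠ 0 := by
    have : r ≠ 0 := by omega
    exact_mod_cast this
  have hbm : 0 ≤ b % (r : ℤ) := Int.emod_nonneg _ (by omega)
  have hcopr : IsCoprime (b % (r : ℤ)) (r : ℤ) := by
    have h1 : IsCoprime b (r : ℤ) := Int.isCoprime_iff_gcd_eq_one.mpr hbr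
    have h2 : b % (r : ℤ) + (r : ℤ) * (b / (r : ℤ)) = b := Int.emod_add_mul_ediv b r
    rw [← h2] at h1
    exact IsCoprime.of_add_mul_left_left h1
  obtain ⟨m, hm⟩ := Int.eq_ofNat_of_zero_le hbm
  refine ⟨r, hr1, ?_, m, ?_, b / (r : ℤ), ?_⟩
  · have h1 : (r : ℤ) ≤ r * (Int.gcd a q : ℤ) := by
      have : (1 : ℤ) ≤ (Int.gcd a q : ℤ) := hg'
      nlinarith
    rw [← hr] at h1
    exact_mod_cast h1
  · rw [← Nat.isCoprime_iff_coprime, ← hm]
    exact hcopr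
  · have h2 : b % (r : ℤ) + (r : ℤ) * (b / (r : ℤ)) = b := Int.emod_add_mul_ediv b r
    rw [hm] at h2
    have h3 : (m : ℝ) + (r : ℝ) * ((b / (r : ℤ) : ℤ) : ℝ) = (b : ℝ) := by exact_mod_cast h2
    have hgR : ((Int.gcd a q : ℤ) : ℝ) ≠ 0 := by
      have : (Int.gcd a q : ℤ) ≠ 0 := hg'.ne'
      exact_mod_cast this
    have h4 : (a : ℝ) = b * ((Int.gcd a q : ℤ) : ℝ) := by exact_mod_cast ha
    have h5 : (q : ℝ) = r * ((Int.gcd a q : ℤ) : ℝ) := by exact_mod_cast hr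
    have h6 : (a : ℝ) / q = b / r := by
      rw [h4, h5]
      field_simp
    rw [h6, ← h3]
    field_simp

/-- energies are Lipschitz in the frequency -/
private theorem fk_lip {z : ℕ → ℂ} (hz : ∀ n, ‖z n‖ ≤ 1) (θ θ' : ℝ) {L x : ℕ} (hL : 1 ≤ L)
    (hx : 1 ≤ x) : en z θ L x - en z θ' L x ≤ 4 * Real.pi * L * |θ - θ'| := by
  have hL0 : (0 : ℝ) < L := by exact_mod_cast hL
  have hx0 : (0 : ℝ) < x := by exact_mod_cast hx
  have hpi := Real.pi_pos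
  have h1 : ∀ n, ‖loc z θ L n - loc z θ' L n‖ ≤ 2 * Real.pi * L * |θ - θ'| := by
    intro n
    unfold loc
    rw [← sub_div, ← Finset.sum_sub_distrib, norm_div, Complex.norm_natCast, div_le_iff₀ hL0]
    refine (norm_sum_le _ _).trans ?_
    calc ∑ j ∈ range L, ‖z (n + j) * ee (-(j * θ)) - z (n + j) * ee (-(j * θ'))‖ ≤
          ∑ _j ∈ range L, 2 * Real.pi * L * |θ - θ'| := by
          refine Finset.sum_le_sum fun j hj => ?_
          rw [Finset.mem_range] at hj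
          rw [← mul_sub, norm_mul]
          have e1 := ee_sub_le (-(j * θ)) (-(j * θ'))
          have e2 : -((j : ℝ) * θ) - -(j * θ') = -(j * (θ - θ')) := by ring
          rw [e2, abs_neg, abs_mul, abs_of_nonneg (Nat.cast_nonneg j)] at e1
          have e3 : (j : ℝ) ≤ L := by exact_mod_cast hj.le
          have e4 : 2 * Real.pi * ((j : ℝ) * |θ - θ'|) ≤ 2 * Real.pi * (L * |θ - θ'|) := by
            gcongr
          calc ‖z (n + j)‖ * ‖ee (-(j * θ)) - ee (-(j * θ'))‖ ≤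
                1 * ‖ee (-(j * θ)) - ee (-(j * θ'))‖ :=
                mul_le_mul_of_nonneg_right (hz _) (norm_nonneg _)
            _ ≤ 2 * Real.pi * L * |θ - θ'| := by linarith
      _ = 2 * Real.pi * L * |θ - θ'| * L := by
          rw [Finset.sum_const, Finset.card_range, nsmul_eq_mul]
          ring
  unfold en
  rw [← sub_div, ← Finset.sum_sub_distrib, div_le_iff₀ hx0]
  calc ∑ n ∈ Icc 1 x, (‖loc z θ L n‖ ^ 2 - ‖loc z θ' L n‖ ^ 2) ≤
        ∑ _n ∈ Icc 1 x, 4 * Real.pi * L * |θ - θ'| := by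
        refine Finset.sum_le_sum fun n _ => ?_
        have e1 := loc_le_one hz θ L n
        have e2 := loc_le_one hz θ' L n
        have e3 := norm_nonneg (loc z θ L n)
        have e4 := norm_nonneg (loc z θ' L n)
        have e5 := (norm_sub_norm_le (loc z θ L n) (loc z θ' L n)).trans (h1 n)
        have e6 : 0 ≤ 2 * Real.pi * L * |θ - θ'| := by positivity
        have e7 : ‖loc z θ L n‖ ^ 2 - ‖loc z θ' L n‖ ^ 2 =
            (‖loc z θ L n‖ - ‖loc z θ' L n‖) * (‖loc z θ L n‖ + ‖loc z θ' L n‖) := by ring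
        rw [e7]
        calc (‖loc z θ L n‖ - ‖loc z θ' L n‖) * (‖loc z θ L n‖ + ‖loc z θ' L n‖) ≤
              (2 * Real.pi * L * |θ - θ'|) * (‖loc z θ L n‖ + ‖loc z θ' L n‖) :=
              mul_le_mul_of_nonneg_right e5 (by linarith)
          _ ≤ (2 * Real.pi * L * |θ - θ'|) * 2 :=
              mul_le_mul_of_nonneg_left (by linarith) e6
          _ = 4 * Real.pi * L * |θ - θ'| := by ring
    _ = 4 * Real.pi * L * |θ - θ'| * x := by
        rw [Finset.sum_const, Nat.card_Icc, nsmul_eq_mul, Nat.add_sub_cancel]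
        ring

theorem fk {c0 cP : ℝ} (hc0 : 0 < c0) (hcP : 0 < cP) (H0 : ℕ) :
    ∃ c2 c3 : ℝ, 0 < c2 ∧ 0 < c3 ∧ ∃ Q0 P0 Cx : ℕ, 1 ≤ Q0 ∧ 2 ≤ P0 ∧ 1 ≤ Cx ∧
      ∀ P : ℕ, P0 ≤ P → ∀ x : ℕ, Cx * P ≤ x → ∀ z : ℕ → ℂ, UM z → ∀ PP : Finset ℕ, PP ⊆ pr P →
        cP * (P / Real.log P) ≤ (PP.card : ℝ) → ∀ h : ℕ, 1 ≤ h → h ≤ H0 →
          c0 * PP.card ≤ ‖∑ p ∈ PP, avc x (fun n => z n * (starRingEnd ℂ) (z (n + p * h)))‖ →
            ∃ q : ℕ, 1 ≤ q ∧ q ≤ Q0 ∧ ∃ a : ℕ, a.Coprime q ∧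
              ∀ L : ℕ, 1 ≤ L → (L : ℝ) ≤ c3 * P → c2 ≤ en z ((a : ℝ) / q) L x := by
  obtain ⟨c1, hc1, P1, Cx1, hP1, hCx1, hfo⟩ := fo hc0 hcP H0
  obtain ⟨Q0, Cx2, L0, hQ0, hCx2, hL0, Cb, hCb, hkt⟩ := kt hc1
  have hpi := Real.pi_pos
  refine ⟨c1 / 4, min (c1 / 12) (c1 / (16 * Real.pi * Cb)), by positivity, by positivity, Q0,
    P1 + L0, Cx1 + Cx2 + ⌈4 / c1⌉₊, hQ0, by omega, by omega, ?_⟩
  intro Q hQ x hx z hz PP hPP hcard h hh hhH hcor
  have hQ2 : 2 ≤ Q := by omega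
  have hQR : (0 : ℝ) < Q := by
    have : 0 < Q := by omega
    exact_mod_cast this
  have hx1 : Cx1 * Q ≤ x := (Nat.mul_le_mul_right _ (by omega)).trans hx
  have hx2 : Cx2 * Q ≤ x := (Nat.mul_le_mul_right _ (by omega)).trans hx
  have hx3 : ⌈4 / c1⌉₊ * Q ≤ x := (Nat.mul_le_mul_right _ (by omega)).trans hx
  have hx4 : 1 ≤ x := by
    refine le_trans ?_ hx1
    exact Nat.mul_pos (by omega) (by omega)
  have hxR : (0 : ℝ) < x := by exact_mod_cast hx4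
  obtain ⟨β, hβ⟩ := hfo Q (by omega) x hx1 z hz.cm.le PP hPP hcard h hh hhH hcor
  obtain ⟨q, hq1, hq2, a, ha⟩ := hkt Q (by omega) x hx2 z hz β hβ
  obtain ⟨q', hq'1, hq'2, a', ha'c, k, hk⟩ := fk_red q hq1 a
  refine ⟨q', hq'1, hq'2.trans hq2, a', ha'c, ?_⟩
  intro L hL hLc
  have hLR : (0 : ℝ) < L := by exact_mod_cast hL
  have hc1one : c1 ≤ 1 := hβ.trans (en_le_one hz.cm.le β Q x)
  have hL12 : (L : ℝ) ≤ c1 / 12 * Q :=
    hLc.trans (mul_le_mul_of_nonneg_right (min_le_left _ _) hQR.le)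
  have hL16 : (L : ℝ) ≤ c1 / (16 * Real.pi * Cb) * Q :=
    hLc.trans (mul_le_mul_of_nonneg_right (min_le_right _ _) hQR.le)
  have hLQ : L ≤ Q := by
    have : (L : ℝ) ≤ Q := by
      refine hL12.trans ?_
      nlinarith
    exact_mod_cast this
  have hw := en_wnd hz.cm.le hL hLQ hx4 β
  have h1 : 3 * (L : ℝ) / Q ≤ c1 / 4 := by
    rw [div_le_iff₀ hQR]
    linarith
  have h2 : (Q : ℝ) / x ≤ c1 / 4 := by
    rw [div_le_iff₀ hxR]
    have e1 : (4 / c1 : ℝ) ≤ ⌈4 / c1⌉₊ := Nat.le_ceil _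
    have e2 : ((⌈4 / c1⌉₊ : ℕ) : ℝ) * Q ≤ x := by exact_mod_cast hx3
    have e3 : (4 / c1) * (Q : ℝ) ≤ x :=
      (mul_le_mul_of_nonneg_right e1 hQR.le).trans e2
    calc (Q : ℝ) = c1 / 4 * (4 / c1 * Q) := by
          field_simp
      _ ≤ c1 / 4 * x := mul_le_mul_of_nonneg_left e3 (by positivity)
  have h3 := fk_lip hz.cm.le β ((a : ℝ) / q) hL hx4
  have h4 : 4 * Real.pi * L * |β - a / q| ≤ c1 / 4 := by
    have e1 : 4 * Real.pi * L * |β - a / q| ≤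
        4 * Real.pi * (c1 / (16 * Real.pi * Cb) * Q) * (Cb / Q) := by
      gcongr
    refine e1.trans (le_of_eq ?_)
    field_simp
    norm_num
  rw [hk, en_per] at h3
  rw [← hk] at h3
  linarith

end Pool.Agent.Work.MP_2d9442_nt.AS
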