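import Pool.Agent.Work.MP_2d9442_nt.AS.Base
import Pool.Agent.Work.MP_2d9442_nt.Bes

/-!
# Module Fl: energies at the points `1/D` against the mean square of the partial sums (M)

`s_n = ps z n`, `θ = 1/D`.  For `n ≥ 1` (Abel summation, `z(n+i) = s_{n+i} - s_{n+i-1}`):
`J loc z θ J n = (1 - e(-θ)) Ŝ_D(n) + s_{n+J-1} e(-Jθ) - s_{n-1}`, `Ŝ_D(n) = ∑_{i<J} s_{n+i} e(-iθ)`.
`‖1 - e(-θ)‖ ≤ 2πθ` (`ee_sub_le`), `4π² ≤ 40`, so
`D² ‖loc‖² ≤ 2·40 ‖Ŝ_D(n)‖²/J² + 4 D² (|s_{n+J-1}|² + |s_{n-1}|²)/J²`.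
Bessel (`bes` with `M = 0`, `N = J`, `g = 1` and `s i = s_{n+i-1}`, i.e. reindex `i ↦ i+1`, which changes each
coefficient by a factor of modulus one): `∑_{D∈T} ‖Ŝ_D(n)‖² ≤ (J + |T| B) ∑_{i<J} |s_{n+i}|²` with
`B = D₀²/2`: for `D ≠ D'` in `[2, D₀]` the difference `|1/D - 1/D'| = |D-D'|/(DD') ≥ 1/D₀²` and `≤ 1/2`, and
`geo` (file Bes.lean) bounds the exponential sum by `1/(2|α|) ≤ D₀²/2`.
`|T| ≤ D₀`, so `|T| B ≤ D₀³/2 ≤ J`: the factor is `≤ 2J`.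
Sum over `1 ≤ n ≤ N - J`: `∑_n ∑_{i<J} |s_{n+i}|² ≤ J ∑_{m≤N} |s_m|² = J N AN`.  Total
`∑_{D∈T} D² ∑_{n≤N-J} ‖loc‖² ≤ 160 N AN + 8 D₀² |T| N AN/J² ≤ 161 N AN` (`8D₀³ ≤ J²` since
`J ≥ D₀³ ≥ 8`); the last `J` values of `n` contribute at most `D₀²|T| J ≤ D₀³ J ≤ N`.
Divide by `N` (`N ≥ 1`).  (To apply `bes` index `T` by `Fin T.card`, `T.orderEmbOfFin` or `T.equivFin`.)
-/

set_option autoImplicit false

open Finset

namespace Pool.Agent.Work.MP_2d9442_nt.AS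

/-- Abel summation -/
private theorem fl_abel (z : ℕ → ℂ) (θ : ℝ) (m J : ℕ) :
    ∑ j ∈ range J, z (m + 1 + j) * ee (-(j * θ)) =
      (1 - ee (-θ)) * (∑ j ∈ range J, ps z (m + 1 + j) * ee (-(j * θ))) +
        ps z (m + J) * ee (-(J * θ)) - ps z m := by
  induction J with
  | zero => simp [ee_zero]
  | succ J ih =>
    rw [Finset.sum_range_succ, Finset.sum_range_succ, ih]
    have h1 : ps z (m + (J + 1)) = ps z (m + J) + z (m + 1 + J) := by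
      unfold ps
      rw [← add_assoc, Finset.sum_Icc_succ_top (by omega), show m + J + 1 = m + 1 + J by ring]
    have h2 : ee (-(((J + 1 : ℕ) : ℝ) * θ)) = ee (-θ) * ee (-(J * θ)) := by
      rw [← ee_add]
      congr 1
      push_cast
      ring
    have h3 : ps z (m + 1 + J) = ps z (m + J) + z (m + 1 + J) := by
      rw [← h1]
      congr 1
      ring
    rw [h1, h2, h3]
    ring

private theorem fl_point {z : ℕ → ℂ} {D : ℕ} (hD : 1 ≤ D) {J : ℕ} (hJ : 1 ≤ J) (m : ℕ) :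
    (J : ℝ) ^ 2 * ((D : ℝ) ^ 2 * ‖loc z (1 / (D : ℝ)) J (m + 1)‖ ^ 2) ≤
      80 * ‖∑ j ∈ range J, ps z (m + 1 + j) * ee (-(j * (1 / (D : ℝ))))‖ ^ 2 +
        4 * (D : ℝ) ^ 2 * (‖ps z (m + J)‖ ^ 2 + ‖ps z m‖ ^ 2) := by
  have hD' : (0 : ℝ) < D := by exact_mod_cast hD
  have hJ' : (0 : ℝ) < J := by exact_mod_cast hJ
  set θ : ℝ := 1 / (D : ℝ) with hθ
  have hθ0 : 0 < θ := by positivity
  have hθD : θ * D = 1 := by rw [hθ]; field_simp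
  set Sh : ℂ := ∑ j ∈ range J, ps z (m + 1 + j) * ee (-(j * θ)) with hSh
  have h1 : (J : ℝ) * ‖loc z θ J (m + 1)‖ ≤
      2 * Real.pi * θ * ‖Sh‖ + (‖ps z (m + J)‖ + ‖ps z m‖) := by
    have e1 : (J : ℝ) * ‖loc z θ J (m + 1)‖ = ‖∑ j ∈ range J, z (m + 1 + j) * ee (-(j * θ))‖ := by
      unfold loc
      rw [norm_div, Complex.norm_natCast, mul_comm, div_mul_cancel₀ _ hJ'.ne']
    rw [e1, fl_abel, ← hSh]
    have e2 : ‖1 - ee (-θ)‖ ≤ 2 * Real.pi * θ := by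
      have := ee_sub_le 0 (-θ)
      rw [ee_zero, sub_neg_eq_add, zero_add, abs_of_pos hθ0] at this
      exact this
    have e3 : ‖(1 - ee (-θ)) * Sh‖ ≤ 2 * Real.pi * θ * ‖Sh‖ := by
      rw [norm_mul]
      exact mul_le_mul_of_nonneg_right e2 (norm_nonneg _)
    have e4 : ‖ps z (m + J) * ee (-(J * θ))‖ = ‖ps z (m + J)‖ := by
      rw [norm_mul, ee_norm, mul_one]
    have e5 := norm_sub_le ((1 - ee (-θ)) * Sh + ps z (m + J) * ee (-(J * θ))) (ps z m)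
    have e6 := norm_add_le ((1 - ee (-θ)) * Sh) (ps z (m + J) * ee (-(J * θ)))
    rw [e4] at e6
    linarith
  have h2 : (D : ℝ) * (J * ‖loc z θ J (m + 1)‖) ≤
      2 * Real.pi * ‖Sh‖ + D * (‖ps z (m + J)‖ + ‖ps z m‖) := by
    refine (mul_le_mul_of_nonneg_left h1 hD'.le).trans (le_of_eq ?_)
    linear_combination 2 * Real.pi * ‖Sh‖ * hθD
  have h3 : ((D : ℝ) * (J * ‖loc z θ J (m + 1)‖)) ^ 2 ≤
      (2 * Real.pi * ‖Sh‖ + D * (‖ps z (m + J)‖ + ‖ps z m‖)) ^ 2 :=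
    pow_le_pow_left₀ (by positivity) h2 2
  have hpi : Real.pi ^ 2 ≤ 10 := by
    have := Real.pi_lt_d2
    have h0 := Real.pi_pos
    nlinarith
  have h4 : (2 * Real.pi * ‖Sh‖) ^ 2 ≤ 40 * ‖Sh‖ ^ 2 := by
    have : (2 * Real.pi * ‖Sh‖) ^ 2 = 4 * Real.pi ^ 2 * ‖Sh‖ ^ 2 := by ring
    rw [this]
    nlinarith [sq_nonneg ‖Sh‖]
  have h5 : (‖ps z (m + J)‖ + ‖ps z m‖) ^ 2 ≤ 2 * (‖ps z (m + J)‖ ^ 2 + ‖ps z m‖ ^ 2) := by
    nlinarith [sq_nonneg (‖ps z (m + J)‖ - ‖ps z m‖)]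
  have h6 : (2 * Real.pi * ‖Sh‖ + D * (‖ps z (m + J)‖ + ‖ps z m‖)) ^ 2 ≤
      2 * (2 * Real.pi * ‖Sh‖) ^ 2 + 2 * (D * (‖ps z (m + J)‖ + ‖ps z m‖)) ^ 2 := by
    nlinarith [sq_nonneg (2 * Real.pi * ‖Sh‖ - D * (‖ps z (m + J)‖ + ‖ps z m‖))]
  have h7 : (D * (‖ps z (m + J)‖ + ‖ps z m‖)) ^ 2 ≤
      (D : ℝ) ^ 2 * (2 * (‖ps z (m + J)‖ ^ 2 + ‖ps z m‖ ^ 2)) := by
    rw [mul_pow]
    exact mul_le_mul_of_nonneg_left h5 (by positivity)
  have h8 : (J : ℝ) ^ 2 * ((D : ℝ) ^ 2 * ‖loc z θ J (m + 1)‖ ^ 2) =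
      ((D : ℝ) * (J * ‖loc z θ J (m + 1)‖)) ^ 2 := by ring
  rw [h8]
  linarith

private theorem fl_bes {z : ℕ → ℂ} {D0 J : ℕ} (hD : 2 ≤ D0) (hJ : D0 ^ 3 ≤ J)
    (T : Finset ℕ) (hT : ∀ D ∈ T, 2 ≤ D ∧ D ≤ D0) (m : ℕ) :
    ∑ D ∈ T, ‖∑ j ∈ range J, ps z (m + 1 + j) * ee (-(j * (1 / (D : ℝ))))‖ ^ 2 ≤
      2 * J * ∑ i ∈ range J, ‖ps z (m + 1 + i)‖ ^ 2 := by
  have hcard : T.card ≤ D0 := by
    have h1 : T ⊆ Icc 1 D0 := fun D hD' => Finset.mem_Icc.2 ⟨by have := (hT D hD').1; omega,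
      (hT D hD').2⟩
    have h2 := Finset.card_le_card h1
    rwa [Nat.card_Icc, Nat.add_sub_cancel] at h2
  let dd : Fin T.card → ℕ := fun i => (T.equivFin.symm i : ℕ)
  have hdd : ∀ i, dd i ∈ T := fun i => (T.equivFin.symm i).2
  have hinj : ∀ i j, i ≠ j → dd i ≠ dd j := fun i j hij h => hij (T.equivFin.symm.injective
    (Subtype.ext h))
  have hD0 : (0 : ℝ) < D0 := by
    have : 0 < D0 := by omega
    exact_mod_cast this
  have hb := bes (J := T.card) (fun i => 1 / (dd i : ℝ)) (fun _ => 1) (fun n => ps z (m + n))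
    (M := 0) (N := J) (fun _ _ => norm_one) (B := (D0 : ℝ) ^ 2 / 2) (by positivity) (by
      intro i j hij
      have hi := hT _ (hdd i)
      have hj := hT _ (hdd j)
      have hne := hinj i j hij
      have hi2 : (2 : ℝ) ≤ dd i := by exact_mod_cast hi.1
      have hj2 : (2 : ℝ) ≤ dd j := by exact_mod_cast hj.1
      have hiD : (dd i : ℝ) ≤ D0 := by exact_mod_cast hi.2
      have hjD : (dd j : ℝ) ≤ D0 := by exact_mod_cast hj.2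
      have e1 : (1 : ℝ) / dd i - 1 / dd j = ((dd j : ℝ) - dd i) / (dd i * dd j) := by
        field_simp
      have e2 : (1 : ℝ) ≤ |(dd j : ℝ) - dd i| := by
        have h1 : (1 : ℤ) ≤ |(dd j : ℤ) - dd i| := by
          apply Int.one_le_abs
          omega
        exact_mod_cast h1
      have e3 : 1 / (D0 : ℝ) ^ 2 ≤ |(1 : ℝ) / dd i - 1 / dd j| := by
        rw [e1, abs_div, abs_of_pos (show (0 : ℝ) < dd i * dd j by positivity)]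
        refine div_le_div₀ (abs_nonneg _) e2 (by positivity) ?_
        nlinarith
      have e4 : |(1 : ℝ) / dd i - 1 / dd j| ≤ 1 / 2 := by
        have g1 : (1 : ℝ) / dd i ≤ 1 / 2 := one_div_le_one_div_of_le two_pos hi2
        have g2 : (1 : ℝ) / dd j ≤ 1 / 2 := one_div_le_one_div_of_le two_pos hj2
        have g3 : (0 : ℝ) ≤ 1 / dd i := by positivity
        have g4 : (0 : ℝ) ≤ 1 / dd j := by positivity
        rw [abs_le]
        constructor <;> linarith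
      have e5 : (0 : ℝ) < 1 / (D0 : ℝ) ^ 2 := by positivity
      have e6 : (1 : ℝ) / dd i - 1 / dd j ≠ 0 := abs_pos.1 (lt_of_lt_of_le e5 e3)
      refine (geo e6 e4 0 J).trans ?_
      rw [div_le_div_iff₀ (by linarith) two_pos]
      rw [div_le_iff₀ (by positivity)] at e3
      linarith)
  have h1 : ∑ D ∈ T, ‖∑ j ∈ range J, ps z (m + 1 + j) * ee (-(j * (1 / (D : ℝ))))‖ ^ 2 =
      ∑ i : Fin T.card, ‖∑ n ∈ Finset.Ioc 0 J, ps z (m + n) *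
        (1 * ee (-(n * (1 / (dd i : ℝ)))))‖ ^ 2 := by
    have e0 : ∀ D : ℕ, ‖∑ j ∈ range J, ps z (m + 1 + j) * ee (-(j * (1 / (D : ℝ))))‖ ^ 2 =
        ‖∑ n ∈ Finset.Ioc 0 J, ps z (m + n) * (1 * ee (-(n * (1 / (D : ℝ)))))‖ ^ 2 := by
      intro D
      have e1 : ∑ n ∈ Finset.Ioc 0 J, ps z (m + n) * (1 * ee (-(n * (1 / (D : ℝ))))) =
          ee (-(1 / (D : ℝ))) * ∑ j ∈ range J, ps z (m + 1 + j) * ee (-(j * (1 / (D : ℝ)))) := by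
        have e2 : Finset.Ioc 0 J = (range J).image (fun j => j + 1) := by
          ext x
          simp only [Finset.mem_Ioc, Finset.mem_image, Finset.mem_range]
          constructor
          · rintro ⟨h1, h2⟩
            exact ⟨x - 1, by omega, by omega⟩
          · rintro ⟨y, h1, rfl⟩
            omega
        rw [e2, Finset.sum_image (fun x _ y _ h => Nat.add_right_cancel h), Finset.mul_sum]
        refine Finset.sum_congr rfl fun j _ => ?_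
        have e3 : ee (-(((j + 1 : ℕ) : ℝ) * (1 / (D : ℝ)))) =
            ee (-(1 / (D : ℝ))) * ee (-(j * (1 / (D : ℝ)))) := by
          rw [← ee_add]
          congr 1
          push_cast
          ring
        rw [e3, show m + (j + 1) = m + 1 + j by ring]
        ring
      rw [e1, norm_mul, ee_norm, one_mul]
    rw [Finset.sum_congr rfl fun D _ => e0 D]
    rw [← Finset.sum_coe_sort T, ← Equiv.sum_comp T.equivFin.symm]
  rw [h1]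
  refine hb.trans ?_
  have h2 : ∑ n ∈ Finset.Ioc 0 J, ‖ps z (m + n)‖ ^ 2 = ∑ i ∈ range J, ‖ps z (m + 1 + i)‖ ^ 2 := by
    have e2 : Finset.Ioc 0 J = (range J).image (fun j => j + 1) := by
      ext x
      simp only [Finset.mem_Ioc, Finset.mem_image, Finset.mem_range]
      constructor
      · rintro ⟨h1, h2⟩
        exact ⟨x - 1, by omega, by omega⟩
      · rintro ⟨y, h1, rfl⟩
        omega
    rw [e2, Finset.sum_image (fun x _ y _ h => Nat.add_right_cancel h)]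
    refine Finset.sum_congr rfl fun j _ => ?_
    rw [show m + (j + 1) = m + 1 + j by ring]
  rw [h2]
  refine mul_le_mul_of_nonneg_right ?_ (Finset.sum_nonneg fun _ _ => sq_nonneg _)
  have h3 : (T.card : ℝ) ≤ D0 := by exact_mod_cast hcard
  have h4 : ((D0 : ℝ)) ^ 3 ≤ J := by exact_mod_cast hJ
  have h5 : (T.card : ℝ) * ((D0 : ℝ) ^ 2 / 2) ≤ D0 * ((D0 : ℝ) ^ 2 / 2) :=
    mul_le_mul_of_nonneg_right h3 (by positivity)
  have h6 : (D0 : ℝ) * ((D0 : ℝ) ^ 2 / 2) = D0 ^ 3 / 2 := by ring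
  have h7 : (0 : ℝ) ≤ D0 ^ 3 := by positivity
  linarith

private theorem fl_shift (U : ℕ → ℝ) (hU : ∀ n, 0 ≤ U n) {c M N : ℕ} (hc : c + M ≤ N) :
    ∑ m ∈ range M, U (m + 1 + c) ≤ ∑ n ∈ Icc 1 N, U n := by
  have e2 : ∑ m ∈ range M, U (m + 1 + c) = ∑ n ∈ (range M).image (fun m => m + 1 + c), U n := by
    rw [Finset.sum_image]
    intro x _ y _ h
    have : x + 1 + c = y + 1 + c := h
    omega
  rw [e2]
  refine Finset.sum_le_sum_of_subset_of_nonneg ?_ fun _ _ _ => hU _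
  intro x hx
  rw [Finset.mem_image] at hx
  obtain ⟨y, hy, rfl⟩ := hx
  rw [Finset.mem_range] at hy
  exact Finset.mem_Icc.2 ⟨by omega, by omega⟩

private theorem fl_main {z : ℕ → ℂ} {D0 J N : ℕ} (hD : 2 ≤ D0) (hJ : D0 ^ 3 ≤ J)
    (hN : D0 ^ 3 * J ≤ N) (T : Finset ℕ) (hT : ∀ D ∈ T, 2 ≤ D ∧ D ≤ D0) :
    ∑ m ∈ range (N - J), ∑ D ∈ T, (D : ℝ) ^ 2 * ‖loc z (1 / (D : ℝ)) J (m + 1)‖ ^ 2 ≤
      161 * ∑ n ∈ Icc 1 N, ‖ps z n‖ ^ 2 := by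
  have hcard : T.card ≤ D0 := by
    have h1 : T ⊆ Icc 1 D0 := fun D hD' => Finset.mem_Icc.2 ⟨by have := (hT D hD').1; omega,
      (hT D hD').2⟩
    have h2 := Finset.card_le_card h1
    rwa [Nat.card_Icc, Nat.add_sub_cancel] at h2
  have hD8 : 8 ≤ D0 ^ 3 := by
    calc 8 = 2 ^ 3 := by norm_num
      _ ≤ D0 ^ 3 := Nat.pow_le_pow_left hD 3
  have hJ1 : 1 ≤ J := by omega
  have hJN : J ≤ N := le_trans (by nlinarith) hN
  have hJ' : (0 : ℝ) < J := by exact_mod_cast hJ1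
  have hJ3 : (D0 : ℝ) ^ 3 ≤ J := by exact_mod_cast hJ
  have hD3 : (8 : ℝ) ≤ (D0 : ℝ) ^ 3 := by exact_mod_cast hD8
  set SN : ℝ := ∑ n ∈ Icc 1 N, ‖ps z n‖ ^ 2 with hSN
  have hSN0 : 0 ≤ SN := Finset.sum_nonneg fun _ _ => sq_nonneg _
  have h1 : ∀ m ∈ range (N - J), (J : ℝ) ^ 2 * ∑ D ∈ T, (D : ℝ) ^ 2 *
      ‖loc z (1 / (D : ℝ)) J (m + 1)‖ ^ 2 ≤
      160 * J * (∑ i ∈ range J, ‖ps z (m + 1 + i)‖ ^ 2) +
        4 * (D0 : ℝ) ^ 3 * (‖ps z (m + J)‖ ^ 2 + ‖ps z m‖ ^ 2) := by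
    intro m _
    rw [Finset.mul_sum]
    have e1 : ∑ D ∈ T, (J : ℝ) ^ 2 * ((D : ℝ) ^ 2 * ‖loc z (1 / (D : ℝ)) J (m + 1)‖ ^ 2) ≤
        ∑ D ∈ T, (80 * ‖∑ j ∈ range J, ps z (m + 1 + j) * ee (-(j * (1 / (D : ℝ))))‖ ^ 2 +
          4 * (D0 : ℝ) ^ 2 * (‖ps z (m + J)‖ ^ 2 + ‖ps z m‖ ^ 2)) := by
      refine Finset.sum_le_sum fun D hDT => ?_
      refine (fl_point (by have := (hT D hDT).1; omega) hJ1 m).trans ?_
      have e2 : (D : ℝ) ^ 2 ≤ (D0 : ℝ) ^ 2 :=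
        pow_le_pow_left₀ (Nat.cast_nonneg _) (by exact_mod_cast (hT D hDT).2) 2
      have e3 : 0 ≤ ‖ps z (m + J)‖ ^ 2 + ‖ps z m‖ ^ 2 := by positivity
      nlinarith
    refine e1.trans ?_
    rw [Finset.sum_add_distrib, ← Finset.mul_sum, Finset.sum_const, nsmul_eq_mul]
    have e4 := fl_bes (z := z) hD hJ T hT m
    have e5 : (T.card : ℝ) * (4 * (D0 : ℝ) ^ 2 * (‖ps z (m + J)‖ ^ 2 + ‖ps z m‖ ^ 2)) ≤
        D0 * (4 * (D0 : ℝ) ^ 2 * (‖ps z (m + J)‖ ^ 2 + ‖ps z m‖ ^ 2)) :=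
      mul_le_mul_of_nonneg_right (by exact_mod_cast hcard) (by positivity)
    have e6 : (D0 : ℝ) * (4 * (D0 : ℝ) ^ 2 * (‖ps z (m + J)‖ ^ 2 + ‖ps z m‖ ^ 2)) =
        4 * (D0 : ℝ) ^ 3 * (‖ps z (m + J)‖ ^ 2 + ‖ps z m‖ ^ 2) := by ring
    linarith
  have h2 : ∑ m ∈ range (N - J), ∑ i ∈ range J, ‖ps z (m + 1 + i)‖ ^ 2 ≤ J * SN := by
    rw [Finset.sum_comm]
    have e1 : ∑ i ∈ range J, ∑ m ∈ range (N - J), ‖ps z (m + 1 + i)‖ ^ 2 ≤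
        ∑ _i ∈ range J, SN := by
      refine Finset.sum_le_sum fun i hi => ?_
      have := Finset.mem_range.1 hi
      exact fl_shift (fun n => ‖ps z n‖ ^ 2) (fun _ => sq_nonneg _) (by omega)
    rwa [Finset.sum_const, Finset.card_range, nsmul_eq_mul] at e1
  have h3 : ∑ m ∈ range (N - J), ‖ps z (m + J)‖ ^ 2 ≤ SN := by
    have e1 := fl_shift (fun n => ‖ps z n‖ ^ 2) (fun _ => sq_nonneg _) (c := J - 1) (M := N - J)
      (N := N) (by omega)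
    refine le_trans (le_of_eq ?_) e1
    refine Finset.sum_congr rfl fun m _ => ?_
    rw [show m + J = m + 1 + (J - 1) by omega]
  have h4 : ∑ m ∈ range (N - J), ‖ps z m‖ ^ 2 ≤ SN := by
    rcases Nat.eq_zero_or_pos (N - J) with h0 | h0
    · rw [h0, Finset.sum_range_zero]
      exact hSN0
    · obtain ⟨M, hM⟩ : ∃ M, N - J = M + 1 := ⟨N - J - 1, by omega⟩
      rw [hM, Finset.sum_range_succ']
      have e0 : ‖ps z 0‖ ^ 2 = 0 := by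
        unfold ps
        simp
      rw [e0, add_zero]
      have e1 := fl_shift (fun n => ‖ps z n‖ ^ 2) (fun _ => sq_nonneg _) (c := 0) (M := M)
        (N := N) (by omega)
      exact e1
  have h5 : (J : ℝ) ^ 2 * ∑ m ∈ range (N - J), ∑ D ∈ T, (D : ℝ) ^ 2 *
      ‖loc z (1 / (D : ℝ)) J (m + 1)‖ ^ 2 ≤ 160 * J * (J * SN) + 4 * (D0 : ℝ) ^ 3 * (SN + SN) := by
    rw [Finset.mul_sum]
    refine (Finset.sum_le_sum h1).trans ?_
    rw [Finset.sum_add_distrib, ← Finset.mul_sum, ← Finset.mul_sum, Finset.sum_add_distrib]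
    refine add_le_add (mul_le_mul_of_nonneg_left h2 (by positivity))
      (mul_le_mul_of_nonneg_left (add_le_add h3 h4) (by positivity))
  have h6 : 160 * (J : ℝ) * (J * SN) + 4 * (D0 : ℝ) ^ 3 * (SN + SN) ≤ (J : ℝ) ^ 2 * (161 * SN) := by
    have e1 : 8 * (D0 : ℝ) ^ 3 ≤ J ^ 2 := by nlinarith
    nlinarith
  exact le_of_mul_le_mul_left (h5.trans h6) (by positivity)

theorem fl {z : ℕ → ℂ} (hz : ∀ n, ‖z n‖ ≤ 1) {D0 J N : ℕ} (hD : 2 ≤ D0) (hJ : D0 ^ 3 ≤ J)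
    (hN : D0 ^ 3 * J ≤ N) (T : Finset ℕ) (hT : ∀ D ∈ T, 2 ≤ D ∧ D ≤ D0) :
    ∑ D ∈ T, (D : ℝ) ^ 2 * en z (1 / (D : ℝ)) J N ≤ 200 * (AN z N + 1) := by
  have hcard : T.card ≤ D0 := by
    have h1 : T ⊆ Icc 1 D0 := fun D hD' => Finset.mem_Icc.2 ⟨by have := (hT D hD').1; omega,
      (hT D hD').2⟩
    have h2 := Finset.card_le_card h1
    rwa [Nat.card_Icc, Nat.add_sub_cancel] at h2
  have hD8 : 8 ≤ D0 ^ 3 := by
    calc 8 = 2 ^ 3 := by norm_num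
      _ ≤ D0 ^ 3 := Nat.pow_le_pow_left hD 3
  have hJ1 : 1 ≤ J := by omega
  have hJN : J ≤ N := le_trans (by nlinarith) hN
  have hN' : (0 : ℝ) < N := by
    have : 0 < N := by omega
    exact_mod_cast this
  have hN3 : (D0 : ℝ) ^ 3 * J ≤ N := by exact_mod_cast hN
  have h1 : ∑ D ∈ T, (D : ℝ) ^ 2 * en z (1 / (D : ℝ)) J N =
      (∑ m ∈ range N, ∑ D ∈ T, (D : ℝ) ^ 2 * ‖loc z (1 / (D : ℝ)) J (m + 1)‖ ^ 2) / N := by
    rw [Finset.sum_comm, Finset.sum_div]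
    refine Finset.sum_congr rfl fun D _ => ?_
    unfold en
    rw [← mul_div_assoc, Finset.mul_sum]
    congr 1
    have e1 : ∀ (M : ℕ) (g : ℕ → ℝ), ∑ n ∈ Icc 1 M, g n = ∑ n ∈ range M, g (n + 1) := by
      intro M g
      induction M with
      | zero => simp
      | succ M ih => rw [Finset.sum_Icc_succ_top (by omega), ih, Finset.sum_range_succ]
    exact e1 N (fun n => (D : ℝ) ^ 2 * ‖loc z (1 / (D : ℝ)) J n‖ ^ 2)
  have h2 : ∑ m ∈ range N, ∑ D ∈ T, (D : ℝ) ^ 2 * ‖loc z (1 / (D : ℝ)) J (m + 1)‖ ^ 2 ≤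
      161 * (∑ n ∈ Icc 1 N, ‖ps z n‖ ^ 2) + N := by
    have e1 : N = (N - J) + J := by omega
    have e2 : ∑ m ∈ range N, ∑ D ∈ T, (D : ℝ) ^ 2 * ‖loc z (1 / (D : ℝ)) J (m + 1)‖ ^ 2 =
        ∑ m ∈ range (N - J), ∑ D ∈ T, (D : ℝ) ^ 2 * ‖loc z (1 / (D : ℝ)) J (m + 1)‖ ^ 2 +
        ∑ m ∈ range J, ∑ D ∈ T, (D : ℝ) ^ 2 * ‖loc z (1 / (D : ℝ)) J (N - J + m + 1)‖ ^ 2 := by
      conv_lhs => rw [e1]
      rw [Finset.sum_range_add]
    rw [e2]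
    refine add_le_add (fl_main hD hJ hN T hT) ?_
    have e3 : ∑ m ∈ range J, ∑ D ∈ T, (D : ℝ) ^ 2 * ‖loc z (1 / (D : ℝ)) J (N - J + m + 1)‖ ^ 2 ≤
        ∑ _m ∈ range J, (D0 : ℝ) ^ 3 := by
      refine Finset.sum_le_sum fun m _ => ?_
      have e4 : ∑ D ∈ T, (D : ℝ) ^ 2 * ‖loc z (1 / (D : ℝ)) J (N - J + m + 1)‖ ^ 2 ≤
          ∑ _D ∈ T, (D0 : ℝ) ^ 2 := by
        refine Finset.sum_le_sum fun D hDT => ?_
        have g1 : (D : ℝ) ^ 2 ≤ (D0 : ℝ) ^ 2 :=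
          pow_le_pow_left₀ (Nat.cast_nonneg _) (by exact_mod_cast (hT D hDT).2) 2
        have g2 := loc_le_one hz (1 / (D : ℝ)) J (N - J + m + 1)
        have g3 := norm_nonneg (loc z (1 / (D : ℝ)) J (N - J + m + 1))
        have g4 : ‖loc z (1 / (D : ℝ)) J (N - J + m + 1)‖ ^ 2 ≤ 1 := by nlinarith
        have g5 := mul_le_mul g1 g4 (sq_nonneg _) (sq_nonneg _)
        rwa [mul_one] at g5
      rw [Finset.sum_const, nsmul_eq_mul] at e4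
      have e5 : (T.card : ℝ) * (D0 : ℝ) ^ 2 ≤ D0 * (D0 : ℝ) ^ 2 :=
        mul_le_mul_of_nonneg_right (by exact_mod_cast hcard) (by positivity)
      have e6 : (D0 : ℝ) * (D0 : ℝ) ^ 2 = D0 ^ 3 := by ring
      linarith
    rw [Finset.sum_const, Finset.card_range, nsmul_eq_mul] at e3
    linarith
  rw [h1, div_le_iff₀ hN']
  have h3 : (N : ℝ) * AN z N = ∑ n ∈ Icc 1 N, ‖ps z n‖ ^ 2 := by
    unfold AN
    field_simp
  have h4 : 0 ≤ ∑ n ∈ Icc 1 N, ‖ps z n‖ ^ 2 := Finset.sum_nonneg fun _ _ => sq_nonneg _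
  nlinarith

end Pool.Agent.Work.MP_2d9442_nt.AS
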