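import Pool.Agent.Work.MP_2d9442_nt.AS.Base

/-!
# Module FoA: finite Fourier analysis on `Z/M` with explicit sums (M, Mathlib only)

Orthogonality: for an integer `k`: `∑_{ξ<M} ee(kξ/M) = M` if `M ∣ k` and `0` otherwise (geometric sum;
`ee(k/M) = 1` iff `M ∣ k`: `Complex.exp_eq_one_iff`).

* `parseval`: expand the square, `∑_ξ ee((i-j)ξ/M) = M [i = j]` for `i, j < L ≤ M`.
* `four_id`: expand the product; `∑_ξ ee((-j + i - ph)ξ/M) = M` iff `M ∣ i - j - ph`; since `0 ≤ i < L₁ ≤ M`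
  and `0 < j + ph < P + 2Ph ≤ L₁` (`j < P`, `p ≤ 2P`) this holds iff `i = j + ph` (which is `< L₁`).
* `fourth`: `ξ ↦ hξ mod M` is a permutation of `range M` because `h` is coprime to `M`; so the sum is
  `∑_ξ ‖∑_p ee(pξ/M)‖⁴ = ∑_ξ |∑_{p,q} ee((p+q)ξ/M)|² = M #{(p₁,p₂,p₃,p₄) ∈ 𝒫⁴ : M ∣ p₁+p₂-p₃-p₄}`, and
  `|p₁+p₂-p₃-p₄| < 2P ≤ M`, so this is `M` times the number of quadruples with `p₁+p₂ = p₃+p₄` in `𝒫`,
  at most the number of those in `pr P`.
-/

set_option autoImplicit false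

open Finset

namespace Pool.Agent.Work.MP_2d9442_nt.AS

private theorem orth {M : ℕ} (hM : 1 ≤ M) (k : ℤ) :
    ∑ ξ ∈ range M, ee ((k : ℝ) * ξ / M) = if (M : ℤ) ∣ k then (M : ℂ) else 0 := by
  have hM0 : (M : ℝ) ≠ 0 := by
    have : M ≠ 0 := by omega
    exact_mod_cast this
  split_ifs with h
  · obtain ⟨c, rfl⟩ := h
    have h1 : ∀ ξ ∈ range M, ee ((((M : ℤ) * c : ℤ) : ℝ) * ξ / M) = 1 := by
      intro ξ _
      have h2 : (((M : ℤ) * c : ℤ) : ℝ) * ξ / M = ((c * ξ : ℤ) : ℝ) := by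
        push_cast
        field_simp
      rw [h2, ee_int]
    rw [Finset.sum_congr rfl h1, Finset.sum_const, Finset.card_range, nsmul_eq_mul, mul_one]
  · have h1 : ∀ ξ ∈ range M, ee ((k : ℝ) * ξ / M) = ee ((k : ℝ) / M) ^ ξ := by
      intro ξ _
      unfold ee
      rw [← Complex.exp_nat_mul]
      congr 1
      push_cast
      ring
    rw [Finset.sum_congr rfl h1]
    have h2 : ee ((k : ℝ) / M) ≠ 1 := by
      intro h3
      apply h
      unfold ee at h3
      rw [Complex.exp_eq_one_iff] at h3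
      obtain ⟨n, hn⟩ := h3
      have hpi : (2 * (Real.pi : ℂ) * Complex.I) ≠ 0 := Complex.two_pi_I_ne_zero
      have h4 : (((k : ℝ) / M : ℝ) : ℂ) = n := by
        have h5 : (2 * (Real.pi : ℂ) * Complex.I) * (((k : ℝ) / M : ℝ) : ℂ) =
            (2 * (Real.pi : ℂ) * Complex.I) * n := by
          linear_combination hn
        exact mul_left_cancel₀ hpi h5
      have h6 : ((k : ℝ) / M : ℝ) = n := by exact_mod_cast h4
      rw [div_eq_iff hM0] at h6
      refine ⟨n, ?_⟩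
      have h7 : (k : ℝ) = ((M * n : ℤ) : ℝ) := by
        push_cast
        linarith
      exact_mod_cast h7
    have h3 : ee ((k : ℝ) / M) ^ M = 1 := by
      have h4 : ee ((k : ℝ) / M) ^ M = ee k := by
        unfold ee
        rw [← Complex.exp_nat_mul]
        congr 1
        push_cast
        have hM1 : (M : ℂ) ≠ 0 := by
          have : M ≠ 0 := by omega
          exact_mod_cast this
        field_simp
      rw [h4, ee_int]
    rw [geom_sum_eq h2, h3, sub_self, zero_div]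

private theorem sq_norm_eq (w : ℂ) : ((‖w‖ ^ 2 : ℝ) : ℂ) = w * (starRingEnd ℂ) w := by
  rw [← Complex.normSq_eq_norm_sq, Complex.normSq_eq_conj_mul_self, mul_comm]

theorem parseval {M L : ℕ} (hM : 1 ≤ M) (hL : L ≤ M) (a : ℕ → ℂ) :
    ∑ ξ ∈ range M, ‖∑ j ∈ range L, a j * ee (-((j : ℝ) * ξ / M))‖ ^ 2 =
      M * ∑ j ∈ range L, ‖a j‖ ^ 2 := by
  have key : ((∑ ξ ∈ range M, ‖∑ j ∈ range L, a j * ee (-((j : ℝ) * ξ / M))‖ ^ 2 : ℝ) : ℂ) =
      ((M * ∑ j ∈ range L, ‖a j‖ ^ 2 : ℝ) : ℂ) := by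
    rw [Complex.ofReal_sum, Complex.ofReal_mul, Complex.ofReal_sum, Complex.ofReal_natCast]
    have h1 : ∀ ξ ∈ range M, ((‖∑ j ∈ range L, a j * ee (-((j : ℝ) * ξ / M))‖ ^ 2 : ℝ) : ℂ) =
        ∑ i ∈ range L, ∑ j ∈ range L, a i * (starRingEnd ℂ) (a j) *
          ee ((((j : ℤ) - i : ℤ) : ℝ) * ξ / M) := by
      intro ξ _
      rw [sq_norm_eq, map_sum, Finset.sum_mul_sum]
      refine Finset.sum_congr rfl fun i _ => Finset.sum_congr rfl fun j _ => ?_
      rw [map_mul, ee_conj]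
      have h2 : ee ((((j : ℤ) - i : ℤ) : ℝ) * ξ / M) =
          ee (-((i : ℝ) * ξ / M)) * ee (-(-((j : ℝ) * ξ / M))) := by
        rw [← ee_add]
        congr 1
        push_cast
        ring
      rw [h2]
      ring
    rw [Finset.sum_congr rfl h1, Finset.sum_comm, Finset.mul_sum]
    refine Finset.sum_congr rfl fun i hi => ?_
    rw [Finset.sum_comm]
    have h3 : ∀ j ∈ range L, ∑ ξ ∈ range M, a i * (starRingEnd ℂ) (a j) *
          ee ((((j : ℤ) - i : ℤ) : ℝ) * ξ / M) =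
        if j = i then (M : ℂ) * (a i * (starRingEnd ℂ) (a i)) else 0 := by
      intro j hj
      rw [← Finset.mul_sum, orth hM]
      rw [Finset.mem_range] at hi hj
      by_cases hij : j = i
      · rw [if_pos hij, hij, sub_self, if_pos (dvd_zero _), mul_comm]
      · rw [if_neg hij, if_neg, mul_zero]
        intro hd
        have h4 : (j : ℤ) - i = 0 := by
          refine Int.eq_zero_of_abs_lt_dvd hd ?_
          rw [abs_lt]
          constructor <;> omega
        omega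
    rw [Finset.sum_congr rfl h3, Finset.sum_ite_eq' (range L) i, if_pos hi, sq_norm_eq]
  exact_mod_cast key

theorem four_id {M P L1 h : ℕ} (hM : 1 ≤ M) (hh : 1 ≤ h) (hL : P + 2 * P * h ≤ L1) (hL1 : L1 ≤ M)
    (PP : Finset ℕ) (hPP : PP ⊆ pr P) (a b : ℕ → ℂ) :
    ∑ p ∈ PP, ∑ j ∈ range P, a j * (starRingEnd ℂ) (b (j + p * h)) =
      (∑ ξ ∈ range M, (∑ j ∈ range P, a j * ee (-((j : ℝ) * ξ / M))) *
        (starRingEnd ℂ) (∑ i ∈ range L1, b i * ee (-((i : ℝ) * ξ / M))) *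
        (∑ p ∈ PP, ee (-((p : ℝ) * h * ξ / M)))) / (M : ℂ) := by
  have hM0 : (M : ℂ) ≠ 0 := by
    have : M ≠ 0 := by omega
    exact_mod_cast this
  rw [eq_div_iff hM0]
  have h1 : ∀ ξ ∈ range M, (∑ j ∈ range P, a j * ee (-((j : ℝ) * ξ / M))) *
        (starRingEnd ℂ) (∑ i ∈ range L1, b i * ee (-((i : ℝ) * ξ / M))) *
        (∑ p ∈ PP, ee (-((p : ℝ) * h * ξ / M))) =
      ∑ p ∈ PP, ∑ j ∈ range P, ∑ i ∈ range L1, a j * (starRingEnd ℂ) (b i) *
        ee ((((i : ℤ) - j - p * h : ℤ) : ℝ) * ξ / M) := by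
    intro ξ _
    rw [map_sum, Finset.sum_mul_sum, Finset.mul_sum]
    refine Finset.sum_congr rfl fun p _ => ?_
    rw [Finset.sum_mul]
    refine Finset.sum_congr rfl fun j _ => ?_
    rw [Finset.sum_mul]
    refine Finset.sum_congr rfl fun i _ => ?_
    rw [map_mul, ee_conj]
    have h2 : ee ((((i : ℤ) - j - p * h : ℤ) : ℝ) * ξ / M) =
        ee (-((j : ℝ) * ξ / M)) * ee (-(-((i : ℝ) * ξ / M))) * ee (-((p : ℝ) * h * ξ / M)) := by
      rw [← ee_add, ← ee_add]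
      congr 1
      push_cast
      ring
    rw [h2]
    ring
  rw [Finset.sum_congr rfl h1, Finset.sum_comm (s := range M) (t := PP), Finset.sum_mul]
  refine Finset.sum_congr rfl fun p hp => ?_
  rw [Finset.sum_comm (s := range M) (t := range P), Finset.sum_mul]
  refine Finset.sum_congr rfl fun j hj => ?_
  rw [Finset.sum_comm (s := range M) (t := range L1)]
  have hp2 := (mem_pr.1 (hPP hp)).1
  rw [Finset.mem_range] at hj
  have hph : p * h ≤ 2 * P * h := Nat.mul_le_mul_right _ hp2.2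
  have hph0 : 0 < p * h := Nat.mul_pos (by omega) (by omega)
  have h3 : ∀ i ∈ range L1, ∑ ξ ∈ range M, a j * (starRingEnd ℂ) (b i) *
        ee ((((i : ℤ) - j - p * h : ℤ) : ℝ) * ξ / M) =
      if i = j + p * h then a j * (starRingEnd ℂ) (b (j + p * h)) * M else 0 := by
    intro i hi
    rw [← Finset.mul_sum, orth hM]
    rw [Finset.mem_range] at hi
    by_cases hij : i = j + p * h
    · rw [if_pos hij, if_pos, hij]
      rw [hij]
      push_cast
      have : (j : ℤ) + p * h - j - p * h = 0 := by ring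
      rw [this]
      exact dvd_zero _
    · rw [if_neg hij, if_neg, mul_zero]
      intro hd
      have h5 : ((p * h : ℕ) : ℤ) = (p : ℤ) * h := by push_cast; ring
      rw [← h5] at hd
      have h4 : (i : ℤ) - j - (p * h : ℕ) = 0 := by
        refine Int.eq_zero_of_abs_lt_dvd hd ?_
        rw [abs_lt]
        constructor <;> omega
      omega
  rw [Finset.sum_congr rfl h3, Finset.sum_ite_eq' (range L1) (j + p * h), if_pos]
  rw [Finset.mem_range]
  omega

theorem fourth {M P h : ℕ} (hM : 2 * P ≤ M) (hM1 : 1 ≤ M) (hh : h.Coprime M)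
    (PP : Finset ℕ) (hPP : PP ⊆ pr P) :
    ∑ ξ ∈ range M, ‖∑ p ∈ PP, ee (-((p : ℝ) * h * ξ / M))‖ ^ 4 ≤
      M * ((((pr P) ×ˢ (pr P) ×ˢ (pr P) ×ˢ (pr P)).filter
        (fun t => t.1 + t.2.1 = t.2.2.1 + t.2.2.2)).card : ℝ) := by
  classical
  have key : ((∑ ξ ∈ range M, ‖∑ p ∈ PP, ee (-((p : ℝ) * h * ξ / M))‖ ^ 4 : ℝ) : ℂ) =
      ((M * (((PP ×ˢ PP ×ˢ PP ×ˢ PP).filter
        (fun t => t.1 + t.2.1 = t.2.2.1 + t.2.2.2)).card : ℝ) : ℝ) : ℂ) := by
    rw [Complex.ofReal_sum, Complex.ofReal_mul, Complex.ofReal_natCast]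
    have h1 : ∀ ξ ∈ range M, ((‖∑ p ∈ PP, ee (-((p : ℝ) * h * ξ / M))‖ ^ 4 : ℝ) : ℂ) =
        ∑ t ∈ PP ×ˢ PP ×ˢ PP ×ˢ PP,
          ee ((((((t.2.2.1 : ℤ) + t.2.2.2 - t.1 - t.2.1) * h : ℤ)) : ℝ) * ξ / M) := by
      intro ξ _
      have h2 : ‖∑ p ∈ PP, ee (-((p : ℝ) * h * ξ / M))‖ ^ 4 =
          (‖∑ p ∈ PP, ee (-((p : ℝ) * h * ξ / M))‖ ^ 2) *
          (‖∑ p ∈ PP, ee (-((p : ℝ) * h * ξ / M))‖ ^ 2) := by ring
      have h3 : ∀ w : ℂ, ((‖w‖ ^ 2 * ‖w‖ ^ 2 : ℝ) : ℂ) =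
          w * (w * ((starRingEnd ℂ) w * (starRingEnd ℂ) w)) := by
        intro w
        rw [Complex.ofReal_mul, sq_norm_eq]
        ring
      rw [h2, h3, map_sum, Finset.sum_product, Finset.sum_mul]
      refine Finset.sum_congr rfl fun p1 _ => ?_
      rw [Finset.sum_product, Finset.sum_mul, Finset.mul_sum]
      refine Finset.sum_congr rfl fun p2 _ => ?_
      rw [Finset.sum_product, Finset.sum_mul, Finset.mul_sum, Finset.mul_sum]
      refine Finset.sum_congr rfl fun p3 _ => ?_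
      rw [Finset.mul_sum, Finset.mul_sum, Finset.mul_sum]
      refine Finset.sum_congr rfl fun p4 _ => ?_
      rw [ee_conj, ee_conj, ← ee_add, ← ee_add, ← ee_add]
      congr 1
      push_cast
      ring
    rw [Finset.sum_congr rfl h1, Finset.sum_comm]
    have h4 : ∀ t ∈ PP ×ˢ PP ×ˢ PP ×ˢ PP, ∑ ξ ∈ range M,
          ee ((((((t.2.2.1 : ℤ) + t.2.2.2 - t.1 - t.2.1) * h : ℤ)) : ℝ) * ξ / M) =
        if t.1 + t.2.1 = t.2.2.1 + t.2.2.2 then (M : ℂ) else 0 := by
      intro t ht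
      rw [orth hM1]
      rw [Finset.mem_product, Finset.mem_product, Finset.mem_product] at ht
      obtain ⟨ht1, ht2, ht3, ht4⟩ := ht
      have e1 := (mem_pr.1 (hPP ht1)).1
      have e2 := (mem_pr.1 (hPP ht2)).1
      have e3 := (mem_pr.1 (hPP ht3)).1
      have e4 := (mem_pr.1 (hPP ht4)).1
      by_cases hc : t.1 + t.2.1 = t.2.2.1 + t.2.2.2
      · rw [if_pos hc, if_pos]
        have : (t.2.2.1 : ℤ) + t.2.2.2 - t.1 - t.2.1 = 0 := by omega
        rw [this, zero_mul]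
        exact dvd_zero _
      · rw [if_neg hc, if_neg]
        intro hd
        have hcop : IsCoprime (M : ℤ) (h : ℤ) := by
          rw [Nat.isCoprime_iff_coprime]
          exact hh.symm
        have hd2 := hcop.dvd_of_dvd_mul_right hd
        have h5 : (t.2.2.1 : ℤ) + t.2.2.2 - t.1 - t.2.1 = 0 := by
          refine Int.eq_zero_of_abs_lt_dvd hd2 ?_
          rw [abs_lt]
          constructor <;> omega
        omega
    rw [Finset.sum_congr rfl h4, ← Finset.sum_filter, Finset.sum_const, nsmul_eq_mul,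
      Complex.ofReal_natCast, mul_comm]
  have key2 : ∑ ξ ∈ range M, ‖∑ p ∈ PP, ee (-((p : ℝ) * h * ξ / M))‖ ^ 4 =
      M * (((PP ×ˢ PP ×ˢ PP ×ˢ PP).filter
        (fun t => t.1 + t.2.1 = t.2.2.1 + t.2.2.2)).card : ℝ) := by exact_mod_cast key
  rw [key2]
  refine mul_le_mul_of_nonneg_left ?_ (Nat.cast_nonneg _)
  refine Nat.cast_le.mpr (Finset.card_le_card ?_)
  refine Finset.filter_subset_filter _ ?_
  exact Finset.product_subset_product hPP (Finset.product_subset_product hPP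
    (Finset.product_subset_product hPP hPP))

end Pool.Agent.Work.MP_2d9442_nt.AS
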