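import Pool.Agent.Work.MP_2d9442_nt.AS.Base
import Pool.Agent.Work.MP_2d9442_nt.AS.PrA
import Pool.Agent.Work.Sieve.PairBound
import Pool.Agent.Work.Sieve.MeanPhi

/-!
# Module PrC: additive energy of the primes in `(P, 2P]` (M)

`p₁ + p₂ = p₃ + p₄` iff `p₁ - p₃ = p₄ - p₂ =: h`, `|h| < P`.  Let `r(h) = #{(p, p') ∈ (pr P)² : p = p' + h}`
for `h ≥ 0` (for negative `h` swap the roles).  The count is `≤ r(0)² + 2 ∑_{h=1}^{P} r(h)²`.
`r(0) = |pr P| ≤ 2P/log P` (`card_pr`), so `r(0)² ≤ 4P²/(log P)² ≤ C P³/(log P)⁴` (`(log P)² ≤ C P`).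
For `h ≥ 1`: `Sieve.pair_bound_shift` with `X = 2P`: `r(h) ≤ 216 (h/φ(h)) 2P/(log 2P)² ≤
432 (h/φ(h)) P/(log P)²`, and `Sieve.sum_sq_div_totient_le`: `∑_{h ≤ P} (h/φ(h))² ≤ 36 P`.
So the count is `≤ C P³/(log P)⁴`.
To organise the counting: the set injects into the union over `h` by `t ↦ (p₁, p₃), (p₂, p₄)`; e.g.
`∑_{t} 1 = ∑_{(p₁,p₃)} #{(p₂,p₄) : p₄ - p₂ = p₁ - p₃}` and
`∑_{(p₁,p₃)} R(p₁ - p₃) = ∑_h R(h)²` over integers `h ∈ [-P, P]` (`Finset.sum_fiberwise_of_maps_to`).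
-/

set_option autoImplicit false

open Finset

namespace Pool.Agent.Work.MP_2d9442_nt.AS

/-- pairs of primes with difference `h` -/
private def prcR (P h : ℕ) : Finset (ℕ × ℕ) :=
  ((pr P) ×ˢ (pr P)).filter (fun t => t.1 = t.2 + h)

private theorem prcR_card (P h : ℕ) (hh : 1 ≤ h) (hP : 2 ≤ P) :
    ((prcR P h).card : ℝ) ≤ 432 * ((h : ℝ) / (Nat.totient h : ℝ)) * (P / Real.log P ^ 2) := by
  have h1 : (prcR P h).card
      ≤ ((Finset.Icc 1 (2 * P)).filter (fun m : ℕ => m.Prime ∧ (m + h).Prime)).card := by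
    refine Finset.card_le_card_of_injOn (fun t => t.2) ?_ ?_
    · intro t ht
      rw [mem_coe, prcR, mem_filter, mem_product] at ht
      obtain ⟨⟨ht1, ht2⟩, ht3⟩ := ht
      obtain ⟨⟨a1, a2⟩, a3⟩ := mem_pr.mp ht1
      obtain ⟨⟨b1, b2⟩, b3⟩ := mem_pr.mp ht2
      rw [mem_coe, mem_filter, mem_Icc]
      exact ⟨⟨b3.one_lt.le, b2⟩, b3, by rw [← ht3]; exact a3⟩
    · intro t ht u hu htu
      rw [mem_coe, prcR, mem_filter] at ht hu
      simp only at htu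
      exact Prod.ext (by rw [ht.2, hu.2, htu]) htu
  have h2 := Sieve.pair_bound_shift (h := h) (by omega) (X := 2 * P) (by omega)
  have h3 : ((prcR P h).card : ℝ) ≤
      216 * ((h : ℝ) / (Nat.totient h : ℝ)) * (((2 * P : ℕ) : ℝ) / (Real.log ((2 * P : ℕ) : ℝ)) ^ 2) :=
    (by exact_mod_cast h1 : ((prcR P h).card : ℝ) ≤
      (((Finset.Icc 1 (2 * P)).filter (fun m : ℕ => m.Prime ∧ (m + h).Prime)).card : ℝ)).trans h2
  refine h3.trans ?_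
  have hlogP : 0 < Real.log P := Real.log_pos (by exact_mod_cast hP)
  have hP0 : (0 : ℝ) < P := by exact_mod_cast (by omega : 0 < P)
  have hlog2 : Real.log P ≤ Real.log ((2 * P : ℕ) : ℝ) :=
    Real.log_le_log hP0 (by push_cast; linarith)
  have h4 : ((2 * P : ℕ) : ℝ) / (Real.log ((2 * P : ℕ) : ℝ)) ^ 2 ≤ 2 * (P / Real.log P ^ 2) := by
    rw [← mul_div_assoc]
    push_cast
    push_cast at hlog2
    gcongr
  have h5 : (0 : ℝ) ≤ 216 * ((h : ℝ) / (Nat.totient h : ℝ)) := by positivity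
  calc 216 * ((h : ℝ) / (Nat.totient h : ℝ)) * (((2 * P : ℕ) : ℝ) / (Real.log ((2 * P : ℕ) : ℝ)) ^ 2)
      ≤ 216 * ((h : ℝ) / (Nat.totient h : ℝ)) * (2 * (P / Real.log P ^ 2)) :=
        mul_le_mul_of_nonneg_left h4 h5
    _ = 432 * ((h : ℝ) / (Nat.totient h : ℝ)) * (P / Real.log P ^ 2) := by ring

private theorem prcR_zero (P : ℕ) : (prcR P 0).card ≤ (pr P).card := by
  refine Finset.card_le_card_of_injOn (fun t => t.2) ?_ ?_
  · intro t ht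
    rw [mem_coe, prcR, mem_filter, mem_product] at ht
    exact ht.1.2
  · intro t ht u hu htu
    rw [mem_coe, prcR, mem_filter] at ht hu
    simp only at htu
    exact Prod.ext (by rw [ht.2, hu.2, htu]) htu

/-- the quadruples with `p₃ ≤ p₁` -/
private theorem prc_half (P : ℕ) :
    (((pr P) ×ˢ (pr P) ×ˢ (pr P) ×ˢ (pr P)).filter
      (fun t => t.1 + t.2.1 = t.2.2.1 + t.2.2.2 ∧ t.2.2.1 ≤ t.1)).card
      ≤ ∑ h ∈ Finset.range (P + 1), (prcR P h).card ^ 2 := by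
  rw [Finset.card_eq_sum_card_fiberwise (f := fun t => t.1 - t.2.2.1) (t := Finset.range (P + 1))]
  · refine Finset.sum_le_sum fun h _ => ?_
    rw [pow_two, ← Finset.card_product]
    refine Finset.card_le_card_of_injOn
      (fun t => ((t.1, t.2.2.1), (t.2.2.2, t.2.1))) ?_ ?_
    · intro t ht
      rw [mem_coe, mem_filter, mem_filter, mem_product, mem_product, mem_product] at ht
      obtain ⟨⟨⟨h1, h2, h3, h4⟩, h5, h6⟩, h7⟩ := ht
      simp only [mem_coe, mem_product, prcR, mem_filter]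
      refine ⟨⟨⟨h1, h3⟩, ?_⟩, ⟨h4, h2⟩, ?_⟩
      · omega
      · omega
    · rintro ⟨a, b, c, d⟩ _ ⟨a', b', c', d'⟩ _ h
      simp only [Prod.mk.injEq] at h
      obtain ⟨⟨h1, h2⟩, h3, h4⟩ := h
      subst h1 h2 h3 h4
      rfl
  · intro t ht
    rw [mem_coe, mem_filter, mem_product, mem_product, mem_product] at ht
    obtain ⟨⟨h1, h2, h3, h4⟩, h5, h6⟩ := ht
    obtain ⟨⟨a1, a2⟩, a3⟩ := mem_pr.mp h1
    obtain ⟨⟨b1, b2⟩, b3⟩ := mem_pr.mp h3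
    rw [mem_coe, Finset.mem_range]
    simp only
    omega

private theorem prc_all (P : ℕ) :
    (((pr P) ×ˢ (pr P) ×ˢ (pr P) ×ˢ (pr P)).filter
      (fun t => t.1 + t.2.1 = t.2.2.1 + t.2.2.2)).card
      ≤ 2 * ∑ h ∈ Finset.range (P + 1), (prcR P h).card ^ 2 := by
  have h1 := prc_half P
  have h2 : (((pr P) ×ˢ (pr P) ×ˢ (pr P) ×ˢ (pr P)).filter
      (fun t => t.1 + t.2.1 = t.2.2.1 + t.2.2.2 ∧ t.1 ≤ t.2.2.1)).card
      ≤ (((pr P) ×ˢ (pr P) ×ˢ (pr P) ×ˢ (pr P)).filter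
      (fun t => t.1 + t.2.1 = t.2.2.1 + t.2.2.2 ∧ t.2.2.1 ≤ t.1)).card := by
    refine Finset.card_le_card_of_injOn (fun t => (t.2.2.1, t.2.2.2, t.1, t.2.1)) ?_ ?_
    · intro t ht
      rw [mem_coe, mem_filter, mem_product, mem_product, mem_product] at ht
      obtain ⟨⟨h1, h2, h3, h4⟩, h5, h6⟩ := ht
      simp only [mem_coe, mem_product, mem_filter]
      exact ⟨⟨h3, h4, h1, h2⟩, h5.symm, h6⟩
    · rintro ⟨a, b, c, d⟩ _ ⟨a', b', c', d'⟩ _ h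
      simp only [Prod.mk.injEq] at h
      obtain ⟨h1, h2, h3, h4⟩ := h
      subst h1 h2 h3 h4
      rfl
  have h3 : (((pr P) ×ˢ (pr P) ×ˢ (pr P) ×ˢ (pr P)).filter
      (fun t => t.1 + t.2.1 = t.2.2.1 + t.2.2.2)).card
      ≤ (((pr P) ×ˢ (pr P) ×ˢ (pr P) ×ˢ (pr P)).filter
      (fun t => t.1 + t.2.1 = t.2.2.1 + t.2.2.2 ∧ t.2.2.1 ≤ t.1)).card
        + (((pr P) ×ˢ (pr P) ×ˢ (pr P) ×ˢ (pr P)).filter
      (fun t => t.1 + t.2.1 = t.2.2.1 + t.2.2.2 ∧ t.1 ≤ t.2.2.1)).card := by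
    refine le_trans (Finset.card_le_card ?_) (Finset.card_union_le _ _)
    intro t ht
    rw [mem_filter] at ht
    rw [mem_union, mem_filter, mem_filter]
    rcases le_total t.2.2.1 t.1 with h | h
    · exact Or.inl ⟨ht.1, ht.2, h⟩
    · exact Or.inr ⟨ht.1, ht.2, h⟩
  omega

theorem energy_pr : ∃ C : ℝ, 0 < C ∧ ∀ P : ℕ, 2 ≤ P →
    ((((pr P) ×ˢ (pr P) ×ˢ (pr P) ×ˢ (pr P)).filter
      (fun t => t.1 + t.2.1 = t.2.2.1 + t.2.2.2)).card : ℝ) ≤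
      C * ((P : ℝ) ^ 3 / Real.log P ^ 4) := by
  refine ⟨2 * (16 + 432 ^ 2 * 36), by norm_num, fun P hP => ?_⟩
  have hlogP : 0 < Real.log P := Real.log_pos (by exact_mod_cast hP)
  have hP0 : (0 : ℝ) < P := by exact_mod_cast (by omega : 0 < P)
  have h1 : ((((pr P) ×ˢ (pr P) ×ˢ (pr P) ×ˢ (pr P)).filter
      (fun t => t.1 + t.2.1 = t.2.2.1 + t.2.2.2)).card : ℝ)
      ≤ 2 * ∑ h ∈ Finset.range (P + 1), ((prcR P h).card : ℝ) ^ 2 := by
    exact_mod_cast prc_all P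
  have h2 : ∑ h ∈ Finset.range (P + 1), ((prcR P h).card : ℝ) ^ 2
      = ((prcR P 0).card : ℝ) ^ 2 + ∑ h ∈ Icc 1 P, ((prcR P h).card : ℝ) ^ 2 := by
    rw [Finset.range_eq_Ico, Finset.sum_eq_sum_Ico_succ_bot (by omega)]
    have e1 : Ico (0 + 1) (P + 1) = Icc 1 P := by
      ext n; rw [mem_Icc, mem_Ico]; omega
    rw [e1]
  have h3 : ((prcR P 0).card : ℝ) ^ 2 ≤ 16 * ((P : ℝ) ^ 3 / Real.log P ^ 4) := by
    have a1 : ((prcR P 0).card : ℝ) ≤ 2 * (P / Real.log P) :=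
      (by exact_mod_cast prcR_zero P : ((prcR P 0).card : ℝ) ≤ ((pr P).card : ℝ)).trans (card_pr hP)
    have a2 : Real.log P ^ 2 ≤ 4 * P := by
      have b1 : Real.log P ≤ (P : ℝ) ^ (1 / 2 : ℝ) / (1 / 2) :=
        Real.log_le_rpow_div hP0.le (by norm_num)
      have b2 : ((P : ℝ) ^ (1 / 2 : ℝ)) ^ 2 = P := by
        rw [← Real.rpow_natCast, ← Real.rpow_mul hP0.le]
        norm_num
      calc Real.log P ^ 2 ≤ ((P : ℝ) ^ (1 / 2 : ℝ) / (1 / 2)) ^ 2 := by gcongr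
        _ = 4 * ((P : ℝ) ^ (1 / 2 : ℝ)) ^ 2 := by ring
        _ = 4 * P := by rw [b2]
    calc ((prcR P 0).card : ℝ) ^ 2 ≤ (2 * (P / Real.log P)) ^ 2 := by gcongr
      _ = 4 * (P : ℝ) ^ 2 * Real.log P ^ 2 / Real.log P ^ 4 := by field_simp; norm_num
      _ ≤ 4 * (P : ℝ) ^ 2 * (4 * P) / Real.log P ^ 4 := by gcongr
      _ = 16 * ((P : ℝ) ^ 3 / Real.log P ^ 4) := by ring
  have h4 : ∑ h ∈ Icc 1 P, ((prcR P h).card : ℝ) ^ 2
      ≤ 432 ^ 2 * 36 * ((P : ℝ) ^ 3 / Real.log P ^ 4) := by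
    have a1 : ∀ h ∈ Icc 1 P, ((prcR P h).card : ℝ) ^ 2
        ≤ (432 * (P / Real.log P ^ 2)) ^ 2 * ((h : ℝ) / (Nat.totient h : ℝ)) ^ 2 := by
      intro h hh
      rw [mem_Icc] at hh
      have b1 := prcR_card P h hh.1 hP
      rw [← mul_pow]
      refine pow_le_pow_left₀ (Nat.cast_nonneg _) (b1.trans (le_of_eq ?_)) 2
      ring
    refine (Finset.sum_le_sum a1).trans ?_
    rw [← Finset.mul_sum]
    have a2 := Sieve.sum_sq_div_totient_le P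
    calc (432 * (P / Real.log P ^ 2)) ^ 2 * ∑ h ∈ Icc 1 P, ((h : ℝ) / (Nat.totient h : ℝ)) ^ 2
        ≤ (432 * (P / Real.log P ^ 2)) ^ 2 * (36 * P) := by gcongr
      _ = 432 ^ 2 * 36 * ((P : ℝ) ^ 3 / Real.log P ^ 4) := by
          field_simp
  rw [h2] at h1
  refine h1.trans ?_
  linarith

end Pool.Agent.Work.MP_2d9442_nt.AS
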