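import Pool.Agent.Work.MP_2d9442_nt.AS.FoA
import Pool.Agent.Work.MP_2d9442_nt.AS.PrC

/-!
# Module FoB: correlations along primes give a large local Fourier coefficient (M-L)

`B = |PP| ≥ cP P/log P > 0`.  `L₁ = (2H₀+1)P`, a prime `M` with `L₁ < M ≤ 2L₁`
(`Nat.exists_prime_lt_and_le_two_mul`), `P₀ ≥ H₀ + 2` so that `h ≤ H₀ < M` is coprime to `M`.
(1) For `j < P`: `avc x (z(n) conj z(n+ph))` and `avc x (z(n+j) conj z(n+j+ph))` differ by at most `2j/x`.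
So with `T_n = ∑_{p∈PP} ∑_{j<P} z(n+j) conj z(n+j+ph)`:
`∑_{n≤x} ‖T_n‖ ≥ x P B (c₀ - 2P/x) ≥ (c₀/2) x P B` for `x ≥ 4P/c₀`.
(2) `four_id` with `a j = z(n+j)`, `b i = z(n+i)`: `T_n = (1/M) ∑_ξ â_n(ξ) conj b̂_n(ξ) k(ξ)`.
Let `τ = c₀/(4√(2H₀+1))`, `Ξ = {ξ < M : ‖k(ξ)‖ ≥ τB}` (independent of `n`).  By Cauchy-Schwarz and
`parseval` (`P, L₁ ≤ M`): `(1/M) ∑_{ξ∉Ξ} ≤ τB √(P L₁) = (c₀/4) P B`.  For `ξ ∈ Ξ`: `‖b̂‖ ≤ L₁`, `‖k‖ ≤ B`:
`‖T_n‖ ≤ (c₀/4)PB + (L₁B/M) ∑_{ξ∈Ξ} ‖â_n(ξ)‖`.  Sum over `n`, use `L₁ ≤ M`: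
`∑_{ξ∈Ξ} ∑_{n≤x} ‖â_n(ξ)‖/P ≥ (c₀/4) x`.
(3) `|Ξ| (τB)⁴ ≤ ∑_ξ ‖k(ξ)‖⁴ ≤ M C P³/(log P)⁴` (`fourth`, `energy_pr`), `B ≥ cP P/log P`,
`M ≤ 2(2H₀+1)P`: `|Ξ| ≤ R := 2(2H₀+1) C/(τ⁴ cP⁴)`.
(4) So some `ξ ∈ Ξ` has `(1/x) ∑_n ‖loc z (ξ/M) P n‖ ≥ c₀/(4R)`, and by Cauchy-Schwarz
`en z (ξ/M) P x ≥ (c₀/(4R))² =: c₁` (enlarge `R` to be `≥ 1`).  (`-(j ξ/M) = -(j (ξ/M))`.)
-/

set_option autoImplicit false

open Finset

namespace Pool.Agent.Work.MP_2d9442_nt.AS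

private theorem foB_sumr (g : ℕ → ℂ) (x : ℕ) :
    ∑ m ∈ Icc 1 x, g m = ∑ i ∈ range x, g (i + 1) := by
  induction x with
  | zero => simp
  | succ n ih => rw [Finset.sum_Icc_succ_top (by omega), Finset.sum_range_succ, ih]

private theorem foB_shift (g : ℕ → ℂ) (hg : ∀ n, ‖g n‖ ≤ 1) (j x : ℕ) :
    ‖∑ n ∈ Icc 1 x, g (n + j) - ∑ m ∈ Icc 1 x, g m‖ ≤ 2 * j := by
  rw [foB_sumr, foB_sumr]
  have h1 : ∑ i ∈ range (x + j), g (i + 1) =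
      ∑ i ∈ range x, g (i + 1) + ∑ i ∈ range j, g (x + i + 1) := by
    rw [Finset.sum_range_add]
  have h2 : ∑ i ∈ range (j + x), g (i + 1) =
      ∑ i ∈ range j, g (i + 1) + ∑ i ∈ range x, g (j + i + 1) := by
    rw [Finset.sum_range_add]
  rw [add_comm j x, h1] at h2
  have h4 : ∑ i ∈ range x, g (i + 1 + j) = ∑ i ∈ range x, g (j + i + 1) := by
    refine Finset.sum_congr rfl fun i _ => ?_
    congr 1
    omega
  have h5 : ∑ i ∈ range x, g (j + i + 1) - ∑ i ∈ range x, g (i + 1) =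
      ∑ i ∈ range j, g (x + i + 1) - ∑ i ∈ range j, g (i + 1) := by
    linear_combination -h2
  rw [h4, h5]
  refine (norm_sub_le _ _).trans ?_
  have h6 : ∀ f : ℕ → ℕ, ‖∑ i ∈ range j, g (f i)‖ ≤ j := by
    intro f
    refine (norm_sum_le _ _).trans ?_
    calc ∑ i ∈ range j, ‖g (f i)‖ ≤ ∑ _i ∈ range j, (1 : ℝ) :=
          Finset.sum_le_sum fun i _ => hg _
      _ = j := by simp
  linarith [h6 (fun i => x + i + 1), h6 (fun i => i + 1)]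

/-- the local correlation sum -/
private noncomputable def TT (z : ℕ → ℂ) (PP : Finset ℕ) (Q h n : ℕ) : ℂ :=
  ∑ p ∈ PP, ∑ j ∈ range Q, z (n + j) * (starRingEnd ℂ) (z (n + (j + p * h)))

private theorem foB_low (z : ℕ → ℂ) (hz : ∀ n, ‖z n‖ ≤ 1) (PP : Finset ℕ) (Q h x : ℕ)
    (hx : 1 ≤ x) (c0 : ℝ)
    (hc : c0 * PP.card ≤ ‖∑ p ∈ PP, avc x (fun n => z n * (starRingEnd ℂ) (z (n + p * h)))‖) :
    c0 * PP.card * x * Q - 2 * Q ^ 2 * PP.card ≤ ∑ n ∈ Icc 1 x, ‖TT z PP Q h n‖ := by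
  have hx0 : (0 : ℝ) < x := by exact_mod_cast hx
  obtain ⟨g, hg⟩ : ∃ g : ℕ → ℕ → ℂ, ∀ p n, g p n = z n * (starRingEnd ℂ) (z (n + p * h)) :=
    ⟨_, fun _ _ => rfl⟩
  have hg1 : ∀ p n, ‖g p n‖ ≤ 1 := by
    intro p n
    rw [hg, norm_mul, RCLike.norm_conj]
    exact mul_le_one₀ (hz _) (norm_nonneg _) (hz _)
  have h1 : ∑ p ∈ PP, avc x (fun n => z n * (starRingEnd ℂ) (z (n + p * h))) =
      (∑ p ∈ PP, ∑ n ∈ Icc 1 x, g p n) / (x : ℂ) := by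
    unfold avc
    rw [Finset.sum_div]
    refine Finset.sum_congr rfl fun p _ => ?_
    congr 1
    exact Finset.sum_congr rfl fun n _ => (hg p n).symm
  rw [h1, norm_div, Complex.norm_natCast, le_div_iff₀ hx0] at hc
  have h2 : ∑ n ∈ Icc 1 x, TT z PP Q h n =
      ∑ j ∈ range Q, ∑ p ∈ PP, ∑ n ∈ Icc 1 x, g p (n + j) := by
    unfold TT
    rw [Finset.sum_comm]
    have h3 : ∀ p ∈ PP, ∑ n ∈ Icc 1 x, ∑ j ∈ range Q,
        z (n + j) * (starRingEnd ℂ) (z (n + (j + p * h))) =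
        ∑ j ∈ range Q, ∑ n ∈ Icc 1 x, g p (n + j) := by
      intro p _
      rw [Finset.sum_comm]
      refine Finset.sum_congr rfl fun j _ => Finset.sum_congr rfl fun n _ => ?_
      rw [hg, add_assoc]
    rw [Finset.sum_congr rfl h3, Finset.sum_comm]
  have h4 : ∀ j ∈ range Q, ‖∑ p ∈ PP, ∑ n ∈ Icc 1 x, g p (n + j) -
      ∑ p ∈ PP, ∑ n ∈ Icc 1 x, g p n‖ ≤ 2 * Q * PP.card := by
    intro j hj
    rw [Finset.mem_range] at hj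
    have hj' : (j : ℝ) ≤ Q := by exact_mod_cast hj.le
    rw [← Finset.sum_sub_distrib]
    refine (norm_sum_le _ _).trans ?_
    calc ∑ p ∈ PP, ‖∑ n ∈ Icc 1 x, g p (n + j) - ∑ n ∈ Icc 1 x, g p n‖ ≤
          ∑ _p ∈ PP, 2 * (Q : ℝ) := by
          refine Finset.sum_le_sum fun p _ => (foB_shift (g p) (hg1 p) j x).trans ?_
          linarith
      _ = 2 * Q * PP.card := by
          rw [Finset.sum_const, nsmul_eq_mul]
          ring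
  have h5 : ‖∑ n ∈ Icc 1 x, TT z PP Q h n - (Q : ℂ) * ∑ p ∈ PP, ∑ n ∈ Icc 1 x, g p n‖ ≤
      2 * Q ^ 2 * PP.card := by
    have h6 : ∑ n ∈ Icc 1 x, TT z PP Q h n - (Q : ℂ) * ∑ p ∈ PP, ∑ n ∈ Icc 1 x, g p n =
        ∑ j ∈ range Q, (∑ p ∈ PP, ∑ n ∈ Icc 1 x, g p (n + j) -
          ∑ p ∈ PP, ∑ n ∈ Icc 1 x, g p n) := by
      rw [Finset.sum_sub_distrib, ← h2, Finset.sum_const, Finset.card_range, nsmul_eq_mul]
    rw [h6]
    refine (norm_sum_le _ _).trans ((Finset.sum_le_sum h4).trans (le_of_eq ?_))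
    rw [Finset.sum_const, Finset.card_range, nsmul_eq_mul]
    ring
  have h7 : ‖(Q : ℂ) * ∑ p ∈ PP, ∑ n ∈ Icc 1 x, g p n‖ - ‖∑ n ∈ Icc 1 x, TT z PP Q h n‖ ≤
      2 * Q ^ 2 * PP.card := by
    refine (norm_sub_norm_le _ _).trans ?_
    rw [norm_sub_rev]
    exact h5
  rw [norm_mul, Complex.norm_natCast] at h7
  have h8 : ‖∑ n ∈ Icc 1 x, TT z PP Q h n‖ ≤ ∑ n ∈ Icc 1 x, ‖TT z PP Q h n‖ := norm_sum_le _ _
  have h9 : (Q : ℝ) * (c0 * PP.card * x) ≤ Q * ‖∑ p ∈ PP, ∑ n ∈ Icc 1 x, g p n‖ :=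
    mul_le_mul_of_nonneg_left hc (Nat.cast_nonneg _)
  nlinarith

private theorem foB_up {M Q L1 h : ℕ} (hM : 1 ≤ M) (hh : 1 ≤ h) (hL : Q + 2 * Q * h ≤ L1)
    (hL1 : L1 ≤ M) (PP : Finset ℕ) (hPP : PP ⊆ pr Q) (z : ℕ → ℂ) (hz : ∀ n, ‖z n‖ ≤ 1)
    (τ : ℝ) (hτ : 0 ≤ τ) (n : ℕ) :
    ‖TT z PP Q h n‖ ≤ τ * √((Q : ℝ) * L1) + PP.card *
      ∑ ξ ∈ (range M).filter (fun ξ : ℕ => τ ≤ ‖∑ p ∈ PP, ee (-((p : ℝ) * h * ξ / M))‖),
        ‖∑ j ∈ range Q, z (n + j) * ee (-((j : ℝ) * ξ / M))‖ := by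
  classical
  have hM0 : (0 : ℝ) < M := by exact_mod_cast hM
  have hQM : Q ≤ M := by
    have : Q ≤ Q + 2 * Q * h := Nat.le_add_right _ _
    omega
  obtain ⟨A, hA⟩ : ∃ A : ℕ → ℂ, ∀ ξ, A ξ =
    ∑ j ∈ range Q, z (n + j) * ee (-((j : ℝ) * ξ / M)) := ⟨_, fun _ => rfl⟩
  obtain ⟨B, hB⟩ : ∃ B : ℕ → ℂ, ∀ ξ, B ξ =
    ∑ i ∈ range L1, z (n + i) * ee (-((i : ℝ) * ξ / M)) := ⟨_, fun _ => rfl⟩
  obtain ⟨k, hk⟩ : ∃ k : ℕ → ℂ, ∀ ξ, k ξ =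
    ∑ p ∈ PP, ee (-((p : ℝ) * h * ξ / M)) := ⟨_, fun _ => rfl⟩
  have hT : TT z PP Q h n = (∑ ξ ∈ range M, A ξ * (starRingEnd ℂ) (B ξ) * k ξ) / (M : ℂ) := by
    unfold TT
    rw [four_id hM hh hL hL1 PP hPP (fun j => z (n + j)) (fun i => z (n + i))]
    congr 1
    refine Finset.sum_congr rfl fun ξ _ => ?_
    rw [hA, hB, hk]
  have hpA : ∑ ξ ∈ range M, ‖A ξ‖ ^ 2 ≤ M * Q := by
    have h1 := parseval hM hQM (fun j => z (n + j))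
    simp_rw [hA]
    rw [h1]
    refine mul_le_mul_of_nonneg_left ?_ hM0.le
    calc ∑ j ∈ range Q, ‖z (n + j)‖ ^ 2 ≤ ∑ _j ∈ range Q, (1 : ℝ) := by
          refine Finset.sum_le_sum fun j _ => ?_
          have := hz (n + j)
          have h0 := norm_nonneg (z (n + j))
          nlinarith
      _ = Q := by simp
  have hpB : ∑ ξ ∈ range M, ‖B ξ‖ ^ 2 ≤ M * L1 := by
    have h1 := parseval hM hL1 (fun j => z (n + j))
    simp_rw [hB]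
    rw [h1]
    refine mul_le_mul_of_nonneg_left ?_ hM0.le
    calc ∑ j ∈ range L1, ‖z (n + j)‖ ^ 2 ≤ ∑ _j ∈ range L1, (1 : ℝ) := by
          refine Finset.sum_le_sum fun j _ => ?_
          have := hz (n + j)
          have h0 := norm_nonneg (z (n + j))
          nlinarith
      _ = L1 := by simp
  have hBL : ∀ ξ, ‖B ξ‖ ≤ L1 := by
    intro ξ
    rw [hB]
    refine (norm_sum_le _ _).trans ?_
    calc ∑ i ∈ range L1, ‖z (n + i) * ee (-((i : ℝ) * ξ / M))‖ ≤ ∑ _i ∈ range L1, (1 : ℝ) := by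
          refine Finset.sum_le_sum fun i _ => ?_
          rw [norm_mul, ee_norm, mul_one]
          exact hz _
      _ = L1 := by simp
  have hkB : ∀ ξ, ‖k ξ‖ ≤ PP.card := by
    intro ξ
    rw [hk]
    refine (norm_sum_le _ _).trans ?_
    calc ∑ p ∈ PP, ‖ee (-((p : ℝ) * h * ξ / M))‖ = ∑ _p ∈ PP, (1 : ℝ) :=
          Finset.sum_congr rfl fun p _ => ee_norm _
      _ = PP.card := by simp
      _ ≤ PP.card := le_rfl
  have hCS : ∑ ξ ∈ range M, ‖A ξ‖ * ‖B ξ‖ ≤ M * √((Q : ℝ) * L1) := by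
    refine (Real.sum_mul_le_sqrt_mul_sqrt _ _ _).trans ?_
    calc √(∑ ξ ∈ range M, ‖A ξ‖ ^ 2) * √(∑ ξ ∈ range M, ‖B ξ‖ ^ 2) ≤
          √((M : ℝ) * Q) * √((M : ℝ) * L1) :=
          mul_le_mul (Real.sqrt_le_sqrt hpA) (Real.sqrt_le_sqrt hpB) (Real.sqrt_nonneg _)
            (Real.sqrt_nonneg _)
      _ = M * √((Q : ℝ) * L1) := by
          rw [← Real.sqrt_mul (by positivity)]
          have : (M : ℝ) * Q * (M * L1) = M ^ 2 * (Q * L1) := by ring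
          rw [this, Real.sqrt_mul (by positivity), Real.sqrt_sq hM0.le]
  have hmain : (M : ℝ) * ‖TT z PP Q h n‖ ≤ τ * (M * √((Q : ℝ) * L1)) + L1 * PP.card *
      ∑ ξ ∈ (range M).filter (fun ξ : ℕ => τ ≤ ‖k ξ‖), ‖A ξ‖ := by
    have h1 : (M : ℝ) * ‖TT z PP Q h n‖ = ‖∑ ξ ∈ range M, A ξ * (starRingEnd ℂ) (B ξ) * k ξ‖ := by
      rw [hT, norm_div, Complex.norm_natCast]
      field_simp
    rw [h1]
    refine (norm_sum_le _ _).trans ?_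
    rw [Finset.sum_filter, Finset.mul_sum]
    calc ∑ ξ ∈ range M, ‖A ξ * (starRingEnd ℂ) (B ξ) * k ξ‖ ≤
          ∑ ξ ∈ range M, (τ * (‖A ξ‖ * ‖B ξ‖) +
            L1 * PP.card * (if τ ≤ ‖k ξ‖ then ‖A ξ‖ else 0)) := by
          refine Finset.sum_le_sum fun ξ _ => ?_
          rw [norm_mul, norm_mul, RCLike.norm_conj]
          have hA0 := norm_nonneg (A ξ)
          have hB0 := norm_nonneg (B ξ)
          split_ifs with hc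
          · have h2 : ‖B ξ‖ * ‖k ξ‖ ≤ L1 * PP.card :=
              mul_le_mul (hBL ξ) (hkB ξ) (norm_nonneg _) (Nat.cast_nonneg _)
            have h3 : ‖A ξ‖ * (‖B ξ‖ * ‖k ξ‖) ≤ ‖A ξ‖ * (L1 * PP.card) :=
              mul_le_mul_of_nonneg_left h2 hA0
            have h4 : 0 ≤ τ * (‖A ξ‖ * ‖B ξ‖) := by positivity
            linarith
          · rw [mul_zero, add_zero]
            have h2 : ‖A ξ‖ * ‖B ξ‖ * ‖k ξ‖ ≤ ‖A ξ‖ * ‖B ξ‖ * τ :=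
              mul_le_mul_of_nonneg_left (not_le.mp hc).le (by positivity)
            linarith
      _ = τ * ∑ ξ ∈ range M, ‖A ξ‖ * ‖B ξ‖ +
            ∑ ξ ∈ range M, L1 * PP.card * (if τ ≤ ‖k ξ‖ then ‖A ξ‖ else 0) := by
          rw [Finset.sum_add_distrib, Finset.mul_sum]
      _ ≤ _ := by
          gcongr
  have h2 : (L1 : ℝ) ≤ M := by exact_mod_cast hL1
  have hS0 : 0 ≤ ∑ ξ ∈ (range M).filter (fun ξ : ℕ => τ ≤ ‖k ξ‖), ‖A ξ‖ :=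
    Finset.sum_nonneg fun _ _ => norm_nonneg _
  have h3 : (M : ℝ) * ‖TT z PP Q h n‖ ≤ M * (τ * √((Q : ℝ) * L1) + PP.card *
      ∑ ξ ∈ (range M).filter (fun ξ : ℕ => τ ≤ ‖k ξ‖), ‖A ξ‖) := by
    refine hmain.trans ?_
    have h4 : (L1 : ℝ) * PP.card *
        ∑ ξ ∈ (range M).filter (fun ξ : ℕ => τ ≤ ‖k ξ‖), ‖A ξ‖ ≤ M * PP.card *
        ∑ ξ ∈ (range M).filter (fun ξ : ℕ => τ ≤ ‖k ξ‖), ‖A ξ‖ := by
      gcongr
    linarith
  have h5 := le_of_mul_le_mul_left h3 hM0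
  simp_rw [hA, hk] at h5
  exact h5

theorem fo {c0 cP : ℝ} (hc0 : 0 < c0) (hcP : 0 < cP) (H0 : ℕ) :
    ∃ c1 : ℝ, 0 < c1 ∧ ∃ P0 Cx : ℕ, 2 ≤ P0 ∧ 1 ≤ Cx ∧ ∀ P : ℕ, P0 ≤ P → ∀ x : ℕ, Cx * P ≤ x →
      ∀ z : ℕ → ℂ, (∀ n, ‖z n‖ ≤ 1) → ∀ PP : Finset ℕ, PP ⊆ pr P →
        cP * (P / Real.log P) ≤ (PP.card : ℝ) → ∀ h : ℕ, 1 ≤ h → h ≤ H0 →
          c0 * PP.card ≤ ‖∑ p ∈ PP, avc x (fun n => z n * (starRingEnd ℂ) (z (n + p * h)))‖ →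
            ∃ β : ℝ, c1 ≤ en z β P x := by
  classical
  obtain ⟨C, hC, hen⟩ := energy_pr
  obtain ⟨K, hK⟩ : ∃ K : ℝ, K = 2 * H0 + 1 := ⟨_, rfl⟩
  have hK1 : 1 ≤ K := by
    rw [hK]
    have : (0 : ℝ) ≤ H0 := Nat.cast_nonneg _
    linarith
  obtain ⟨τ, hτ⟩ : ∃ τ : ℝ, τ = c0 / (4 * √K) := ⟨_, rfl⟩
  have hsK : 0 < √K := Real.sqrt_pos.mpr (by linarith)
  have hτ0 : 0 < τ := by
    rw [hτ]
    positivity
  obtain ⟨R, hR⟩ : ∃ R : ℝ, R = 2 * K * C / (τ ^ 4 * cP ^ 4) + 1 := ⟨_, rfl⟩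
  have hR1 : 1 ≤ R := by
    rw [hR]
    have : 0 ≤ 2 * K * C / (τ ^ 4 * cP ^ 4) := by positivity
    linarith
  refine ⟨(c0 / (4 * R)) ^ 2, by positivity, H0 + 2, ⌈4 / c0⌉₊ + 1, by omega, by omega, ?_⟩
  intro Q hQ x hx z hz PP hPP hcard h hh hhH hcor
  have hQ2 : 2 ≤ Q := by omega
  have hQ0 : (0 : ℝ) < Q := by
    have : 0 < Q := by omega
    exact_mod_cast this
  have hlogQ : 0 < Real.log Q := Real.log_pos (by
    have : 1 < Q := by omega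
    exact_mod_cast this)
  have hB0 : (0 : ℝ) < PP.card := lt_of_lt_of_le (by positivity) hcard
  have hxQ : Q ≤ x := by
    refine le_trans ?_ hx
    exact Nat.le_mul_of_pos_left _ (by omega)
  have hx1 : 1 ≤ x := by omega
  have hx0 : (0 : ℝ) < x := by exact_mod_cast hx1
  have hxc : 4 * Q ≤ c0 * x := by
    have h1 : (4 / c0 : ℝ) ≤ ⌈4 / c0⌉₊ := Nat.le_ceil _
    have h2 : ((⌈4 / c0⌉₊ + 1 : ℕ) : ℝ) * Q ≤ x := by exact_mod_cast hx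
    push_cast at h2
    have h3 : (4 / c0 : ℝ) * Q ≤ x := by
      refine le_trans ?_ h2
      exact mul_le_mul_of_nonneg_right (by linarith) hQ0.le
    calc (4 : ℝ) * Q = c0 * (4 / c0 * Q) := by
          field_simp
      _ ≤ c0 * x := mul_le_mul_of_nonneg_left h3 hc0.le
  -- the length and the prime
  obtain ⟨L1, hL1⟩ : ∃ L1 : ℕ, L1 = Q + 2 * Q * H0 := ⟨_, rfl⟩
  have hL1R : (L1 : ℝ) = K * Q := by
    rw [hL1, hK]
    push_cast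
    ring
  obtain ⟨M, hMp, hM1, hM2⟩ := Nat.exists_prime_lt_and_le_two_mul L1 (by omega)
  have hMpos : 1 ≤ M := hMp.one_lt.le
  have hM0 : (0 : ℝ) < M := by exact_mod_cast hMpos
  have hLh : Q + 2 * Q * h ≤ L1 := by
    rw [hL1]
    exact Nat.add_le_add_left (Nat.mul_le_mul_left _ hhH) _
  have hH0L : H0 ≤ L1 := by
    rw [hL1]
    nlinarith
  have hcop : h.Coprime M := (Nat.coprime_of_lt_prime (by omega) (by omega) hMp).symm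
  obtain ⟨Ξ, hΞ⟩ : ∃ Ξ : Finset ℕ, Ξ = (range M).filter (fun ξ : ℕ =>
    τ * PP.card ≤ ‖∑ p ∈ PP, ee (-((p : ℝ) * h * ξ / M))‖) := ⟨_, rfl⟩
  obtain ⟨U, hU⟩ : ∃ U : ℕ → ℝ, ∀ ξ, U ξ = ∑ n ∈ Icc 1 x, ‖loc z ((ξ : ℝ) / M) Q n‖ :=
    ⟨_, fun _ => rfl⟩
  have hloc : ∀ ξ n : ℕ, ‖∑ j ∈ range Q, z (n + j) * ee (-((j : ℝ) * ξ / M))‖ =
      Q * ‖loc z ((ξ : ℝ) / M) Q n‖ := by
    intro ξ n
    unfold loc
    rw [norm_div, Complex.norm_natCast, mul_div_cancel₀ _ hQ0.ne']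
    congr 1
    refine Finset.sum_congr rfl fun j _ => ?_
    rw [mul_div_assoc]
  have hlow := foB_low z hz PP Q h x hx1 c0 hcor
  have hup : ∑ n ∈ Icc 1 x, ‖TT z PP Q h n‖ ≤
      x * (c0 / 4 * PP.card * Q) + PP.card * Q * ∑ ξ ∈ Ξ, U ξ := by
    calc ∑ n ∈ Icc 1 x, ‖TT z PP Q h n‖ ≤ ∑ n ∈ Icc 1 x, (c0 / 4 * PP.card * Q +
          PP.card * ∑ ξ ∈ Ξ, Q * ‖loc z ((ξ : ℝ) / M) Q n‖) := by
          refine Finset.sum_le_sum fun n _ => ?_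
          have h1 := foB_up hMpos hh hLh hM1.le PP hPP z hz (τ * PP.card) (by positivity) n
          rw [← hΞ] at h1
          simp_rw [hloc] at h1
          refine h1.trans (le_of_eq ?_)
          congr 1
          rw [hL1R]
          have h2 : (Q : ℝ) * (K * Q) = K * Q ^ 2 := by ring
          rw [h2, Real.sqrt_mul (by linarith), Real.sqrt_sq hQ0.le, hτ]
          field_simp
      _ = x * (c0 / 4 * PP.card * Q) + PP.card * Q * ∑ ξ ∈ Ξ, U ξ := by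
          rw [Finset.sum_add_distrib, Finset.sum_const, Nat.card_Icc, nsmul_eq_mul,
            Nat.add_sub_cancel, ← Finset.mul_sum, Finset.sum_comm]
          congr 1
          rw [mul_assoc]
          congr 1
          rw [Finset.mul_sum]
          refine Finset.sum_congr rfl fun ξ _ => ?_
          rw [← Finset.mul_sum, hU]
  have hUsum : c0 / 4 * x ≤ ∑ ξ ∈ Ξ, U ξ := by
    have h1 : PP.card * Q * (c0 / 4 * x) ≤ PP.card * Q * ∑ ξ ∈ Ξ, U ξ := by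
      have h2 : 2 * (Q : ℝ) ^ 2 * PP.card ≤ c0 / 2 * PP.card * x * Q := by
        have h3 : (PP.card : ℝ) * Q * (4 * Q) ≤ PP.card * Q * (c0 * x) :=
          mul_le_mul_of_nonneg_left hxc (by positivity)
        linarith
      linarith
    exact le_of_mul_le_mul_left h1 (by positivity)
  -- the number of large frequencies
  have hΞcard : (Ξ.card : ℝ) ≤ R := by
    have h1 := fourth (M := M) (P := Q) (h := h) (by
      have : 2 * Q ≤ 2 * Q * h := Nat.le_mul_of_pos_right _ (by omega)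
      omega) hMpos hcop PP hPP
    have h2 : (Ξ.card : ℝ) * (τ * PP.card) ^ 4 ≤
        ∑ ξ ∈ range M, ‖∑ p ∈ PP, ee (-((p : ℝ) * h * ξ / M))‖ ^ 4 := by
      calc (Ξ.card : ℝ) * (τ * PP.card) ^ 4 = ∑ _ξ ∈ Ξ, (τ * PP.card) ^ 4 := by
            rw [Finset.sum_const, nsmul_eq_mul]
        _ ≤ ∑ ξ ∈ Ξ, ‖∑ p ∈ PP, ee (-((p : ℝ) * h * ξ / M))‖ ^ 4 := by
            refine Finset.sum_le_sum fun ξ hξ => ?_
            rw [hΞ, Finset.mem_filter] at hξ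
            exact pow_le_pow_left₀ (by positivity) hξ.2 4
        _ ≤ ∑ ξ ∈ range M, ‖∑ p ∈ PP, ee (-((p : ℝ) * h * ξ / M))‖ ^ 4 := by
            refine Finset.sum_le_sum_of_subset_of_nonneg ?_ fun _ _ _ => by positivity
            rw [hΞ]
            exact Finset.filter_subset _ _
    have h3 : (Ξ.card : ℝ) * (τ * PP.card) ^ 4 ≤ (2 * K * Q) * (C * ((Q : ℝ) ^ 3 / Real.log Q ^ 4)) := by
      refine (h2.trans h1).trans ?_
      have hM3 : (M : ℝ) ≤ 2 * K * Q := by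
        have : (M : ℝ) ≤ 2 * L1 := by exact_mod_cast hM2
        rw [hL1R] at this
        linarith
      exact mul_le_mul hM3 (hen Q hQ2) (Nat.cast_nonneg _) (by positivity)
    have h4 : (cP * (Q / Real.log Q)) ^ 4 ≤ (PP.card : ℝ) ^ 4 :=
      pow_le_pow_left₀ (by positivity) hcard 4
    have h5 : (Ξ.card : ℝ) * (τ ^ 4 * (cP * (Q / Real.log Q)) ^ 4) ≤
        (2 * K * Q) * (C * ((Q : ℝ) ^ 3 / Real.log Q ^ 4)) := by
      refine le_trans (mul_le_mul_of_nonneg_left ?_ (Nat.cast_nonneg _)) h3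
      rw [mul_pow τ]
      exact mul_le_mul_of_nonneg_left h4 (by positivity)
    have h6 : (Ξ.card : ℝ) * (τ ^ 4 * cP ^ 4) * (Q ^ 4 / Real.log Q ^ 4) ≤
        (2 * K * C) * (Q ^ 4 / Real.log Q ^ 4) := by
      calc (Ξ.card : ℝ) * (τ ^ 4 * cP ^ 4) * (Q ^ 4 / Real.log Q ^ 4) =
            (Ξ.card : ℝ) * (τ ^ 4 * (cP * (Q / Real.log Q)) ^ 4) := by
            rw [mul_pow, div_pow]
            ring
        _ ≤ _ := h5
        _ = (2 * K * C) * (Q ^ 4 / Real.log Q ^ 4) := by ring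
    have h7 : (Ξ.card : ℝ) * (τ ^ 4 * cP ^ 4) ≤ 2 * K * C :=
      le_of_mul_le_mul_right h6 (by positivity)
    have h8 : (Ξ.card : ℝ) ≤ 2 * K * C / (τ ^ 4 * cP ^ 4) := by
      rw [le_div_iff₀ (by positivity)]
      exact h7
    rw [hR]
    linarith
  -- a large coefficient
  have hne : Ξ.Nonempty := by
    rw [Finset.nonempty_iff_ne_empty]
    intro h1
    rw [h1, Finset.sum_empty] at hUsum
    have : 0 < c0 / 4 * x := by positivity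
    linarith
  obtain ⟨ξ, _, hξ2⟩ := Finset.exists_le_of_sum_le (s := Ξ)
    (f := fun _ => c0 / (4 * R) * x) (g := U) hne (by
      rw [Finset.sum_const, nsmul_eq_mul]
      refine le_trans ?_ hUsum
      calc (Ξ.card : ℝ) * (c0 / (4 * R) * x) ≤ R * (c0 / (4 * R) * x) :=
            mul_le_mul_of_nonneg_right hΞcard (by positivity)
        _ = c0 / 4 * x := by
            field_simp)
  refine ⟨(ξ : ℝ) / M, ?_⟩
  have h1 : (c0 / (4 * R) * x) ^ 2 ≤ x * ∑ n ∈ Icc 1 x, ‖loc z ((ξ : ℝ) / M) Q n‖ ^ 2 := by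
    have h2 : (∑ n ∈ Icc 1 x, ‖loc z ((ξ : ℝ) / M) Q n‖) ^ 2 ≤
        (Icc 1 x).card * ∑ n ∈ Icc 1 x, ‖loc z ((ξ : ℝ) / M) Q n‖ ^ 2 :=
      sq_sum_le_card_mul_sum_sq
    rw [Nat.card_Icc, Nat.add_sub_cancel] at h2
    refine le_trans ?_ h2
    rw [hU] at hξ2
    exact pow_le_pow_left₀ (by positivity) hξ2 2
  unfold en
  rw [le_div_iff₀ hx0]
  have h3 : x * ((c0 / (4 * R)) ^ 2 * x) ≤ x * ∑ n ∈ Icc 1 x, ‖loc z ((ξ : ℝ) / M) Q n‖ ^ 2 := by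
    refine le_trans (le_of_eq ?_) h1
    ring
  exact le_of_mul_le_mul_left h3 hx0

end Pool.Agent.Work.MP_2d9442_nt.AS
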