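import Pool.Agent.Work.MP_2d9442_nt.AS.Base

/-!
# Module KtA: the dual function (S-M, Mathlib only)

`A(n) = loc z β L n`, `v(k) = conj A(k)` for `1 ≤ k ≤ x` and `0` otherwise; put
`F(m) = (1/L) ∑_{j<L, j ≤ m} e(-jβ) v(m-j)` (natural subtraction; `v 0 = 0`, so the condition `j ≤ m` can be
replaced by `j < m`; alternatively work with `v : ℤ → ℂ` and `F m = (1/L) ∑_{j<L} e(-jβ) v((m:ℤ) - j)`).
* `‖F‖ ≤ 1` clear.
* `F(m+1) = (1/L) v(m+1) + e(-β)(F(m) - (1/L) e(-(L-1)β) v(m-(L-1)))`, so the difference is `≤ 2/L`.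
* `x en = ∑_{n≤x} A(n) conj A(n) = (1/L) ∑_{n≤x} ∑_{j<L} z(n+j) e(-jβ) v(n) = ∑_{m} z(m) F(m)` over
  `1 ≤ m ≤ x + L - 1` (`m = n + j`; the terms of `F(m)` are exactly the pairs with `n = m - j ∈ [1, x]`);
  the part `m > x` has at most `L` terms of norm `≤ 1`.
-/

set_option autoImplicit false

open Finset

namespace Pool.Agent.Work.MP_2d9442_nt.AS

private theorem sum_Icc_range (g : ℕ → ℂ) (x : ℕ) :
    ∑ m ∈ Icc 1 x, g m = ∑ i ∈ range x, g (i + 1) := by
  induction x with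
  | zero => simp
  | succ n ih => rw [Finset.sum_Icc_succ_top (by omega), Finset.sum_range_succ, ih]

private theorem shift_le (g : ℕ → ℂ) (hg : ∀ n, ‖g n‖ ≤ 1) (j x : ℕ)
    (h0 : ∀ m, m ≤ j → g m = 0) :
    ‖∑ n ∈ Icc 1 x, g (n + j) - ∑ m ∈ Icc 1 x, g m‖ ≤ j := by
  rw [sum_Icc_range, sum_Icc_range]
  have h1 : ∑ i ∈ range (x + j), g (i + 1) =
      ∑ i ∈ range x, g (i + 1) + ∑ i ∈ range j, g (x + i + 1) := by
    rw [Finset.sum_range_add]
  have h2 : ∑ i ∈ range (j + x), g (i + 1) =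
      ∑ i ∈ range j, g (i + 1) + ∑ i ∈ range x, g (j + i + 1) := by
    rw [Finset.sum_range_add]
  have h3 : ∑ i ∈ range j, g (i + 1) = 0 := by
    refine Finset.sum_eq_zero fun i hi => h0 _ ?_
    rw [Finset.mem_range] at hi
    omega
  rw [add_comm j x, h1, h3, zero_add] at h2
  have h4 : ∑ i ∈ range x, g (i + 1 + j) = ∑ i ∈ range x, g (j + i + 1) := by
    refine Finset.sum_congr rfl fun i _ => ?_
    congr 1
    omega
  rw [h4, ← h2, add_sub_cancel_left]
  refine (norm_sum_le _ _).trans ?_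
  calc ∑ i ∈ range j, ‖g (x + i + 1)‖ ≤ ∑ _i ∈ range j, (1 : ℝ) :=
        Finset.sum_le_sum fun i _ => hg _
    _ = j := by simp

theorem ktA {z : ℕ → ℂ} (hz : ∀ n, ‖z n‖ ≤ 1) (β : ℝ) {L x : ℕ} (hL : 1 ≤ L) (hx : 1 ≤ x) :
    ∃ F : ℕ → ℂ, (∀ n, ‖F n‖ ≤ 1) ∧ (∀ m, ‖F (m + 1) - ee (-β) * F m‖ ≤ 2 / L) ∧
      x * en z β L x ≤ ‖∑ m ∈ Icc 1 x, F m * z m‖ + L := by
  classical
  have hL0 : (0 : ℝ) < L := by exact_mod_cast hL
  have hx0 : (0 : ℝ) < x := by exact_mod_cast hx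
  obtain ⟨v, hv⟩ : ∃ v : ℤ → ℂ, ∀ k : ℤ, v k =
      if 1 ≤ k ∧ k ≤ x then (starRingEnd ℂ) (loc z β L k.toNat) else 0 := ⟨_, fun _ => rfl⟩
  have hv1 : ∀ k, ‖v k‖ ≤ 1 := by
    intro k
    rw [hv]
    split_ifs
    · rw [RCLike.norm_conj]
      exact loc_le_one hz _ _ _
    · simp
  obtain ⟨F, hF⟩ : ∃ F : ℕ → ℂ, ∀ m : ℕ, F m =
      (∑ j ∈ range L, ee (-(j * β)) * v ((m : ℤ) - j)) / (L : ℂ) := ⟨_, fun _ => rfl⟩
  refine ⟨F, ?_, ?_, ?_⟩
  · intro n
    rw [hF, norm_div, Complex.norm_natCast]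
    refine div_le_one_of_le₀ ?_ (Nat.cast_nonneg L)
    refine (norm_sum_le _ _).trans ?_
    calc ∑ j ∈ range L, ‖ee (-(j * β)) * v ((n : ℤ) - j)‖ ≤ ∑ _j ∈ range L, (1 : ℝ) := by
          refine Finset.sum_le_sum fun j _ => ?_
          rw [norm_mul, ee_norm, one_mul]
          exact hv1 _
      _ = L := by simp
  · intro m
    obtain ⟨k, rfl⟩ : ∃ k, L = k + 1 := ⟨L - 1, by omega⟩
    have h1 : F (m + 1) - ee (-β) * F m =
        (v ((m : ℤ) + 1) - ee (-β) * (ee (-(k * β)) * v ((m : ℤ) - k))) / ((k + 1 : ℕ) : ℂ) := by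
      rw [hF, hF, Finset.sum_range_succ', Finset.sum_range_succ, mul_div_assoc', ← sub_div]
      congr 1
      rw [mul_add, Finset.mul_sum]
      have h2 : ∑ i ∈ range k, ee (-(((i + 1 : ℕ) : ℝ) * β)) *
          v (((m + 1 : ℕ) : ℤ) - ((i + 1 : ℕ) : ℤ)) =
          ∑ i ∈ range k, ee (-β) * (ee (-(i * β)) * v ((m : ℤ) - i)) := by
        refine Finset.sum_congr rfl fun i _ => ?_
        rw [← mul_assoc, ← ee_add]
        congr 2
        · push_cast
          ring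
        · push_cast
          ring
      rw [h2]
      have h3 : ee (-(((0 : ℕ) : ℝ) * β)) = 1 := by
        simp [ee_zero]
      rw [h3]
      push_cast
      ring_nf
    rw [h1, norm_div, Complex.norm_natCast]
    refine div_le_div_of_nonneg_right ?_ hL0.le
    refine (norm_sub_le _ _).trans ?_
    rw [norm_mul, norm_mul, ee_norm, ee_norm, one_mul, one_mul]
    linarith [hv1 ((m : ℤ) + 1), hv1 ((m : ℤ) - k)]
  · have h1 : (x : ℝ) * en z β L x = ∑ n ∈ Icc 1 x, ‖loc z β L n‖ ^ 2 := by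
      unfold en
      field_simp
    have h2 : ((∑ n ∈ Icc 1 x, ‖loc z β L n‖ ^ 2 : ℝ) : ℂ) =
        (∑ j ∈ range L, ee (-(j * β)) * ∑ n ∈ Icc 1 x, v ((n + j : ℕ) - (j : ℤ)) * z (n + j)) /
          (L : ℂ) := by
      push_cast
      have h3 : ∀ n ∈ Icc 1 x, ((‖loc z β L n‖ : ℂ)) ^ 2 =
          (∑ j ∈ range L, ee (-(j * β)) * (v (n : ℤ) * z (n + j))) / (L : ℂ) := by
        intro n hn
        rw [Finset.mem_Icc] at hn
        have h4 : v (n : ℤ) = (starRingEnd ℂ) (loc z β L n) := by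
          rw [hv, if_pos (by constructor <;> [exact_mod_cast hn.1; exact_mod_cast hn.2])]
          rw [Int.toNat_natCast]
        rw [h4, ← Complex.ofReal_pow, ← Complex.normSq_eq_norm_sq, Complex.normSq_eq_conj_mul_self]
        have h5 : (starRingEnd ℂ) (loc z β L n) * loc z β L n =
            (starRingEnd ℂ) (loc z β L n) * ((∑ j ∈ range L, z (n + j) * ee (-(j * β))) / (L : ℂ)) :=
          rfl
        rw [h5, mul_div_assoc', Finset.mul_sum]
        congr 1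
        refine Finset.sum_congr rfl fun j _ => ?_
        ring
      rw [Finset.sum_congr rfl h3, ← Finset.sum_div, Finset.sum_comm]
      congr 1
      refine Finset.sum_congr rfl fun j _ => ?_
      rw [Finset.mul_sum]
      refine Finset.sum_congr rfl fun n _ => ?_
      congr 3
      ring
    have h6 : ∑ m ∈ Icc 1 x, F m * z m =
        (∑ j ∈ range L, ee (-(j * β)) * ∑ m ∈ Icc 1 x, v ((m : ℤ) - j) * z m) / (L : ℂ) := by
      have h7 : ∀ m ∈ Icc 1 x, F m * z m =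
          (∑ j ∈ range L, ee (-(j * β)) * (v ((m : ℤ) - j) * z m)) / (L : ℂ) := by
        intro m _
        rw [hF, div_mul_eq_mul_div, Finset.sum_mul]
        congr 1
        refine Finset.sum_congr rfl fun j _ => ?_
        ring
      rw [Finset.sum_congr rfl h7, ← Finset.sum_div, Finset.sum_comm]
      congr 1
      refine Finset.sum_congr rfl fun j _ => ?_
      rw [Finset.mul_sum]
    have h8 : ‖((∑ n ∈ Icc 1 x, ‖loc z β L n‖ ^ 2 : ℝ) : ℂ) - ∑ m ∈ Icc 1 x, F m * z m‖ ≤ L := by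
      rw [h2, h6, ← sub_div, ← Finset.sum_sub_distrib, norm_div, Complex.norm_natCast,
        div_le_iff₀ hL0]
      refine (norm_sum_le _ _).trans ?_
      calc ∑ j ∈ range L, ‖ee (-(j * β)) * ∑ n ∈ Icc 1 x, v ((n + j : ℕ) - (j : ℤ)) * z (n + j) -
            ee (-(j * β)) * ∑ m ∈ Icc 1 x, v ((m : ℤ) - j) * z m‖ ≤ ∑ _j ∈ range L, (L : ℝ) := by
            refine Finset.sum_le_sum fun j hj => ?_
            rw [Finset.mem_range] at hj
            rw [← mul_sub, norm_mul, ee_norm, one_mul]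
            have h9 := shift_le (fun m => v ((m : ℤ) - j) * z m) (fun m => by
              rw [norm_mul]
              exact mul_le_one₀ (hv1 _) (norm_nonneg _) (hz _)) j x (fun m hm => by
              show v ((m : ℤ) - j) * z m = 0
              rw [hv, if_neg (by omega), zero_mul])
            refine h9.trans ?_
            exact_mod_cast hj.le
        _ = L * L := by simp
    rw [h1]
    have h10 : (∑ n ∈ Icc 1 x, ‖loc z β L n‖ ^ 2 : ℝ) =
        ‖((∑ n ∈ Icc 1 x, ‖loc z β L n‖ ^ 2 : ℝ) : ℂ)‖ := by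
      rw [Complex.norm_real, Real.norm_eq_abs, abs_of_nonneg]
      exact Finset.sum_nonneg fun n _ => by positivity
    rw [h10]
    have h11 := norm_sub_norm_le ((∑ n ∈ Icc 1 x, ‖loc z β L n‖ ^ 2 : ℝ) : ℂ)
      (∑ m ∈ Icc 1 x, F m * z m)
    linarith

end Pool.Agent.Work.MP_2d9442_nt.AS
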