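import Pool.Agent.Work.MP_2d9442_nt.AS.Base

/-!
# Module SclW: the logarithmic weights are almost dilation invariant (M, Mathlib only)

`S = (Y, WY]`, `w N = 1/(N log W)` (and `w 0 = 0` automatically: division by zero).
* total mass: `∑_{N=Y+1}^{WY} 1/N ≤ ∫_Y^{WY} dt/t = log W` (or telescoping: `1/N ≤ log N - log(N-1)`,
  `Real.one_sub_inv_le_log_of_pos` applied to `N/(N-1)`).
* `dil`: let `1 ≤ P ≤ Pm`, `0 ≤ g ≤ 1`.  Group by `m = N / P`: `∑_{N∈S} g(N/P)/N = ∑_m g(m) s_m`,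
  `s_m = ∑_{N ∈ S, N/P = m} 1/N`.  If the whole block `[mP, mP+P)` lies in `S` then
  `1/(m+1) ≤ s_m ≤ 1/m`, always `s_m ≤ 1/m` for `m ≥ 1` (for `m = 0`: impossible if `Y ≥ Pm`).
  So `|∑ g(N/P)/N - ∑_{m ∈ S} g(m)/m| ≤ ∑_m |s_m - 1_{m∈S}/m|` is at most
  the sum over `m ∈ [Y/P, Y]` of `1/m` (`≤ log P + 2` or so), plus the sum over `m ∈ [WY/P, WY]` of `1/m`
  (`≤ log P + 2`), plus `∑_{m>Y} 1/(m(m+1)) ≤ 1`; in total at most `2 log Pm + 10`.
  Divide by `log W`: `W₀` with `(2 log Pm + 10)/log W₀ ≤ κ`.  `Y₀ = max Y Pm`, `+ 1`.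
An alternative: compare with integrals, or induct on ... (any bound `C(Pm)` independent of `W`, `Y`, `g` is
sufficient).
-/

set_option autoImplicit false

open Finset

namespace Pool.Agent.Work.MP_2d9442_nt.AS

/-- logarithmic weights -/
noncomputable def lw (W N : ℕ) : ℝ := 1 / (N * Real.log W)

private theorem sclW_blk (φ : ℕ → ℝ) {P : ℕ} (hP : 1 ≤ P) (K : ℕ) :
    ∑ N ∈ range (P * K), φ (N / P) = P * ∑ m ∈ range K, φ m := by
  induction K with
  | zero => simp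
  | succ K ih =>
    rw [Nat.mul_succ, Finset.sum_range_add, ih, Finset.sum_range_succ, mul_add]
    congr 1
    calc ∑ x ∈ range P, φ ((P * K + x) / P) = ∑ _x ∈ range P, φ K := by
          refine Finset.sum_congr rfl fun x hx => ?_
          rw [Nat.mul_add_div (by omega), Nat.div_eq_of_lt (Finset.mem_range.1 hx), Nat.add_zero]
      _ = P * φ K := by simp

private theorem sclW_one {φ : ℕ → ℝ} (h0 : ∀ m, 0 ≤ φ m) (h1 : ∀ m, φ m ≤ 1) {P : ℕ} (hP : 1 ≤ P)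
    (M : ℕ) :
    |(∑ N ∈ range M, φ (N / P)) / P - ∑ m ∈ range (M / P), φ m| ≤ 1 := by
  have hP0 : (0 : ℝ) < P := by exact_mod_cast hP
  have hM : M = P * (M / P) + M % P := (Nat.div_add_mod M P).symm
  have h2 : ∑ N ∈ range M, φ (N / P) =
      P * ∑ m ∈ range (M / P), φ m + ∑ x ∈ range (M % P), φ ((P * (M / P) + x) / P) := by
    conv_lhs => rw [hM]
    rw [Finset.sum_range_add, sclW_blk φ hP]
  have h3 : 0 ≤ ∑ x ∈ range (M % P), φ ((P * (M / P) + x) / P) :=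
    Finset.sum_nonneg fun _ _ => h0 _
  have h4 : ∑ x ∈ range (M % P), φ ((P * (M / P) + x) / P) ≤ P := by
    calc ∑ x ∈ range (M % P), φ ((P * (M / P) + x) / P) ≤ ∑ _x ∈ range (M % P), (1 : ℝ) :=
          Finset.sum_le_sum fun _ _ => h1 _
      _ = ((M % P : ℕ) : ℝ) := by simp
      _ ≤ P := by exact_mod_cast (Nat.mod_lt M (by omega)).le
  rw [h2, add_div, mul_div_assoc, mul_div_cancel₀]
  · rw [add_sub_cancel_left, abs_of_nonneg (by positivity), div_le_one hP0]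
    exact h4
  · exact hP0.ne'

private theorem sclW_two {φ : ℕ → ℝ} (h0 : ∀ m, 0 ≤ φ m) (h1 : ∀ m : ℕ, 1 ≤ m → φ m ≤ 1 / m)
    {P M : ℕ} (hP : 1 ≤ P) (hM : P ≤ M) :
    |∑ m ∈ range M, φ m - ∑ m ∈ range (M / P), φ m| ≤ 2 * P := by
  have hK : 1 ≤ M / P := (Nat.one_le_div_iff (by omega)).2 hM
  have hK0 : (0 : ℝ) < (M / P : ℕ) := by exact_mod_cast hK
  have hle : M / P ≤ M := Nat.div_le_self M P
  have h2 : ∑ m ∈ range M, φ m - ∑ m ∈ range (M / P), φ m = ∑ m ∈ Ico (M / P) M, φ m := by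
    rw [Finset.sum_Ico_eq_sub _ hle]
  rw [h2, abs_of_nonneg (Finset.sum_nonneg fun _ _ => h0 _)]
  have h3 : M ≤ 2 * P * (M / P) := by
    have h5 : M < P * (M / P) + P := by
      have := Nat.div_add_mod M P
      have := Nat.mod_lt M (show P > 0 by omega)
      omega
    have h6 : P ≤ P * (M / P) := Nat.le_mul_of_pos_right P hK
    nlinarith
  calc ∑ m ∈ Ico (M / P) M, φ m ≤ ∑ _m ∈ Ico (M / P) M, 1 / ((M / P : ℕ) : ℝ) := by
        refine Finset.sum_le_sum fun m hm => ?_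
        rw [Finset.mem_Ico] at hm
        refine (h1 m (by omega)).trans ?_
        exact one_div_le_one_div_of_le hK0 (by exact_mod_cast hm.1)
    _ = ((M - M / P : ℕ) : ℝ) * (1 / ((M / P : ℕ) : ℝ)) := by simp
    _ ≤ (M : ℝ) * (1 / ((M / P : ℕ) : ℝ)) := by
        refine mul_le_mul_of_nonneg_right ?_ (by positivity)
        exact_mod_cast Nat.sub_le M (M / P)
    _ ≤ 2 * P := by
        rw [mul_one_div, div_le_iff₀ hK0]
        exact_mod_cast h3

private theorem sclW_three {g : ℕ → ℝ} (hg : ∀ N, 0 ≤ g N ∧ g N ≤ 1) {P M : ℕ} (hP : 1 ≤ P)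
    (hM : P ≤ M) :
    |(∑ N ∈ range M, g (N / P) / ((N / P : ℕ) : ℝ)) / P - ∑ m ∈ range M, g m / (m : ℝ)| ≤
      1 + 2 * P := by
  have h0 : ∀ m : ℕ, 0 ≤ g m / (m : ℝ) := fun m => div_nonneg (hg m).1 (Nat.cast_nonneg m)
  have h1 : ∀ m : ℕ, 1 ≤ m → g m / (m : ℝ) ≤ 1 / m := fun m hm =>
    div_le_div_of_nonneg_right (hg m).2 (Nat.cast_nonneg m)
  have h2 : ∀ m : ℕ, g m / (m : ℝ) ≤ 1 := by
    intro m
    rcases Nat.eq_zero_or_pos m with hm | hm
    · subst hm; simp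
    · refine (h1 m hm).trans ?_
      rw [div_le_one (by exact_mod_cast hm)]
      exact_mod_cast hm
  have h3 := sclW_one (φ := fun m => g m / (m : ℝ)) h0 h2 hP M
  have h4 := sclW_two (φ := fun m => g m / (m : ℝ)) h0 h1 hP hM
  rw [abs_le] at h3 h4 ⊢
  constructor <;> linarith [h3.1, h3.2, h4.1, h4.2]

private theorem sclW_Ioc (f : ℕ → ℝ) {X M : ℕ} (h : X ≤ M) :
    ∑ N ∈ Ioc X M, f N = ∑ N ∈ range (M + 1), f N - ∑ N ∈ range (X + 1), f N := by
  have : Ioc X M = Ico (X + 1) (M + 1) := by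
    ext n
    simp only [Finset.mem_Ioc, Finset.mem_Ico]
    omega
  rw [this, Finset.sum_Ico_eq_sub _ (by omega)]

private theorem sclW_four {g : ℕ → ℝ} (hg : ∀ N, 0 ≤ g N ∧ g N ≤ 1) {P X M : ℕ} (hP : 1 ≤ P)
    (hX : P ≤ X) (hM : X ≤ M) :
    |∑ N ∈ Ioc X M, g (N / P) / (P * ((N / P : ℕ) : ℝ)) - ∑ m ∈ Ioc X M, g m / (m : ℝ)| ≤
      2 + 4 * P := by
  have h1 := sclW_three hg hP (show P ≤ X + 1 by omega)
  have h2 := sclW_three hg hP (show P ≤ M + 1 by omega)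
  have h3 : ∀ N : ℕ, g (N / P) / (P * ((N / P : ℕ) : ℝ)) = g (N / P) / ((N / P : ℕ) : ℝ) / P := by
    intro N
    rw [mul_comm, div_div]
  rw [sclW_Ioc _ hM, sclW_Ioc _ hM]
  simp_rw [h3]
  rw [← Finset.sum_div, ← Finset.sum_div]
  rw [abs_le] at h1 h2 ⊢
  constructor <;> linarith [h1.1, h1.2, h2.1, h2.2]

private theorem sclW_five {g : ℕ → ℝ} (hg : ∀ N, 0 ≤ g N ∧ g N ≤ 1) {P X M : ℕ} (hP : 1 ≤ P)
    (hX : P ≤ X) (hM : X ≤ M) :
    |∑ N ∈ Ioc X M, g (N / P) / (N : ℝ) - ∑ m ∈ Ioc X M, g m / (m : ℝ)| ≤ 4 + 8 * P := by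
  have h1 := sclW_four hg hP hX hM
  have h2 := sclW_four (g := fun _ => 1) (fun _ => ⟨zero_le_one, le_refl _⟩) hP hX hM
  have hP0 : (0 : ℝ) < P := by exact_mod_cast hP
  have h3 : |∑ N ∈ Ioc X M, g (N / P) / (P * ((N / P : ℕ) : ℝ)) -
      ∑ N ∈ Ioc X M, g (N / P) / (N : ℝ)| ≤ 2 + 4 * P := by
    rw [← Finset.sum_sub_distrib]
    refine (Finset.abs_sum_le_sum_abs _ _).trans ?_
    refine le_trans ?_ ((le_abs_self _).trans h2)
    rw [← Finset.sum_sub_distrib]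
    refine Finset.sum_le_sum fun N hN => ?_
    rw [Finset.mem_Ioc] at hN
    have hN0 : (0 : ℝ) < N := by
      have : 0 < N := by omega
      exact_mod_cast this
    have hm : 1 ≤ N / P := (Nat.one_le_div_iff (by omega)).2 (by omega)
    have hm0 : (0 : ℝ) < ((N / P : ℕ) : ℝ) := by exact_mod_cast hm
    have hle : (P : ℝ) * ((N / P : ℕ) : ℝ) ≤ N := by
      exact_mod_cast Nat.mul_div_le N P
    have h4 : 1 / (N : ℝ) ≤ 1 / (P * ((N / P : ℕ) : ℝ)) :=
      one_div_le_one_div_of_le (by positivity) hle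
    have h5 : g (N / P) / (P * ((N / P : ℕ) : ℝ)) - g (N / P) / (N : ℝ) =
        g (N / P) * (1 / (P * ((N / P : ℕ) : ℝ)) - 1 / (N : ℝ)) := by ring
    rw [h5, abs_of_nonneg (mul_nonneg (hg _).1 (by linarith))]
    calc g (N / P) * (1 / (P * ((N / P : ℕ) : ℝ)) - 1 / (N : ℝ))
        ≤ 1 * (1 / (P * ((N / P : ℕ) : ℝ)) - 1 / (N : ℝ)) :=
          mul_le_mul_of_nonneg_right (hg _).2 (by linarith)
      _ = _ := one_mul _
  rw [abs_le] at h1 h3 ⊢
  constructor <;> linarith [h1.1, h1.2, h3.1, h3.2]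

private theorem sclW_tot {X M : ℕ} (hX : 1 ≤ X) (hM : X ≤ M) :
    ∑ N ∈ Ioc X M, 1 / (N : ℝ) ≤ Real.log M - Real.log X := by
  induction M, hM using Nat.le_induction with
  | base => simp
  | succ M hM ih =>
    have h1 : Ioc X (M + 1) = insert (M + 1) (Ioc X M) := by
      ext n
      simp only [Finset.mem_Ioc, Finset.mem_insert]
      omega
    rw [h1, Finset.sum_insert (by simp)]
    have hM0 : (0 : ℝ) < M := by
      have : 0 < M := by omega
      exact_mod_cast this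
    have h2 : 1 / ((M + 1 : ℕ) : ℝ) ≤ Real.log ((M + 1 : ℕ) : ℝ) - Real.log M := by
      rw [← Real.log_div (by positivity) (by positivity)]
      have := Real.one_sub_inv_le_log_of_pos (x := ((M + 1 : ℕ) : ℝ) / M) (by positivity)
      refine le_trans (le_of_eq ?_) this
      push_cast
      field_simp
      ring
    linarith

theorem scl_log (Y Pm : ℕ) {κ : ℝ} (hκ : 0 < κ) : ∃ W0 Y0 : ℕ, 2 ≤ W0 ∧ 1 ≤ Y0 ∧ Y ≤ Y0 ∧
    ∀ W X : ℕ, W0 ≤ W → Y0 ≤ X → Scl (Ioc X (W * X)) (lw W) Y Pm κ := by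
  refine ⟨⌈Real.exp ((4 + 8 * Pm) / κ)⌉₊ + 2, Y + Pm + 1, by omega, by omega, by omega, ?_⟩
  intro W X hW hX
  have hW2 : 2 ≤ W := by omega
  have hW0 : (0 : ℝ) < W := by
    have : 0 < W := by omega
    exact_mod_cast this
  have hlogW : 0 < Real.log W := Real.log_pos (by exact_mod_cast hW2)
  have hX0 : (0 : ℝ) < X := by
    have : 0 < X := by omega
    exact_mod_cast this
  have hXW : X ≤ W * X := Nat.le_mul_of_pos_left X (by omega)
  have hlog : (4 + 8 * Pm) / κ ≤ Real.log W := by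
    rw [Real.le_log_iff_exp_le hW0]
    refine (Nat.le_ceil _).trans ?_
    have : ⌈Real.exp ((4 + 8 * Pm) / κ)⌉₊ ≤ W := by omega
    exact_mod_cast this
  refine ⟨⟨?_, ?_, ?_⟩, ?_⟩
  · intro N
    unfold lw
    positivity
  · have h1 : ∑ N ∈ Ioc X (W * X), lw W N = (∑ N ∈ Ioc X (W * X), 1 / (N : ℝ)) / Real.log W := by
      rw [Finset.sum_div]
      refine Finset.sum_congr rfl fun N _ => ?_
      unfold lw
      rw [div_div]
    rw [h1, div_le_one hlogW]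
    refine (sclW_tot (by omega) hXW).trans (le_of_eq ?_)
    push_cast
    rw [Real.log_mul hW0.ne' hX0.ne']
    ring
  · intro N hN
    rw [Finset.mem_Ioc] at hN
    omega
  · intro P hP hPm g hg
    have h1 := sclW_five hg hP (show P ≤ X by omega) hXW
    have h2 : ∀ f : ℕ → ℝ, Av (Ioc X (W * X)) (lw W) f =
        (∑ N ∈ Ioc X (W * X), f N / (N : ℝ)) / Real.log W := by
      intro f
      unfold Av
      rw [Finset.sum_div]
      refine Finset.sum_congr rfl fun N _ => ?_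
      unfold lw
      rw [div_div, one_div, inv_mul_eq_div]
    rw [h2, h2, ← sub_div, abs_div, abs_of_pos hlogW, div_le_iff₀ hlogW]
    refine h1.trans ?_
    have h3 : (4 + 8 * (Pm : ℝ)) ≤ κ * Real.log W := by
      rw [div_le_iff₀ hκ] at hlog
      linarith
    have h4 : (P : ℝ) ≤ Pm := by exact_mod_cast hPm
    linarith

end Pool.Agent.Work.MP_2d9442_nt.AS
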