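import Pool.Agent.Work.MP_2d9442_nt.AS.Fin
import Pool.Agent.Work.MP_2d9442_nt.AS.SclW

/-!
# Module Main: the two forms of the theorem

`main_log`: `(Y, Pm, κ)` from `fin K ε`, `(W₀, Y₀)` from `scl_log Y Pm κ`; the average with the weights
`1/(N log W)` is `(1/log W) ∑ 1/N`.

`main_omega`: diagonal argument.
-/

set_option autoImplicit false

open Finset

namespace Pool.Agent.Work.MP_2d9442_nt.AS

open Classical in
theorem main_log (K : ℝ) {ε : ℝ} (hε : 0 < ε) : ∃ W0 Y0 : ℕ, 2 ≤ W0 ∧ 1 ≤ Y0 ∧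
    ∀ W Y : ℕ, W0 ≤ W → Y0 ≤ Y → ∀ z : ℕ → ℂ, UM z →
      ∑ N ∈ (Ioc Y (W * Y)).filter (fun N => AN z N ≤ K), 1 / (N : ℝ) ≤ ε * Real.log W := by
  obtain ⟨Y, Pm, κ, hκ, hfin⟩ := fin K hε
  obtain ⟨W0, Y0, hW0, hY0, hYY, hscl⟩ := scl_log Y Pm hκ
  refine ⟨W0, Y0, hW0, hY0, ?_⟩
  intro W X hW hX z hz
  have h1 := hfin _ _ (hscl W X hW hX) z hz
  have hWR : (2 : ℝ) ≤ W := by exact_mod_cast hW0.trans hW
  have hlog : 0 < Real.log W := Real.log_pos (by linarith)
  have h2 : Av (Ioc X (W * X)) (lw W) (fun N => ind (AN z N ≤ K)) =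
      (∑ N ∈ (Ioc X (W * X)).filter (fun N => AN z N ≤ K), 1 / (N : ℝ)) / Real.log W := by
    unfold Av
    rw [Finset.sum_filter, Finset.sum_div]
    refine Finset.sum_congr rfl fun N _ => ?_
    unfold lw
    beta_reduce
    by_cases h : AN z N ≤ K
    · rw [ind_of h, if_pos h, mul_one, div_div]
    · rw [ind_not h, if_neg h, mul_zero, zero_div]
  rw [h2, div_le_iff₀ hlog] at h1
  exact h1

/-- the harmonic sum -/
private theorem harm (n : ℕ) : ∑ N ∈ Icc 1 n, 1 / (N : ℝ) ≤ 1 + Real.log n := by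
  have h := harmonic_le_one_add_log n
  rw [harmonic_eq_sum_Icc] at h
  push_cast at h
  simpa [one_div] using h

open Classical in
private theorem om_bd (k : ℕ) (hk : 1 ≤ k) : ∃ X0 : ℕ, ∀ X : ℕ, X0 ≤ X → ∀ z : ℕ → ℂ, UM z →
    ∑ N ∈ (Icc 1 X).filter (fun N => AN z N ≤ k), 1 / (N : ℝ) ≤ 3 / k * Real.log X := by
  have hk0 : (0 : ℝ) < k := by exact_mod_cast hk
  obtain ⟨W0, Y0, hW0, hY0, h⟩ := main_log (k : ℝ) (ε := 1 / k) (by positivity)
  set Y := Y0 + 1 with hY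
  have hY2 : 2 ≤ Y := by omega
  have hYR : (2 : ℝ) ≤ Y := by exact_mod_cast hY2
  -- X0
  set X0 : ℕ := W0 * Y + 2 * Y + ⌈Real.exp (k * (1 + Real.log Y))⌉₊ with hX0
  refine ⟨X0, ?_⟩
  intro X hX z hz
  have hX1 : W0 * Y ≤ X := by omega
  have hX2 : 2 * Y ≤ X := by omega
  have hX3 : Real.exp (k * (1 + Real.log Y)) ≤ X :=
    (Nat.le_ceil _).trans (by exact_mod_cast (by omega : ⌈Real.exp (k * (1 + Real.log Y))⌉₊ ≤ X))
  have hXR : (0 : ℝ) < X := lt_of_lt_of_le (Real.exp_pos _) hX3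
  have hlogX : k * (1 + Real.log Y) ≤ Real.log X := by
    rw [Real.le_log_iff_exp_le hXR]
    exact hX3
  have hYpos : 0 < Y := by omega
  set W := X / Y + 1 with hW
  have hW1 : W0 ≤ W := by
    have : W0 ≤ X / Y := (Nat.le_div_iff_mul_le hYpos).2 hX1
    omega
  have hXW : X ≤ W * Y := by
    have := Nat.lt_div_mul_add (a := X) hYpos
    have h2 : W * Y = X / Y * Y + Y := by rw [hW]; ring
    omega
  have hWX : W ≤ X := by
    have h1 : X / Y ≤ X / 2 := Nat.div_le_div_left hY2 (by norm_num)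
    omega
  have hsub : (Icc 1 X).filter (fun N => AN z N ≤ k) ⊆
      (Icc 1 Y) ∪ (Ioc Y (W * Y)).filter (fun N => AN z N ≤ k) := by
    intro N hN
    rw [Finset.mem_filter, Finset.mem_Icc] at hN
    rw [Finset.mem_union, Finset.mem_filter, Finset.mem_Icc, Finset.mem_Ioc]
    by_cases hNY : N ≤ Y
    · exact Or.inl ⟨hN.1.1, hNY⟩
    · exact Or.inr ⟨⟨by omega, hN.1.2.trans hXW⟩, hN.2⟩
  have h1 : ∑ N ∈ (Icc 1 X).filter (fun N => AN z N ≤ k), 1 / (N : ℝ) ≤
      ∑ N ∈ Icc 1 Y, 1 / (N : ℝ) +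
        ∑ N ∈ (Ioc Y (W * Y)).filter (fun N => AN z N ≤ k), 1 / (N : ℝ) := by
    refine (Finset.sum_le_sum_of_subset_of_nonneg hsub fun N _ _ => by positivity).trans ?_
    have h0 := Finset.sum_union_inter (s₁ := Icc 1 Y)
      (s₂ := (Ioc Y (W * Y)).filter (fun N => AN z N ≤ k)) (f := fun N : ℕ => 1 / (N : ℝ))
    have h01 : 0 ≤ ∑ N ∈ (Icc 1 Y) ∩ (Ioc Y (W * Y)).filter (fun N => AN z N ≤ k), 1 / (N : ℝ) :=
      Finset.sum_nonneg fun N _ => by positivity
    linarith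
  have h2 := h W Y hW1 (by omega) z hz
  have h3 := harm Y
  have hlogW : Real.log W ≤ Real.log X := by
    refine Real.log_le_log ?_ (by exact_mod_cast hWX)
    have : 0 < W := by omega
    exact_mod_cast this
  have h4 : 1 / (k : ℝ) * Real.log W ≤ 1 / k * Real.log X :=
    mul_le_mul_of_nonneg_left hlogW (by positivity)
  have h5 : 1 + Real.log Y ≤ 1 / k * Real.log X := by
    rw [one_div, inv_mul_eq_div, le_div_iff₀ hk0]
    linarith
  have h6 : 0 ≤ 1 / (k : ℝ) * Real.log X := by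
    have : 0 ≤ Real.log Y := Real.log_nonneg (by linarith)
    linarith
  have h7 : 3 / (k : ℝ) * Real.log X = 3 * (1 / k * Real.log X) := by ring
  rw [h7]
  linarith

open Classical in
theorem main_omega : ∃ ω : ℕ → ℝ, Filter.Tendsto ω Filter.atTop Filter.atTop ∧
    ∀ ε : ℝ, 0 < ε → ∃ X0 : ℕ, ∀ X : ℕ, X0 ≤ X → ∀ z : ℕ → ℂ, UM z →
      ∑ N ∈ (Icc 1 X).filter (fun N => AN z N < ω N), 1 / (N : ℝ) ≤ ε * Real.log X := by
  choose X0 hX0 using fun k : ℕ => om_bd (k + 1) (by omega)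
  -- ω N = number of k < N with all X0 j ≤ N for j ≤ k
  set A : ℕ → Finset ℕ := fun N => (range N).filter (fun k => ∀ j ≤ k, X0 j ≤ N) with hA
  set om : ℕ → ℕ := fun N => (A N).card with hom
  have hmono : Monotone om := by
    intro N M hNM
    refine Finset.card_le_card fun k hk => ?_
    rw [hA, Finset.mem_filter, Finset.mem_range] at hk ⊢
    exact ⟨lt_of_lt_of_le hk.1 hNM, fun j hj => (hk.2 j hj).trans hNM⟩
  have htend : Filter.Tendsto om Filter.atTop Filter.atTop := by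
    refine Filter.tendsto_atTop_atTop_of_monotone hmono fun b => ?_
    refine ⟨b + ∑ j ∈ range b, X0 j, ?_⟩
    have hsub : range b ⊆ A (b + ∑ j ∈ range b, X0 j) := by
      intro k hk
      rw [Finset.mem_range] at hk
      rw [hA, Finset.mem_filter, Finset.mem_range]
      refine ⟨by omega, fun j hj => ?_⟩
      have : X0 j ≤ ∑ j ∈ range b, X0 j :=
        Finset.single_le_sum (f := X0) (fun _ _ => Nat.zero_le _) (Finset.mem_range.2 (by omega))
      omega
    have := Finset.card_le_card hsub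
    rw [Finset.card_range] at this
    exact this
  -- if om X = k + 1 then X0 k ≤ X
  have hkey : ∀ X k : ℕ, om X = k + 1 → X0 k ≤ X := by
    intro X k hk
    by_contra hcon
    have hsub : A X ⊆ range k := by
      intro j hj
      rw [hA, Finset.mem_filter, Finset.mem_range] at hj
      rw [Finset.mem_range]
      by_contra hjk
      exact hcon (hj.2 k (by omega))
    have := Finset.card_le_card hsub
    rw [Finset.card_range] at this
    have h2 : (A X).card = k + 1 := hk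
    omega
  refine ⟨fun N => (om N : ℝ), tendsto_natCast_atTop_atTop.comp htend, ?_⟩
  intro ε hε
  obtain ⟨X1, hX1⟩ := (Filter.tendsto_atTop_atTop.1 htend) (⌈3 / ε⌉₊ + 1)
  refine ⟨X1 + 1, ?_⟩
  intro X hX z hz
  have h1 := hX1 X (by omega)
  obtain ⟨k, hk⟩ : ∃ k, om X = k + 1 := ⟨om X - 1, by omega⟩
  have h2 := hX0 k X (hkey X k hk) z hz
  have hk0 : (0 : ℝ) < ((k + 1 : ℕ) : ℝ) := by positivity
  have h3 : 3 / ((k + 1 : ℕ) : ℝ) ≤ ε := by
    rw [div_le_iff₀ hk0]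
    have h4 : 3 / ε ≤ ((k + 1 : ℕ) : ℝ) := by
      refine (Nat.le_ceil _).trans ?_
      exact_mod_cast (by omega : ⌈3 / ε⌉₊ ≤ k + 1)
    rw [div_le_iff₀ hε] at h4
    linarith
  have hXR : (1 : ℝ) ≤ X := by
    have : 1 ≤ X := by omega
    exact_mod_cast this
  have hlog : 0 ≤ Real.log X := Real.log_nonneg hXR
  refine le_trans ?_ (h2.trans (mul_le_mul_of_nonneg_right h3 hlog))
  refine Finset.sum_le_sum_of_subset_of_nonneg ?_ fun N _ _ => by positivity
  intro N hN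
  rw [Finset.mem_filter] at hN ⊢
  refine ⟨hN.1, ?_⟩
  have h5 : om N ≤ om X := hmono (Finset.mem_Icc.1 hN.1).2
  have h6 : (om N : ℝ) ≤ ((k + 1 : ℕ) : ℝ) := by
    rw [← hk]
    exact_mod_cast h5
  exact (hN.2.trans_le h6).le

end Pool.Agent.Work.MP_2d9442_nt.AS
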