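import Pool.Agent.Work.MP_2d9442_nt.AS.Base

/-!
# Module Per: multiplication by a large prime permutes the reduced fractions (S-M)

`FD D₀` is the set of pairs `(D, b)`, `1 ≤ D ≤ D₀`, `b < D`, `b` coprime to `D` (for `D = 1`: `b = 0`).
For a prime `p > D₀` (so `p` is coprime to all `D ≤ D₀`) the map `(D, b) ↦ (D, pb mod D)` is a bijection
of `FD D₀` onto itself (injective because `p` is invertible modulo `D`; an injective self-map of a finite
set: `Finset.sum_bij` with `Finset.surj_on_of_inj_on_of_card_le`, or `Finset.sum_equiv`/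
`Finset.sum_nbij` with the inverse given by an inverse of `p` modulo `D`), and
`en z (p (b/D)) = en z ((pb)/D) = en z ((pb mod D)/D)` (`en_modEq`).
`mem_FD_one`: `(D, 1 % D) ∈ FD D₀`.  `card_FD`: the pairs lie in `Icc 1 D₀ ×ˢ range D₀`.
-/

set_option autoImplicit false

open Finset

namespace Pool.Agent.Work.MP_2d9442_nt.AS

theorem mem_FD {D0 D b : ℕ} : (D, b) ∈ FD D0 ↔ 1 ≤ D ∧ D ≤ D0 ∧ b < D ∧ b.Coprime D := by
  unfold FD
  rw [Finset.mem_filter, Finset.mem_product, Finset.mem_Icc, Finset.mem_range]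
  constructor
  · rintro ⟨⟨⟨h1, h2⟩, -⟩, h3, h4⟩
    exact ⟨h1, h2, h3, h4⟩
  · rintro ⟨h1, h2, h3, h4⟩
    exact ⟨⟨⟨h1, h2⟩, h3.trans_le h2⟩, h3, h4⟩

theorem mem_FD_one {D0 D : ℕ} (h1 : 1 ≤ D) (h2 : D ≤ D0) : (D, 1 % D) ∈ FD D0 := by
  rw [mem_FD]
  refine ⟨h1, h2, Nat.mod_lt _ h1, ?_⟩
  rcases h1.eq_or_lt with h | h
  · subst h
    exact Nat.coprime_one_right _
  · rw [Nat.mod_eq_of_lt h]
    exact Nat.coprime_one_left _

theorem card_FD (D0 : ℕ) : (FD D0).card ≤ D0 ^ 2 := by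
  unfold FD
  refine (Finset.card_filter_le _ _).trans ?_
  rw [Finset.card_product, Nat.card_Icc, Finset.card_range, pow_two]
  exact le_of_eq (by simp)

theorem EF_perm (z : ℕ → ℂ) {D0 p : ℕ} (hp : p.Prime) (hpD : D0 < p) (J N : ℕ) :
    ∑ s ∈ FD D0, en z ((p : ℝ) * ((s.2 : ℝ) / (s.1 : ℝ))) J N = EF z D0 J N := by
  classical
  let f : ℕ × ℕ → ℕ × ℕ := fun s => (s.1, (p * s.2) % s.1)
  have hcop : ∀ D : ℕ, 1 ≤ D → D ≤ D0 → p.Coprime D := by
    intro D h1 h2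
    refine (Nat.Prime.coprime_iff_not_dvd hp).2 fun hdvd => ?_
    have := Nat.le_of_dvd h1 hdvd
    omega
  have hmaps : ∀ s ∈ FD D0, f s ∈ FD D0 := by
    rintro ⟨D, b⟩ hs
    obtain ⟨h1, h2, h3, h4⟩ := mem_FD.1 hs
    refine mem_FD.2 ⟨h1, h2, Nat.mod_lt _ h1, ?_⟩
    have h5 : (p * b).Coprime D := Nat.Coprime.mul_left (hcop D h1 h2) h4
    change ((p * b) % D).gcd D = 1
    rw [← Nat.gcd_rec, Nat.gcd_comm]
    exact h5
  have hinj : Set.InjOn f (FD D0 : Set (ℕ × ℕ)) := by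
    rintro ⟨D, b⟩ hs ⟨D', b'⟩ hs' h
    obtain ⟨h1, h2, h3, h4⟩ := mem_FD.1 (Finset.mem_coe.1 hs)
    obtain ⟨h1', h2', h3', h4'⟩ := mem_FD.1 (Finset.mem_coe.1 hs')
    simp only [f, Prod.mk.injEq] at h
    obtain ⟨rfl, h⟩ := h
    have h5 : p * b ≡ p * b' [MOD D] := h
    have h6 : b ≡ b' [MOD D] := Nat.ModEq.cancel_left_of_coprime
      (by rw [Nat.gcd_comm]; exact hcop D h1 h2) h5
    have h7 : b = b' := by
      have := h6
      unfold Nat.ModEq at this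
      rwa [Nat.mod_eq_of_lt h3, Nat.mod_eq_of_lt h3'] at this
    rw [h7]
  have himg : (FD D0).image f = FD D0 := by
    refine Finset.eq_of_subset_of_card_le ?_ ?_
    · intro s hs
      obtain ⟨t, ht, rfl⟩ := Finset.mem_image.1 hs
      exact hmaps t ht
    · rw [Finset.card_image_of_injOn hinj]
  unfold EF
  conv_rhs => rw [← himg]
  rw [Finset.sum_image hinj]
  refine Finset.sum_congr rfl ?_
  rintro ⟨D, b⟩ hs
  obtain ⟨h1, h2, h3, h4⟩ := mem_FD.1 hs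
  simp only [f]
  have e : (p : ℝ) * ((b : ℝ) / (D : ℝ)) = ((p * b : ℕ) : ℝ) / D := by
    push_cast
    ring
  rw [e]
  exact en_modEq z h1 (Nat.mod_modEq _ _).symm J N

end Pool.Agent.Work.MP_2d9442_nt.AS
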