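import Pool.Agent.Work.MP_2d9442_nt.AS.EntE
import Pool.Agent.Work.MP_2d9442_nt.AS.EntS
import Pool.Agent.Work.MP_2d9442_nt.AS.Cyd
import Pool.Agent.Work.MP_2d9442_nt.AS.Dsc
import Pool.Agent.Work.MP_2d9442_nt.AS.Cyc

/-!
# Module PerX: independence at most scales `P_i` of a chain, for one scale `x` (M-L)

Constants: `η' = η²/64`, `η₀ = η/64`; `(m, d, r)` from `dsc` with `η₀` (alphabet `Fin m`, `m ≥ 1`);
`C' = C + 2`; `lam = max 2 (4/η')`, `T = 2C'/η' · log m + 1`.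
Given the chain and `n`: `Qt = ∏_{i<n} ∏_{p ∈ pr (P i)} p` (any common multiple of the
`Q_i = ∏_{p ∈ pr (P i)} p`, `i < n`, which is positive), `H_i = C P_i`, and
`x₀` so large that `x₀ ≥ Qt` and `(4 H_i + 3·2P_i + 4 Qt)/x₀ ≤ η/16` for `i < n`.

For `x ≥ x₀` put `M = Qt (x/Qt)`, so `0 < M ≤ x`, `x - M < Qt`, `Q_i ∣ M`; `f ω = d (z (ω.val+1))`,
`I_i = mi (win f (C' P_i)) (res Q_i)`, `m_{i,p} = mi (win f (C' P_i)) (res p)`,
`D i p = min 2 (2√(m_{i,p}) + 4η₀ + (4H_i + 3p + 4Qt)/x)`.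
`bad` = set of `i < n` with `η' P_i/log P_i < I_i`.

* first claim: `chain` with `C'`, `η'` (`4 log P_i/η' ≤ lam log P_i ≤ k_i`): the sum over `bad` of
  `1/log P_i` is `≤ 2C'/η' log m ≤ T`.
* `Ind z x p (C P_i) (D i p)`: for `Stat (C P_i) Φ`: trivially the difference is `≤ 2`
  (`‖avc‖ ≤ 1`, and `‖avd‖ ≤ 1` because there are `≤ x/p` multiples of `p`); and by `cyc_avd`, `cyd`
  (`H = C P_i`, `H' = C' P_i ≥ H + p` since `p ≤ 2P_i`; `G = Gd Φ r H` is bounded by `1`), `cyc_avc`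
  it is `≤ 2√m_{i,p} + 4η₀ + (4H + 3p + 4(x-M))/x`.
* for `i ∉ bad`, `i < n`: Cauchy-Schwarz and `mi_sum`:
  `∑_p 2√m_{i,p} ≤ 2√(|pr P_i| ∑_p m_{i,p}) ≤ 2√(|pr P_i| I_i) ≤ 2√(2 (P_i/log P_i) η' P_i/log P_i)
  = 2√(2η') P_i/log P_i = (2√2/8) η P_i/log P_i` (`card_pr`); the other terms:
  `|pr P_i| (4η₀ + η/16) ≤ 2 (η/16 + η/16) P_i/log P_i`.  Total `≤ (0.354 + 0.25) η P_i/log P_i`.
* always: `∑_p D i p ≤ 2 |pr P_i| ≤ 4 P_i/log P_i`.
-/

set_option autoImplicit false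

open Finset

namespace Pool.Agent.Work.MP_2d9442_nt.AS

private theorem perx_avc {x : ℕ} {g : ℕ → ℂ} (hg : ∀ n, ‖g n‖ ≤ 1) : ‖avc x g‖ ≤ 1 := by
  unfold avc
  rw [norm_div, Complex.norm_natCast]
  refine div_le_one_of_le₀ ?_ (Nat.cast_nonneg _)
  refine (norm_sum_le _ _).trans ?_
  calc ∑ n ∈ Icc 1 x, ‖g n‖ ≤ ∑ _n ∈ Icc 1 x, (1 : ℝ) := Finset.sum_le_sum fun n _ => hg n
    _ = x := by simp

private theorem perx_avd {p x : ℕ} {g : ℕ → ℂ} (hg : ∀ n, ‖g n‖ ≤ 1) :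
    ‖avd p x g‖ ≤ 1 := by
  unfold avd
  rw [norm_div, norm_mul, Complex.norm_natCast, Complex.norm_natCast]
  refine div_le_one_of_le₀ ?_ (Nat.cast_nonneg _)
  have h1 : ‖∑ n ∈ (Icc 1 x).filter (fun n => p ∣ n), g n‖ ≤ ((x / p : ℕ) : ℝ) := by
    refine (norm_sum_le _ _).trans ?_
    calc ∑ n ∈ (Icc 1 x).filter (fun n => p ∣ n), ‖g n‖
        ≤ ∑ _n ∈ (Icc 1 x).filter (fun n => p ∣ n), (1 : ℝ) := Finset.sum_le_sum fun n _ => hg n
      _ = ((x / p : ℕ) : ℝ) := by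
        have e1 : Icc 1 x = Ioc 0 x := rfl
        rw [Finset.sum_const, e1, Nat.Ioc_filter_dvd_card_eq_div, nsmul_eq_mul, mul_one]
  calc (p : ℝ) * ‖∑ n ∈ (Icc 1 x).filter (fun n => p ∣ n), g n‖
      ≤ p * ((x / p : ℕ) : ℝ) := mul_le_mul_of_nonneg_left h1 (Nat.cast_nonneg p)
    _ ≤ x := by exact_mod_cast Nat.mul_div_le x p

theorem perx {η : ℝ} (hη : 0 < η) (hη1 : η ≤ 1) {C : ℕ} (hC : 1 ≤ C) :
    ∃ lam T : ℝ, 2 ≤ lam ∧ 0 < T ∧ ∀ P k : ℕ → ℕ, (∀ i, 3 ≤ P i) →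
      (∀ i, P (i + 1) = k i * P i) → (∀ i, lam * Real.log (P i) ≤ k i) →
      ∀ n : ℕ, ∃ x0 : ℕ, ∀ x : ℕ, x0 ≤ x → ∀ z : ℕ → ℂ, (∀ n, ‖z n‖ ≤ 1) →
        ∃ (D : ℕ → ℕ → ℝ) (bad : Finset ℕ),
          (∑ i ∈ (range n).filter (fun i => i ∈ bad), 1 / Real.log (P i) ≤ T) ∧
          (∀ i < n, ∀ p ∈ pr (P i), 0 ≤ D i p ∧ Ind z x p (C * P i) (D i p)) ∧
          (∀ i < n, i ∉ bad → ∑ p ∈ pr (P i), D i p ≤ η * (P i / Real.log (P i))) ∧
          (∀ i < n, ∑ p ∈ pr (P i), D i p ≤ 4 * (P i / Real.log (P i))) := by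
  classical
  obtain ⟨m, d, r, hr, hd⟩ := dsc (show 0 < η / 64 by positivity)
  set η' : ℝ := η ^ 2 / 64 with hη'
  have hη'pos : 0 < η' := by positivity
  have hm : (1 : ℝ) ≤ m := by
    have : 0 < m := (d 0).pos
    exact_mod_cast this
  have hlm : 0 ≤ Real.log m := Real.log_nonneg hm
  refine ⟨max 2 (4 / η'), 2 * ((C + 2 : ℕ) : ℝ) / η' * Real.log m + 1, le_max_left _ _, by
    positivity, ?_⟩
  intro P k hP hrec hlam n
  set Qi : ℕ → ℕ := fun i => ∏ p ∈ pr (P i), p with hQi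
  have hQipos : ∀ i, 0 < Qi i := fun i =>
    Finset.prod_pos fun p hp => (mem_pr.1 hp).2.pos
  set Qt : ℕ := ∏ i ∈ range n, Qi i with hQt
  have hQtpos : 0 < Qt := Finset.prod_pos fun i _ => hQipos i
  have hQdvd : ∀ i < n, Qi i ∣ Qt := fun i hi =>
    Finset.dvd_prod_of_mem Qi (Finset.mem_range.2 hi)
  set Bd : ℝ := ∑ i ∈ range n, (4 * (C * (P i : ℝ)) + 6 * P i) + 4 * Qt with hBd
  refine ⟨⌈16 / η * Bd⌉₊ + Qt, fun x hx z hz => ?_⟩
  have hlog : ∀ i, 0 < Real.log (P i) := by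
    intro i
    have := hP i
    exact Real.log_pos (by exact_mod_cast (by omega : 1 < P i))
  have hPpos : ∀ i, (0 : ℝ) < P i := by
    intro i
    have := hP i
    exact_mod_cast (by omega : 0 < P i)
  have hxQ : Qt ≤ x := by omega
  have hxpos : (0 : ℝ) < x := by exact_mod_cast (by omega : 0 < x)
  have hxB : Bd / x ≤ η / 16 := by
    have h1 : 16 / η * Bd ≤ x := by
      refine (Nat.le_ceil _).trans ?_
      exact_mod_cast (by omega : ⌈16 / η * Bd⌉₊ ≤ x)
    rw [div_le_iff₀ hxpos]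
    rw [div_mul_eq_mul_div, div_le_iff₀ hη] at h1
    linarith
  set M : ℕ := Qt * (x / Qt) with hM
  have hMpos : 0 < M := Nat.mul_pos hQtpos (Nat.div_pos hxQ hQtpos)
  have hMx : M ≤ x := Nat.mul_div_le x Qt
  have hMx' : (x : ℝ) - M ≤ Qt := by
    have h1 := Nat.div_add_mod x Qt
    have h2 := Nat.mod_lt x hQtpos
    have h3 : x ≤ M + Qt := by omega
    have h4 : (x : ℝ) ≤ M + Qt := by exact_mod_cast h3
    linarith
  have hNe : NeZero M := ⟨hMpos.ne'⟩
  have hQM : ∀ i < n, Qi i ∣ M := fun i hi => (hQdvd i hi).trans (Dvd.intro _ rfl)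
  set f : ZMod M → Fin m := fun ω => d (z (ω.val + 1)) with hf
  set C' : ℕ := C + 2 with hC'
  set I : ℕ → ℝ := fun i => mi (win f (C' * P i)) (res (M := M) (Qi i)) with hI
  set mp : ℕ → ℕ → ℝ := fun i p => mi (win f (C' * P i)) (res (M := M) p) with hmp
  have hmp0 : ∀ i p, 0 ≤ mp i p := fun i p => mi_nonneg _ _
  set D : ℕ → ℕ → ℝ := fun i p => min 2 (2 * √(mp i p) + 4 * (η / 64) +
    (4 * (C * (P i : ℝ)) + 3 * p + 4 * Qt) / x) with hD
  refine ⟨D, (range n).filter (fun i => η' * (P i / Real.log (P i)) < I i), ?_, ?_, ?_, ?_⟩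
  · have h1 := chain f (C := C') (by omega) hη'pos P k n hP hrec (fun i => by
      refine le_trans ?_ (hlam i)
      have h2 : 4 / η' ≤ max 2 (4 / η') := le_max_right _ _
      calc 4 * Real.log (P i) / η' = 4 / η' * Real.log (P i) := by ring
        _ ≤ max 2 (4 / η') * Real.log (P i) := mul_le_mul_of_nonneg_right h2 (hlog i).le) hQM
    rw [Fintype.card_fin] at h1
    have h2 : ∑ i ∈ (range n).filter (fun i => i ∈
        (range n).filter (fun i => η' * (P i / Real.log (P i)) < I i)), 1 / Real.log (P i) =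
        ∑ i ∈ range n, ind (η' * (P i / Real.log (P i)) <
          mi (win f (C' * P i)) (res (M := M) (∏ p ∈ pr (P i), p))) / Real.log (P i) := by
      rw [Finset.sum_filter]
      refine Finset.sum_congr rfl fun i hi => ?_
      by_cases hc : η' * (P i / Real.log (P i)) < I i
      · rw [if_pos (Finset.mem_filter.2 ⟨hi, hc⟩)]
        have : ind (η' * (P i / Real.log (P i)) <
          mi (win f (C' * P i)) (res (M := M) (∏ p ∈ pr (P i), p))) = 1 := ind_of hc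
        rw [this]
      · have hnm : ¬ (i ∈ (range n).filter (fun i => η' * (P i / Real.log (P i)) < I i)) :=
          fun h => hc (Finset.mem_filter.1 h).2
        rw [if_neg hnm]
        have : ind (η' * (P i / Real.log (P i)) <
          mi (win f (C' * P i)) (res (M := M) (∏ p ∈ pr (P i), p))) = 0 := ind_not hc
        rw [this, zero_div]
    rw [h2]
    linarith
  · intro i hi p hp
    have hpp := mem_pr.1 hp
    have hp1 : 1 ≤ p := hpp.2.one_le
    have hpM : p ∣ M := (Finset.dvd_prod_of_mem (fun q : ℕ => q) hp).trans (hQM i hi)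
    refine ⟨le_min (by norm_num) (by positivity), ?_⟩
    intro Φ hΦ
    have hv : ∀ n, ‖Φ (fun i => z (n + i))‖ ≤ 1 := fun n => hΦ.bd _ fun i => hz _
    refine le_min ?_ ?_
    · refine (norm_sub_le _ _).trans ?_
      have h1 := perx_avd (p := p) (x := x) hv
      have h2 := perx_avc (x := x) hv
      linarith
    · have h1 := cyc_avd hz (by positivity : (0 : ℝ) ≤ η / 64) d r hr hd hMx hp1 hpM hΦ
      have h2 := cyc_avc hz (by positivity : (0 : ℝ) ≤ η / 64) d r hr hd hMx hΦ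
      have hH : C * P i + p ≤ C' * P i := by
        rw [hC', add_mul]
        have := hpp.1.2
        omega
      have h3 := cyd hp1 hpM f hH (Gd Φ r (C * P i)) (fun u => by
        unfold Gd
        refine hΦ.bd _ fun j => ?_
        split_ifs
        · exact hr _
        · simp)
      rw [norm_sub_rev] at h2
      have e : ∀ a b c e : ℂ, a - e = (a - b) + (b - c) + (c - e) := by
        intro a b c e
        ring
      rw [e _ ((p : ℂ) * (∑ ω ∈ univ.filter (fun ω : ZMod M => p ∣ ω.val + 1),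
        Gd Φ r (C * P i) (win f (C * P i) ω)) / (M : ℂ))
        ((∑ ω : ZMod M, Gd Φ r (C * P i) (win f (C * P i) ω)) / (M : ℂ))]
      refine (norm_add₃_le).trans ?_
      have h4 : (4 * (C * (P i : ℝ)) + 3 * p + 4 * (x - M)) / x ≤
          (4 * (C * (P i : ℝ)) + 3 * p + 4 * Qt) / x :=
        div_le_div_of_nonneg_right (by linarith) hxpos.le
      have h5 : (4 * (C * (P i : ℝ)) + 3 * p + 4 * (x - M)) / x =
          (2 * ((C * P i : ℕ) : ℝ) + 3 * p + 2 * (x - M)) / x +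
            (2 * ((C * P i : ℕ) : ℝ) + 2 * (x - M)) / x := by
        rw [← add_div]
        push_cast
        congr 1
        ring
      have h6 := add_le_add (add_le_add h1 h3) h2
      refine h6.trans ?_
      rw [h5] at h4
      simp only [hmp]
      linarith
  · intro i hi hnb
    have hnb' : I i ≤ η' * (P i / Real.log (P i)) := by
      by_contra hcon
      exact hnb (Finset.mem_filter.2 ⟨Finset.mem_range.2 hi, not_le.1 hcon⟩)
    set L : ℝ := P i / Real.log (P i) with hL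
    have hLpos : 0 < L := div_pos (hPpos i) (hlog i)
    have hcard : ((pr (P i)).card : ℝ) ≤ 2 * L := card_pr (by have := hP i; omega)
    have hsum : ∑ p ∈ pr (P i), mp i p ≤ η' * L :=
      (mi_sum (win f (C' * P i)) (pr (P i)) (fun p hp => (mem_pr.1 hp).2) (hQM i hi)).trans hnb'
    have hsum0 : 0 ≤ ∑ p ∈ pr (P i), mp i p := Finset.sum_nonneg fun p _ => hmp0 i p
    have hcs := sq_sum_le_card_mul_sum_sq (s := pr (P i)) (f := fun p => √(mp i p))
    have e1 : ∑ p ∈ pr (P i), √(mp i p) ^ 2 = ∑ p ∈ pr (P i), mp i p :=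
      Finset.sum_congr rfl fun p _ => Real.sq_sqrt (hmp0 i p)
    rw [e1] at hcs
    have h2 : (∑ p ∈ pr (P i), √(mp i p)) ^ 2 ≤ (η / 5 * L) ^ 2 := by
      refine hcs.trans ?_
      calc ((pr (P i)).card : ℝ) * ∑ p ∈ pr (P i), mp i p ≤ 2 * L * (η' * L) :=
            mul_le_mul hcard hsum hsum0 (by positivity)
        _ = η ^ 2 / 32 * L ^ 2 := by rw [hη']; ring
        _ ≤ η ^ 2 / 25 * L ^ 2 := by
            refine mul_le_mul_of_nonneg_right ?_ (by positivity)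
            have : 0 ≤ η ^ 2 := by positivity
            linarith
        _ = (η / 5 * L) ^ 2 := by ring
    have h3 : ∑ p ∈ pr (P i), √(mp i p) ≤ η / 5 * L :=
      le_of_sq_le_sq h2 (by positivity)
    have hpt : ∀ p ∈ pr (P i), D i p ≤ 2 * √(mp i p) + η / 8 := by
      intro p hp
      have hp2 : (p : ℝ) ≤ 2 * P i := by exact_mod_cast (mem_pr.1 hp).1.2
      have h4 : (4 * (C * (P i : ℝ)) + 3 * p + 4 * Qt) / x ≤ Bd / x := by
        refine div_le_div_of_nonneg_right ?_ hxpos.le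
        have h5 : 4 * (C * (P i : ℝ)) + 6 * P i ≤
            ∑ i ∈ range n, (4 * (C * (P i : ℝ)) + 6 * P i) :=
          Finset.single_le_sum (f := fun i => 4 * (C * (P i : ℝ)) + 6 * P i)
            (fun j _ => by positivity) (Finset.mem_range.2 hi)
        rw [hBd]
        linarith
      refine (min_le_right _ _).trans ?_
      linarith
    refine (Finset.sum_le_sum hpt).trans ?_
    rw [Finset.sum_add_distrib, ← Finset.mul_sum, Finset.sum_const, nsmul_eq_mul]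
    have h6 : ((pr (P i)).card : ℝ) * (η / 8) ≤ 2 * L * (η / 8) :=
      mul_le_mul_of_nonneg_right hcard (by positivity)
    have h7 : 0 < η * L := by positivity
    linarith
  · intro i hi
    have hcard : ((pr (P i)).card : ℝ) ≤ 2 * (P i / Real.log (P i)) :=
      card_pr (by have := hP i; omega)
    calc ∑ p ∈ pr (P i), D i p ≤ ∑ _p ∈ pr (P i), (2 : ℝ) :=
          Finset.sum_le_sum fun p _ => min_le_left _ _
      _ = ((pr (P i)).card : ℝ) * 2 := by rw [Finset.sum_const, nsmul_eq_mul]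
      _ ≤ 4 * (P i / Real.log (P i)) := by linarith

end Pool.Agent.Work.MP_2d9442_nt.AS
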