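import Pool.Agent.Work.MP_2d9442_nt.AS.Main

/-!
# Top: the theorem for sequences given on the positive integers only
-/

set_option autoImplicit false

open Finset

namespace Pool.Agent.Work.MP_2d9442_nt.AS

/-- extension by zero is a `UM` function -/
theorem um_ext {z : ℕ → ℂ} (hz1 : ∀ n : ℕ, 1 ≤ n → ‖z n‖ = 1)
    (hz2 : ∀ m n : ℕ, 1 ≤ m → 1 ≤ n → z (m * n) = z m * z n) :
    UM (fun n => if n = 0 then 0 else z n) := by
  have z1 : z 1 = 1 := by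
    have h1 := hz2 1 1 le_rfl le_rfl
    have h2 := hz1 1 le_rfl
    have h3 : z 1 ≠ 0 := by
      intro h0; rw [h0] at h2; simp at h2
    have h4 : z 1 * z 1 = z 1 * 1 := by rw [mul_one]; simpa using h1.symm
    exact mul_left_cancel₀ h3 h4
  refine ⟨⟨by simp, by simp [z1], ?_, ?_⟩, ?_⟩
  · intro m n
    by_cases hm : m = 0
    · simp [hm]
    · by_cases hn : n = 0
      · simp [hn]
      · have hmn : m * n ≠ 0 := Nat.mul_ne_zero hm hn
        simp only [hm, hn, hmn, if_false]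
        exact hz2 m n (by omega) (by omega)
  · intro n
    by_cases hn : n = 0
    · simp [hn]
    · simp only [hn, if_false]
      exact (hz1 n (by omega)).le
  · intro n hn
    have hn0 : n ≠ 0 := by omega
    simp only [hn0, if_false]
    exact hz1 n hn

theorem AN_ext (z : ℕ → ℂ) (N : ℕ) : AN (fun n => if n = 0 then 0 else z n) N =
    (∑ n ∈ Finset.Icc 1 N, ‖∑ i ∈ Finset.Icc 1 n, z i‖ ^ 2) / (N : ℝ) := by
  unfold AN ps
  congr 1
  refine Finset.sum_congr rfl fun n _ => ?_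
  congr 2
  refine Finset.sum_congr rfl fun i hi => ?_
  have : i ≠ 0 := by
    have := (Finset.mem_Icc.1 hi).1
    omega
  simp [this]

open Classical in
theorem top :
    (∀ K ε : ℝ, 0 < ε → ∃ W₀ Y₀ : ℕ, ∀ W Y : ℕ, W₀ ≤ W → Y₀ ≤ Y → ∀ z : ℕ → ℂ,
      (∀ n : ℕ, 1 ≤ n → ‖z n‖ = 1) →
      (∀ m n : ℕ, 1 ≤ m → 1 ≤ n → z (m * n) = z m * z n) →
        ∑ N ∈ (Finset.Ioc Y (W * Y)).filter (fun N : ℕ =>
          (∑ n ∈ Finset.Icc 1 N, ‖∑ i ∈ Finset.Icc 1 n, z i‖ ^ 2) / (N : ℝ) ≤ K),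
            1 / (N : ℝ) ≤ ε * Real.log W) ∧
    (∃ ω : ℕ → ℝ, Filter.Tendsto ω Filter.atTop Filter.atTop ∧
      ∀ ε : ℝ, 0 < ε → ∃ X₀ : ℕ, ∀ X : ℕ, X₀ ≤ X → ∀ z : ℕ → ℂ,
        (∀ n : ℕ, 1 ≤ n → ‖z n‖ = 1) →
        (∀ m n : ℕ, 1 ≤ m → 1 ≤ n → z (m * n) = z m * z n) →
          ∑ N ∈ (Finset.Icc 1 X).filter (fun N : ℕ =>
            (∑ n ∈ Finset.Icc 1 N, ‖∑ i ∈ Finset.Icc 1 n, z i‖ ^ 2) / (N : ℝ) < ω N),
              1 / (N : ℝ) ≤ ε * Real.log X) := by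
  constructor
  · intro K ε hε
    obtain ⟨W0, Y0, -, -, h⟩ := main_log K hε
    refine ⟨W0, Y0, fun W Y hW hY z hz1 hz2 => ?_⟩
    have h1 := h W Y hW hY _ (um_ext hz1 hz2)
    simp only [AN_ext] at h1
    exact h1
  · obtain ⟨ω, hω, h⟩ := main_omega
    refine ⟨ω, hω, fun ε hε => ?_⟩
    obtain ⟨X0, hX⟩ := h ε hε
    refine ⟨X0, fun X hX0 z hz1 hz2 => ?_⟩
    have h1 := hX X hX0 _ (um_ext hz1 hz2)
    simp only [AN_ext] at h1
    exact h1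

end Pool.Agent.Work.MP_2d9442_nt.AS
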