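import Pool.Agent.Work.MP_2d9442_nt.AS.Per
import Pool.Agent.Work.MP_2d9442_nt.AS.Tr
import Pool.Agent.Work.MP_2d9442_nt.AS.ScC
import Pool.Agent.Work.MP_2d9442_nt.AS.Wnd

/-!
# Module UnA: energies do not depend on the numerator (core computation) (M-L)

`F = FD D₀`, `1 ≤ |F| ≤ D₀²`, `θ_s = s.2/s.1`.  For `p ∈ pr P` and `x ∈ S` (so `x ≥ Y`) put
`a(x,p,s) = en z (pθ_s) J (x/p) - en z θ_s (pJ) x`, `b(x,p,s) = en z θ_s J x - en z θ_s (pJ) x`.
* `b ≥ -pJ/x ≥ -η₁` (`en_mul`; `p ≤ 2P`), `a ≥ -(D x p + p/x) ≥ -(D x p + η₁)` (`tr`).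
* `en_wnd` (`L' = pJ ≤ L = J'`): `en z θ_s (pJ) x ≥ en z θ_s J' x - 3pJ/J' - J'/x ≥ en z θ_s J' x - 2η₁`.
  (`pJ ≤ J'` follows from `6PJ ≤ η₁J'` if `η₁ ≤ 3`; assume `η₁ ≤ 1`.)
  So `Av ∑_s b ≤ (Av EF(J) - Av EF(J')) + 2|F|η₁ ≤ 3|F|η₁`, and
  `Av ∑_s |b| ≤ Av ∑_s (b + 2η₁) ≤ 5|F|η₁`  (`|b| ≤ b + 2η₁` because `b ≥ -η₁`).
* `∑_s en z (pθ_s) J (x/p) = EF z D₀ J (x/p)` (`EF_perm`, `p > P ≥ D₀`), and `Av(EF(x/p)) ≤ Av(EF) + |F|κ` (`dil`
  applied to `EF/|F| ∈ [0,1]`).  So `Av ∑_s a ≤ Av ∑_s b + |F|κ ≤ 3|F|η₁ + |F|κ` and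
  `Av ∑_s |a| ≤ 5|F|η₁ + |F|κ + 2|F| Av(D · p)`.
* Hence for every `s ∈ F`: `Av|en z (pθ_s) J (x/p) - en z θ_s J x| ≤ 10|F|η₁ + |F|κ + 2|F| Av(D · p)`.
Take `s = (D, 1 % D)` and average over `p ∈ 𝒬_b = prc δ P D b` (`|𝒬_b| ≥ cA P/log P`, it is contained in `pr P`, and
`∑_p Av(D · p) ≤ ηG P/log P`): the average is `≤ 10|F|η₁ + |F|κ + 2|F|ηG/cA`.
For `p ∈ 𝒬_b`: `en z (pθ_s) = en z (b/D)` (`p·(1%D) ≡ b mod D`; `en_modEq`; for `D = 1` all are `en z 0`), and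
`|en z (b/D) J (x/P) - en z (b/D) J (x/p)| ≤ 4δ` (`en_scale`).  So
`Av|en z (b/D) J (x/P) - en z θ_s J x| ≤ η₃ := 4δ + 10|F|η₁ + |F|κ + 2|F|ηG/cA`.
Triangle inequality for `b, b'` at `x/P`, then `dil` with `g(N) = |en z (b/D) J N - en z (b'/D) J N| ∈ [0,1]`:
total `≤ 2η₃ + κ ≤ 8δ + D₀²(20η₁ + 3κ + 4ηG/cA)`.
-/

set_option autoImplicit false

open Finset

namespace Pool.Agent.Work.MP_2d9442_nt.AS

private theorem unA_mem {δ : ℝ} {P q b p : ℕ} (h : p ∈ prc δ P q b) :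
    p ∈ pr P ∧ (p : ℝ) ≤ (1 + δ) * P ∧ p % q = b % q := by
  classical
  unfold prc at h
  rw [Finset.mem_filter] at h
  exact h

private theorem unA_EF_nonneg (z : ℕ → ℂ) (D0 J N : ℕ) : 0 ≤ EF z D0 J N := by
  unfold EF
  exact Finset.sum_nonneg fun s _ => en_nonneg z _ J N

private theorem unA_EF_le {z : ℕ → ℂ} (hz : ∀ n, ‖z n‖ ≤ 1) (D0 J N : ℕ) :
    EF z D0 J N ≤ ((FD D0).card : ℝ) := by
  unfold EF
  calc ∑ s ∈ FD D0, en z ((s.2 : ℝ) / (s.1 : ℝ)) J N ≤ ∑ _s ∈ FD D0, (1 : ℝ) :=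
        Finset.sum_le_sum fun s _ => en_le_one hz _ J N
    _ = _ := by simp

/-- the core inequality at one prime `p` -/
private theorem unA_one {z : ℕ → ℂ} (hz : UM z) {S : Finset ℕ} {w : ℕ → ℝ} {Y Pm : ℕ} {κ : ℝ}
    (hκ : 0 ≤ κ)
    (hS : Scl S w Y Pm κ) {D0 J J' P : ℕ} (hD0 : 1 ≤ D0) (hJ : 1 ≤ J) (hP : 3 ≤ P) (hPD : D0 ≤ P)
    (hPm : 2 * P ≤ Pm) {η1 : ℝ}
    (hη1 : 0 < η1) (hη11 : η1 ≤ 1) {D : ℕ → ℕ → ℝ} (hDn : ∀ x p, 0 ≤ D x p)
    (hDi : ∀ x ∈ S, ∀ p ∈ pr P, Ind z x p (2 * J * P) (D x p))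
    (hst : Av S w (EF z D0 J) - Av S w (EF z D0 J') ≤ η1)
    (hJJ : 6 * (P : ℝ) * J ≤ η1 * J') (hY1 : (J' : ℝ) ≤ η1 * Y) {p : ℕ} (hp : p ∈ pr P)
    {s : ℕ × ℕ} (hs : s ∈ FD D0) :
    Av S w (fun x => |en z ((p : ℝ) * ((s.2 : ℝ) / (s.1 : ℝ))) J (x / p) -
      en z ((s.2 : ℝ) / (s.1 : ℝ)) J x|) ≤
      10 * ((FD D0).card : ℝ) * η1 + (FD D0).card * κ +
        2 * (FD D0).card * Av S w (fun x => D x p) := by
  have hp' := mem_pr.1 hp
  have hz1 := um_le hz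
  have hp1 : 1 ≤ p := by omega
  have hPr : (3 : ℝ) ≤ P := by exact_mod_cast hP
  have hJr : (1 : ℝ) ≤ J := by exact_mod_cast hJ
  have hpr : (0 : ℝ) < p := by exact_mod_cast hp1
  have hp2r : (p : ℝ) ≤ 2 * P := by exact_mod_cast hp'.1.2
  have hPJ : (0 : ℝ) < P * J := by positivity
  have hJ' : (0 : ℝ) < J' := by
    have : 0 < η1 * (J' : ℝ) := by nlinarith
    exact (mul_pos_iff_of_pos_left hη1).1 this
  have hJ'1 : (J' : ℝ) * η1 ≤ J' := by nlinarith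
  have hpJ : (p : ℝ) * J ≤ 2 * P * J := mul_le_mul_of_nonneg_right hp2r (by positivity)
  have hpJJ' : p * J ≤ J' := by
    have : (p : ℝ) * J ≤ J' := by nlinarith
    exact_mod_cast this
  -- the scales
  have hxs : ∀ x ∈ S, (J' : ℝ) ≤ η1 * x ∧ (0 : ℝ) < x ∧ 1 ≤ x ∧ p ≤ x := by
    intro x hx
    have h1 : (Y : ℝ) ≤ x := by exact_mod_cast hS.lo x hx
    have h2 : (J' : ℝ) ≤ η1 * x := hY1.trans (mul_le_mul_of_nonneg_left h1 hη1.le)
    have h3 : (0 : ℝ) < x := by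
      have : 0 < η1 * (x : ℝ) := by linarith
      exact (mul_pos_iff_of_pos_left hη1).1 this
    have h4 : 1 ≤ x := by exact_mod_cast h3
    have h5 : (p : ℝ) ≤ x := by
      have h6 : (p : ℝ) ≤ p * J := by nlinarith
      have h7 : (p : ℝ) * J ≤ J' := by exact_mod_cast hpJJ'
      have h8 : η1 * (x : ℝ) ≤ x := by nlinarith
      linarith
    exact ⟨h2, h3, h4, by exact_mod_cast h5⟩
  have hpJx : ∀ x ∈ S, (p : ℝ) * J / x ≤ η1 := by
    intro x hx
    obtain ⟨h2, h3, -, -⟩ := hxs x hx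
    rw [div_le_iff₀ h3]
    have h7 : (p : ℝ) * J ≤ J' := by exact_mod_cast hpJJ'
    linarith
  have hpx : ∀ x ∈ S, (p : ℝ) / x ≤ η1 := by
    intro x hx
    obtain ⟨h2, h3, -, -⟩ := hxs x hx
    refine le_trans ?_ (hpJx x hx)
    refine div_le_div_of_nonneg_right ?_ h3.le
    nlinarith
  have hJ'x : ∀ x ∈ S, (J' : ℝ) / x ≤ η1 := by
    intro x hx
    obtain ⟨h2, h3, -, -⟩ := hxs x hx
    rw [div_le_iff₀ h3]
    exact h2
  have h3pJ : 3 * ((p * J : ℕ) : ℝ) / J' ≤ η1 := by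
    rw [div_le_iff₀ hJ']
    push_cast
    nlinarith
  have h2H : p * J ≤ 2 * J * P := by
    have : p * J ≤ 2 * P * J := Nat.mul_le_mul_right J hp'.1.2
    nlinarith
  obtain ⟨n, hn⟩ : ∃ n : ℝ, n = ((FD D0).card : ℝ) := ⟨_, rfl⟩
  have hn1 : 1 ≤ n := by
    rw [hn]
    have : 0 < (FD D0).card := Finset.card_pos.2 ⟨_, mem_FD_one (le_refl 1) hD0⟩
    exact_mod_cast this
  obtain ⟨th, hth⟩ : ∃ th : ℕ × ℕ → ℝ, th = fun s => (s.2 : ℝ) / (s.1 : ℝ) := ⟨_, rfl⟩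
  obtain ⟨a, ha⟩ : ∃ a : ℕ → ℕ × ℕ → ℝ, a = fun x s =>
    en z ((p : ℝ) * th s) J (x / p) - en z (th s) (p * J) x := ⟨_, rfl⟩
  obtain ⟨b, hb⟩ : ∃ b : ℕ → ℕ × ℕ → ℝ, b = fun x s =>
    en z (th s) J x - en z (th s) (p * J) x := ⟨_, rfl⟩
  have hblow : ∀ x ∈ S, ∀ s, -η1 ≤ b x s := by
    intro x hx s
    have h1 := en_mul hz1 (p := p) (J := J) (N := x) hp1 hJ (hxs x hx).2.2.1 (th s)
    have h2 := hpJx x hx
    rw [hb]
    simp only
    linarith
  have halow : ∀ x ∈ S, ∀ s, -(D x p + η1) ≤ a x s := by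
    intro x hx s
    have h1 := tr hz hp1 hJ (hxs x hx).2.2.2 h2H (hDi x hx p hp) (th s)
    have h2 := hpx x hx
    rw [ha]
    simp only
    linarith
  have hwnd : ∀ x ∈ S, ∀ s, en z (th s) J' x ≤ en z (th s) (p * J) x + 2 * η1 := by
    intro x hx s
    have h1 := en_wnd hz1 (L' := p * J) (L := J') (N := x) (Nat.mul_pos hp1 hJ) hpJJ'
      (hxs x hx).2.2.1 (th s)
    have h2 := hJ'x x hx
    linarith
  have hEF : ∀ K x, EF z D0 K x = ∑ s ∈ FD D0, en z (th s) K x := by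
    intro K x
    rw [hth]
    rfl
  -- sum of `b`
  have hsumb : Av S w (fun x => ∑ s ∈ FD D0, b x s) ≤ 3 * n * η1 := by
    have h1 : Av S w (fun x => ∑ s ∈ FD D0, b x s) ≤
        Av S w (fun x => (EF z D0 J x - EF z D0 J' x) + 2 * n * η1) := by
      refine Av_mono hS.toWt fun x hx => ?_
      rw [hEF, hEF, ← Finset.sum_sub_distrib]
      have h2 : 2 * n * η1 = ∑ _s ∈ FD D0, 2 * η1 := by
        rw [Finset.sum_const, nsmul_eq_mul, hn]
        ring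
      rw [h2, ← Finset.sum_add_distrib]
      refine Finset.sum_le_sum fun s _ => ?_
      have := hwnd x hx s
      rw [hb]
      simp only
      linarith
    rw [Av_add, Av_sub] at h1
    have h3 := Av_const_le hS.toWt (c := 2 * n * η1) (by positivity)
    nlinarith
  have hsumbabs : Av S w (fun x => ∑ s ∈ FD D0, |b x s|) ≤ 5 * n * η1 := by
    have h1 : Av S w (fun x => ∑ s ∈ FD D0, |b x s|) ≤
        Av S w (fun x => ∑ s ∈ FD D0, b x s + 2 * n * η1) := by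
      refine Av_mono hS.toWt fun x hx => ?_
      have h2 : 2 * n * η1 = ∑ _s ∈ FD D0, 2 * η1 := by
        rw [Finset.sum_const, nsmul_eq_mul, hn]
        ring
      rw [h2, ← Finset.sum_add_distrib]
      refine Finset.sum_le_sum fun s _ => ?_
      have := hblow x hx s
      rw [abs_le]
      constructor <;> linarith
    rw [Av_add] at h1
    have h3 := Av_const_le hS.toWt (c := 2 * n * η1) (by positivity)
    linarith
  -- sum of `a`
  have hdil : Av S w (fun x => EF z D0 J (x / p)) ≤ Av S w (EF z D0 J) + n * κ := by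
    have hn0 : n ≠ 0 := by linarith
    have h1 := hS.dil p hp1 (by omega) (fun N => EF z D0 J N / n) (by
      intro N
      refine ⟨div_nonneg (unA_EF_nonneg z D0 J N) (by linarith), ?_⟩
      rw [div_le_one (by linarith), hn]
      exact unA_EF_le hz1 D0 J N)
    have h2 : ∀ f : ℕ → ℝ, Av S w (fun N => f N / n) = Av S w f / n := by
      intro f
      rw [div_eq_inv_mul, ← Av_mul]
      congr 1
      funext N
      rw [div_eq_inv_mul]
    rw [h2, h2, ← sub_div, abs_div, abs_of_pos (show 0 < n by linarith),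
      div_le_iff₀ (by linarith)] at h1
    have h3 := (abs_le.1 h1).2
    linarith
  have hsuma : Av S w (fun x => ∑ s ∈ FD D0, a x s) ≤ 3 * n * η1 + n * κ := by
    have h1 : Av S w (fun x => ∑ s ∈ FD D0, a x s) =
        Av S w (fun x => EF z D0 J (x / p)) - Av S w (EF z D0 J) +
          Av S w (fun x => ∑ s ∈ FD D0, b x s) := by
      rw [← Av_sub, ← Av_add]
      congr 1
      funext x
      have h2 := EF_perm z hp'.2 (lt_of_le_of_lt hPD hp'.1.1) J (x / p)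
      have h3 : ∑ s ∈ FD D0, en z ((p : ℝ) * th s) J (x / p) = EF z D0 J (x / p) := by
        rw [hth]
        exact h2
      rw [← h3, hEF, ha, hb]
      simp only
      rw [Finset.sum_sub_distrib, Finset.sum_sub_distrib]
      ring
    rw [h1]
    linarith
  have hsumaabs : Av S w (fun x => ∑ s ∈ FD D0, |a x s|) ≤
      5 * n * η1 + n * κ + 2 * n * Av S w (fun x => D x p) := by
    have h1 : Av S w (fun x => ∑ s ∈ FD D0, |a x s|) ≤
        Av S w (fun x => ∑ s ∈ FD D0, a x s + (2 * n * η1 + 2 * n * D x p)) := by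
      refine Av_mono hS.toWt fun x hx => ?_
      have h2 : 2 * n * η1 + 2 * n * D x p = ∑ _s ∈ FD D0, 2 * (D x p + η1) := by
        rw [Finset.sum_const, nsmul_eq_mul, hn]
        ring
      rw [h2, ← Finset.sum_add_distrib]
      refine Finset.sum_le_sum fun s _ => ?_
      have := halow x hx s
      have := hDn x p
      rw [abs_le]
      constructor <;> linarith
    rw [Av_add, Av_add, Av_mul (2 * n) (fun x => D x p)] at h1
    have h3 := Av_const_le hS.toWt (c := 2 * n * η1) (by positivity)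
    linarith
  rw [← hn]
  have hfin : Av S w (fun x => |en z ((p : ℝ) * ((s.2 : ℝ) / (s.1 : ℝ))) J (x / p) -
      en z ((s.2 : ℝ) / (s.1 : ℝ)) J x|) ≤
      Av S w (fun x => ∑ s ∈ FD D0, |a x s| + ∑ s ∈ FD D0, |b x s|) := by
    refine Av_mono hS.toWt fun x hx => ?_
    have h1 : |a x s| ≤ ∑ s ∈ FD D0, |a x s| :=
      Finset.single_le_sum (f := fun s => |a x s|) (fun _ _ => abs_nonneg _) hs
    have h2 : |b x s| ≤ ∑ s ∈ FD D0, |b x s| :=
      Finset.single_le_sum (f := fun s => |b x s|) (fun _ _ => abs_nonneg _) hs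
    refine le_trans ?_ (add_le_add h1 h2)
    have h3 : en z ((p : ℝ) * ((s.2 : ℝ) / (s.1 : ℝ))) J (x / p) -
        en z ((s.2 : ℝ) / (s.1 : ℝ)) J x = a x s - b x s := by
      rw [ha, hb, hth]
      simp only
      ring
    rw [h3]
    exact abs_sub _ _
  rw [Av_add] at hfin
  linarith

theorem unA {z : ℕ → ℂ} (hz : UM z) {S : Finset ℕ} {w : ℕ → ℝ} {Y Pm : ℕ} {κ : ℝ} (hκ : 0 ≤ κ)
    (hS : Scl S w Y Pm κ) {D0 J J' P : ℕ} (hD0 : 1 ≤ D0) (hJ : 1 ≤ J) (hP : 3 ≤ P) (hPD : D0 ≤ P)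
    (hPm : 2 * P ≤ Pm) {δ cA ηG η1 : ℝ} (hδ : 0 < δ) (hδ1 : δ ≤ 1) (hcA : 0 < cA) (hηG : 0 ≤ ηG)
    (hη1 : 0 < η1) (hη11 : η1 ≤ 1) {D : ℕ → ℕ → ℝ} (hDn : ∀ x p, 0 ≤ D x p)
    (hDi : ∀ x ∈ S, ∀ p ∈ pr P, Ind z x p (2 * J * P) (D x p))
    (hDs : Av S w (fun x => ∑ p ∈ pr P, D x p) ≤ ηG * (P / Real.log P))
    (hst : Av S w (EF z D0 J) - Av S w (EF z D0 J') ≤ η1)
    (hJJ : 6 * (P : ℝ) * J ≤ η1 * J') (hY1 : (J' : ℝ) ≤ η1 * Y) (hY2 : 3 * (P : ℝ) ≤ δ * Y)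
    (hc : ∀ q : ℕ, 1 ≤ q → q ≤ D0 → ∀ b : ℕ, b.Coprime q →
      cA * (P / Real.log P) ≤ ((prc δ P q b).card : ℝ)) :
    ∀ q : ℕ, 1 ≤ q → q ≤ D0 → ∀ b b' : ℕ, b.Coprime q → b'.Coprime q →
      Av S w (fun N => |en z ((b : ℝ) / q) J N - en z ((b' : ℝ) / q) J N|) ≤
        8 * δ + (D0 : ℝ) ^ 2 * (20 * η1 + 3 * κ + 4 * ηG / cA) := by
  intro q hq1 hqD
  have hz1 := um_le hz
  have hP1 : 1 ≤ P := by omega
  have hPr : (3 : ℝ) ≤ P := by exact_mod_cast hP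
  have hlogP : 0 < Real.log P := Real.log_pos (by linarith)
  obtain ⟨n, hn⟩ : ∃ n : ℝ, n = ((FD D0).card : ℝ) := ⟨_, rfl⟩
  have hn1 : 1 ≤ n := by
    rw [hn]
    have : 0 < (FD D0).card := Finset.card_pos.2 ⟨_, mem_FD_one (le_refl 1) hD0⟩
    exact_mod_cast this
  have hnD : n ≤ (D0 : ℝ) ^ 2 := by
    rw [hn]
    exact_mod_cast card_FD D0
  obtain ⟨t, ht⟩ : ∃ t : ℝ, t = ((1 % q : ℕ) : ℝ) / (q : ℝ) := ⟨_, rfl⟩
  have hq0 : (q : ℝ) ≠ 0 := by
    have : q ≠ 0 := by omega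
    exact_mod_cast this
  -- one residue class
  have hone : ∀ b : ℕ, b.Coprime q →
      Av S w (fun x => |en z ((b : ℝ) / q) J (x / P) - en z t J x|) ≤
        4 * δ + 10 * n * η1 + n * κ + 2 * n * (ηG / cA) := by
    intro b hb
    obtain ⟨c, hcdef⟩ : ∃ c : ℝ, c = ((prc δ P q b).card : ℝ) := ⟨_, rfl⟩
    have hcc := hc q hq1 hqD b hb
    rw [← hcdef] at hcc
    have hPl : 0 < (P : ℝ) / Real.log P := by positivity
    have hc0 : 0 < c := lt_of_lt_of_le (by positivity) hcc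
    have hev : ∀ p ∈ prc δ P q b, Av S w (fun x => |en z ((b : ℝ) / q) J (x / P) - en z t J x|) ≤
        4 * δ + 10 * n * η1 + n * κ + 2 * n * Av S w (fun x => D x p) := by
      intro p hp
      obtain ⟨hp1, hp2, hp3⟩ := unA_mem hp
      have hp4 := mem_pr.1 hp1
      have h1 := unA_one hz hκ hS hD0 hJ hP hPD hPm hη1 hη11 hDn hDi hst hJJ hY1 hp1
        (mem_FD_one hq1 hqD)
      simp only at h1
      rw [← ht, ← hn] at h1
      have h2 : ∀ N, en z ((p : ℝ) * t) J N = en z ((b : ℝ) / q) J N := by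
        intro N
        have h3 : (p : ℝ) * t = ((p * (1 % q) : ℕ) : ℝ) / q := by
          rw [ht]
          push_cast
          ring
        rw [h3]
        refine en_modEq z hq1 ?_ J N
        have h4 : p * (1 % q) ≡ p * 1 [MOD q] := Nat.ModEq.mul_left p (Nat.mod_modEq 1 q)
        rw [mul_one] at h4
        exact h4.trans hp3
      have h5 : Av S w (fun x => |en z ((b : ℝ) / q) J (x / P) - en z t J x|) ≤
          Av S w (fun x => 4 * δ + |en z ((p : ℝ) * t) J (x / p) - en z t J x|) := by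
        refine Av_mono hS.toWt fun x hx => ?_
        have hYx : (Y : ℝ) ≤ x := by exact_mod_cast hS.lo x hx
        have h6 : 3 * (P : ℝ) ≤ δ * x := hY2.trans (mul_le_mul_of_nonneg_left hYx hδ.le)
        have h7 := en_scale hz1 hδ hδ1 hP1 (p := p) (x := x) (by omega) hp2 h6 ((b : ℝ) / q) J
        rw [h2]
        refine (abs_sub_le _ (en z ((b : ℝ) / q) J (x / p)) _).trans ?_
        linarith
      rw [Av_add] at h5
      have h8 := Av_const_le hS.toWt (c := 4 * δ) (by positivity)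
      linarith
    have h9 := Finset.sum_le_sum hev
    rw [Finset.sum_const, nsmul_eq_mul, Finset.sum_add_distrib, Finset.sum_const, nsmul_eq_mul,
      ← hcdef, ← Finset.mul_sum] at h9
    have h10 : ∑ p ∈ prc δ P q b, Av S w (fun x => D x p) ≤ ηG / cA * c := by
      have h11 : ∑ p ∈ prc δ P q b, Av S w (fun x => D x p) ≤
          ∑ p ∈ pr P, Av S w (fun x => D x p) :=
        Finset.sum_le_sum_of_subset_of_nonneg (fun p hp => (unA_mem hp).1)
          fun p _ _ => Av_nonneg hS.toWt fun x _ => hDn x p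
      have h12 : ∑ p ∈ pr P, Av S w (fun x => D x p) = Av S w (fun x => ∑ p ∈ pr P, D x p) :=
        (Av_sum (pr P) (fun p x => D x p)).symm
      have h13 : ηG * (P / Real.log P) ≤ ηG / cA * c := by
        have := mul_le_mul_of_nonneg_left hcc (show 0 ≤ ηG / cA by positivity)
        refine le_trans (le_of_eq ?_) this
        field_simp
      linarith
    have h14 : c * Av S w (fun x => |en z ((b : ℝ) / q) J (x / P) - en z t J x|) ≤
        c * (4 * δ + 10 * n * η1 + n * κ + 2 * n * (ηG / cA)) := by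
      have := mul_le_mul_of_nonneg_left h10 (show 0 ≤ 2 * n by linarith)
      linarith
    exact le_of_mul_le_mul_left h14 hc0
  intro b b' hb hb'
  have h1 := hone b hb
  have h2 := hone b' hb'
  have h3 : Av S w (fun x => |en z ((b : ℝ) / q) J (x / P) - en z ((b' : ℝ) / q) J (x / P)|) ≤
      2 * (4 * δ + 10 * n * η1 + n * κ + 2 * n * (ηG / cA)) := by
    have h4 : Av S w (fun x => |en z ((b : ℝ) / q) J (x / P) - en z ((b' : ℝ) / q) J (x / P)|) ≤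
        Av S w (fun x => |en z ((b : ℝ) / q) J (x / P) - en z t J x| +
          |en z ((b' : ℝ) / q) J (x / P) - en z t J x|) := by
      refine Av_mono hS.toWt fun x _ => ?_
      refine (abs_sub_le _ (en z t J x) _).trans ?_
      rw [abs_sub_comm (en z t J x)]
    rw [Av_add] at h4
    linarith
  have h5 := hS.dil P hP1 (by omega)
    (fun N => |en z ((b : ℝ) / q) J N - en z ((b' : ℝ) / q) J N|) (by
      intro N
      refine ⟨abs_nonneg _, ?_⟩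
      have a1 := en_nonneg z ((b : ℝ) / q) J N
      have a2 := en_nonneg z ((b' : ℝ) / q) J N
      have a3 := en_le_one hz1 ((b : ℝ) / q) J N
      have a4 := en_le_one hz1 ((b' : ℝ) / q) J N
      rw [abs_le]
      constructor <;> linarith)
  have h6 := (abs_le.1 h5).1
  have h7 : Av S w (fun N => |en z ((b : ℝ) / q) J N - en z ((b' : ℝ) / q) J N|) ≤
      2 * (4 * δ + 10 * n * η1 + n * κ + 2 * n * (ηG / cA)) + κ := by
    linarith
  refine h7.trans ?_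
  have h8 : 0 ≤ ηG / cA := by positivity
  have h9 : n * (20 * η1 + 3 * κ + 4 * (ηG / cA)) ≤
      (D0 : ℝ) ^ 2 * (20 * η1 + 3 * κ + 4 * (ηG / cA)) :=
    mul_le_mul_of_nonneg_right hnD (by positivity)
  have h10 : κ ≤ n * κ := by nlinarith
  have h11 : 4 * ηG / cA = 4 * (ηG / cA) := by ring
  rw [h11]
  linarith

end Pool.Agent.Work.MP_2d9442_nt.AS
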